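import Mathlib

/-!
# Label calculus: perfect matchings of a set of labels with integer gains
-/

namespace Pool.Agent.H65.Perc

/-- A perfect matching `p` of the labels, with integer gains `g` (displacement in the cover). -/
@[ext] structure St (Λ : Type*) where
  p : Λ → Λ
  g : Λ → ℤ
  inv : ∀ u, p (p u) = u
  ne : ∀ u, p u ≠ u
  gs : ∀ u, g (p u) = - g u

namespace St

variable {Λ : Type*} [DecidableEq Λ]

/-- exchange the roles of the labels `u` and `v` -/
def swap (u v : Λ) (s : St Λ) : St Λ where
  p w := Equiv.swap u v (s.p (Equiv.swap u v w))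
  g w := s.g (Equiv.swap u v w)
  inv w := by simp [s.inv]
  ne w h := by
    have := congrArg (Equiv.swap u v) h
    simp at this
    exact s.ne _ this
  gs w := by simp [s.gs]

/-- join the partners of `u` and `v` and pair `u` with `v` -/
def join (u v : Λ) (s : St Λ) : St Λ :=
  if h : u = v then s else
  { p := fun w => if w = u then v else if w = v then u else if w = s.p u then s.p v
      else if w = s.p v then s.p u else s.p w
    g := fun w => if w = u ∨ w = v then 0 else if w = s.p u then s.g v - s.g u
      else if w = s.p v then s.g u - s.g v else s.g w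
    inv := by
      intro w
      have := s.inv; have := s.ne
      grind
    ne := by
      intro w
      have := s.inv; have := s.ne
      grind
    gs := by
      intro w
      have := s.inv; have := s.ne; have := s.gs
      grind }

/-- add `k` to the gain of `u` -/
def twist (u : Λ) (k : ℤ) (s : St Λ) : St Λ where
  p := s.p
  g w := if w = u then s.g w + k else if w = s.p u then s.g w - k else s.g w
  inv := s.inv
  ne := s.ne
  gs w := by
    have := s.inv; have := s.ne; have := s.gs
    grind

/-- relabelling -/
def perm (π : Equiv.Perm Λ) (s : St Λ) : St Λ where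
  p w := π.symm (s.p (π w))
  g w := s.g (π w)
  inv w := by simp [s.inv]
  ne w h := by
    have := congrArg π h
    simp at this
    exact s.ne _ this
  gs w := by simp [s.gs]

theorem join_p {u v : Λ} (h : u ≠ v) (s : St Λ) (w : Λ) : (join u v s).p w =
    if w = u then v else if w = v then u else if w = s.p u then s.p v
      else if w = s.p v then s.p u else s.p w := by
  simp [join, h]

theorem join_g {u v : Λ} (h : u ≠ v) (s : St Λ) (w : Λ) : (join u v s).g w =
    if w = u ∨ w = v then 0 else if w = s.p u then s.g v - s.g u
      else if w = s.p v then s.g u - s.g v else s.g w := by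
  simp [join, h]

theorem swap_p (u v : Λ) (s : St Λ) (w : Λ) : (swap u v s).p w =
    Equiv.swap u v (s.p (Equiv.swap u v w)) := rfl
theorem swap_g (u v : Λ) (s : St Λ) (w : Λ) : (swap u v s).g w = s.g (Equiv.swap u v w) := rfl
theorem twist_p (u : Λ) (k : ℤ) (s : St Λ) (w : Λ) : (twist u k s).p w = s.p w := rfl
theorem twist_g (u : Λ) (k : ℤ) (s : St Λ) (w : Λ) : (twist u k s).g w =
    if w = u then s.g w + k else if w = s.p u then s.g w - k else s.g w := rfl
omit [DecidableEq Λ] in
theorem perm_p (π : Equiv.Perm Λ) (s : St Λ) (w : Λ) : (perm π s).p w = π.symm (s.p (π w)) := rfl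
omit [DecidableEq Λ] in
theorem perm_g (π : Equiv.Perm Λ) (s : St Λ) (w : Λ) : (perm π s).g w = s.g (π w) := rfl

theorem swap_comm (u v : Λ) (s : St Λ) : swap u v s = swap v u s := by
  ext z <;> simp [swap_p, swap_g, Equiv.swap_comm u v]

theorem swap_swap (u v : Λ) (s : St Λ) : swap u v (swap u v s) = s := by
  ext z <;> simp [swap_p, swap_g]

theorem join_comm (u v : Λ) (s : St Λ) : join u v s = join v u s := by
  have := s.inv; have := s.ne; have := s.gs
  by_cases h : u = v
  · subst h; rfl
  have h' := Ne.symm h
  ext z
  · rw [join_p h, join_p h']; grind (splits := 40)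
  · rw [join_g h, join_g h']; grind (splits := 40)

/-- relation 3 -/
theorem swap_join {u v : Λ} (h : u ≠ v) (s : St Λ) : swap u v (join u v s) = join u v s := by
  have := s.inv; have := s.ne; have := s.gs
  ext z
  · simp only [swap_p, join_p h, Equiv.swap_apply_def]; grind (splits := 40)
  · simp only [swap_g, join_g h, Equiv.swap_apply_def]; grind (splits := 40)

theorem join_swap {u v : Λ} (h : u ≠ v) (s : St Λ) : join u v (swap u v s) = join u v s := by
  have := s.inv; have := s.ne; have := s.gs
  ext z
  · simp only [swap_p, join_p h, Equiv.swap_apply_def]; grind (splits := 40)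
  · simp only [swap_g, swap_p, join_g h, Equiv.swap_apply_def]; grind (splits := 40)

/-- relation 4 -/
theorem join_join_self {u v : Λ} (h : u ≠ v) (s : St Λ) : join u v (join u v s) = join u v s := by
  have := s.inv; have := s.ne; have := s.gs
  ext z
  · simp only [join_p h]; grind (splits := 40)
  · simp only [join_p h, join_g h]; grind (splits := 40)

/-- relation 5 -/
theorem join_join {u v w : Λ} (huv : u ≠ v) (huw : u ≠ w) (hvw : v ≠ w) (s : St Λ) :
    join u v (join v w s) = join u v (swap u w s) := by
  have := s.inv; have := s.ne; have := s.gs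
  ext z
  · simp only [join_p huv, join_p hvw, swap_p, Equiv.swap_apply_def]
    grind (splits := 40)
  · simp only [join_p hvw, join_g huv, join_g hvw, swap_p, swap_g, Equiv.swap_apply_def]
    grind (splits := 40)

/-- mirror image of relation 5 -/
theorem swap_join' {u v w : Λ} (huv : u ≠ v) (huw : u ≠ w) (hvw : v ≠ w) (s : St Λ) :
    swap u w (join u v s) = join v w (join u v s) := by
  have := s.inv; have := s.ne; have := s.gs
  ext z
  · simp only [join_p huv, join_p hvw, swap_p, Equiv.swap_apply_def]
    grind (splits := 40)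
  · simp only [join_p huv, join_g huv, join_g hvw, swap_g, Equiv.swap_apply_def]
    grind (splits := 40)

theorem join_join_disj {u v w z : Λ} (huv : u ≠ v) (huw : u ≠ w) (huz : u ≠ z) (hvw : v ≠ w)
    (hvz : v ≠ z) (hwz : w ≠ z) (s : St Λ) :
    join u v (join w z s) = join w z (join u v s) := by
  have := s.inv; have := s.ne; have := s.gs
  ext t
  · simp only [join_p huv, join_p hwz]
    grind (splits := 40)
  · simp only [join_p huv, join_p hwz, join_g huv, join_g hwz]
    grind (splits := 40)

/-! ### twists and relabellings -/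

theorem twist_zero (u : Λ) (s : St Λ) : twist u 0 s = s := by
  ext z
  · rfl
  · simp only [twist_g]; grind

theorem twist_twist (u : Λ) (k l : ℤ) (s : St Λ) :
    twist u k (twist u l s) = twist u (k + l) s := by
  have := s.inv; have := s.ne; have := s.gs
  ext z
  · rfl
  · simp only [twist_g, twist_p]; grind (splits := 40)

theorem twist_comm (u v : Λ) (k l : ℤ) (s : St Λ) :
    twist u k (twist v l s) = twist v l (twist u k s) := by
  have := s.inv; have := s.ne; have := s.gs
  ext z
  · rfl
  · simp only [twist_g, twist_p]; grind (splits := 40)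

theorem join_twist_disj {u v w : Λ} (huv : u ≠ v) (huw : u ≠ w) (hvw : v ≠ w) (k : ℤ) (s : St Λ) :
    join u v (twist w k s) = twist w k (join u v s) := by
  have := s.inv; have := s.ne; have := s.gs
  ext z
  · simp only [join_p huv, twist_p]
  · simp only [join_g huv, twist_g, twist_p, join_p huv]; grind (splits := 40)

theorem join_twist {u v : Λ} (huv : u ≠ v) (k : ℤ) (s : St Λ) :
    join u v (twist u k s) = join u v (twist v (-k) s) := by
  have := s.inv; have := s.ne; have := s.gs
  ext z
  · simp only [join_p huv, twist_p]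
  · simp only [join_g huv, twist_g, twist_p]; grind (splits := 40)

theorem twist_join {u v : Λ} (huv : u ≠ v) (k : ℤ) (s : St Λ) :
    twist u k (join u v s) = twist v (-k) (join u v s) := by
  have := s.inv; have := s.ne; have := s.gs
  ext z
  · simp only [join_p huv, twist_p]
  · simp only [join_g huv, twist_g, join_p huv]; grind (splits := 40)

theorem perm_join (π : Equiv.Perm Λ) {u v : Λ} (huv : u ≠ v) (s : St Λ) :
    perm π (join u v s) = join (π.symm u) (π.symm v) (perm π s) := by
  have huv' : π.symm u ≠ π.symm v := fun h => huv (π.symm.injective h)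
  ext z
  · simp only [perm_p, join_p huv, join_p huv', Equiv.apply_symm_apply, Equiv.eq_symm_apply]
    split_ifs <;> simp
  · simp only [perm_g, perm_p, join_g huv, join_g huv', Equiv.apply_symm_apply,
      Equiv.eq_symm_apply]

theorem perm_twist (π : Equiv.Perm Λ) (u : Λ) (k : ℤ) (s : St Λ) :
    perm π (twist u k s) = twist (π.symm u) k (perm π s) := by
  ext z
  · rfl
  · simp only [perm_g, perm_p, twist_g, Equiv.apply_symm_apply, Equiv.eq_symm_apply]

theorem swap_eq_perm (u v : Λ) (s : St Λ) : swap u v s = perm (Equiv.swap u v) s := by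
  ext z <;> simp [swap_p, swap_g, perm_p, perm_g]

omit [DecidableEq Λ] in
theorem perm_perm (π ρ : Equiv.Perm Λ) (s : St Λ) : perm π (perm ρ s) = perm (ρ * π) s := by
  ext z <;> simp [perm_p, perm_g, Equiv.Perm.mul_def]

/-! ### loop weights -/

/-- the weight `w` of a loop closed by joining `u` and `v` if its gain is nonzero -/
def wt (w : ℝ) (u v : Λ) (s : St Λ) : ℝ := if s.p u = v ∧ s.g u ≠ 0 then w else 1

theorem wt_comm (w : ℝ) (u v : Λ) (s : St Λ) : wt w u v s = wt w v u s := by
  have := s.inv; have := s.ne; have := s.gs
  unfold wt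
  congr 1
  grind

theorem wt_join_self (w : ℝ) {u v : Λ} (h : u ≠ v) (s : St Λ) : wt w u v (join u v s) = 1 := by
  unfold wt
  rw [join_p h, join_g h]
  simp

theorem wt_swap_self (w : ℝ) {u v : Λ} (h : u ≠ v) (s : St Λ) :
    wt w u v (swap u v s) = wt w u v s := by
  have := s.inv; have := s.ne; have := s.gs
  unfold wt
  simp only [swap_p, swap_g, Equiv.swap_apply_def]
  grind

theorem wt_join_join (t : ℝ) {u v w : Λ} (huv : u ≠ v) (huw : u ≠ w) (hvw : v ≠ w) (s : St Λ) :
    wt t v w s * wt t u v (join v w s) = wt t u v (swap u w s) := by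
  have := s.inv; have := s.ne; have := s.gs
  unfold wt
  simp only [join_p hvw, join_g hvw, swap_p, swap_g, Equiv.swap_apply_def]
  grind (splits := 40)

theorem wt_join' (t : ℝ) {u v w : Λ} (huv : u ≠ v) (huw : u ≠ w) (s : St Λ) :
    wt t v w (join u v s) = 1 := by
  unfold wt
  simp only [join_p huv]
  grind

theorem wt_disj (t : ℝ) {u v w z : Λ} (huv : u ≠ v) (huw : u ≠ w) (huz : u ≠ z) (hvw : v ≠ w)
    (hvz : v ≠ z) (hwz : w ≠ z) (s : St Λ) :
    wt t w z s * wt t u v (join w z s) = wt t u v s * wt t w z (join u v s) := by
  have := s.inv; have := s.ne; have := s.gs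
  unfold wt
  simp only [join_p huv, join_g huv, join_p hwz, join_g hwz]
  grind (splits := 40)

theorem wt_perm (t : ℝ) (π : Equiv.Perm Λ) (u v : Λ) (s : St Λ) :
    wt t u v (perm π s) = wt t (π u) (π v) s := by
  unfold wt
  simp only [perm_p, perm_g, Equiv.symm_apply_eq]

theorem wt_twist_disj (t : ℝ) {u v w : Λ} (huw : u ≠ w) (hvw : v ≠ w) (k : ℤ) (s : St Λ) :
    wt t u v (twist w k s) = wt t u v s := by
  have := s.inv; have := s.ne; have := s.gs
  unfold wt
  simp only [twist_p, twist_g]
  grind

theorem wt_twist (t : ℝ) {u v : Λ} (huv : u ≠ v) (k : ℤ) (s : St Λ) :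
    wt t u v (twist u k s) = wt t u v (twist v (-k) s) := by
  have := s.inv; have := s.ne; have := s.gs
  unfold wt
  simp only [twist_p, twist_g]
  grind

end St
end Pool.Agent.H65.Perc
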