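import Mathlib
import Pool.Agent.H65.Perc.Label

/-!
# Operators on functions of states, Brauer relations, Yang–Baxter equation

Products are in time order: `A * B` first lets `A` act on the state, then `B`.
-/

namespace Pool.Agent.H65.Perc

open St

variable {Λ : Type*} [DecidableEq Λ]

abbrev Op (Λ : Type*) := Module.End ℝ (St Λ → ℝ)

/-- join operator with weight `t` for loops of nonzero gain -/
def opE (t : ℝ) (u v : Λ) : Op Λ where
  toFun f s := wt t u v s * f (join u v s)
  map_add' f g := by ext s; simp [mul_add]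
  map_smul' c f := by ext s; simp; ring

def opM (π : Equiv.Perm Λ) : Op Λ where
  toFun f s := f (perm π s)
  map_add' _ _ := rfl
  map_smul' _ _ := rfl

def opP (u v : Λ) : Op Λ where
  toFun f s := f (swap u v s)
  map_add' _ _ := rfl
  map_smul' _ _ := rfl

def opG (u : Λ) (k : ℤ) : Op Λ where
  toFun f s := f (twist u k s)
  map_add' _ _ := rfl
  map_smul' _ _ := rfl

theorem opE_apply (t : ℝ) (u v : Λ) (f : St Λ → ℝ) (s : St Λ) :
    opE t u v f s = wt t u v s * f (join u v s) := rfl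
theorem opP_apply (u v : Λ) (f : St Λ → ℝ) (s : St Λ) : opP u v f s = f (swap u v s) := rfl
theorem opG_apply (u : Λ) (k : ℤ) (f : St Λ → ℝ) (s : St Λ) :
    opG u k f s = f (twist u k s) := rfl
omit [DecidableEq Λ] in
theorem opM_apply (π : Equiv.Perm Λ) (f : St Λ → ℝ) (s : St Λ) :
    opM π f s = f (perm π s) := rfl

theorem opE_comm (t : ℝ) (u v : Λ) : opE t u v = opE t v u := by
  ext f s; simp only [opE_apply]; rw [join_comm, wt_comm]

theorem opP_comm (u v : Λ) : (opP u v : Op Λ) = opP v u := by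
  ext f s; simp only [opP_apply]; rw [swap_comm]

theorem opP_sq (u v : Λ) : (opP u v : Op Λ) * opP u v = 1 := by
  ext f s; simp only [Module.End.mul_apply, opP_apply, swap_swap]; rfl

theorem opE_sq (t : ℝ) {u v : Λ} (h : u ≠ v) : opE t u v * opE t u v = opE t u v := by
  ext f s
  simp only [Module.End.mul_apply, opE_apply, join_join_self h, wt_join_self t h, one_mul]

theorem opP_opE_self (t : ℝ) {u v : Λ} (h : u ≠ v) : opP u v * opE t u v = opE t u v := by
  ext f s
  simp only [Module.End.mul_apply, opE_apply, opP_apply, join_swap h, wt_swap_self t h]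

theorem opE_opP_self (t : ℝ) {u v : Λ} (h : u ≠ v) : opE t u v * opP u v = opE t u v := by
  ext f s
  simp only [Module.End.mul_apply, opE_apply, opP_apply, swap_join h]

/-- `E_{vw} E_{uv} = P_{uw} E_{uv}` -/
theorem opE_opE (t : ℝ) {u v w : Λ} (huv : u ≠ v) (huw : u ≠ w) (hvw : v ≠ w) :
    opE t v w * opE t u v = opP u w * opE t u v := by
  ext f s
  simp only [Module.End.mul_apply, opE_apply, opP_apply, join_join huv huw hvw,
    ← wt_join_join t huv huw hvw]
  ring

/-- `E_{uv} P_{uw} = E_{uv} E_{vw}` -/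
theorem opE_opP (t : ℝ) {u v w : Λ} (huv : u ≠ v) (huw : u ≠ w) (hvw : v ≠ w) :
    opE t u v * opP u w = opE t u v * opE t v w := by
  ext f s
  simp only [Module.End.mul_apply, opE_apply, opP_apply, swap_join' huv huw hvw,
    wt_join' t huv huw, one_mul]

theorem opE_opE_disj (t : ℝ) {u v w z : Λ} (huv : u ≠ v) (huw : u ≠ w) (huz : u ≠ z)
    (hvw : v ≠ w) (hvz : v ≠ z) (hwz : w ≠ z) :
    opE t u v * opE t w z = opE t w z * opE t u v := by
  ext f s
  simp only [Module.End.mul_apply, opE_apply]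
  rw [← mul_assoc, ← mul_assoc, wt_disj t huv huw huz hvw hvz hwz,
    join_join_disj huv huw huz hvw hvz hwz]

theorem opM_opE (t : ℝ) (π : Equiv.Perm Λ) {u v : Λ} (huv : u ≠ v) :
    opM π * opE t u v = opE t (π u) (π v) * opM π := by
  have huv' : π u ≠ π v := fun h => huv (π.injective h)
  ext f s
  simp only [Module.End.mul_apply, opE_apply, opM_apply, wt_perm, perm_join π huv',
    Equiv.symm_apply_apply]

omit [DecidableEq Λ] in
theorem opM_opM (π ρ : Equiv.Perm Λ) : (opM π : Op Λ) * opM ρ = opM (π * ρ) := by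
  ext f s
  simp only [Module.End.mul_apply, opM_apply, perm_perm]

theorem opP_eq_opM (u v : Λ) : (opP u v : Op Λ) = opM (Equiv.swap u v) := by
  ext f s
  simp only [opP_apply, opM_apply, swap_eq_perm]

omit [DecidableEq Λ] in
theorem opM_one : (opM 1 : Op Λ) = 1 := by
  ext f s
  simp only [opM_apply]
  rfl

theorem opM_opG (π : Equiv.Perm Λ) (u : Λ) (k : ℤ) :
    (opM π : Op Λ) * opG u k = opG (π u) k * opM π := by
  ext f s
  simp only [Module.End.mul_apply, opG_apply, opM_apply, perm_twist, Equiv.symm_apply_apply]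

theorem opM_opP (π : Equiv.Perm Λ) (u v : Λ) :
    (opM π : Op Λ) * opP u v = opP (π u) (π v) * opM π := by
  rw [opP_eq_opM, opP_eq_opM, opM_opM, opM_opM]
  congr 1
  ext w
  simp [Equiv.Perm.mul_apply, Equiv.swap_apply_def]
  split_ifs <;> simp_all

theorem opG_opG_add (u : Λ) (k l : ℤ) : (opG u k : Op Λ) * opG u l = opG u (k + l) := by
  ext f s
  simp only [Module.End.mul_apply, opG_apply, twist_twist, add_comm]

theorem opG_zero (u : Λ) : (opG u 0 : Op Λ) = 1 := by
  ext f s
  simp only [opG_apply, twist_zero]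
  rfl

theorem opG_opG_comm (u v : Λ) (k l : ℤ) : (opG u k : Op Λ) * opG v l = opG v l * opG u k := by
  ext f s
  simp only [Module.End.mul_apply, opG_apply, twist_comm]

theorem opE_opG_disj (t : ℝ) {u v w : Λ} (huv : u ≠ v) (huw : u ≠ w) (hvw : v ≠ w) (k : ℤ) :
    opE t u v * opG w k = opG w k * opE t u v := by
  ext f s
  simp only [Module.End.mul_apply, opE_apply, opG_apply, wt_twist_disj t huw hvw,
    join_twist_disj huv huw hvw]

theorem opG_opE (t : ℝ) {u v : Λ} (huv : u ≠ v) (k : ℤ) :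
    opG u k * opE t u v = opG v (-k) * opE t u v := by
  ext f s
  simp only [Module.End.mul_apply, opE_apply, opG_apply, join_twist huv, wt_twist t huv]

theorem opE_opG (t : ℝ) {u v : Λ} (huv : u ≠ v) (k : ℤ) :
    opE t u v * opG u k = opE t u v * opG v (-k) := by
  ext f s
  simp only [Module.End.mul_apply, opE_apply, opG_apply, twist_join huv]

theorem opP_opG (u v w : Λ) (k : ℤ) :
    (opP u v : Op Λ) * opG w k = opG (Equiv.swap u v w) k * opP u v := by
  rw [opP_eq_opM, opM_opG]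

theorem opP_opE (t : ℝ) (a b : Λ) {u v : Λ} (huv : u ≠ v) :
    opP a b * opE t u v = opE t (Equiv.swap a b u) (Equiv.swap a b v) * opP a b := by
  rw [opP_eq_opM, opM_opE t _ huv]

theorem opP_opP_disj {u v w z : Λ} (huw : u ≠ w) (huz : u ≠ z) (hvw : v ≠ w) (hvz : v ≠ z) :
    (opP u v : Op Λ) * opP w z = opP w z * opP u v := by
  rw [opP_eq_opM u v, opM_opP]
  rw [Equiv.swap_apply_of_ne_of_ne huw.symm hvw.symm, Equiv.swap_apply_of_ne_of_ne huz.symm hvz.symm]

theorem opP_opE_disj (t : ℝ) {u v w z : Λ} (huw : u ≠ w) (huz : u ≠ z) (hvw : v ≠ w)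
    (hvz : v ≠ z) (hwz : w ≠ z) :
    opP u v * opE t w z = opE t w z * opP u v := by
  rw [opP_opE t u v hwz]
  rw [Equiv.swap_apply_of_ne_of_ne huw.symm hvw.symm, Equiv.swap_apply_of_ne_of_ne huz.symm hvz.symm]

/-- the crossing operator -/
noncomputable def opR (t a : ℝ) (u y : Λ) : Op Λ := a • opP u y + (1 - a) • opE t u y

theorem opR_opR_disj (t a a' : ℝ) {u v w z : Λ} (huv : u ≠ v) (huw : u ≠ w) (huz : u ≠ z)
    (hvw : v ≠ w) (hvz : v ≠ z) (hwz : w ≠ z) :
    opR t a u v * opR t a' w z = opR t a' w z * opR t a u v := by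
  unfold opR
  simp only [add_mul, mul_add, smul_mul_assoc, mul_smul_comm,
    opP_opP_disj huw huz hvw hvz, opP_opE_disj t huw huz hvw hvz hwz,
    ← opP_opE_disj t huw.symm hvw.symm huz.symm hvz.symm huv,
    opE_opE_disj t huv huw huz hvw hvz hwz]
  module

theorem opR_opE_disj (t a : ℝ) {u v w z : Λ} (huv : u ≠ v) (huw : u ≠ w) (huz : u ≠ z)
    (hvw : v ≠ w) (hvz : v ≠ z) (hwz : w ≠ z) :
    opR t a u v * opE t w z = opE t w z * opR t a u v := by
  unfold opR
  simp only [add_mul, mul_add, smul_mul_assoc, mul_smul_comm,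
    opP_opE_disj t huw huz hvw hvz hwz,
    opE_opE_disj t huv huw huz hvw hvz hwz]

theorem opR_opP_disj (t a : ℝ) {u v w z : Λ} (huv : u ≠ v) (huw : u ≠ w) (huz : u ≠ z)
    (hvw : v ≠ w) (hvz : v ≠ z) :
    opR t a u v * opP w z = opP w z * opR t a u v := by
  unfold opR
  simp only [add_mul, mul_add, smul_mul_assoc, mul_smul_comm,
    opP_opP_disj huw huz hvw hvz,
    ← opP_opE_disj t huw.symm hvw.symm huz.symm hvz.symm huv]

theorem opR_opG_disj (t a : ℝ) {u v w : Λ} (huv : u ≠ v) (huw : u ≠ w) (hvw : v ≠ w) (k : ℤ) :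
    opR t a u v * opG w k = opG w k * opR t a u v := by
  unfold opR
  simp only [add_mul, mul_add, smul_mul_assoc, mul_smul_comm, opE_opG_disj t huv huw hvw,
    opP_opG, Equiv.swap_apply_of_ne_of_ne huw.symm hvw.symm]

section YBE

variable {A : Type*} [Ring A] [Algebra ℝ A]

/-- the algebraic core of the Yang–Baxter equation -/
theorem ybe_abstract {E1 E2 E3 P1 P2 : A} {a a' κ : ℝ}
    (q1 : P1 * E2 = E3 * E2) (q2 : E1 * P2 = E1 * E3)
    (w1 : E3 * P1 * P2 = E3 * E2) (w2 : E3 * P1 * E2 = E3 * E2) (w3 : E3 * E1 * P2 = E3)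
    (w4 : E3 * E1 * E2 = E3 * E2) (w5 : P1 * P2 * E3 = E1 * E3) (w6 : P1 * E2 * E3 = E3)
    (w7 : E1 * P2 * E3 = E1 * E3) (w8 : E1 * E2 * E3 = E1 * E3)
    (hκ : κ * (1 - a' * (1 - a)) = a' * (1 - a) - a * (1 - a')) :
    (1 + κ • E3) * ((a • P1 + (1 - a) • E1) * (a' • P2 + (1 - a') • E2))
      = ((a' • P1 + (1 - a') • E1) * (a • P2 + (1 - a) • E2)) * (1 + κ • E3) := by
  simp only [add_mul, mul_add, smul_mul_assoc, mul_smul_comm, one_mul, mul_one, smul_add,
    smul_smul, ← mul_assoc, w1, w2, w3, w4, w5, w6, w7, w8]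
  rw [q1, q2]
  match_scalars
  all_goals first | ring1 | linear_combination hκ | linear_combination -hκ

end YBE

end Pool.Agent.H65.Perc
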