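import Mathlib
import Pool.Agent.H65.Perc.Ops

/-!
# Commutation of the row operators
-/

namespace Pool.Agent.H65.Perc

open St

variable {Λ : Type*} [DecidableEq Λ]

/-- the concrete Yang–Baxter equation -/
theorem ybe (t : ℝ) {a a' κ : ℝ} {u y y' : Λ} (huy : u ≠ y) (huy' : u ≠ y') (hyy' : y ≠ y')
    (hκ : κ * (1 - a' * (1 - a)) = a' * (1 - a) - a * (1 - a')) :
    (1 + κ • opE t y y') * (opR t a u y * opR t a' u y')
      = (opR t a' u y * opR t a u y') * (1 + κ • opE t y y') := by
  have EE := fun {u v w : Λ} (huv : u ≠ v) (huw : u ≠ w) (hvw : v ≠ w) => opE_opE t huv huw hvw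
  have EP := fun {u v w : Λ} (huv : u ≠ v) (huw : u ≠ w) (hvw : v ≠ w) => opE_opP t huv huw hvw
  -- names: E1 = E u y, E2 = E u y', E3 = E y y', P1 = P u y, P2 = P u y'
  have q1 : opP u y * opE t u y' = opE t y y' * opE t u y' := by
    have := EE (u := u) (v := y') (w := y) huy' huy hyy'.symm
    rw [opE_comm t y' y] at this
    exact this.symm
  have q2 : opE t u y * opP u y' = opE t u y * opE t y y' := EP huy huy' hyy'
  have r31 : opE t y y' * opP u y = opE t y y' * opE t u y' := by
    have := EP (u := y) (v := y') (w := u) hyy' huy.symm huy'.symm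
    rw [opP_comm y u, opE_comm t y' u] at this
    exact this
  have r2p : opE t u y' * opP u y' = opE t u y' := opE_opP_self t huy'
  have r22 : opE t u y' * opE t u y' = opE t u y' := opE_sq t huy'
  have r3e1 : opE t y y' * opE t u y = opE t y y' * opP u y' := by
    have := EP (u := y') (v := y) (w := u) hyy'.symm huy'.symm huy.symm
    rw [opE_comm t y' y, opP_comm y' u, opE_comm t y u] at this
    exact this.symm
  have pp2 : (opP u y' : Op Λ) * opP u y' = 1 := opP_sq u y'
  have pp1 : (opP u y : Op Λ) * opP u y = 1 := opP_sq u y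
  have r23 : opP u y' * opE t y y' = opE t u y * opE t y y' := by
    have := EE (u := y') (v := y) (w := u) hyy'.symm huy'.symm huy.symm
    rw [opE_comm t y u, opE_comm t y' y, opP_comm y' u] at this
    exact this.symm
  have r11 : opP u y * opE t u y = opE t u y := opP_opE_self t huy
  have re23 : opE t u y' * opE t y y' = opP u y * opE t y y' := by
    have := EE (u := y) (v := y') (w := u) hyy' huy.symm huy'.symm
    rw [opE_comm t y' u, opP_comm y u] at this
    exact this
  have re1p1 : opE t u y * opP u y = opE t u y := opE_opP_self t huy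
  have re11 : opE t u y * opE t u y = opE t u y := opE_sq t huy
  unfold opR
  refine ybe_abstract q1 q2 ?_ ?_ ?_ ?_ ?_ ?_ ?_ ?_ hκ
  · rw [r31, mul_assoc, r2p]
  · rw [r31, mul_assoc, r22]
  · rw [r3e1, mul_assoc, pp2, mul_one]
  · rw [r3e1, mul_assoc, opP_opE_self t huy']
  · rw [mul_assoc, r23, ← mul_assoc, r11]
  · rw [mul_assoc, re23, ← mul_assoc, pp1, one_mul]
  · rw [mul_assoc, r23, ← mul_assoc, re11]
  · rw [mul_assoc, re23, ← mul_assoc, re1p1]

/-- product of the crossings along a list of strands -/
noncomputable def opK (t a : ℝ) (us : List Λ) (y : Λ) : Op Λ :=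
  (us.map (fun u => opR t a u y)).prod

theorem opK_nil (t a : ℝ) (y : Λ) : opK t a [] y = 1 := rfl
theorem opK_cons (t a : ℝ) (u : Λ) (us : List Λ) (y : Λ) :
    opK t a (u :: us) y = opR t a u y * opK t a us y := by simp [opK]
theorem opK_append (t a : ℝ) (us vs : List Λ) (y : Λ) :
    opK t a (us ++ vs) y = opK t a us y * opK t a vs y := by simp [opK]

theorem opK_comm_of (t a : ℝ) (us : List Λ) (y : Λ) (Z : Op Λ)
    (h : ∀ u ∈ us, opR t a u y * Z = Z * opR t a u y) : opK t a us y * Z = Z * opK t a us y := by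
  induction us with
  | nil => simp [opK_nil]
  | cons u us ih =>
    rw [opK_cons, mul_assoc, ih (fun v hv => h v (List.mem_cons_of_mem _ hv)), ← mul_assoc,
      h u List.mem_cons_self, mul_assoc]

/-- product of the two-line crossings along a list of strands -/
noncomputable def opKK (t a a' : ℝ) (us : List Λ) (y y' : Λ) : Op Λ :=
  (us.map (fun u => opR t a u y * opR t a' u y')).prod

theorem opKK_cons (t a a' : ℝ) (u : Λ) (us : List Λ) (y y' : Λ) :
    opKK t a a' (u :: us) y y' = opR t a u y * opR t a' u y' * opKK t a a' us y y' := by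
  simp [opKK]

theorem opK_mul_opK (t a a' : ℝ) {us : List Λ} (hus : us.Nodup) {y y' : Λ} (hyy' : y ≠ y')
    (hy : y ∉ us) (hy' : y' ∉ us) :
    opK t a us y * opK t a' us y' = opKK t a a' us y y' := by
  induction us with
  | nil => simp [opK, opKK]
  | cons u us ih =>
    rw [List.nodup_cons] at hus
    rw [List.mem_cons, not_or] at hy hy'
    rw [opKK_cons, ← ih hus.2 hy.2 hy'.2, opK_cons, opK_cons]
    have : opK t a us y * opR t a' u y' = opR t a' u y' * opK t a us y := by
      apply opK_comm_of
      intro v hv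
      exact opR_opR_disj t a a' (fun h => hy.2 (h ▸ hv)) (fun h => hus.1 (h ▸ hv))
        (fun h => hy'.2 (h ▸ hv)) hy.1 hyy' (Ne.symm hy'.1)
    rw [mul_assoc, ← mul_assoc (opK t a us y), this]
    simp only [mul_assoc]

theorem ybe_list (t : ℝ) {a a' κ : ℝ} {us : List Λ} {y y' : Λ} (hyy' : y ≠ y')
    (hy : y ∉ us) (hy' : y' ∉ us)
    (hκ : κ * (1 - a' * (1 - a)) = a' * (1 - a) - a * (1 - a')) :
    (1 + κ • opE t y y') * opKK t a a' us y y'
      = opKK t a' a us y y' * (1 + κ • opE t y y') := by
  induction us with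
  | nil => simp [opKK]
  | cons u us ih =>
    rw [List.mem_cons, not_or] at hy hy'
    rw [opKK_cons, opKK_cons, ← mul_assoc, ybe t (Ne.symm hy.1) (Ne.symm hy'.1) hyy' hκ, mul_assoc,
      ih hy.2 hy'.2]
    simp only [mul_assoc]

theorem opKK_comm_of (t a a' : ℝ) (us : List Λ) (y y' : Λ) (Z : Op Λ)
    (h : ∀ u ∈ us, opR t a u y * Z = Z * opR t a u y)
    (h' : ∀ u ∈ us, opR t a' u y' * Z = Z * opR t a' u y') :
    opKK t a a' us y y' * Z = Z * opKK t a a' us y y' := by
  induction us with
  | nil => simp [opKK]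
  | cons u us ih =>
    rw [opKK_cons, mul_assoc, ih (fun v hv => h v (List.mem_cons_of_mem _ hv))
      (fun v hv => h' v (List.mem_cons_of_mem _ hv)), ← mul_assoc, mul_assoc (opR t a u y),
      h' u List.mem_cons_self, ← mul_assoc, h u List.mem_cons_self]
    simp only [mul_assoc]

section Idle

variable (t : ℝ) {x y x' y' : Λ} (hxy : x ≠ y) (hxx' : x ≠ x') (hxy' : x ≠ y') (hyx' : y ≠ x')
  (hyy' : y ≠ y') (hx'y' : x' ≠ y')

include hxy hxx' hxy' hyx' hyy' hx'y'

theorem idle_E : opE t x y * opE t x' y' * opE t y y' = opE t x y * opE t x' y' * opE t x x' := by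
  -- E_{x'y'} E_{xy} E_{yy'} = E_{x'y'} E_{xy} P_{xy'}
  have h1 : opE t x y * opE t y y' = opE t x y * opP x y' := (opE_opP t hxy hxy' hyy').symm
  have h2 : opE t x' y' * opE t x x' = opE t x' y' * opP x y' := by
    have := opE_opP t (u := y') (v := x') (w := x) hx'y'.symm hxy'.symm hxx'.symm
    rw [opE_comm t y' x', opE_comm t x' x, opP_comm y' x] at this
    exact this.symm
  have hc := opE_opE_disj t hxy hxx' hxy' hyx' hyy' hx'y'
  rw [mul_assoc, mul_assoc, h2, ← mul_assoc, ← mul_assoc, hc, mul_assoc, h1, mul_assoc]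

theorem E_idle : opE t y y' * (opE t x y * opE t x' y') = opE t x x' * (opE t x y * opE t x' y') := by
  have h1 : opE t y y' * opE t x y = opP x y' * opE t x y := opE_opE t hxy hxy' hyy'
  have h2 : opE t x x' * opE t x' y' = opP x y' * opE t x' y' := by
    have := opE_opE t (u := y') (v := x') (w := x) hx'y'.symm hxy'.symm hxx'.symm
    rw [opE_comm t y' x', opE_comm t x' x, opP_comm y' x] at this
    exact this
  have hc := opE_opE_disj t hxy hxx' hxy' hyx' hyy' hx'y'
  rw [hc, ← mul_assoc (opE t x x'), h2, mul_assoc, ← hc, ← mul_assoc, h1, mul_assoc]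

/-- the closing part -/
theorem E_close : opE t y y' * (opG x 1 * opG x' 1 * (opE t x y * opE t x' y'))
    = opE t x x' * (opG x 1 * opG x' 1 * (opE t x y * opE t x' y')) := by
  have hc := opE_opE_disj t hxy hxx' hxy' hyx' hyy' hx'y'
  have key : opG x 1 * opG x' 1 * (opE t x y * opE t x' y')
      = opG y (-1) * opG y' (-1) * (opE t x y * opE t x' y') := by
    have e1 : opG x' 1 * (opE t x y * opE t x' y') = opG y' (-1) * (opE t x y * opE t x' y') := by
      rw [hc, ← mul_assoc, opG_opE t hx'y', mul_assoc]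
    have e2 : opG x 1 * (opE t x y * opE t x' y') = opG y (-1) * (opE t x y * opE t x' y') := by
      rw [← mul_assoc, opG_opE t hxy, mul_assoc]
    rw [mul_assoc, e1, ← mul_assoc, opG_opG_comm, mul_assoc, e2, ← mul_assoc,
      opG_opG_comm]
  have l1 : opE t y y' * (opG x 1 * opG x' 1 * (opE t x y * opE t x' y'))
      = opE t y y' * (opE t x y * opE t x' y') := by
    rw [key, ← mul_assoc, ← mul_assoc (opE t y y'), opE_opG t hyy' (-1),
      mul_assoc (opE t y y'), opG_opG_add]
    simp [opG_zero]
  have l2 : opE t x x' * (opG x 1 * opG x' 1 * (opE t x y * opE t x' y'))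
      = opE t x x' * (opE t x y * opE t x' y') := by
    have e0 : opE t x x' * opG x 1 = opE t x x' * opG x' (-1) := opE_opG t hxx' 1
    rw [← mul_assoc, ← mul_assoc (opE t x x'), e0, mul_assoc (opE t x x'), opG_opG_add]
    simp [opG_zero]
  rw [l1, l2]
  exact E_idle t hxy hxx' hxy' hyx' hyy' hx'y'

end Idle

/-- the row operator for the horizontal line with ends `x`, `y` -/
noncomputable def opT (t a : ℝ) (us : List Λ) (x y : Λ) : Op Λ :=
  opE t x y * opK t a us y * (opG x 1 * opE t x y)

theorem opT_mul_E (t a : ℝ) (us : List Λ) {x y : Λ} (hxy : x ≠ y) :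
    opT t a us x y * opE t x y = opT t a us x y := by
  simp only [opT, mul_assoc, opE_sq t hxy]

theorem E_mul_opT (t a : ℝ) (us : List Λ) {x y : Λ} (hxy : x ≠ y) :
    opE t x y * opT t a us x y = opT t a us x y := by
  simp only [opT, ← mul_assoc, opE_sq t hxy]

section Two

variable (t : ℝ) {us : List Λ} {x y x' y' : Λ} (hus : us.Nodup) (hxy : x ≠ y) (hxx' : x ≠ x')
  (hxy' : x ≠ y') (hyx' : y ≠ x') (hyy' : y ≠ y') (hx'y' : x' ≠ y')
  (hx : x ∉ us) (hy : y ∉ us) (hx' : x' ∉ us) (hy' : y' ∉ us)

include hxy hxx' hxy' hyx' hyy' hx'y' hy hx' hy' in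
theorem opT_comm_E (a : ℝ) :
    opT t a us x y * opE t x' y' = opE t x' y' * opT t a us x y := by
  have hc := opE_opE_disj t hxy hxx' hxy' hyx' hyy' hx'y'
  have h1 : opK t a us y * opE t x' y' = opE t x' y' * opK t a us y := by
    apply opK_comm_of
    intro u hu
    exact opR_opE_disj t a (fun h => hy (h ▸ hu)) (fun h => hx' (h ▸ hu))
      (fun h => hy' (h ▸ hu)) hyx' hyy' hx'y'
  have h2 : opE t x' y' * opG x 1 = opG x 1 * opE t x' y' :=
    opE_opG_disj t hx'y' hxx'.symm hxy'.symm 1
  unfold opT
  rw [mul_assoc, mul_assoc (opG x 1), hc, ← mul_assoc (opG x 1), ← h2]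
  rw [mul_assoc (opE t x' y'), ← mul_assoc _ (opE t x' y'), mul_assoc (opE t x y), h1]
  rw [← mul_assoc (opE t x y), hc]
  simp only [mul_assoc]

include hus hxy hxx' hxy' hyx' hyy' hx'y' hx hy hx' hy' in
/-- product of the row operators on two different lines -/
theorem opT_mul_opT (a a' : ℝ) :
    opE t x' y' * opT t a us x y * opT t a' us x' y'
      = opE t x y * opE t x' y' * opKK t a a' us y y' *
        (opG x 1 * opG x' 1 * (opE t x y * opE t x' y')) := by
  have hc := opE_opE_disj t hxy hxx' hxy' hyx' hyy' hx'y'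
  have h1 : ∀ b, opK t b us y' * opE t x y = opE t x y * opK t b us y' := by
    intro b
    apply opK_comm_of
    intro u hu
    exact opR_opE_disj t b (fun h => hy' (h ▸ hu)) (fun h => hx (h ▸ hu))
      (fun h => hy (h ▸ hu)) hxy'.symm hyy'.symm hxy
  have h1' : opK t a' us y' * opG x 1 = opG x 1 * opK t a' us y' := by
    apply opK_comm_of
    intro u hu
    exact opR_opG_disj t a' (u := u) (v := y') (w := x) (fun h => hy' (h ▸ hu))
      (fun h => hx (h ▸ hu)) hxy'.symm 1
  have h2 : opE t x' y' * opG x 1 = opG x 1 * opE t x' y' :=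
    opE_opG_disj t hx'y' hxx'.symm hxy'.symm 1
  have h2' : opE t x y * opG x' 1 = opG x' 1 * opE t x y :=
    opE_opG_disj t hxy hxx' hyx' 1
  rw [← opT_comm_E t hxy hxx' hxy' hyx' hyy' hx'y' hy hx' hy' a]
  rw [mul_assoc, E_mul_opT t a' us hx'y']
  unfold opT
  rw [← opK_mul_opK t a a' hus hyy' hy hy']
  -- move the pieces
  have e1 : opG x 1 * opE t x y * (opE t x' y' * opK t a' us y' * (opG x' 1 * opE t x' y'))
      = opE t x' y' * (opK t a' us y' * (opG x 1 * opG x' 1 * (opE t x y * opE t x' y'))) := by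
    calc opG x 1 * opE t x y * (opE t x' y' * opK t a' us y' * (opG x' 1 * opE t x' y'))
        = opG x 1 * (opE t x y * opE t x' y') * opK t a' us y' * (opG x' 1 * opE t x' y') := by
          simp only [mul_assoc]
      _ = (opG x 1 * opE t x' y') * (opE t x y * opK t a' us y') * (opG x' 1 * opE t x' y') := by
          rw [hc]; simp only [mul_assoc]
      _ = opE t x' y' * (opG x 1 * opK t a' us y') * (opE t x y * opG x' 1) * opE t x' y' := by
          rw [← h2, ← h1]; simp only [mul_assoc]
      _ = opE t x' y' * (opK t a' us y' * (opG x 1 * opG x' 1 * (opE t x y * opE t x' y'))) := by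
          rw [← h1', h2']; simp only [mul_assoc]
  rw [mul_assoc (opE t x y * opK t a us y), e1]
  have h3 : opK t a us y * opE t x' y' = opE t x' y' * opK t a us y := by
    apply opK_comm_of
    intro u hu
    exact opR_opE_disj t a (fun h => hy (h ▸ hu)) (fun h => hx' (h ▸ hu))
      (fun h => hy' (h ▸ hu)) hyx' hyy' hx'y'
  calc opE t x y * opK t a us y * (opE t x' y' * (opK t a' us y' *
        (opG x 1 * opG x' 1 * (opE t x y * opE t x' y'))))
      = opE t x y * (opK t a us y * opE t x' y') * (opK t a' us y' *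
        (opG x 1 * opG x' 1 * (opE t x y * opE t x' y'))) := by simp only [mul_assoc]
    _ = _ := by rw [h3]; simp only [mul_assoc]

include hus hxy hxx' hxy' hyx' hyy' hx'y' hx hy hx' hy' in
/-- commutation, first form -/
theorem opT_comm1 {a a' : ℝ} (h1 : 1 - a' * (1 - a) ≠ 0) (h2 : 1 - a * (1 - a') ≠ 0) :
    opE t x' y' * opT t a us x y * opT t a' us x' y'
      = opE t x' y' * opT t a' us x y * opT t a us x' y' := by
  rw [opT_mul_opT t hus hxy hxx' hxy' hyx' hyy' hx'y' hx hy hx' hy' a a',
    opT_mul_opT t hus hxy hxx' hxy' hyx' hyy' hx'y' hx hy hx' hy' a' a]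
  set κ : ℝ := (a' * (1 - a) - a * (1 - a')) / (1 - a' * (1 - a)) with hκdef
  set κ' : ℝ := -κ / (1 + κ) with hκ'def
  have hκ : κ * (1 - a' * (1 - a)) = a' * (1 - a) - a * (1 - a') := by
    rw [hκdef]; field_simp
  have hk1 : 1 + κ ≠ 0 := by
    have : 1 + κ = (1 - a * (1 - a')) / (1 - a' * (1 - a)) := by
      rw [hκdef]; field_simp; ring
    rw [this]
    exact div_ne_zero h2 h1
  have hκ' : κ + κ' + κ * κ' = 0 := by rw [hκ'def]; field_simp; ring
  have inv : ∀ {u v : Λ}, u ≠ v → ((1 : Op Λ) + κ' • opE t u v) * (1 + κ • opE t u v) = 1 := by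
    intro u v huv
    have : ((1 : Op Λ) + κ' • opE t u v) * (1 + κ • opE t u v)
        = 1 + (κ + κ' + κ * κ') • opE t u v := by
      simp only [add_mul, mul_add, one_mul, mul_one, smul_mul_assoc, mul_smul_comm,
        opE_sq t huv, smul_smul]
      module
    rw [this, hκ']; simp
  have y1 := ybe_list t hyy' hy hy' hκ
  -- opKK a a' = Q⁻¹ opKK a' a Q
  have y2 : opKK t a a' us y y' = (1 + κ' • opE t y y') * opKK t a' a us y y'
      * (1 + κ • opE t y y') := by
    rw [mul_assoc, ← y1, ← mul_assoc, inv hyy', one_mul]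
  have i1 : opE t x y * opE t x' y' * (1 + κ' • opE t y y')
      = opE t x y * opE t x' y' * (1 + κ' • opE t x x') := by
    rw [mul_add, mul_add, mul_smul_comm, mul_smul_comm,
      idle_E t hxy hxx' hxy' hyx' hyy' hx'y']
  have i2 : (1 + κ • opE t y y') * (opG x 1 * opG x' 1 * (opE t x y * opE t x' y'))
      = (1 + κ • opE t x x') * (opG x 1 * opG x' 1 * (opE t x y * opE t x' y')) := by
    rw [add_mul, add_mul, smul_mul_assoc, smul_mul_assoc,
      E_close t hxy hxx' hxy' hyx' hyy' hx'y']
  have c1 : opKK t a' a us y y' * (1 + κ' • opE t x x')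
      = (1 + κ' • opE t x x') * opKK t a' a us y y' := by
    apply opKK_comm_of
    · intro u hu
      have := opR_opE_disj t a' (u := u) (v := y) (w := x) (z := x') (fun h => hy (h ▸ hu))
        (fun h => hx (h ▸ hu)) (fun h => hx' (h ▸ hu)) hxy.symm hyx' hxx'
      rw [mul_add, add_mul, mul_smul_comm, smul_mul_assoc, this, mul_one, one_mul]
    · intro u hu
      have := opR_opE_disj t a (u := u) (v := y') (w := x) (z := x') (fun h => hy' (h ▸ hu))
        (fun h => hx (h ▸ hu)) (fun h => hx' (h ▸ hu)) hxy'.symm hx'y'.symm hxx'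
      rw [mul_add, add_mul, mul_smul_comm, smul_mul_assoc, this, mul_one, one_mul]
  rw [y2, mul_assoc (opE t x y * opE t x' y'), mul_assoc ((1 + κ' • opE t y y') * _), i2,
    mul_assoc (1 + κ' • opE t y y'), ← mul_assoc (opE t x y * opE t x' y'), i1,
    mul_assoc (opE t x y * opE t x' y'), ← mul_assoc (1 + κ' • opE t x x'), ← c1,
    mul_assoc (opKK t a' a us y y'), ← mul_assoc (1 + κ' • opE t x x'), inv hxx', one_mul]
  simp only [mul_assoc]

omit hxy hxx' hxy' hyx' hyy' hx'y' in
theorem opM_opK (t a : ℝ) (π : Equiv.Perm Λ) (us : List Λ) (y : Λ) (hy : y ∉ us) :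
    opM π * opK t a us y = opK t a (us.map π) (π y) * opM π := by
  induction us with
  | nil => simp [opK]
  | cons u us ih =>
    rw [List.mem_cons, not_or] at hy
    have h1 : opM π * opR t a u y = opR t a (π u) (π y) * opM π := by
      unfold opR
      rw [mul_add, add_mul, mul_smul_comm, mul_smul_comm, smul_mul_assoc, smul_mul_assoc,
        opM_opP, opM_opE t π (Ne.symm hy.1)]
    rw [opK_cons, ← mul_assoc, h1, mul_assoc, ih hy.2, List.map_cons, opK_cons, mul_assoc]

omit hxy hxx' hxy' hyx' hyy' hx'y' in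
theorem opM_opT (t a : ℝ) (π : Equiv.Perm Λ) {us : List Λ} {x y : Λ} (hxy : x ≠ y) (hy : y ∉ us) :
    opM π * opT t a us x y = opT t a (us.map π) (π x) (π y) * opM π := by
  unfold opT
  calc opM π * (opE t x y * opK t a us y * (opG x 1 * opE t x y))
      = (opM π * opE t x y) * opK t a us y * (opG x 1 * opE t x y) := by simp only [mul_assoc]
    _ = opE t (π x) (π y) * (opM π * opK t a us y) * (opG x 1 * opE t x y) := by
        rw [opM_opE t π hxy]; simp only [mul_assoc]
    _ = opE t (π x) (π y) * opK t a (us.map π) (π y) * (opM π * opG x 1 * opE t x y) := by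
        rw [opM_opK t a π us y hy]; simp only [mul_assoc]
    _ = opE t (π x) (π y) * opK t a (us.map π) (π y) * (opG (π x) 1 * (opM π * opE t x y)) := by
        rw [opM_opG]; simp only [mul_assoc]
    _ = _ := by rw [opM_opE t π hxy]; simp only [mul_assoc]

include hxy hxx' hxy' hyx' hyy' hx'y' hx hy hx' hy' in
/-- on states where both auxiliary lines are idle, the two lines are interchangeable -/
theorem opT_line (a : ℝ) :
    opE t x y * opE t x' y' * opT t a us x' y' = opE t x y * opE t x' y' * opT t a us x y := by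
  have hc := opE_opE_disj t hxy hxx' hxy' hyx' hyy' hx'y'
  set π : Equiv.Perm Λ := Equiv.swap x x' * Equiv.swap y y' with hπ
  have hIπ : opE t x y * opE t x' y' * opM π = opE t x y * opE t x' y' := by
    rw [hπ, ← opM_opM, ← opP_eq_opM, ← opP_eq_opM]
    have h1 : opE t x y * opE t x' y' * opP x x' = opE t x y * opE t x' y' * opP y y' := by
      have e1 : opE t x y * opP x x' = opE t x y * opE t y x' := opE_opP t hxy hxx' hyx'
      have e2 : opE t x' y' * opP y y' = opE t x' y' * opE t y x' := by
        have := opE_opP t (u := y') (v := x') (w := y) hx'y'.symm hyy'.symm hyx'.symm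
        rw [opE_comm t y' x', opP_comm y' y, opE_comm t x' y] at this
        exact this
      rw [mul_assoc (opE t x y) (opE t x' y') (opP y y'), e2, ← mul_assoc, hc, mul_assoc, e1,
        mul_assoc]
    rw [← mul_assoc, h1, mul_assoc, opP_sq, mul_one]
  have hπx : π x = x' := by
    rw [hπ, Equiv.Perm.mul_apply, Equiv.swap_apply_of_ne_of_ne hxy hxy', Equiv.swap_apply_left]
  have hπy : π y = y' := by
    rw [hπ, Equiv.Perm.mul_apply, Equiv.swap_apply_left,
      Equiv.swap_apply_of_ne_of_ne hxy'.symm hx'y'.symm]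
  have hπu : us.map π = us := by
    conv_rhs => rw [← List.map_id us]
    apply List.map_congr_left
    intro u hu
    have n1 : u ≠ y := fun h => hy (h ▸ hu)
    have n2 : u ≠ y' := fun h => hy' (h ▸ hu)
    have n3 : u ≠ x := fun h => hx (h ▸ hu)
    have n4 : u ≠ x' := fun h => hx' (h ▸ hu)
    rw [hπ, Equiv.Perm.mul_apply, Equiv.swap_apply_of_ne_of_ne n1 n2,
      Equiv.swap_apply_of_ne_of_ne n3 n4]
    rfl
  have hconj : opM π * opT t a us x y = opT t a us x' y' * opM π := by
    rw [opM_opT t a π hxy hy, hπx, hπy, hπu]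
  have hTI : opE t x y * opE t x' y' * opT t a us x y
      = opT t a us x y * (opE t x y * opE t x' y') := by
    rw [mul_assoc, ← opT_comm_E t hxy hxx' hxy' hyx' hyy' hx'y' hy hx' hy' a, ← mul_assoc,
      E_mul_opT t a us hxy, ← mul_assoc, opT_mul_E t a us hxy]
  have hππ : (opM π : Op Λ) * opM π = 1 := by
    rw [opM_opM, hπ]
    have : Equiv.swap x x' * Equiv.swap y y' * (Equiv.swap x x' * Equiv.swap y y') = 1 := by
      have hd : Equiv.swap x x' * Equiv.swap y y' = Equiv.swap y y' * Equiv.swap x x' := by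
        have := Equiv.mul_swap_eq_swap_mul (Equiv.swap x x') y y'
        rw [this, Equiv.swap_apply_of_ne_of_ne hxy.symm hyx',
          Equiv.swap_apply_of_ne_of_ne hxy'.symm hx'y'.symm]
      nth_rewrite 2 [hd]
      rw [mul_assoc, ← mul_assoc (Equiv.swap y y'), Equiv.swap_mul_self, one_mul,
        Equiv.swap_mul_self]
    rw [this, opM_one]
  calc opE t x y * opE t x' y' * opT t a us x' y'
      = opE t x y * opE t x' y' * (opT t a us x' y' * (opM π * opM π)) := by rw [hππ, mul_one]
    _ = opE t x y * opE t x' y' * opM π * opT t a us x y * opM π := by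
        rw [← mul_assoc (opT t a us x' y'), ← hconj]; simp only [mul_assoc]
    _ = opE t x y * opE t x' y' * opT t a us x y * opM π := by rw [hIπ]
    _ = opT t a us x y * (opE t x y * opE t x' y') * opM π := by rw [hTI]
    _ = opT t a us x y * (opE t x y * opE t x' y' * opM π) := by simp only [mul_assoc]
    _ = _ := by rw [hIπ, hTI]

include hus hxy hxx' hxy' hyx' hyy' hx'y' hx hy hx' hy' in
/-- commutation of the row operators -/
theorem opT_comm {a a' : ℝ} (h1 : 1 - a' * (1 - a) ≠ 0) (h2 : 1 - a * (1 - a') ≠ 0) :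
    opE t x' y' * (opT t a us x y * opT t a' us x y)
      = opE t x' y' * (opT t a' us x y * opT t a us x y) := by
  have key : ∀ b b' : ℝ, opE t x' y' * (opT t b us x y * opT t b' us x y)
      = opE t x' y' * opT t b us x y * opT t b' us x' y' := by
    intro b b'
    have e1 : ∀ Z, opE t x' y' * (opT t b us x y * Z)
        = opT t b us x y * (opE t x y * opE t x' y' * Z) := by
      intro Z
      rw [← mul_assoc, ← opT_comm_E t hxy hxx' hxy' hyx' hyy' hx'y' hy hx' hy' b,
        mul_assoc (opE t x y), ← mul_assoc (opT t b us x y) (opE t x y), opT_mul_E t b us hxy,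
        mul_assoc]
    rw [e1, mul_assoc (opE t x' y'), e1, opT_line t hxy hxx' hxy' hyx' hyy' hx'y' hx hy hx' hy' b']
  rw [key, key, opT_comm1 t hus hxy hxx' hxy' hyx' hyy' hx'y' hx hy hx' hy' h1 h2]

end Two

/-- the rotation lemma: the first crossing can be moved to the end of the row -/
theorem opT_rotate (t a : ℝ) {u : Λ} {us : List Λ} {x y : Λ} (hxy : x ≠ y) (hux : u ≠ x)
    (huy : u ≠ y) (hu : u ∉ us) (hx : x ∉ us) (hy : y ∉ us) :
    opT t a (u :: us) x y = opG u 1 * opT t a (us ++ [u]) x y * opG u (-1) := by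
  -- the crossing seen from the left end of the line
  set R' : Op Λ := a • opE t u x + (1 - a) • opP u x with hR'
  have h1 : opE t x y * opR t a u y = opE t x y * R' := by
    have e1 : opE t x y * opP u y = opE t x y * opE t u x := by
      have := opE_opP t (u := y) (v := x) (w := u) hxy.symm huy.symm hux.symm
      rw [opE_comm t y x, opP_comm y u, opE_comm t x u] at this
      exact this
    have e2 : opE t x y * opE t u y = opE t x y * opP u x := by
      have := opE_opP t (u := x) (v := y) (w := u) hxy hux.symm huy.symm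
      rw [opP_comm x u, opE_comm t y u] at this
      exact this.symm
    rw [hR']; unfold opR
    rw [mul_add, mul_add, mul_smul_comm, mul_smul_comm, mul_smul_comm, mul_smul_comm, e1, e2]
  have h2 : opK t a us y * R' = R' * opK t a us y := by
    apply opK_comm_of
    intro v hv
    have hvy : v ≠ y := fun h => hy (h ▸ hv)
    have hvu : v ≠ u := fun h => hu (h ▸ hv)
    have hvx : v ≠ x := fun h => hx (h ▸ hv)
    rw [hR', mul_add, add_mul, mul_smul_comm, mul_smul_comm, smul_mul_assoc, smul_mul_assoc,
      opR_opE_disj t a hvy hvu hvx huy.symm hxy.symm hux,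
      opR_opP_disj t a hvy hvu hvx huy.symm hxy.symm]
  have h3 : R' * (opG x 1 * opE t x y)
      = opG u 1 * (opR t a u y * (opG x 1 * opE t x y)) * opG u (-1) := by
    have gE : opG u (-1) * opE t x y = opE t x y * opG u (-1) :=
      (opE_opG_disj t hxy hux.symm huy.symm (-1)).symm
    have EE1 : opE t u x * opE t x y = opP u y * opE t x y := by
      have := opE_opE t (u := y) (v := x) (w := u) hxy.symm huy.symm hux.symm
      rw [opE_comm t x u, opE_comm t y x, opP_comm y u] at this
      exact this
    have EE2 : opE t u y * opE t x y = opP u x * opE t x y := by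
      have := opE_opE t (u := x) (v := y) (w := u) hxy hux.symm huy.symm
      rw [opE_comm t y u, opP_comm x u] at this
      exact this
    have Gxy : opG x 1 * opE t x y = opG y (-1) * opE t x y := opG_opE t hxy 1
    have c1 : opE t u x * (opG x 1 * opE t x y)
        = opG u 1 * (opP u y * (opG x 1 * opE t x y)) * opG u (-1) := by
      have l : opE t u x * (opG x 1 * opE t x y) = opP u y * opE t x y * opG u (-1) := by
        have := opE_opG t hux.symm 1
        rw [opE_comm t x u] at this
        rw [← mul_assoc, this, mul_assoc, gE, ← mul_assoc, EE1]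
      have r : opG u 1 * (opP u y * (opG x 1 * opE t x y)) = opP u y * opE t x y := by
        rw [Gxy, ← mul_assoc (opP u y), opP_opG, Equiv.swap_apply_right, mul_assoc (opG u (-1)),
          ← mul_assoc, opG_opG_add]
        simp [opG_zero]
      rw [l, r]
    have c2 : opP u x * (opG x 1 * opE t x y)
        = opG u 1 * (opE t u y * (opG x 1 * opE t x y)) * opG u (-1) := by
      have l : opP u x * (opG x 1 * opE t x y) = opG u 1 * opP u x * opE t x y := by
        rw [← mul_assoc, opP_opG, Equiv.swap_apply_right]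
      have r : opE t u y * (opG x 1 * opE t x y) = opP u x * opE t x y * opG u 1 := by
        have e1 := opE_opG t huy.symm (-1)
        rw [opE_comm t y u, neg_neg] at e1
        have gE' : opG u 1 * opE t x y = opE t x y * opG u 1 :=
          (opE_opG_disj t hxy hux.symm huy.symm 1).symm
        rw [Gxy, ← mul_assoc, e1, mul_assoc, gE', ← mul_assoc, EE2]
      rw [l, r, ← mul_assoc (opG u 1), mul_assoc _ (opG u 1) (opG u (-1)), opG_opG_add]
      simp [opG_zero, mul_assoc]
    rw [hR']; unfold opR
    simp only [add_mul, mul_add, smul_mul_assoc, mul_smul_comm]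
    rw [c1, c2]
  have g1 : opG u 1 * opE t x y = opE t x y * opG u 1 :=
    (opE_opG_disj t hxy hux.symm huy.symm 1).symm
  have g2 : opG u 1 * opK t a us y = opK t a us y * opG u 1 := by
    symm
    apply opK_comm_of
    intro v hv
    exact opR_opG_disj t a (u := v) (v := y) (w := u) (fun h => hy (h ▸ hv))
      (fun h => hu (h ▸ hv)) huy.symm 1
  unfold opT
  rw [opK_cons, opK_append, ← mul_assoc (opE t x y) (opR t a u y), h1]
  have hK1 : opK t a [u] y = opR t a u y := by simp [opK]
  rw [hK1]
  calc opE t x y * R' * opK t a us y * (opG x 1 * opE t x y)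
      = opE t x y * (R' * opK t a us y) * (opG x 1 * opE t x y) := by simp only [mul_assoc]
    _ = opE t x y * opK t a us y * (R' * (opG x 1 * opE t x y)) := by
        rw [← h2]; simp only [mul_assoc]
    _ = opE t x y * (opK t a us y * opG u 1) * (opR t a u y * (opG x 1 * opE t x y))
          * opG u (-1) := by rw [h3]; simp only [mul_assoc]
    _ = (opE t x y * opG u 1) * opK t a us y * (opR t a u y * (opG x 1 * opE t x y))
          * opG u (-1) := by rw [← g2]; simp only [mul_assoc]
    _ = _ := by rw [← g1]; simp only [mul_assoc]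

end Pool.Agent.H65.Perc
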