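import Mathlib
import Pool.Agent.H65.Perc.Comm

/-!
# The concrete model: `L` strands on a cylinder, three auxiliary horizontal lines

Strand `i : Fin L` sits at position `i + m * L` (`m : ℤ`) of the universal cover; the interval `c : ℤ`
is the gap directly to the left of position `c`.  `g` of a label is the displacement (in periods) of
its partner.
-/

namespace Pool.Agent.H65.Perc

open St

/-- labels: the strands, and the left/right ends of three auxiliary horizontal lines -/
abbrev Lab (L : ℕ) := Fin L ⊕ (Fin 3 × Bool)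

variable {L : ℕ}

def lx (k : Fin 3) : Lab L := Sum.inr (k, false)
def ly (k : Fin 3) : Lab L := Sum.inr (k, true)

def strands (L : ℕ) : List (Lab L) := (List.finRange L).map Sum.inl

/-- all the auxiliary lines are idle -/
def AllIdle (s : St (Lab L)) : Prop := ∀ k, s.p (lx k) = ly k ∧ s.g (lx k) = 0

/-- a crossing: `true` = the two labels are exchanged, `false` = they are joined -/
def crossing {Λ : Type*} [DecidableEq Λ] (b : Bool) (u y : Λ) (s : St Λ) : St Λ :=
  if b then swap u y s else join u y s

/-- the horizontal line `k` crosses all the strands -/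
def sweep (k : Fin 3) (row : Fin L → Bool) (s : St (Lab L)) : St (Lab L) :=
  (List.finRange L).foldl (fun s i => crossing (row i) (Sum.inl i) (ly k) s) s

/-- the horizontal line is closed around the cylinder -/
def closeLine (k : Fin 3) (s : St (Lab L)) : St (Lab L) := join (lx k) (ly k) (twist (lx k) 1 s)

def rowMap (k : Fin 3) (row : Fin L → Bool) (s : St (Lab L)) : St (Lab L) :=
  closeLine k (sweep k row s)

/-- the interval `c` (between positions `c - 1` and `c` of the cover) is not covered by any arc -/
def Exposed (s : St (Lab L)) (c : ℤ) : Prop :=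
  ∀ i j : Fin L, s.p (Sum.inl i) = Sum.inl j →
    ∀ m : ℤ, ((i : ℤ) + m * L < c ↔ (j : ℤ) + (m + s.g (Sum.inl i)) * L < c)

open Classical in
/-- number of exposed intervals (per period) -/
noncomputable def numExp (s : St (Lab L)) : ℕ :=
  ((Finset.range L).filter (fun c : ℕ => Exposed s (c : ℤ))).card

/-- rotation by one strand: the new strand `i` is the old strand `i + 1` -/
def rot [NeZero L] (s : St (Lab L)) : St (Lab L) :=
  perm (Equiv.sumCongr (finRotate L) (Equiv.refl _)) (twist (Sum.inl 0) 1 s)

/-- no arc crosses the seam, and the arcs do not cross each other -/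
def Flat (s : St (Lab L)) : Prop :=
  AllIdle s ∧ (∀ i : Fin L, s.g (Sum.inl i) = 0) ∧
    ∀ i j k l : Fin L, i < j → j < k → k < l →
      ¬ (s.p (Sum.inl i) = Sum.inl k ∧ s.p (Sum.inl j) = Sum.inl l)

def Planar [NeZero L] (s : St (Lab L)) : Prop := ∃ c : ℕ, Flat (rot^[c] s)

/-- the pattern of small arcs `(0,1), (2,3), …` -/
def pi0 (n : ℕ) : St (Lab (2 * n)) where
  p w := match w with
    | Sum.inl i => Sum.inl ⟨if i.val % 2 = 0 then i.val + 1 else i.val - 1, by
        have := i.isLt; split_ifs <;> omega⟩
    | Sum.inr (k, b) => Sum.inr (k, !b)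
  g _ := 0
  inv w := by
    rcases w with i | ⟨k, b⟩
    · simp only [Sum.inl.injEq, Fin.ext_iff]
      have := i.isLt
      split_ifs <;> omega
    · simp
  ne w := by
    rcases w with i | ⟨k, b⟩
    · simp only [ne_eq, Sum.inl.injEq, Fin.ext_iff]
      have := i.isLt
      split_ifs <;> omega
    · simp
  gs w := by simp

/-- the state at the top level `M`: small arcs around the positions `≡ M mod 2` -/
def cap (n M : ℕ) [NeZero (2 * n)] : St (Lab (2 * n)) := if M % 2 = 1 then pi0 n else rot (pi0 n)

/-- rows `M - 1, …, 0` are applied one after the other -/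
def runRows (ω : ℕ → Fin L → Bool) : ℕ → St (Lab L) → St (Lab L)
  | 0, s => s
  | M + 1, s => runRows ω M (rowMap 0 (ω M) s)

def modFin [NeZero L] (k : ℤ) : Fin L :=
  ⟨(k % (L : ℤ)).toNat, by
    have hL : (L : ℤ) ≠ 0 := by exact_mod_cast NeZero.ne L
    have h1 := Int.emod_nonneg k hL
    have h2 := Int.emod_lt_abs k hL
    have h3 : (0 : ℤ) < L := by
      have := Nat.pos_of_ne_zero (NeZero.ne L); exact_mod_cast this
    rw [abs_of_pos h3] at h2
    omega⟩

/-- one crossing of row `r` at strand position `k` joins two faces: type `true` joins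
`(r+1, k)` (upper left) with `(r, k+1)` (lower right), type `false` joins `(r, k)` with `(r+1, k+1)`. -/
def FStep [NeZero L] (M : ℕ) (ω : ℕ → Fin L → Bool) (a b : ℕ × ℤ) : Prop :=
  ∃ r < M, ∃ k : ℤ,
    (ω r (modFin k) = true ∧ a = (r + 1, k) ∧ b = (r, k + 1)) ∨
    (ω r (modFin k) = false ∧ a = (r, k) ∧ b = (r + 1, k + 1))

/-- faces connected through the rows `< M` -/
def FConn [NeZero L] (M : ℕ) (ω : ℕ → Fin L → Bool) : ℕ × ℤ → ℕ × ℤ → Prop :=
  Relation.EqvGen (FStep M ω)

end Pool.Agent.H65.Perc
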