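import Mathlib
import Pool.Agent.H65.Perc.Model

/-!
# Abstract invariants for the percolation–loop link (job J1)

`Lf l m`, `Rf l m` are the faces to the left and to the right of the medial edge carrying the label `l`
in the `m`-th period; `E` is the relation: joined by a processed crossing.
-/

namespace Pool.Agent.H65.Perc

open St

namespace Lk

variable {Λ Φ : Type*}

theorem eqvGen_const {E : Φ → Φ → Prop} {Z : Φ → ℤ} (hZ : ∀ a b, E a b → Z a = Z b) {a b : Φ}
    (h : Relation.EqvGen E a b) : Z a = Z b := by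
  induction h with
  | rel a b h => exact hZ a b h
  | refl a => rfl
  | symm a b _ ih => exact ih.symm
  | trans a b c _ _ ih1 ih2 => exact ih1.trans ih2

theorem eqvGen_mono {E E' : Φ → Φ → Prop} (h : ∀ a b, E a b → E' a b) {a b : Φ}
    (hab : Relation.EqvGen E a b) : Relation.EqvGen E' a b := Relation.EqvGen.mono h _ _ hab

variable [DecidableEq Λ]

structure Inv (Rel : Λ → Prop) (s : St Λ) (Lf Rf : Λ → ℤ → Φ) (E : Φ → Φ → Prop) : Prop where
  conn : ∀ l, Rel l → ∀ m, Relation.EqvGen E (Lf l m) (Rf (s.p l) (m + s.g l))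
  pot : ∀ h : Λ → ℤ → ℤ, (∀ l m, h (s.p l) (m + s.g l) = - h l m) →
    ∃ Z : Φ → ℤ, (∀ a b, E a b → Z a = Z b) ∧ ∀ l, Rel l → ∀ m, Z (Rf l m) = Z (Lf l m) + h l m

/-- joining the adjacent labels `v` (left) and `u` (right) and removing them -/
theorem Inv.remove {Rel : Λ → Prop} {s : St Λ} {Lf Rf : Λ → ℤ → Φ} {E : Φ → Φ → Prop}
    (H : Inv Rel s Lf Rf E) {u v : Λ} (huv : u ≠ v) (hu : Rel u) (hv : Rel v)
    (hj : ∀ m, Relation.EqvGen E (Rf v m) (Lf u m)) {E' : Φ → Φ → Prop}
    (hE : ∀ a b, E a b → E' a b) (hE1 : ∀ m, E' (Lf v m) (Rf u m))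
    (hE2 : ∀ a b, E' a b → E a b ∨ ∃ m, a = Lf v m ∧ b = Rf u m) :
    Inv (fun l => Rel l ∧ l ≠ u ∧ l ≠ v) (join u v s) Lf Rf E' := by
  have hinv := s.inv
  have hne := s.ne
  have hgs := s.gs
  constructor
  · rintro l ⟨hl, hlu, hlv⟩ m
    rw [join_p huv, join_g huv]
    by_cases h1 : l = s.p u
    · have h2 : l ≠ s.p v := by
        intro h; apply huv; rw [← hinv u, ← hinv v, ← h1, ← h]
      have c1 := eqvGen_mono hE (H.conn l hl m)
      have c2 := eqvGen_mono hE (hj (m + s.g l))
      have c3 := Relation.EqvGen.rel _ _ (hE1 (m + s.g l))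
      have c4 := eqvGen_mono hE (H.conn v hv (m + s.g l))
      have h3 : s.p l = u := by rw [h1, hinv]
      have h4 : s.g l = - s.g u := by rw [h1, hgs]
      rw [h3] at c1
      rw [if_neg hlu, if_neg hlv, if_pos h1, if_neg (not_or.mpr ⟨hlu, hlv⟩), if_pos h1]
      have h5 : m + (s.g v - s.g u) = m + s.g l + s.g v := by rw [h4]; ring
      rw [h5]
      exact (c1.trans _ _ _ (c3.symm _ _)).trans _ _ _ c4
    · by_cases h2 : l = s.p v
      · have c1 := eqvGen_mono hE (H.conn l hl m)
        have h3 : s.p l = v := by rw [h2, hinv]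
        have h4 : s.g l = - s.g v := by rw [h2, hgs]
        rw [h3] at c1
        have c2 := eqvGen_mono hE (hj (m + s.g l))
        have c4 := eqvGen_mono hE (H.conn u hu (m + s.g l))
        rw [if_neg hlu, if_neg hlv, if_neg h1, if_pos h2, if_neg (not_or.mpr ⟨hlu, hlv⟩),
          if_neg h1, if_pos h2]
        have h5 : m + (s.g u - s.g v) = m + s.g l + s.g u := by rw [h4]; ring
        rw [h5]
        exact (c1.trans _ _ _ c2).trans _ _ _ c4
      · simp only [hlu, hlv, h1, h2, if_false, or_self]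
        exact eqvGen_mono hE (H.conn l hl m)
  · intro h' hc
    by_cases hp : s.p u = v
    · have hp' : s.p v = u := by rw [← hp, hinv]
      obtain ⟨Z, hZ, hZ'⟩ := H.pot (fun l m => if l = u ∨ l = v then 0 else h' l m) (by
        intro l m
        by_cases hl : l = u
        · subst hl; simp [hp]
        by_cases hl2 : l = v
        · subst hl2; simp [hp']
        have h1 : s.p l ≠ u := fun h => hl2 (by rw [← hinv l, h, hp])
        have h2 : s.p l ≠ v := fun h => hl (by rw [← hinv l, h, hp'])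
        have := hc l m
        rw [join_p huv, join_g huv] at this
        simp only [hl, hl2, hp, hp', if_false, or_self] at this
        simp only [h1, h2, hl, hl2, or_self, if_false]
        exact this)
      refine ⟨Z, ?_, ?_⟩
      · intro a b hab
        rcases hE2 a b hab with h | ⟨m, rfl, rfl⟩
        · exact hZ a b h
        · have h1 := hZ' u hu m
          have h2 := hZ' v hv m
          have h3 := eqvGen_const hZ (hj m)
          simp only [true_or, or_true, if_true] at h1 h2
          omega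
      · rintro l ⟨hl, hlu, hlv⟩ m
        have := hZ' l hl m
        simpa [hlu, hlv] using this
    · have hp' : s.p v ≠ u := fun h => hp (by rw [← h, hinv])
      have hpp : s.p u ≠ s.p v := fun h => huv (by rw [← hinv u, h, hinv])
      have key : ∀ m, h' (s.p v) (m + s.g v) = - h' (s.p u) (m + s.g u) := by
        intro m
        have := hc (s.p u) (m + s.g u)
        rw [join_p huv, join_g huv] at this
        simp only [hne u, hp, if_false, or_self, if_true] at this
        rw [← this]; congr 1; ring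
      obtain ⟨Z, hZ, hZ'⟩ := H.pot (fun l m => if l = u then - h' (s.p u) (m + s.g u) else
          if l = v then - h' (s.p v) (m + s.g v) else h' l m) (by
        intro l m
        by_cases hl : l = u
        · subst hl; simp [hp, hne]
        by_cases hl2 : l = v
        · subst hl2; simp [hp', hne, hl]
        by_cases hl3 : l = s.p u
        · subst hl3
          simp [hinv, hgs, hne u, hp]
        by_cases hl4 : l = s.p v
        · subst hl4
          simp [hinv, hgs, hne v, hp', huv.symm]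
        have h1 : s.p l ≠ u := fun h => hl3 (by rw [← h, hinv])
        have h2 : s.p l ≠ v := fun h => hl4 (by rw [← h, hinv])
        have := hc l m
        rw [join_p huv, join_g huv] at this
        simp only [hl, hl2, hl3, hl4, if_false, or_self] at this
        simp only [h1, h2, hl, hl2, if_false]
        exact this)
      refine ⟨Z, ?_, ?_⟩
      · intro a b hab
        rcases hE2 a b hab with h | ⟨m, rfl, rfl⟩
        · exact hZ a b h
        · have h1 := hZ' u hu m
          have h2 := hZ' v hv m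
          have h3 := eqvGen_const hZ (hj m)
          have h4 := key m
          simp only [if_true, huv.symm, if_false] at h1 h2
          omega
      · rintro l ⟨hl, hlu, hlv⟩ m
        have := hZ' l hl m
        simpa [hlu, hlv] using this

/-- inserting a small arc `u`–`v` (`u` left, `v` right) around the new faces `N m` -/
theorem Inv.insert {Rel : Λ → Prop} {s : St Λ} {Lf Rf : Λ → ℤ → Φ} {E : Φ → Φ → Prop}
    (H : Inv Rel s Lf Rf E) {u v : Λ} (huv : u ≠ v) (hp : s.p u = v) (hg : s.g u = 0)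
    (hu : ¬ Rel u) (hv : ¬ Rel v)
    {N : ℤ → Φ} (hN : Function.Injective N)
    (hN1 : ∀ a b, E a b → (∀ m, N m ≠ a) ∧ (∀ m, N m ≠ b))
    (hN2 : ∀ l, Rel l → ∀ m m', N m' ≠ Lf l m ∧ N m' ≠ Rf l m)
    {Lf' Rf' : Λ → ℤ → Φ} (hL : ∀ l, l ≠ u → l ≠ v → Lf' l = Lf l)
    (hR : ∀ l, l ≠ u → l ≠ v → Rf' l = Rf l)
    (hNL : ∀ m m', N m' ≠ Lf' u m) (hNR : ∀ m m', N m' ≠ Rf' v m)
    (hRu : Rf' u = N) (hLv : Lf' v = N)
    (hPQ : ∀ m, Relation.EqvGen E (Lf' u m) (Rf' v m)) :
    Inv (fun l => Rel l ∨ l = u ∨ l = v) s Lf' Rf' E := by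
  have hinv := s.inv
  have hne := s.ne
  have hgs := s.gs
  have hp' : s.p v = u := by rw [← hp, hinv]
  have hg' : s.g v = 0 := by rw [← hp, hgs, hg]; rfl
  constructor
  · rintro l hl m
    by_cases h1 : l = u
    · subst h1
      rw [hp, hg, add_zero]
      exact hPQ m
    by_cases h2 : l = v
    · subst h2
      rw [hp', hg', add_zero, hRu, hLv]
      exact Relation.EqvGen.refl _
    have hl' : Rel l := by tauto
    have h3 : s.p l ≠ u := fun h => h2 (by rw [← hinv l, h, hp])
    have h4 : s.p l ≠ v := fun h => h1 (by rw [← hinv l, h, hp'])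
    rw [hL l h1 h2, hR _ h3 h4]
    exact H.conn l hl' m
  · intro h hc
    obtain ⟨Z, hZ, hZ'⟩ := H.pot h hc
    refine ⟨Function.extend N (fun m => Z (Lf' u m) + h u m) Z, ?_, ?_⟩
    · intro a b hab
      obtain ⟨h1, h2⟩ := hN1 a b hab
      rw [Function.extend_apply' _ _ _ (by rintro ⟨m, hm⟩; exact h1 m hm),
        Function.extend_apply' _ _ _ (by rintro ⟨m, hm⟩; exact h2 m hm)]
      exact hZ a b hab
    · intro l hl m
      by_cases h1 : l = u
      · subst h1
        rw [hRu, hN.extend_apply, Function.extend_apply' _ _ _ (by rintro ⟨m', hm⟩; exact hNL _ _ hm)]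
      by_cases h2 : l = v
      · subst h2
        have h3 := hc u m
        rw [hp, hg, add_zero] at h3
        rw [hLv, hN.extend_apply, Function.extend_apply' _ _ _ (by rintro ⟨m', hm⟩; exact hNR _ _ hm),
          h3, ← eqvGen_const hZ (hPQ m)]
        ring
      have hl' : Rel l := by tauto
      rw [hL l h1 h2, hR l h1 h2,
        Function.extend_apply' _ _ _ (by rintro ⟨m', hm⟩; exact (hN2 l hl' _ _).2 hm),
        Function.extend_apply' _ _ _ (by rintro ⟨m', hm⟩; exact (hN2 l hl' _ _).1 hm)]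
      exact hZ' l hl' m

/-- exchanging the adjacent labels `v` (left) and `u` (right); the face between them is joined to the
new face `N m` -/
theorem Inv.swap {Rel : Λ → Prop} {s : St Λ} {Lf Rf : Λ → ℤ → Φ} {E : Φ → Φ → Prop}
    (H : Inv Rel s Lf Rf E) {u v : Λ} (huv : u ≠ v) (hu : Rel u) (hv : Rel v)
    (hj : Rf v = Lf u)
    {N : ℤ → Φ} (hN : Function.Injective N)
    (hN1 : ∀ a b, E a b → (∀ m, N m ≠ a) ∧ (∀ m, N m ≠ b))
    (hN2 : ∀ l, Rel l → ∀ m m', N m' ≠ Lf l m ∧ N m' ≠ Rf l m)
    {Lf' Rf' : Λ → ℤ → Φ} (hL : ∀ l, l ≠ u → l ≠ v → Lf' l = Lf l)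
    (hR : ∀ l, l ≠ u → l ≠ v → Rf' l = Rf l)
    (hLu : Lf' u = Lf v) (hRu : Rf' u = N) (hLv : Lf' v = N) (hRv : Rf' v = Rf u)
    {E' : Φ → Φ → Prop}
    (hE : ∀ a b, E a b → E' a b) (hE1 : ∀ m, E' (Rf v m) (N m))
    (hE2 : ∀ a b, E' a b → E a b ∨ ∃ m, a = Rf v m ∧ b = N m) :
    Inv Rel (St.swap u v s) Lf' Rf' E' := by
  have hinv := s.inv
  have hne := s.ne
  have hgs := s.gs
  have hLc : ∀ l m, Relation.EqvGen E' (Lf' (Equiv.swap u v l) m) (Lf l m) := by
    intro l m
    by_cases h1 : l = u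
    · subst h1
      rw [Equiv.swap_apply_left, hLv, ← hj]
      exact (Relation.EqvGen.rel _ _ (hE1 m)).symm _ _
    by_cases h2 : l = v
    · subst h2
      rw [Equiv.swap_apply_right, hLu]
      exact Relation.EqvGen.refl _
    rw [Equiv.swap_apply_of_ne_of_ne h1 h2, hL l h1 h2]
    exact Relation.EqvGen.refl _
  have hRc : ∀ l m, Relation.EqvGen E' (Rf' (Equiv.swap u v l) m) (Rf l m) := by
    intro l m
    by_cases h1 : l = u
    · subst h1
      rw [Equiv.swap_apply_left, hRv]
      exact Relation.EqvGen.refl _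
    by_cases h2 : l = v
    · subst h2
      rw [Equiv.swap_apply_right, hRu]
      exact (Relation.EqvGen.rel _ _ (hE1 m)).symm _ _
    rw [Equiv.swap_apply_of_ne_of_ne h1 h2, hR l h1 h2]
    exact Relation.EqvGen.refl _
  have hRel : ∀ l, Rel l → Rel (Equiv.swap u v l) := by
    intro l hl
    by_cases h1 : l = u
    · subst h1; rwa [Equiv.swap_apply_left]
    by_cases h2 : l = v
    · subst h2; rwa [Equiv.swap_apply_right]
    rwa [Equiv.swap_apply_of_ne_of_ne h1 h2]
  constructor
  · intro l hl m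
    rw [swap_p, swap_g]
    have c1 := hLc (Equiv.swap u v l) m
    rw [Equiv.swap_apply_self] at c1
    have c2 := eqvGen_mono hE (H.conn _ (hRel l hl) m)
    have c3 := hRc (s.p (Equiv.swap u v l)) (m + s.g (Equiv.swap u v l))
    exact (c1.trans _ _ _ c2).trans _ _ _ (c3.symm _ _)
  · intro h' hc
    obtain ⟨Z, hZ, hZ'⟩ := H.pot (fun l m => h' (Equiv.swap u v l) m) (by
      intro l m
      have := hc (Equiv.swap u v l) m
      rw [swap_p, swap_g, Equiv.swap_apply_self] at this
      exact this)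
    have hext : ∀ a, (∀ m, N m ≠ a) → Function.extend N (fun m => Z (Rf v m)) Z a = Z a := by
      intro a ha
      rw [Function.extend_apply' _ _ _ (by rintro ⟨m', hm⟩; exact ha _ hm)]
    have hE'c : ∀ a b, E' a b → Function.extend N (fun m => Z (Rf v m)) Z a =
        Function.extend N (fun m => Z (Rf v m)) Z b := by
      intro a b hab
      rcases hE2 a b hab with h | ⟨m, rfl, rfl⟩
      · obtain ⟨h1, h2⟩ := hN1 a b h
        rw [hext a h1, hext b h2]
        exact hZ a b h
      · rw [hN.extend_apply, hext _ (fun m' => (hN2 v hv m m').2)]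
    refine ⟨_, hE'c, ?_⟩
    intro l hl m
    have e1 := eqvGen_const hE'c (hLc (Equiv.swap u v l) m)
    have e2 := eqvGen_const hE'c (hRc (Equiv.swap u v l) m)
    rw [Equiv.swap_apply_self] at e1 e2
    rw [e1, e2, hext _ (fun m' => (hN2 _ (hRel l hl) m m').1),
      hext _ (fun m' => (hN2 _ (hRel l hl) m m').2), hZ' _ (hRel l hl)]
    simp only [Equiv.swap_apply_self]

/-- twist -/
theorem Inv.twist {Rel : Λ → Prop} {s : St Λ} {Lf Rf : Λ → ℤ → Φ} {E : Φ → Φ → Prop}
    (H : Inv Rel s Lf Rf E) (u : Λ) (k : ℤ) {Lf' Rf' : Λ → ℤ → Φ}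
    (hL : ∀ l, l ≠ u → Lf' l = Lf l) (hR : ∀ l, l ≠ u → Rf' l = Rf l)
    (hLu : ∀ m, Lf' u m = Lf u (m + k)) (hRu : ∀ m, Rf' u m = Rf u (m + k)) :
    Inv Rel (St.twist u k s) Lf' Rf' E := by
  have hinv := s.inv
  have hne := s.ne
  have hgs := s.gs
  constructor
  · intro l hl m
    rw [twist_p, twist_g]
    by_cases h1 : l = u
    · subst h1
      rw [if_pos rfl, hLu, hR _ (hne l)]
      have := H.conn l hl (m + k)
      have e : m + (s.g l + k) = m + k + s.g l := by ring
      rwa [e]
    rw [if_neg h1, hL l h1]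
    by_cases h2 : l = s.p u
    · rw [if_pos h2]
      have h3 : s.p l = u := by rw [h2, hinv]
      rw [h3, hRu]
      have := H.conn l hl m
      rw [h3] at this
      have e : m + (s.g l - k) + k = m + s.g l := by ring
      rwa [e]
    · rw [if_neg h2]
      have h3 : s.p l ≠ u := fun h => h2 (by rw [← h, hinv])
      rw [hR _ h3]
      exact H.conn l hl m
  · intro h' hc
    obtain ⟨Z, hZ, hZ'⟩ := H.pot (fun l m => if l = u then h' l (m - k) else h' l m) (by
      intro l m
      by_cases h1 : l = u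
      · subst h1
        have := hc l (m - k)
        rw [twist_p, twist_g, if_pos rfl] at this
        simp only [if_true, hne l, if_false]
        rw [← this]; congr 1; ring
      by_cases h2 : l = s.p u
      · have h3 : s.p l = u := by rw [h2, hinv]
        have := hc l m
        rw [twist_p, twist_g, if_neg h1, if_pos h2] at this
        simp only [h3, if_true, h1, if_false]
        rw [← this, h3]; congr 1; ring
      · have h3 : s.p l ≠ u := fun h => h2 (by rw [← h, hinv])
        have := hc l m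
        rw [twist_p, twist_g, if_neg h1, if_neg h2] at this
        simp only [h3, if_false, h1]
        exact this)
    refine ⟨Z, hZ, ?_⟩
    intro l hl m
    by_cases h1 : l = u
    · subst h1
      rw [hLu, hRu, hZ' l hl]
      simp
    · rw [hL l h1, hR l h1, hZ' l hl]
      simp [h1]

/-- the faces of the removed labels do not matter -/
theorem Inv.forget {Rel Rel' : Λ → Prop} {s : St Λ} {Lf Rf : Λ → ℤ → Φ} {E : Φ → Φ → Prop}
    (H : Inv Rel s Lf Rf E) {u v : Λ} (hp : s.p u = v) (hRel : ∀ l, Rel' l → Rel l ∧ l ≠ u ∧ l ≠ v)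
    {Lf' Rf' : Λ → ℤ → Φ}
    (hL : ∀ l, l ≠ u → l ≠ v → Lf' l = Lf l) (hR : ∀ l, l ≠ u → l ≠ v → Rf' l = Rf l) :
    Inv Rel' s Lf' Rf' E := by
  have hinv := s.inv
  have hp' : s.p v = u := by rw [← hp, hinv]
  constructor
  · intro l hl m
    obtain ⟨h0, h1, h2⟩ := hRel l hl
    have h3 : s.p l ≠ u := fun h => h2 (by rw [← hinv l, h, hp])
    have h4 : s.p l ≠ v := fun h => h1 (by rw [← hinv l, h, hp'])
    rw [hL l h1 h2, hR _ h3 h4]
    exact H.conn l h0 m
  · intro h hc
    obtain ⟨Z, hZ, hZ'⟩ := H.pot h hc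
    refine ⟨Z, hZ, ?_⟩
    intro l hl m
    obtain ⟨h0, h1, h2⟩ := hRel l hl
    rw [hL l h1 h2, hR l h1 h2]
    exact hZ' l h0 m

theorem Inv.mono {Rel : Λ → Prop} {s : St Λ} {Lf Rf : Λ → ℤ → Φ} {E E' : Φ → Φ → Prop}
    (H : Inv Rel s Lf Rf E) (h1 : ∀ a b, E a b → E' a b) (h2 : ∀ a b, E' a b → E a b) :
    Inv Rel s Lf Rf E' := by
  have : E = E' := by
    funext a b; exact propext ⟨h1 a b, h2 a b⟩
  rwa [← this]

theorem Inv.congrRel {Rel Rel' : Λ → Prop} {s : St Λ} {Lf Rf : Λ → ℤ → Φ} {E : Φ → Φ → Prop}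
    (H : Inv Rel s Lf Rf E) (h1 : ∀ l, Rel' l → Rel l) :
    Inv Rel' s Lf Rf E :=
  ⟨fun l hl m => H.conn l (h1 l hl) m, fun h hc => by
    obtain ⟨Z, hZ, hZ'⟩ := H.pot h hc
    exact ⟨Z, hZ, fun l hl m => hZ' l (h1 l hl) m⟩⟩

end Lk

end Pool.Agent.H65.Perc
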