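import Mathlib
import Pool.Agent.H65.Perc.LinkAbs

/-!
# One row preserves the invariants (job J1)
-/

namespace Pool.Agent.H65.Perc

open St

namespace Lk

/-- abstract faces: `(row, q, m)` with `0 ≤ q ≤ L` stands for the face `(row, q + m L)` -/
abbrev Fc := ℕ × ℕ × ℤ

/-- processed steps: `A r q`: the crossing `q` of row `r` is processed; `B r`: level `r` is closed -/
inductive Es (L M : ℕ) (ω : ℕ → Fin L → Bool) (A : ℕ → ℕ → Prop) (B : ℕ → Prop) : Fc → Fc → Prop
  | t (r q : ℕ) (m : ℤ) (hA : A r q) (hq : q < L) (hω : ω r ⟨q, hq⟩ = true) :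
      Es L M ω A B (r + 1, q, m) (r, q + 1, m)
  | f (r q : ℕ) (m : ℤ) (hA : A r q) (hq : q < L) (hω : ω r ⟨q, hq⟩ = false) :
      Es L M ω A B (r, q, m) (r + 1, q + 1, m)
  | c (r : ℕ) (m : ℤ) (hB : B r) : Es L M ω A B (r, L, m) (r, 0, m + 1)
  | top (q q' : ℕ) (m m' : ℤ) (h : (q + M) % 2 = 1) (h' : (q' + M) % 2 = 1) :
      Es L M ω A B (M, q, m) (M, q', m')

variable {L M : ℕ} {ω : ℕ → Fin L → Bool}

theorem Es.mono {A A' : ℕ → ℕ → Prop} {B B' : ℕ → Prop} (hA : ∀ r q, q < L → A r q → A' r q)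
    (hB : ∀ r, B r → B' r) (a b : Fc) (h : Es L M ω A B a b) : Es L M ω A' B' a b := by
  cases h with
  | t r q m h1 h2 h3 => exact .t r q m (hA _ _ h2 h1) h2 h3
  | f r q m h1 h2 h3 => exact .f r q m (hA _ _ h2 h1) h2 h3
  | c r m h1 => exact .c r m (hB _ h1)
  | top q q' m m' h1 h2 => exact .top q q' m m' h1 h2

def StA (M r j : ℕ) : ℕ → ℕ → Prop := fun r' q => r' < M ∧ (r < r' ∨ (r' = r ∧ q < j))
def LevB (M r : ℕ) : ℕ → Prop := fun r' => r ≤ r' ∧ r' ≤ M

def LfS (L r j : ℕ) : Lab L → ℤ → Fc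
  | Sum.inl i, m => if (i : ℕ) < j then (r, i, m) else (r + 1, i, m)
  | Sum.inr (k, false), m => if k = 0 then (r + 1, 0, m) else (0, 0, 0)
  | Sum.inr (k, true), m => if k = 0 then (r, j, m) else (0, 0, 0)

def RfS (L r j : ℕ) : Lab L → ℤ → Fc
  | Sum.inl i, m => if (i : ℕ) < j then (r, i + 1, m) else (r + 1, i + 1, m)
  | Sum.inr (k, false), m => if k = 0 then (r, 0, m) else (0, 0, 0)
  | Sum.inr (k, true), m => if k = 0 then (r + 1, j, m) else (0, 0, 0)

def LfL (L r : ℕ) : Lab L → ℤ → Fc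
  | Sum.inl i, m => (r, i, m)
  | Sum.inr _, _ => (0, 0, 0)

def RfL (L r : ℕ) : Lab L → ℤ → Fc
  | Sum.inl i, m => (r, i + 1, m)
  | Sum.inr _, _ => (0, 0, 0)

/-- faces before closing (after the twist) -/
def LfC (L r : ℕ) : Lab L → ℤ → Fc
  | Sum.inl i, m => (r, i, m)
  | Sum.inr (k, false), m => if k = 0 then (r + 1, 0, m + 1) else (0, 0, 0)
  | Sum.inr (k, true), m => if k = 0 then (r, L, m) else (0, 0, 0)

def RfC (L r : ℕ) : Lab L → ℤ → Fc
  | Sum.inl i, m => (r, i + 1, m)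
  | Sum.inr (k, false), m => if k = 0 then (r, 0, m + 1) else (0, 0, 0)
  | Sum.inr (k, true), m => if k = 0 then (r + 1, L, m) else (0, 0, 0)

def RelL (l : Lab L) : Prop := ∃ i : Fin L, l = Sum.inl i
def RelS (l : Lab L) : Prop := RelL l ∨ l = lx 0 ∨ l = ly 0

theorem fresh {r j : ℕ} (hr : r < M) (a b : Fc)
    (h : Es L M ω (StA M r j) (LevB M (r + 1)) a b) :
    (∀ m : ℤ, ((r, j + 1, m) : Fc) ≠ a) ∧ (∀ m : ℤ, ((r, j + 1, m) : Fc) ≠ b) := by
  cases h with
  | t r' q m h1 h2 h3 =>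
    simp only [StA] at h1
    constructor <;> intro m' h <;> simp only [Prod.mk.injEq] at h <;> omega
  | f r' q m h1 h2 h3 =>
    simp only [StA] at h1
    constructor <;> intro m' h <;> simp only [Prod.mk.injEq] at h <;> omega
  | c r' m h1 =>
    simp only [LevB] at h1
    constructor <;> intro m' h <;> simp only [Prod.mk.injEq] at h <;> omega
  | top q q' m m' h1 h2 =>
    constructor <;> intro m' h <;> simp only [Prod.mk.injEq] at h <;> omega

theorem fresh0 {r : ℕ} (hr : r < M) (a b : Fc)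
    (h : Es L M ω (StA M r 0) (LevB M (r + 1)) a b) :
    (∀ m : ℤ, ((r, 0, m) : Fc) ≠ a) ∧ (∀ m : ℤ, ((r, 0, m) : Fc) ≠ b) := by
  cases h with
  | t r' q m h1 h2 h3 =>
    simp only [StA] at h1
    constructor <;> intro m' h <;> simp only [Prod.mk.injEq] at h <;> omega
  | f r' q m h1 h2 h3 =>
    simp only [StA] at h1
    constructor <;> intro m' h <;> simp only [Prod.mk.injEq] at h <;> omega
  | c r' m h1 =>
    simp only [LevB] at h1
    constructor <;> intro m' h <;> simp only [Prod.mk.injEq] at h <;> omega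
  | top q q' m m' h1 h2 =>
    constructor <;> intro m' h <;> simp only [Prod.mk.injEq] at h <;> omega

/-- the beginning of a row -/
theorem row_start {r : ℕ} (hr : r < M) {s : St (Lab L)} (hp : s.p (lx 0) = ly 0)
    (hg : s.g (lx 0) = 0)
    (H : Inv RelL s (LfL L (r + 1)) (RfL L (r + 1)) (Es L M ω (StA M r 0) (LevB M (r + 1)))) :
    Inv RelS s (LfS L r 0) (RfS L r 0) (Es L M ω (StA M r 0) (LevB M (r + 1))) := by
  refine H.insert (u := lx 0) (v := ly 0) (by simp [lx, ly]) hp hg ?_ ?_ (N := fun m => (r, 0, m))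
    ?_ ?_ ?_ ?_ ?_ ?_ ?_ ?_ ?_ ?_
  · rintro ⟨i, h⟩; simp [lx] at h
  · rintro ⟨i, h⟩; simp [ly] at h
  · intro m m' h; simpa using h
  · exact fun a b h => fresh0 hr a b h
  · rintro l ⟨i, rfl⟩ m m'
    constructor <;> intro h <;> simp [LfL, RfL] at h
  · rintro (i | ⟨k, _ | _⟩) h1 h2 <;> funext m <;> simp [LfS, LfL, lx, ly] at h1 h2 ⊢
    · simp [h1]
    · simp [h2]
  · rintro (i | ⟨k, _ | _⟩) h1 h2 <;> funext m <;> simp [RfS, RfL, lx, ly] at h1 h2 ⊢
    · simp [h1]
    · simp [h2]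
  · intro m m' h; simp [LfS, lx] at h
  · intro m m' h; simp [RfS, ly] at h
  · funext m; simp [RfS, lx]
  · funext m; simp [LfS, ly]
  · intro m; simp only [LfS, RfS, lx, ly, if_true]; exact Relation.EqvGen.refl _

/-- one crossing -/
theorem row_step {r j : ℕ} (hr : r < M) (hj : j < L) {s : St (Lab L)}
    (H : Inv RelS s (LfS L r j) (RfS L r j) (Es L M ω (StA M r j) (LevB M (r + 1)))) :
    Inv RelS (crossing (ω r ⟨j, hj⟩) (Sum.inl ⟨j, hj⟩) (ly 0) s) (LfS L r (j + 1))
      (RfS L r (j + 1)) (Es L M ω (StA M r (j + 1)) (LevB M (r + 1))) := by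
  have hne : (Sum.inl ⟨j, hj⟩ : Lab L) ≠ ly 0 := by simp [ly]
  have hRu : RelS (Sum.inl ⟨j, hj⟩ : Lab L) := Or.inl ⟨_, rfl⟩
  have hRv : RelS (ly 0 : Lab L) := Or.inr (Or.inr rfl)
  have hEmono : ∀ a b, Es L M ω (StA M r j) (LevB M (r + 1)) a b →
      Es L M ω (StA M r (j + 1)) (LevB M (r + 1)) a b :=
    Es.mono (fun r' q _ h => by simp only [StA] at h ⊢; omega) (fun _ h => h)
  have hLeq : ∀ l, l ≠ (Sum.inl ⟨j, hj⟩ : Lab L) → l ≠ ly 0 → LfS L r (j + 1) l = LfS L r j l := by
    rintro (i | ⟨k, _ | _⟩) h1 h2 <;> funext m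
    · have h3 : (i : ℕ) ≠ j := fun h => h1 (by rw [Sum.inl.injEq, Fin.ext_iff]; exact h)
      have : ((i : ℕ) < j + 1) ↔ ((i : ℕ) < j) := by omega
      simp only [LfS, this]
    · rfl
    · have h3 : k ≠ 0 := fun h => h2 (by rw [h]; rfl)
      simp [LfS, h3]
  have hReq : ∀ l, l ≠ (Sum.inl ⟨j, hj⟩ : Lab L) → l ≠ ly 0 → RfS L r (j + 1) l = RfS L r j l := by
    rintro (i | ⟨k, _ | _⟩) h1 h2 <;> funext m
    · have h3 : (i : ℕ) ≠ j := fun h => h1 (by rw [Sum.inl.injEq, Fin.ext_iff]; exact h)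
      have : ((i : ℕ) < j + 1) ↔ ((i : ℕ) < j) := by omega
      simp only [RfS, this]
    · rfl
    · have h3 : k ≠ 0 := fun h => h2 (by rw [h]; rfl)
      simp [RfS, h3]
  have hN2 : ∀ l, RelS l → ∀ m m' : ℤ, ((r, j + 1, m') : Fc) ≠ LfS L r j l m ∧
      ((r, j + 1, m') : Fc) ≠ RfS L r j l m := by
    rintro l (⟨i, rfl⟩ | rfl | rfl) m m'
    · simp only [LfS, RfS]
      split_ifs <;> simp only [ne_eq, Prod.mk.injEq] <;> omega
    · simp only [LfS, RfS, lx, if_true, ne_eq, Prod.mk.injEq]; omega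
    · simp only [LfS, RfS, ly, if_true, ne_eq, Prod.mk.injEq]; omega
  have hN : Function.Injective (fun m : ℤ => ((r, j + 1, m) : Fc)) := by
    intro m m' h; simpa using h
  have hst : StA M r (j + 1) r j := ⟨hr, Or.inr ⟨rfl, Nat.lt_succ_self j⟩⟩
  cases hω : ω r ⟨j, hj⟩ with
  | true =>
    simp only [crossing, if_true]
    refine H.swap hne hRu hRv ?_ (N := fun m => (r, j + 1, m)) hN (fun a b h => fresh hr a b h)
      hN2 hLeq hReq ?_ ?_ ?_ ?_ hEmono ?_ ?_
    · funext m; simp [LfS, RfS, ly]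
    · funext m; simp [LfS, ly]
    · funext m; simp [RfS]
    · funext m; simp [LfS, ly]
    · funext m; simp [RfS, ly]
    · intro m
      simp only [RfS, ly, if_true]
      exact .t r j m hst hj hω
    · intro a b h
      cases h with
      | t r' q m h1 h2 h3 =>
        by_cases hq : r' = r ∧ q = j
        · obtain ⟨rfl, rfl⟩ := hq
          right; exact ⟨m, by simp [RfS, ly], rfl⟩
        · left; exact .t r' q m (by simp only [StA] at h1 ⊢; omega) h2 h3
      | f r' q m h1 h2 h3 =>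
        by_cases hq : r' = r ∧ q = j
        · obtain ⟨rfl, rfl⟩ := hq
          rw [hω] at h3; simp at h3
        · left; exact .f r' q m (by simp only [StA] at h1 ⊢; omega) h2 h3
      | c r' m h1 => left; exact .c r' m h1
      | top q q' m m' h1 h2 => left; exact .top q q' m m' h1 h2
  | false =>
    simp only [crossing]
    have H1 := H.remove hne hRu hRv (fun m => by
      simp only [LfS, RfS, ly, if_true, lt_self_iff_false, if_false]; exact Relation.EqvGen.refl _)
      hEmono (fun m => by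
        simp only [LfS, RfS, ly, if_true, lt_self_iff_false, if_false]
        exact .f r j m hst hj hω) (fun a b h => by
        cases h with
        | t r' q m h1 h2 h3 =>
          by_cases hq : r' = r ∧ q = j
          · obtain ⟨rfl, rfl⟩ := hq
            rw [hω] at h3; simp at h3
          · left; exact .t r' q m (by simp only [StA] at h1 ⊢; omega) h2 h3
        | f r' q m h1 h2 h3 =>
          by_cases hq : r' = r ∧ q = j
          · obtain ⟨rfl, rfl⟩ := hq
            right; exact ⟨m, by simp [LfS, ly], by simp [RfS]⟩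
          · left; exact .f r' q m (by simp only [StA] at h1 ⊢; omega) h2 h3
        | c r' m h1 => left; exact .c r' m h1
        | top q q' m m' h1 h2 => left; exact .top q q' m m' h1 h2)
    have H2 := H1.insert (u := Sum.inl ⟨j, hj⟩) (v := ly 0) hne
      (by rw [join_p hne, if_pos rfl]) (by rw [join_g hne, if_pos (Or.inl rfl)])
      (fun h => h.2.1 rfl) (fun h => h.2.2 rfl) hN ?_
      (fun l hl m m' => hN2 l hl.1 m m') hLeq hReq ?_ ?_ ?_ ?_ ?_
    · exact H2.congrRel (fun l hl => by tauto)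
    · intro a b h
      cases h with
      | t r' q m h1 h2 h3 =>
        by_cases hq : r' = r ∧ q = j
        · obtain ⟨rfl, rfl⟩ := hq
          rw [hω] at h3; simp at h3
        · exact fresh (L := L) (ω := ω) hr _ _ (.t r' q m (by simp only [StA] at h1 ⊢; omega) h2 h3)
      | f r' q m h1 h2 h3 =>
        simp only [StA] at h1
        constructor <;> intro m' h <;> simp only [Prod.mk.injEq] at h <;> omega
      | c r' m h1 => exact fresh (L := L) (ω := ω) hr _ _ (.c r' m h1)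
      | top q q' m m' h1 h2 => exact fresh (L := L) (ω := ω) hr _ _ (.top q q' m m' h1 h2)
    · intro m m' h
      simp [LfS] at h
    · intro m m' h
      simp [RfS, ly] at h
    · funext m; simp [RfS]
    · funext m; simp [LfS, ly]
    · intro m
      simp only [LfS, RfS, ly, if_true, lt_add_iff_pos_right, Nat.lt_one_iff, pos_of_gt]
      exact Relation.EqvGen.rel _ _ (.f r j m hst hj hω)

end Lk

end Pool.Agent.H65.Perc
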