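import Mathlib
import Pool.Agent.H65.Perc.LinkRow

/-!
# All rows (job J1)
-/

namespace Pool.Agent.H65.Perc

open St

namespace Lk

variable {L M : ℕ} {ω : ℕ → Fin L → Bool}

def LevA (M r : ℕ) : ℕ → ℕ → Prop := fun r' _ => r ≤ r' ∧ r' < M

theorem row_sweep {r : ℕ} (hr : r < M) {s : St (Lab L)}
    (H : Inv RelS s (LfS L r 0) (RfS L r 0) (Es L M ω (StA M r 0) (LevB M (r + 1)))) :
    Inv RelS (sweep 0 (ω r) s) (LfS L r L) (RfS L r L)
      (Es L M ω (StA M r L) (LevB M (r + 1))) := by
  have key : ∀ j ≤ L, Inv RelS (((List.finRange L).take j).foldl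
      (fun s i => crossing (ω r i) (Sum.inl i) (ly 0) s) s) (LfS L r j) (RfS L r j)
      (Es L M ω (StA M r j) (LevB M (r + 1))) := by
    intro j
    induction j with
    | zero => intro _; simpa using H
    | succ j ih =>
      intro hj
      have h1 := row_step hr (by omega : j < L) (ih (by omega))
      have h2 : (List.finRange L).take (j + 1) = (List.finRange L).take j ++ [⟨j, by omega⟩] := by
        rw [List.take_add_one, List.getElem?_eq_getElem (by simp; omega)]
        simp
      rw [h2, List.foldl_append]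
      exact h1
  have := key L le_rfl
  rw [List.take_of_length_le (by simp)] at this
  exact this

theorem row_close {r : ℕ} (hr : r < M) {s : St (Lab L)}
    (H : Inv RelS s (LfS L r L) (RfS L r L) (Es L M ω (StA M r L) (LevB M (r + 1)))) :
    Inv RelL (closeLine 0 s) (LfL L r) (RfL L r) (Es L M ω (LevA M r) (LevB M r)) := by
  have hxy : (lx 0 : Lab L) ≠ ly 0 := by simp [lx, ly]
  have H1 : Inv RelS (twist (lx 0) 1 s) (LfC L r) (RfC L r)
      (Es L M ω (StA M r L) (LevB M (r + 1))) := by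
    refine H.twist (lx 0) 1 ?_ ?_ ?_ ?_
    · rintro (i | ⟨k, _ | _⟩) h1 <;> funext m
      · simp [LfC, LfS]
      · have h3 : k ≠ 0 := fun h => h1 (by rw [h]; rfl)
        simp [LfC, LfS, h3]
      · simp [LfC, LfS]
    · rintro (i | ⟨k, _ | _⟩) h1 <;> funext m
      · simp [RfC, RfS]
      · have h3 : k ≠ 0 := fun h => h1 (by rw [h]; rfl)
        simp [RfC, RfS, h3]
      · simp [RfC, RfS]
    · intro m; simp [LfC, LfS, lx]
    · intro m; simp [RfC, RfS, lx]
  have H2 := H1.remove (E' := Es L M ω (LevA M r) (LevB M r)) hxy (Or.inr (Or.inl rfl))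
    (Or.inr (Or.inr rfl)) (fun m => by
      simp only [RfC, LfC, lx, ly, if_true]
      exact Relation.EqvGen.rel _ _ (.c (r + 1) m ⟨le_rfl, hr⟩))
    (Es.mono (fun r' q _ h => by simp only [StA, LevA] at h ⊢; omega)
      (fun r' h => by simp only [LevB] at h ⊢; omega))
    (fun m => by
      simp only [RfC, LfC, lx, ly, if_true]
      exact .c r m ⟨le_rfl, hr.le⟩)
    (fun a b h => by
      cases h with
      | t r' q m h1 h2 h3 => left; exact .t r' q m (by simp only [StA, LevA] at h1 ⊢; omega) h2 h3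
      | f r' q m h1 h2 h3 => left; exact .f r' q m (by simp only [StA, LevA] at h1 ⊢; omega) h2 h3
      | c r' m h1 =>
        by_cases h2 : r' = r
        · subst h2; right; exact ⟨m, by simp [LfC, ly], by simp [RfC, lx]⟩
        · left; exact .c r' m (by simp only [LevB] at h1 ⊢; omega)
      | top q q' m m' h1 h2 => left; exact .top q q' m m' h1 h2)
  refine H2.forget (u := lx 0) (v := ly 0) (by rw [join_p hxy, if_pos rfl]) ?_ ?_ ?_
  · rintro l ⟨i, rfl⟩
    simp [RelS, RelL, lx, ly]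
  · rintro (i | ⟨k, _ | _⟩) h1 h2 <;> funext m
    · rfl
    · have h3 : k ≠ 0 := fun h => h1 (by rw [h]; rfl)
      simp [LfC, LfL, h3]
    · have h3 : k ≠ 0 := fun h => h2 (by rw [h]; rfl)
      simp [LfC, LfL, h3]
  · rintro (i | ⟨k, _ | _⟩) h1 h2 <;> funext m
    · rfl
    · have h3 : k ≠ 0 := fun h => h1 (by rw [h]; rfl)
      simp [RfC, RfL, h3]
    · have h3 : k ≠ 0 := fun h => h2 (by rw [h]; rfl)
      simp [RfC, RfL, h3]

theorem row_main {r : ℕ} (hr : r < M) {s : St (Lab L)} (hs : AllIdle s)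
    (H : Inv RelL s (LfL L (r + 1)) (RfL L (r + 1)) (Es L M ω (LevA M (r + 1)) (LevB M (r + 1)))) :
    Inv RelL (rowMap 0 (ω r) s) (LfL L r) (RfL L r) (Es L M ω (LevA M r) (LevB M r)) := by
  refine row_close hr (row_sweep hr (row_start hr (hs 0).1 (hs 0).2 (H.mono ?_ ?_)))
  · exact Es.mono (fun r' q _ h => by simp only [StA, LevA] at h ⊢; omega) (fun _ h => h)
  · exact Es.mono (fun r' q _ h => by simp only [StA, LevA] at h ⊢; omega) (fun _ h => h)

/-- the line `k` is idle -/
def Idle (k : Fin 3) (s : St (Lab L)) : Prop := s.p (lx k) = ly k ∧ s.g (lx k) = 0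

theorem idle_crossing {k : Fin 3} (hk : k ≠ 0) (b : Bool) (i : Fin L) {s : St (Lab L)}
    (hs : Idle k s) : Idle k (crossing b (Sum.inl i) (ly 0) s) := by
  obtain ⟨h1, h2⟩ := hs
  have e1 : (lx k : Lab L) ≠ Sum.inl i := by simp [lx]
  have e2 : (lx k : Lab L) ≠ ly 0 := by simp [lx, ly]
  have e3 : (ly k : Lab L) ≠ Sum.inl i := by simp [ly]
  have e4 : (ly k : Lab L) ≠ ly 0 := by simp [ly, hk]
  have e5 : (Sum.inl i : Lab L) ≠ ly 0 := by simp [ly]
  have hinv := s.inv
  cases b with
  | true =>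
    simp only [crossing, if_true, Idle, swap_p, swap_g]
    rw [Equiv.swap_apply_of_ne_of_ne e1 e2, h1, Equiv.swap_apply_of_ne_of_ne e3 e4]
    exact ⟨rfl, h2⟩
  | false =>
    have e6 : (lx k : Lab L) ≠ s.p (Sum.inl i) := fun h => e3 (by rw [← h1, h, hinv])
    have e7 : (lx k : Lab L) ≠ s.p (ly 0) := fun h => e4 (by rw [← h1, h, hinv])
    simp only [crossing, Idle, join_p e5, join_g e5, e1, e2, e6, e7, if_false, or_self,
      Bool.false_eq_true]
    exact ⟨h1, h2⟩

theorem idle_close {k : Fin 3} (hk : k ≠ 0) {s : St (Lab L)}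
    (hs : Idle k s) : Idle k (closeLine 0 s) := by
  obtain ⟨h1, h2⟩ := hs
  have e1 : (lx k : Lab L) ≠ lx 0 := by simp [lx, hk]
  have e2 : (lx k : Lab L) ≠ ly 0 := by simp [lx, ly]
  have e3 : (ly k : Lab L) ≠ lx 0 := by simp [ly, lx]
  have e4 : (ly k : Lab L) ≠ ly 0 := by simp [ly, hk]
  have e5 : (lx 0 : Lab L) ≠ ly 0 := by simp [lx, ly]
  have hinv := s.inv
  have e6 : (lx k : Lab L) ≠ s.p (lx 0) := fun h => e3 (by rw [← h1, h, hinv])
  have e7 : (lx k : Lab L) ≠ s.p (ly 0) := fun h => e4 (by rw [← h1, h, hinv])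
  simp only [closeLine, Idle, join_p e5, join_g e5, twist_p, twist_g, e1, e2, e6, e7, if_false,
    or_self]
  exact ⟨h1, h2⟩

theorem allIdle_rowMap0 (row : Fin L → Bool) {s : St (Lab L)} (hs : AllIdle s) :
    AllIdle (rowMap 0 row s) := by
  intro k
  by_cases hk : k = 0
  · subst hk
    have e5 : (lx 0 : Lab L) ≠ ly 0 := by simp [lx, ly]
    simp only [rowMap, closeLine, join_p e5, join_g e5, if_true, true_or, and_self]
  · have key : ∀ (l : List (Fin L)) (s : St (Lab L)), Idle k s →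
        Idle k (l.foldl (fun s i => crossing (row i) (Sum.inl i) (ly 0) s) s) := by
      intro l
      induction l with
      | nil => intro s h; exact h
      | cons a l ih => intro s h; exact ih _ (idle_crossing hk _ _ h)
    exact idle_close hk (key _ _ (hs k))

theorem run_main : ∀ r ≤ M, ∀ s : St (Lab L), AllIdle s →
    Inv RelL s (LfL L r) (RfL L r) (Es L M ω (LevA M r) (LevB M r)) →
    AllIdle (runRows ω r s) ∧
    Inv RelL (runRows ω r s) (LfL L 0) (RfL L 0) (Es L M ω (LevA M 0) (LevB M 0)) := by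
  intro r
  induction r with
  | zero => intro _ s hs H; exact ⟨hs, H⟩
  | succ r ih =>
    intro hr s hs H
    exact ih (by omega) _ (allIdle_rowMap0 _ hs) (row_main (by omega) hs H)

end Lk

end Pool.Agent.H65.Perc
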