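import Mathlib
import Pool.Agent.H65.Perc.LinkRun

/-! JOB J1 (MP_fe58d8_pr): percolation–loop link. -/

namespace Pool.Agent.H65.Perc

open St

namespace Lk

/-! ### the top state -/

section top

variable (n M : ℕ) [NeZero (2 * n)]

theorem val_finRotate {L : ℕ} [NeZero L] (i : Fin L) :
    ((finRotate L i : Fin L) : ℕ) = if (i : ℕ) + 1 = L then 0 else (i : ℕ) + 1 := by
  obtain ⟨k, rfl⟩ : ∃ k, L = k + 1 := ⟨L - 1, by have := i.isLt; omega⟩
  rw [coe_finRotate]
  by_cases h : i = Fin.last k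
  · subst h; simp
  · have : (i : ℕ) ≠ k := fun h' => h (Fin.ext h')
    simp [h, this]

/-- partner in `pi0` -/
def pt (n : ℕ) (i : Fin (2 * n)) : Fin (2 * n) :=
  ⟨if i.val % 2 = 0 then i.val + 1 else i.val - 1, by have := i.isLt; split_ifs <;> omega⟩

theorem pi0_inl (n : ℕ) (i : Fin (2 * n)) : (pi0 n).p (Sum.inl i) = Sum.inl (pt n i) := rfl

theorem cap_spec (i : Fin (2 * n)) : ∃ j : Fin (2 * n), (cap n M).p (Sum.inl i) = Sum.inl j ∧
    (((i + M) % 2 = 1 ∧ (((i : ℕ) + 1 < 2 * n ∧ (j : ℕ) = i + 1 ∧ (cap n M).g (Sum.inl i) = 0) ∨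
        ((i : ℕ) + 1 = 2 * n ∧ (j : ℕ) = 0 ∧ (cap n M).g (Sum.inl i) = 1))) ∨
      ((i + M) % 2 = 0 ∧ ((1 ≤ (i : ℕ) ∧ (j : ℕ) = i - 1 ∧ (cap n M).g (Sum.inl i) = 0) ∨
        ((i : ℕ) = 0 ∧ (j : ℕ) = 2 * n - 1 ∧ (cap n M).g (Sum.inl i) = -1)))) := by
  have hi := i.isLt
  by_cases hM : M % 2 = 1
  · simp only [cap, hM, if_true]
    refine ⟨_, pi0_inl n i, ?_⟩
    have hg : (pi0 n).g (Sum.inl i) = 0 := rfl
    have hv : ((pt n i : Fin (2 * n)) : ℕ) = if i.val % 2 = 0 then i.val + 1 else i.val - 1 := rfl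
    rw [hg, hv]
    split_ifs <;> omega
  · simp only [cap, hM, if_false]
    set j := (finRotate (2 * n)).symm (pt n (finRotate (2 * n) i)) with hj
    have hp : (rot (pi0 n)).p (Sum.inl i) = Sum.inl j := rfl
    have hv : ((finRotate (2 * n) i : Fin (2 * n)) : ℕ) = if (i : ℕ) + 1 = 2 * n then 0 else
      (i : ℕ) + 1 := val_finRotate i
    have hw : ((pt n (finRotate (2 * n) i) : Fin (2 * n)) : ℕ) = if (j : ℕ) + 1 = 2 * n then 0 else
        (j : ℕ) + 1 := by
      rw [← val_finRotate j, hj, Equiv.apply_symm_apply]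
    have hw' : ((pt n (finRotate (2 * n) i) : Fin (2 * n)) : ℕ) =
      if ((finRotate (2 * n) i : Fin (2 * n)) : ℕ) % 2 = 0 then
        ((finRotate (2 * n) i : Fin (2 * n)) : ℕ) + 1 else
        ((finRotate (2 * n) i : Fin (2 * n)) : ℕ) - 1 := rfl
    have hg : (rot (pi0 n)).g (Sum.inl i) =
        if ((finRotate (2 * n) i : Fin (2 * n)) : ℕ) = 0 then 1 else
        if ((finRotate (2 * n) i : Fin (2 * n)) : ℕ) = 1 then -1 else 0 := by
      have h0 : ((0 : Fin (2 * n)) : ℕ) = 0 := by simp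
      have h1 : ((pt n 0 : Fin (2 * n)) : ℕ) = 1 := by simp [pt]
      simp only [rot, perm_g, twist_g, Equiv.sumCongr_apply, Sum.map_inl, pi0_inl, Sum.inl.injEq,
        Fin.ext_iff, h0, h1]
      rfl
    refine ⟨j, hp, ?_⟩
    rw [hg]
    generalize ((finRotate (2 * n) i : Fin (2 * n)) : ℕ) = x at *
    generalize ((pt n (finRotate (2 * n) i) : Fin (2 * n)) : ℕ) = y at *
    have := j.isLt
    split_ifs at hv hw hw' ⊢ <;> omega

theorem cap_allIdle : AllIdle (cap n M) := by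
  intro k
  by_cases hM : M % 2 = 1
  · simp only [cap, hM, if_true]
    exact ⟨rfl, rfl⟩
  · simp only [cap, hM, if_false, rot, perm_p, perm_g, twist_p, twist_g]
    constructor
    · rfl
    · simp [lx, pi0]

theorem cap_inv (ω : ℕ → Fin (2 * n) → Bool) : Inv RelL (cap n M) (LfL (2 * n) M) (RfL (2 * n) M)
    (Es (2 * n) M ω (LevA M M) (LevB M M)) := by
  have hn : 0 < 2 * n := Nat.pos_of_ne_zero (NeZero.ne _)
  constructor
  · rintro l ⟨i, rfl⟩ m
    obtain ⟨j, hj, h⟩ := cap_spec n M i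
    rw [hj]
    simp only [LfL, RfL]
    have hi := i.isLt
    rcases h with ⟨h1, ⟨h2, h3, h4⟩ | ⟨h2, h3, h4⟩⟩ | ⟨h1, ⟨h2, h3, h4⟩ | ⟨h2, h3, h4⟩⟩
    · exact Relation.EqvGen.rel _ _ (.top _ _ _ _ h1 (by omega))
    · exact Relation.EqvGen.rel _ _ (.top _ _ _ _ h1 (by omega))
    · have : (j : ℕ) + 1 = i := by omega
      rw [this, h4, add_zero]
      exact Relation.EqvGen.refl _
    · have e1 : (j : ℕ) + 1 = 2 * n := by omega
      have e2 : m + (cap n M).g (Sum.inl i) = m - 1 := by rw [h4]; ring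
      rw [e1, e2, h2]
      have := Es.c (L := 2 * n) (M := M) (ω := ω) (A := LevA M M) (B := LevB M M) M (m - 1)
        ⟨le_rfl, le_rfl⟩
      rw [sub_add_cancel] at this
      exact (Relation.EqvGen.rel _ _ this).symm _ _
  · intro h hc
    refine ⟨fun a => if (a.2.1 + M) % 2 = 1 then 0 else if a.2.1 = 0 then
      h (Sum.inl ⟨2 * n - 1, by omega⟩) (a.2.2 - 1) else
      if hq : a.2.1 - 1 < 2 * n then h (Sum.inl ⟨a.2.1 - 1, hq⟩) a.2.2 else 0, ?_, ?_⟩
    · intro a b hab
      cases hab with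
      | t r q m h1 h2 h3 => simp only [LevA] at h1; omega
      | f r q m h1 h2 h3 => simp only [LevA] at h1; omega
      | c r m h1 =>
        simp only [LevB] at h1
        have : r = M := by omega
        subst this
        by_cases hr : r % 2 = 1
        · have e1 : (2 * n + r) % 2 = 1 := by omega
          have e2 : (0 + r) % 2 = 1 := by omega
          simp only [e1, e2, if_true]
        · have e1 : (2 * n + r) % 2 ≠ 1 := by omega
          have e2 : (0 + r) % 2 ≠ 1 := by omega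
          have e3 : 2 * n ≠ 0 := by omega
          have e4 : 2 * n - 1 < 2 * n := by omega
          simp only [e1, e2, e3, e4, if_false, if_true, dif_pos, add_sub_cancel_right]
      | top q q' m m' h1 h2 => simp only [h1, h2, if_true]
    · rintro l ⟨i, rfl⟩ m
      obtain ⟨j, hj, hh⟩ := cap_spec n M i
      have hcc := hc (Sum.inl i) m
      rw [hj] at hcc
      simp only [LfL, RfL]
      have hi := i.isLt
      rcases hh with ⟨h1, -⟩ | ⟨h1, ⟨h2, h3, h4⟩ | ⟨h2, h3, h4⟩⟩
      · have e1 : ((i : ℕ) + 1 + M) % 2 ≠ 1 := by omega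
        have e2 : (i : ℕ) + 1 ≠ 0 := by omega
        simp [e1, h1]
      · have e1 : ((i : ℕ) + 1 + M) % 2 = 1 := by omega
        have e2 : ((i : ℕ) + M) % 2 ≠ 1 := by omega
        have e3 : (i : ℕ) ≠ 0 := by omega
        have e4 : (i : ℕ) - 1 < 2 * n := by omega
        have e5 : (⟨(i : ℕ) - 1, e4⟩ : Fin (2 * n)) = j := Fin.ext h3.symm
        rw [h4, add_zero] at hcc
        simp only [e1, e2, e3, e4, if_true, if_false, dif_pos, e5, hcc]
        ring
      · have e1 : ((i : ℕ) + 1 + M) % 2 = 1 := by omega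
        have e2 : ((i : ℕ) + M) % 2 ≠ 1 := by omega
        have e5 : (⟨2 * n - 1, by omega⟩ : Fin (2 * n)) = j := Fin.ext h3.symm
        rw [h4, ← sub_eq_add_neg] at hcc
        rw [if_pos e1, if_neg e2, if_pos h2, e5, hcc]
        ring

end top

/-! ### the combinatorial conclusion -/

theorem sep {τ : ℤ → ℤ} {R : ℤ → ℤ → Prop} {a : ℤ} (ha : a < τ a)
    (h5 : ∃ z : ℤ → ℤ, (∀ k k', R k k' → z k = z k') ∧
      ∀ k, z (k + 1) = z k + (if k = a then 1 else 0) - (if k = τ a then 1 else 0))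
    {k k' : ℤ} (h : R k k') : (a < k ∧ k ≤ τ a) ↔ (a < k' ∧ k' ≤ τ a) := by
  obtain ⟨z, hz, hz'⟩ := h5
  have key : ∀ k, z k = z a + if (a < k ∧ k ≤ τ a) then 1 else 0 := by
    intro k
    refine Int.inductionOn' k a ?_ ?_ ?_
    · simp
    · intro k hk ih
      have := hz' k
      split_ifs at this ih ⊢ <;> omega
    · intro k hk ih
      have := hz' (k - 1)
      rw [sub_add_cancel] at this
      split_ifs at this ih ⊢ <;> omega
  have h1 := key k
  have h2 := key k'
  have h3 := hz k k' h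
  split_ifs at h1 h2 with h4 h5 h5 <;> omega

theorem pure_link {L : ℤ} (hL : 0 < L) {τ : ℤ → ℤ} {R : ℤ → ℤ → Prop}
    (hrefl : ∀ k, R k k) (htrans : ∀ k k' k'', R k k' → R k' k'' → R k k'')
    (h1 : ∀ k, τ (τ k) = k) (h2 : ∀ k, τ k ≠ k) (h3 : ∀ k m, τ (k + m * L) = τ k + m * L)
    (h4 : ∀ k, R k (τ k + 1))
    (h5 : ∀ a, ∃ z : ℤ → ℤ, (∀ k k', R k k' → z k = z k') ∧
      ∀ k, z (k + 1) = z k + (if k = a then 1 else 0) - (if k = τ a then 1 else 0)) (c : ℤ) :
    (∃ m : ℤ, m ≠ 0 ∧ R c (c + m * L)) ↔ ∀ k, (k < c ↔ τ k < c) := by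
  constructor
  · rintro ⟨m, hm, hR⟩
    by_contra hcon
    push Not at hcon
    obtain ⟨a, ha1, ha2⟩ : ∃ a, a < c ∧ c ≤ τ a := by
      obtain ⟨k, ⟨hk1, hk2⟩ | ⟨hk1, hk2⟩⟩ := hcon
      · exact ⟨k, hk1, hk2⟩
      · exact ⟨τ k, hk2, by rw [h1]; exact hk1⟩
    have hs := sep (by omega) (h5 a) hR
    have hin := hs.1 ⟨ha1, ha2⟩
    have key : ∀ p : ℤ, 0 < p → a + p * L ≤ τ a → False := by
      intro p hp hle
      have hpos : 0 < p * L := mul_pos hp hL
      have h6 := sep (by omega) (h5 a) (h4 (a + p * L))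
      have h7 := (h6.1 ⟨by omega, hle⟩).2
      rw [h3] at h7
      omega
    rcases lt_or_gt_of_ne hm with hneg | hpos
    · apply key (-m) (by omega)
      have : -m * L = -(m * L) := by ring
      rw [this]
      omega
    · apply key m hpos
      omega
  · intro hc
    refine ⟨1, one_ne_zero, ?_⟩
    rw [one_mul]
    have hcL : ∀ k, (k < c + L ↔ τ k < c + L) := by
      intro k
      have := hc (k - L)
      have h6 := h3 (k - L) 1
      rw [one_mul, sub_add_cancel] at h6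
      omega
    have key : ∀ t : ℕ, ∀ c', (∀ k, (k < c' ↔ τ k < c')) → c' ≤ c + L → (c + L - c').toNat ≤ t →
        R c' (c + L) := by
      intro t
      induction t with
      | zero =>
        intro c' _ hle ht
        have : c' = c + L := by omega
        rw [this]; exact hrefl _
      | succ t ih =>
        intro c' hc' hle ht
        rcases eq_or_lt_of_le hle with heq | hlt
        · rw [heq]; exact hrefl _
        · have g1 := hc' c'
          have g2 := h2 c'
          have g3 := hcL c'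
          have g4 : c' < τ c' := by omega
          refine htrans _ _ _ (h4 c') (ih (τ c' + 1) ?_ (by omega) (by omega))
          have one : ∀ k, k < τ c' + 1 → τ k < τ c' + 1 := by
            intro k hk
            by_cases e1 : k < c'
            · have := (hc' k).1 e1
              omega
            · by_cases e2 : k = c'
              · subst e2; omega
              · have g5 := (sep g4 (h5 c') (h4 k)).1 ⟨by omega, by omega⟩
                omega
          intro k
          refine ⟨one k, fun hk => ?_⟩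
          have := one (τ k) hk
          rwa [h1] at this
    exact key (c + L - c).toNat c hc (by omega) le_rfl

/-! ### transfer to the actual faces -/

section final

variable {L : ℕ} [NeZero L]

theorem modFin_spec (k : ℤ) : ((modFin k : Fin L) : ℤ) + k / L * L = k := by
  have hL : (L : ℤ) ≠ 0 := by exact_mod_cast NeZero.ne L
  have h1 := Int.emod_nonneg k hL
  have h2 : ((modFin k : Fin L) : ℤ) = k % L := by
    simp only [modFin]
    exact Int.toNat_of_nonneg h1
  rw [h2]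
  have := Int.emod_add_mul_ediv k L
  linarith

theorem div_add (i : Fin L) (m : ℤ) : ((i : ℤ) + m * L) / L = m := by
  have hL : (L : ℤ) ≠ 0 := by exact_mod_cast NeZero.ne L
  rw [Int.add_mul_ediv_right _ _ hL, Int.ediv_eq_zero_of_lt (by positivity)
    (by exact_mod_cast i.isLt), zero_add]

theorem modFin_add (i : Fin L) (m : ℤ) : modFin ((i : ℤ) + m * L) = i := by
  have h1 := modFin_spec (L := L) ((i : ℤ) + m * L)
  rw [div_add] at h1
  apply Fin.ext
  have : ((modFin ((i : ℤ) + m * L) : Fin L) : ℤ) = (i : ℤ) := by linarith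
  exact_mod_cast this

variable {M : ℕ} {ω : ℕ → Fin L → Bool}

/-- all the steps, with the artificial joining at the top -/
def EA (M : ℕ) (ω : ℕ → Fin L → Bool) (a b : ℕ × ℤ) : Prop :=
  FStep M ω a b ∨ ∃ c c' : ℤ, (c + M) % 2 = 1 ∧ (c' + M) % 2 = 1 ∧ a = (M, c) ∧ b = (M, c')

def pr (L : ℕ) (a : Fc) : ℕ × ℤ := (a.1, (a.2.1 : ℤ) + a.2.2 * L)

theorem es_ea (hL : Even L) {a b : Fc} (h : Es L M ω (LevA M 0) (LevB M 0) a b) :
    Relation.EqvGen (EA M ω) (pr L a) (pr L b) := by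
  have hLe : ∀ m : ℤ, (m * L) % 2 = 0 := by
    intro m
    obtain ⟨k, hk⟩ := hL
    rw [hk]; push_cast
    have : m * ((k : ℤ) + k) = 2 * (m * k) := by ring
    omega
  cases h with
  | t r q m h1 h2 h3 =>
    refine Relation.EqvGen.rel _ _ (Or.inl ⟨r, h1.2, (q : ℤ) + m * L, Or.inl ⟨?_, ?_, ?_⟩⟩)
    · rw [modFin_add ⟨q, h2⟩ m]; exact h3
    · rfl
    · simp only [pr]; push_cast; congr 1; ring
  | f r q m h1 h2 h3 =>
    refine Relation.EqvGen.rel _ _ (Or.inl ⟨r, h1.2, (q : ℤ) + m * L, Or.inr ⟨?_, ?_, ?_⟩⟩)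
    · rw [modFin_add ⟨q, h2⟩ m]; exact h3
    · rfl
    · simp only [pr]; push_cast; congr 1; ring
  | c r m h1 =>
    have : pr L (r, 0, m + 1) = pr L (r, L, m) := by
      simp only [pr]; push_cast; congr 1; ring
    rw [this]
    exact Relation.EqvGen.refl _
  | top q q' m m' h1 h2 =>
    have e1 := hLe m
    have e2 := hLe m'
    refine Relation.EqvGen.rel _ _ (Or.inr ⟨(q : ℤ) + m * L, (q' : ℤ) + m' * L, ?_, ?_, rfl, rfl⟩)
      <;> omega

theorem eqvGen_es_ea (hL : Even L) {a b : Fc}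
    (h : Relation.EqvGen (Es L M ω (LevA M 0) (LevB M 0)) a b) :
    Relation.EqvGen (EA M ω) (pr L a) (pr L b) := by
  induction h with
  | rel a b h => exact es_ea hL h
  | refl a => exact Relation.EqvGen.refl _
  | symm a b _ ih => exact ih.symm _ _
  | trans a b c _ _ ih1 ih2 => exact ih1.trans _ _ _ ih2

/-- the potential on the actual faces -/
def ZA (L : ℕ) [NeZero L] (Z : Fc → ℤ) (a : ℕ × ℤ) : ℤ := Z (a.1, ((modFin a.2 : Fin L) : ℕ), a.2 / L)

theorem za_pr {Z : Fc → ℤ} (hZ : ∀ a b, Es L M ω (LevA M 0) (LevB M 0) a b → Z a = Z b)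
    {r q : ℕ} (hr : r ≤ M) (hq : q ≤ L) (m : ℤ) : ZA L Z (r, (q : ℤ) + m * L) = Z (r, q, m) := by
  rcases eq_or_lt_of_le hq with rfl | hlt
  · have e : ((q : ℕ) : ℤ) + m * (q : ℕ) = (((0 : Fin q) : ℕ) : ℤ) + (m + 1) * (q : ℕ) := by
      simp; ring
    simp only [ZA]
    rw [e, modFin_add, div_add]
    have := hZ _ _ (Es.c r m ⟨Nat.zero_le _, hr⟩)
    rw [this]
    simp
  · simp only [ZA]
    have e1 := modFin_add (⟨q, hlt⟩ : Fin L) m
    have e2 := div_add (⟨q, hlt⟩ : Fin L) m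
    simp only at e1 e2
    rw [e1, e2]

theorem za_ea (hL : Even L) {Z : Fc → ℤ}
    (hZ : ∀ a b, Es L M ω (LevA M 0) (LevB M 0) a b → Z a = Z b) (a b : ℕ × ℤ) (h : EA M ω a b) :
    ZA L Z a = ZA L Z b := by
  rcases h with ⟨r, hr, k, ⟨h1, rfl, rfl⟩ | ⟨h1, rfl, rfl⟩⟩ | ⟨c, c', h1, h2, rfl, rfl⟩
  · have hk := modFin_spec (L := L) k
    set i : Fin L := modFin k with hi
    have e1 : k = ((i : ℕ) : ℤ) + k / L * L := hk.symm
    have e2 : k + 1 = (((i : ℕ) + 1 : ℕ) : ℤ) + k / L * L := by push_cast; linarith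
    have f1 := za_pr hZ (q := i) (m := k / L) (Nat.succ_le_of_lt hr) i.isLt.le
    have f2 := za_pr hZ (q := (i : ℕ) + 1) (m := k / L) hr.le i.isLt
    rw [← e1] at f1
    rw [← e2] at f2
    have hs := hZ _ _ (Es.t (L := L) (M := M) (ω := ω) r i (k / L) ⟨Nat.zero_le _, hr⟩ i.isLt h1)
    rw [f2, ← hs]
    exact f1
  · have hk := modFin_spec (L := L) k
    set i : Fin L := modFin k with hi
    have e1 : k = ((i : ℕ) : ℤ) + k / L * L := hk.symm
    have e2 : k + 1 = (((i : ℕ) + 1 : ℕ) : ℤ) + k / L * L := by push_cast; linarith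
    have f1 := za_pr hZ (q := i) (m := k / L) hr.le i.isLt.le
    have f2 := za_pr hZ (q := (i : ℕ) + 1) (m := k / L) (Nat.succ_le_of_lt hr) i.isLt
    rw [← e1] at f1
    rw [← e2] at f2
    have hs := hZ _ _ (Es.f (L := L) (M := M) (ω := ω) r i (k / L) ⟨Nat.zero_le _, hr⟩ i.isLt h1)
    rw [f1, hs]
    exact f2.symm
  · have hLe : ∀ m : ℤ, (m * L) % 2 = 0 := by
      intro m
      obtain ⟨k, hk⟩ := hL
      rw [hk]; push_cast
      have : m * ((k : ℤ) + k) = 2 * (m * k) := by ring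
      omega
    have k1 := modFin_spec (L := L) c
    have k2 := modFin_spec (L := L) c'
    have l1 := hLe (c / L)
    have l2 := hLe (c' / L)
    simp only [ZA]
    set i : Fin L := modFin c with hi
    set i' : Fin L := modFin c' with hi'
    exact hZ _ _ (Es.top _ _ _ _ (by omega) (by omega))

theorem ea_parity {a b : ℕ × ℤ} (h : Relation.EqvGen (EA M ω) a b) :
    ((a.1 + a.2) % 2 = (b.1 + b.2) % 2) ∧ (((a.1 : ℤ) + a.2) % 2 = 0 → FConn M ω a b) := by
  induction h with
  | rel a b h =>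
    rcases h with h | ⟨c, c', h1, h2, rfl, rfl⟩
    · refine ⟨?_, fun _ => Relation.EqvGen.rel _ _ h⟩
      obtain ⟨r, hr, k, ⟨h1, rfl, rfl⟩ | ⟨h1, rfl, rfl⟩⟩ := h <;> push_cast <;> omega
    · refine ⟨by omega, fun h => by omega⟩
  | refl a => exact ⟨rfl, fun _ => Relation.EqvGen.refl _⟩
  | symm a b _ ih => exact ⟨ih.1.symm, fun h => (ih.2 (by omega)).symm _ _⟩
  | trans a b c _ _ ih1 ih2 =>
    exact ⟨ih1.1.trans ih2.1, fun h => (ih1.2 h).trans _ _ _ (ih2.2 (by omega))⟩

end final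

end Lk

theorem link (n : ℕ) [NeZero (2 * n)] (M : ℕ) (ω : ℕ → Fin (2 * n) → Bool) (c : ℤ)
    (hc : Even c) :
    (∃ m : ℤ, m ≠ 0 ∧ FConn M ω (0, c) (0, c + m * ((2 * n : ℕ) : ℤ)))
      ↔ Exposed (runRows ω M (cap n M)) c := by
  have hn : 0 < 2 * n := Nat.pos_of_ne_zero (NeZero.ne _)
  have hLE : Even (2 * n) := even_two_mul n
  obtain ⟨hidle, H⟩ := Lk.run_main (M := M) (ω := ω) M le_rfl _ (Lk.cap_allIdle n M)
    (Lk.cap_inv n M ω)
  set s := runRows ω M (cap n M) with hs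
  have hinv := s.inv
  have hne := s.ne
  have hgs := s.gs
  -- strands are matched with strands
  have hstr : ∀ i : Fin (2 * n), ∃ j : Fin (2 * n), s.p (Sum.inl i) = Sum.inl j := by
    intro i
    rcases hp : s.p (Sum.inl i) with j | ⟨k, _ | _⟩
    · exact ⟨j, rfl⟩
    · exfalso
      have h1 := (hidle k).1
      have h2 : s.p (lx k) = Sum.inl i := by
        rw [show (lx k : Lab (2 * n)) = s.p (Sum.inl i) from hp.symm, hinv]
      rw [h1] at h2
      simp [ly] at h2
    · exfalso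
      have h1 := (hidle k).1
      have h2 : s.p (ly k) = Sum.inl i := by
        rw [show (ly k : Lab (2 * n)) = s.p (Sum.inl i) from hp.symm, hinv]
      rw [← h1, hinv] at h2
      simp [lx] at h2
  choose P hP using hstr
  have hPP : ∀ i, P (P i) = i := by
    intro i
    have h1 := hinv (Sum.inl i)
    rw [hP, hP] at h1
    exact Sum.inl_injective h1
  have hPne : ∀ i, P i ≠ i := by
    intro i h
    apply hne (Sum.inl i)
    rw [hP, h]
  have hPg : ∀ i, s.g (Sum.inl (P i)) = - s.g (Sum.inl i) := by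
    intro i
    rw [← hP, hgs]
  set τ : ℤ → ℤ := fun k => ((P (modFin k) : ℕ) : ℤ) +
    (k / (2 * n : ℕ) + s.g (Sum.inl (modFin k))) * (2 * n : ℕ) with hτ
  have hτ0 : ∀ k, τ k = ((P (modFin k) : ℕ) : ℤ) +
    (k / (2 * n : ℕ) + s.g (Sum.inl (modFin k))) * (2 * n : ℕ) := fun k => rfl
  have hτ1 : ∀ (i : Fin (2 * n)) (m : ℤ), τ (((i : ℕ) : ℤ) + m * (2 * n : ℕ)) =
      ((P i : ℕ) : ℤ) + (m + s.g (Sum.inl i)) * (2 * n : ℕ) := by
    intro i m
    rw [hτ0, Lk.modFin_add, Lk.div_add]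
  have hk0 : ∀ k : ℤ, k = (((modFin k : Fin (2 * n)) : ℕ) : ℤ) + k / (2 * n : ℕ) * (2 * n : ℕ) :=
    fun k => (Lk.modFin_spec k).symm
  have hmod_inj : ∀ (i j : Fin (2 * n)) (m m' : ℤ),
      ((i : ℕ) : ℤ) + m * (2 * n : ℕ) = ((j : ℕ) : ℤ) + m' * (2 * n : ℕ) → i = j ∧ m = m' := by
    intro i j m m' h
    constructor
    · rw [← Lk.modFin_add i m, h, Lk.modFin_add]
    · rw [← Lk.div_add i m, h, Lk.div_add]
  have hττ : ∀ k, τ (τ k) = k := by
    intro k
    rw [hτ0 k, hτ1, hPP, hPg]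
    conv_rhs => rw [hk0 k]
    ring
  have hmain := Lk.pure_link (L := ((2 * n : ℕ) : ℤ)) (by exact_mod_cast hn) (τ := τ)
    (R := fun k k' => Relation.EqvGen (Lk.EA M ω) (0, k) (0, k'))
    (fun k => Relation.EqvGen.refl _) (fun k k' k'' h1 h2 => h1.trans _ _ _ h2)
    hττ
    (by
      intro k h
      rw [hτ0 k] at h
      have h' := h.trans (hk0 k)
      exact hPne _ (hmod_inj _ _ _ _ h').1)
    (by
      intro k m
      have e : k + m * ((2 * n : ℕ) : ℤ) = (((modFin k : Fin (2 * n)) : ℕ) : ℤ) +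
          (k / (2 * n : ℕ) + m) * (2 * n : ℕ) := by
        conv_lhs => rw [hk0 k]
        ring
      rw [e, hτ1, hτ0 k]
      ring)
    (by
      intro k
      have h1 := Lk.eqvGen_es_ea hLE (H.conn (Sum.inl (modFin k)) ⟨_, rfl⟩ (k / (2 * n : ℕ)))
      rw [hP] at h1
      simp only [Lk.LfL, Lk.RfL, Lk.pr] at h1
      rw [← hk0 k] at h1
      have e : τ k + 1 = (((P (modFin k) : ℕ) + 1 : ℕ) : ℤ) +
          (k / (2 * n : ℕ) + s.g (Sum.inl (modFin k))) * (2 * n : ℕ) := by
        rw [hτ0 k]; push_cast; ring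
      rw [e]
      exact h1)
    (by
      intro a
      obtain ⟨Z, hZ, hZ'⟩ := H.pot (fun l m => match l with
        | Sum.inl i => (if ((i : ℕ) : ℤ) + m * (2 * n : ℕ) = a then 1 else 0) -
            (if ((i : ℕ) : ℤ) + m * (2 * n : ℕ) = τ a then 1 else 0)
        | Sum.inr _ => 0) (by
          rintro (i | ⟨k, b⟩) m
          · rw [hP]
            simp only
            have e1 : ((P i : ℕ) : ℤ) + (m + s.g (Sum.inl i)) * (2 * n : ℕ) =
              τ (((i : ℕ) : ℤ) + m * (2 * n : ℕ)) := (hτ1 i m).symm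
            rw [e1]
            have e2 : τ (((i : ℕ) : ℤ) + m * (2 * n : ℕ)) = a ↔
              ((i : ℕ) : ℤ) + m * (2 * n : ℕ) = τ a :=
              ⟨fun h => by rw [← h, hττ], fun h => by rw [h, hττ]⟩
            have e3 : τ (((i : ℕ) : ℤ) + m * (2 * n : ℕ)) = τ a ↔
              ((i : ℕ) : ℤ) + m * (2 * n : ℕ) = a :=
              ⟨fun h => by rw [← hττ (((i : ℕ) : ℤ) + m * (2 * n : ℕ)), h, hττ],
                fun h => by rw [h]⟩
            simp only [e2, e3]
            ring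
          · have h1 := hidle k
            have h2 : s.p (ly k) = lx k := by rw [← h1.1, hinv]
            cases b
            · have h3 : s.p (Sum.inr (k, false)) = ly k := h1.1
              rw [h3]; simp [ly]
            · have h3 : s.p (Sum.inr (k, true)) = lx k := h2
              rw [h3]; simp [lx])
      refine ⟨fun k => Lk.ZA (2 * n) Z (0, k), ?_, ?_⟩
      · intro k k' h
        exact Lk.eqvGen_const (Lk.za_ea hLE hZ) h
      · intro k
        have h1 := hZ' (Sum.inl (modFin k)) ⟨_, rfl⟩ (k / (2 * n : ℕ))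
        simp only [Lk.LfL, Lk.RfL] at h1
        have f1 := Lk.za_pr hZ (q := ((modFin k : Fin (2 * n)) : ℕ)) (m := k / (2 * n : ℕ))
          (Nat.zero_le M) (modFin k).isLt.le
        have f2 := Lk.za_pr hZ (q := ((modFin k : Fin (2 * n)) : ℕ) + 1) (m := k / (2 * n : ℕ))
          (Nat.zero_le M) (modFin k).isLt
        have e2 : (((((modFin k : Fin (2 * n)) : ℕ) + 1 : ℕ) : ℤ)) + k / (2 * n : ℕ) * (2 * n : ℕ)
            = k + 1 := by
          conv_rhs => rw [hk0 k]
          push_cast; ring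
        rw [← hk0 k] at f1 h1
        rw [e2] at f2
        beta_reduce
        rw [f1, f2, h1]
        ring) c
  constructor
  · rintro ⟨m, hm, hR⟩
    have h1 := hmain.1 ⟨m, hm, Relation.EqvGen.mono (fun a b h => Or.inl h) _ _ hR⟩
    intro i j hij m'
    have h2 : P i = j := by
      rw [hP] at hij; exact Sum.inl_injective hij
    have h3 := h1 (((i : ℕ) : ℤ) + m' * (2 * n : ℕ))
    rw [hτ1, h2] at h3
    exact h3
  · intro hex
    obtain ⟨m, hm, hR⟩ := hmain.2 (by
      intro k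
      have h1 := hex (modFin k) (P (modFin k)) (hP _) (k / (2 * n : ℕ))
      rw [← hτ0 k, ← hk0 k] at h1
      exact h1)
    refine ⟨m, hm, (Lk.ea_parity hR).2 ?_⟩
    obtain ⟨d, hd⟩ := hc
    simp only
    omega

end Pool.Agent.H65.Perc
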