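import Mathlib
import Pool.Agent.H65.Perc.Model
import Pool.Agent.H65.Perc.Link

/-! JOB J9 (MP_fe58d8_pr): bond percolation on the half-infinite cylinder, infinite product measure,
limit of the finite-height averages. -/

open MeasureTheory Filter Topology

namespace Pool.Agent.H65.Perc

open St

/-- Percolation configurations on the half-plane `{x + y ≥ 0}` of `ℤ²` which are periodic with period
`(n, -n)`: `ω (k, a, d)` is the state (`true` = open) of the edges which start at the vertices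
`(x, y)` with `x + y = k`, `x ≡ a mod n`, in direction `d`
(`true`: the edge to `(x+1, y)`; `false`: the edge to `(x, y+1)`). -/
abbrev CConf (n : ℕ) := ℕ × ZMod n × Bool → Bool

/-- the graph of open edges of the half-plane `{x + y ≥ 0}` -/
def cylGraph (n : ℕ) (ω : CConf n) : SimpleGraph (ℤ × ℤ) :=
  SimpleGraph.fromRel (fun u v => 0 ≤ u.1 + u.2 ∧
    ((v = (u.1 + 1, u.2) ∧ ω ((u.1 + u.2).toNat, (u.1 : ZMod n), true) = true) ∨
     (v = (u.1, u.2 + 1) ∧ ω ((u.1 + u.2).toNat, (u.1 : ZMod n), false) = true)))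

/-- the open cluster of the boundary vertex `(x, -x)` winds around the cylinder -/
def Winds (n : ℕ) (ω : CConf n) (x : ℤ) : Prop :=
  ∃ m : ℤ, m ≠ 0 ∧ (cylGraph n ω).Reachable (x, -x) (x + m * n, -(x + m * n))

open Classical in
/-- number of boundary vertices whose cluster winds -/
noncomputable def windCount (n : ℕ) (ω : CConf n) : ℕ :=
  ((Finset.range n).filter (fun x : ℕ => Winds n ω (x : ℤ))).card

/-- all the edges are open independently with probability 1/2 -/
noncomputable def cylMeasure (n : ℕ) : Measure (CConf n) :=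
  Measure.infinitePi (fun _ => (PMF.uniformOfFintype Bool).toMeasure)

open Classical in
/-- number of exposed primal intervals -/
noncomputable def numEven {L : ℕ} (s : St (Lab L)) : ℕ :=
  ((Finset.range L).filter (fun c : ℕ => Even c ∧ Exposed s (c : ℤ))).card

/-- extension of a finite configuration -/
def extRows {L M : ℕ} (ω : Fin M → Fin L → Bool) : ℕ → Fin L → Bool :=
  fun r i => if h : r < M then ω ⟨r, h⟩ i else false

/-! ### the dictionary -/

/-- the edge crossed by the strand `i` in the row `r` -/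
def edgeOf (n : ℕ) (r : ℕ) (i : ℤ) : ℕ × ZMod n × Bool :=
  if ((r : ℤ) + i) % 2 = 0 then (r, (((((r : ℤ) + i) / 2 : ℤ)) : ZMod n), true)
  else (r, (((((r : ℤ) + i + 1) / 2 : ℤ)) : ZMod n), false)

/-- the row configurations of a percolation configuration -/
def rowsOf (n : ℕ) (ω : CConf n) (r : ℕ) (i : Fin (2 * n)) : Bool :=
  if ((r : ℤ) + (i.val : ℤ)) % 2 = 0 then !(ω (edgeOf n r i.val)) else ω (edgeOf n r i.val)

theorem modFin_spec (n : ℕ) [NeZero n] (k : ℤ) :
    ∃ q : ℤ, ((modFin (L := 2 * n) k).val : ℤ) = k - 2 * n * q := by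
  have hn : (0 : ℤ) < 2 * n := by
    have := Nat.pos_of_ne_zero (NeZero.ne n)
    omega
  refine ⟨k / (2 * n : ℤ), ?_⟩
  have h1 : (0 : ℤ) ≤ k % (2 * n : ℤ) := Int.emod_nonneg k hn.ne'
  have h2 := Int.emod_add_mul_ediv k (2 * n : ℤ)
  simp only [modFin]
  push_cast
  rw [Int.toNat_of_nonneg h1]
  linarith

theorem rowsOf_even (n : ℕ) [NeZero n] (ω : CConf n) (r : ℕ) (k x : ℤ)
    (h : (r : ℤ) + k = 2 * x) :
    rowsOf n ω r (modFin k) = !(ω (r, (x : ZMod n), true)) := by
  obtain ⟨q, hq⟩ := modFin_spec n k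
  have e1 : (r : ℤ) + ((modFin (L := 2 * n) k).val : ℤ) = 2 * (x - n * q) := by
    rw [hq]; linear_combination h
  have e2 : ((r : ℤ) + ((modFin (L := 2 * n) k).val : ℤ)) % 2 = 0 := by omega
  have e3 : ((r : ℤ) + ((modFin (L := 2 * n) k).val : ℤ)) / 2 = x - n * q := by omega
  unfold rowsOf edgeOf
  rw [if_pos e2, if_pos e2, e3]
  push_cast
  rw [ZMod.natCast_self, zero_mul, sub_zero]

theorem rowsOf_odd (n : ℕ) [NeZero n] (ω : CConf n) (r : ℕ) (k x : ℤ)
    (h : (r : ℤ) + k + 1 = 2 * x) :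
    rowsOf n ω r (modFin k) = ω (r, (x : ZMod n), false) := by
  obtain ⟨q, hq⟩ := modFin_spec n k
  have e1 : (r : ℤ) + ((modFin (L := 2 * n) k).val : ℤ) + 1 = 2 * (x - n * q) := by
    rw [hq]; linear_combination h
  have e2 : ¬ ((r : ℤ) + ((modFin (L := 2 * n) k).val : ℤ)) % 2 = 0 := by omega
  have e3 : ((r : ℤ) + ((modFin (L := 2 * n) k).val : ℤ) + 1) / 2 = x - n * q := by omega
  unfold rowsOf edgeOf
  rw [if_neg e2, if_neg e2, e3]
  push_cast
  rw [ZMod.natCast_self, zero_mul, sub_zero]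

/-! ### connectivity -/

def fc (u : ℤ × ℤ) : ℕ × ℤ := ((u.1 + u.2).toNat, u.1 - u.2)
def vt (a : ℕ × ℤ) : ℤ × ℤ := (((a.1 : ℤ) + a.2) / 2, ((a.1 : ℤ) - a.2) / 2)

theorem FConn.mono {L : ℕ} [NeZero L] {M M' : ℕ} (h : M ≤ M') {ω : ℕ → Fin L → Bool}
    {a b : ℕ × ℤ} (hab : FConn M ω a b) : FConn M' ω a b := by
  refine Relation.EqvGen.mono ?_ _ _ hab
  rintro a b ⟨r, hr, k, hk⟩
  exact ⟨r, by omega, k, hk⟩

theorem fconn_of_adj (n : ℕ) [NeZero n] (ω : CConf n) (u v : ℤ × ℤ) (h0 : 0 ≤ u.1 + u.2)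
    (h : (v = (u.1 + 1, u.2) ∧ ω ((u.1 + u.2).toNat, (u.1 : ZMod n), true) = true) ∨
     (v = (u.1, u.2 + 1) ∧ ω ((u.1 + u.2).toNat, (u.1 : ZMod n), false) = true)) :
    ∃ M, FConn M (rowsOf n ω) (fc u) (fc v) := by
  obtain ⟨x, y⟩ := u
  simp only at h0 h
  obtain ⟨r, hr⟩ : ∃ r : ℕ, x + y = r := ⟨(x + y).toNat, by omega⟩
  have hr' : (x + y).toNat = r := by omega
  rw [hr'] at h
  refine ⟨r + 1, ?_⟩
  rcases h with ⟨rfl, h⟩ | ⟨rfl, h⟩
  · refine Relation.EqvGen.rel _ _ ⟨r, by omega, x - y, Or.inr ⟨?_, ?_, ?_⟩⟩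
    · rw [rowsOf_even n ω r (x - y) x (by omega), h]; rfl
    · simp only [fc, Prod.mk.injEq, and_true]; omega
    · simp only [fc, Prod.mk.injEq]; omega
  · refine Relation.EqvGen.symm _ _ (Relation.EqvGen.rel _ _ ⟨r, by omega, x - y - 1,
      Or.inl ⟨?_, ?_, ?_⟩⟩)
    · rw [rowsOf_odd n ω r (x - y - 1) x (by omega), h]
    · simp only [fc, Prod.mk.injEq]; omega
    · simp only [fc, Prod.mk.injEq]; omega

theorem fconn_of_reachable (n : ℕ) [NeZero n] (ω : CConf n) (u v : ℤ × ℤ)
    (h : (cylGraph n ω).Reachable u v) : ∃ M, FConn M (rowsOf n ω) (fc u) (fc v) := by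
  rw [SimpleGraph.reachable_iff_reflTransGen] at h
  induction h with
  | refl => exact ⟨0, Relation.EqvGen.refl _⟩
  | tail _ hbc ih =>
    obtain ⟨M, hM⟩ := ih
    simp only [cylGraph, SimpleGraph.fromRel_adj] at hbc
    obtain ⟨-, h | h⟩ := hbc
    · obtain ⟨M', hM'⟩ := fconn_of_adj n ω _ _ h.1 h.2
      exact ⟨max M M', (hM.mono (le_max_left _ _)).trans _ _ _ (hM'.mono (le_max_right _ _))⟩
    · obtain ⟨M', hM'⟩ := fconn_of_adj n ω _ _ h.1 h.2
      exact ⟨max M M', (hM.mono (le_max_left _ _)).trans _ _ _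
        ((hM'.mono (le_max_right _ _)).symm)⟩

theorem fstep_parity {L : ℕ} [NeZero L] {M : ℕ} {ω : ℕ → Fin L → Bool} {a b : ℕ × ℤ}
    (h : FStep M ω a b) : (((a.1 : ℤ) + a.2) % 2 = 0 ↔ ((b.1 : ℤ) + b.2) % 2 = 0) := by
  obtain ⟨r, -, k, ⟨-, rfl, rfl⟩ | ⟨-, rfl, rfl⟩⟩ := h <;> simp only [] <;> push_cast <;> omega

theorem reachable_of_fstep (n : ℕ) [NeZero n] (ω : CConf n) {M : ℕ} {a b : ℕ × ℤ}
    (h : FStep M (rowsOf n ω) a b) (hp : ((a.1 : ℤ) + a.2) % 2 = 0) :
    (cylGraph n ω).Reachable (vt a) (vt b) := by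
  obtain ⟨r, -, k, ⟨h, rfl, rfl⟩ | ⟨h, rfl, rfl⟩⟩ := h
  · simp only [] at hp
    push_cast at hp
    obtain ⟨x, hx⟩ : ∃ x : ℤ, (r : ℤ) + k + 1 = 2 * x := ⟨((r : ℤ) + k + 1) / 2, by omega⟩
    rw [rowsOf_odd n ω r k x hx] at h
    refine SimpleGraph.Adj.reachable ?_
    rw [SimpleGraph.adj_comm]
    simp only [cylGraph, SimpleGraph.fromRel_adj]
    have e1 : vt (r, k + 1) = (x, r - x) := by
      simp only [vt, Prod.mk.injEq]; omega
    have e2 : vt (r + 1, k) = (x, r - x + 1) := by
      simp only [vt, Prod.mk.injEq]; push_cast; omega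
    rw [e1, e2]
    refine ⟨?_, Or.inl ⟨?_, Or.inr ⟨rfl, ?_⟩⟩⟩
    · simp
    · simp
    · simpa using h
  · simp only [] at hp
    obtain ⟨x, hx⟩ : ∃ x : ℤ, (r : ℤ) + k = 2 * x := ⟨((r : ℤ) + k) / 2, by omega⟩
    rw [rowsOf_even n ω r k x hx] at h
    refine SimpleGraph.Adj.reachable ?_
    simp only [cylGraph, SimpleGraph.fromRel_adj]
    have e1 : vt (r, k) = (x, r - x) := by
      simp only [vt, Prod.mk.injEq]; omega
    have e2 : vt (r + 1, k + 1) = (x + 1, r - x) := by
      simp only [vt, Prod.mk.injEq]; push_cast; omega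
    rw [e1, e2]
    refine ⟨?_, Or.inl ⟨?_, Or.inl ⟨rfl, ?_⟩⟩⟩
    · simp
    · simp
    · simpa using h

theorem reachable_of_fconn (n : ℕ) [NeZero n] (ω : CConf n) {M : ℕ} {a b : ℕ × ℤ}
    (h : FConn M (rowsOf n ω) a b) : (((a.1 : ℤ) + a.2) % 2 = 0 ↔ ((b.1 : ℤ) + b.2) % 2 = 0) ∧
    (((a.1 : ℤ) + a.2) % 2 = 0 → (cylGraph n ω).Reachable (vt a) (vt b)) := by
  induction h with
  | rel a b h => exact ⟨fstep_parity h, reachable_of_fstep n ω h⟩
  | refl a => exact ⟨Iff.rfl, fun _ => SimpleGraph.Reachable.refl _⟩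
  | symm a b _ ih => exact ⟨ih.1.symm, fun h => (ih.2 (ih.1.2 h)).symm⟩
  | trans a b c _ _ ih1 ih2 =>
    exact ⟨ih1.1.trans ih2.1, fun h => (ih1.2 h).trans (ih2.2 (ih1.1.1 h))⟩

/-- the cluster of the boundary vertex `x` winds through the rows `< M` -/
def WindsM (n : ℕ) [NeZero n] (M : ℕ) (ω : CConf n) (x : ℤ) : Prop :=
  ∃ m : ℤ, m ≠ 0 ∧ FConn M (rowsOf n ω) (0, 2 * x) (0, 2 * x + m * ((2 * n : ℕ) : ℤ))

theorem winds_iff (n : ℕ) [NeZero n] (ω : CConf n) (x : ℤ) :
    Winds n ω x ↔ ∃ M, WindsM n M ω x := by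
  constructor
  · rintro ⟨m, hm, h⟩
    obtain ⟨M, hM⟩ := fconn_of_reachable n ω _ _ h
    refine ⟨M, m, hm, ?_⟩
    have e1 : fc (x, -x) = (0, 2 * x) := by
      simp only [fc, Prod.mk.injEq]; omega
    have e2 : fc (x + m * n, -(x + m * n)) = (0, 2 * x + m * ((2 * n : ℕ) : ℤ)) := by
      simp only [fc, Prod.mk.injEq]
      constructor
      · omega
      · push_cast; ring
    rwa [e1, e2] at hM
  · rintro ⟨M, m, hm, h⟩
    refine ⟨m, hm, ?_⟩
    have := (reachable_of_fconn n ω h).2 (by simp)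
    have e1 : vt (0, 2 * x) = (x, -x) := by
      simp only [vt, Prod.mk.injEq]; push_cast; omega
    have e2 : vt (0, 2 * x + m * ((2 * n : ℕ) : ℤ)) = (x + m * n, -(x + m * n)) := by
      have : 2 * x + m * ((2 * n : ℕ) : ℤ) = 2 * (x + m * n) := by push_cast; ring
      rw [this]
      simp only [vt, Prod.mk.injEq]; push_cast; omega
    rwa [e1, e2] at this

theorem WindsM.mono {n : ℕ} [NeZero n] {M M' : ℕ} (h : M ≤ M') {ω : CConf n} {x : ℤ}
    (hw : WindsM n M ω x) : WindsM n M' ω x := by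
  obtain ⟨m, hm, h'⟩ := hw
  exact ⟨m, hm, h'.mono h⟩

open Classical in
noncomputable def windCountM (n : ℕ) [NeZero n] (M : ℕ) (ω : CConf n) : ℕ :=
  ((Finset.range n).filter (fun x : ℕ => WindsM n M ω (x : ℤ))).card

theorem windCountM_eventually (n : ℕ) [NeZero n] (ω : CConf n) :
    ∀ᶠ M in atTop, windCountM n M ω = windCount n ω := by
  have h : ∀ x ∈ Finset.range n, ∀ᶠ M in atTop, (WindsM n M ω (x : ℤ) ↔ Winds n ω (x : ℤ)) := by
    intro x _
    by_cases hx : Winds n ω (x : ℤ)
    · obtain ⟨M, hM⟩ := (winds_iff n ω x).1 hx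
      filter_upwards [eventually_ge_atTop M] with M' hM'
      exact ⟨fun _ => hx, fun _ => hM.mono hM'⟩
    · refine Eventually.of_forall fun M => ⟨fun h => (winds_iff n ω x).2 ⟨M, h⟩, fun h => absurd h hx⟩
  rw [← Finset.eventually_all] at h
  filter_upwards [h] with M hM
  unfold windCountM windCount
  congr 1
  classical
  exact Finset.filter_congr hM

/-! ### finite height -/

theorem fconn_congr {L : ℕ} [NeZero L] {M : ℕ} {ω ω' : ℕ → Fin L → Bool}
    (h : ∀ r < M, ω r = ω' r) (a b : ℕ × ℤ) (hab : FConn M ω a b) : FConn M ω' a b := by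
  refine Relation.EqvGen.mono ?_ _ _ hab
  rintro a b ⟨r, hr, k, hk⟩
  refine ⟨r, hr, k, ?_⟩
  rw [h r hr] at hk
  exact hk

theorem runRows_congr {L : ℕ} {M : ℕ} {ω ω' : ℕ → Fin L → Bool}
    (h : ∀ r < M, ω r = ω' r) (s : St (Lab L)) : runRows ω M s = runRows ω' M s := by
  induction M generalizing s with
  | zero => rfl
  | succ M ih =>
    simp only [runRows]
    rw [h M (Nat.lt_succ_self M), ih (fun r hr => h r (by omega))]

/-- restriction to the rows `< M` -/
def restr (n M : ℕ) (ω : CConf n) : Fin M → Fin (2 * n) → Bool := fun r i => rowsOf n ω r i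

theorem extRows_restr (n M : ℕ) (ω : CConf n) (r : ℕ) (hr : r < M) :
    extRows (restr n M ω) r = rowsOf n ω r := by
  funext i
  simp [extRows, restr, hr]

theorem windsM_iff_exposed (n : ℕ) [NeZero n] (M : ℕ) (ω : CConf n) (x : ℤ) :
    WindsM n M ω x ↔ Exposed (runRows (extRows (restr n M ω)) M (cap n M)) (2 * x) := by
  rw [← link n M _ (2 * x) (even_two_mul x)]
  constructor
  · rintro ⟨m, hm, h⟩
    exact ⟨m, hm, fconn_congr (fun r hr => (extRows_restr n M ω r hr).symm) _ _ h⟩
  · rintro ⟨m, hm, h⟩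
    exact ⟨m, hm, fconn_congr (fun r hr => (extRows_restr n M ω r hr)) _ _ h⟩

theorem windCountM_eq (n : ℕ) [NeZero n] (M : ℕ) (ω : CConf n) :
    windCountM n M ω = numEven (runRows (extRows (restr n M ω)) M (cap n M)) := by
  classical
  unfold windCountM numEven
  refine Finset.card_bij (fun x _ => 2 * x) ?_ ?_ ?_
  · intro x hx
    simp only [Finset.mem_filter, Finset.mem_range] at hx ⊢
    refine ⟨by omega, even_two_mul x, ?_⟩
    have := (windsM_iff_exposed n M ω x).1 hx.2
    push_cast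
    exact this
  · intro x _ y _ h
    have h' : 2 * x = 2 * y := h
    omega
  · intro c hc
    simp only [Finset.mem_filter, Finset.mem_range] at hc
    obtain ⟨hc, ⟨x, rfl⟩, he⟩ := hc
    refine ⟨x, ?_, by omega⟩
    simp only [Finset.mem_filter, Finset.mem_range]
    refine ⟨by omega, (windsM_iff_exposed n M ω x).2 ?_⟩
    have e : (2 * (x : ℤ)) = ((x + x : ℕ) : ℤ) := by push_cast; ring
    rw [e]
    exact he

/-! ### measurability -/

theorem measurable_restr (n M : ℕ) : Measurable (restr n M) := by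
  refine measurable_pi_lambda _ fun r => measurable_pi_lambda _ fun i => ?_
  unfold restr rowsOf
  split_ifs
  · exact (measurable_from_top (f := fun b : Bool => !b)).comp (measurable_pi_apply _)
  · exact measurable_pi_apply _

theorem measurable_windCountM (n : ℕ) [NeZero n] (M : ℕ) : Measurable (windCountM n M) := by
  have : windCountM n M = (fun η : Fin M → Fin (2 * n) → Bool =>
      numEven (runRows (extRows η) M (cap n M))) ∘ restr n M := by
    funext ω
    exact windCountM_eq n M ω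
  rw [this]
  exact (measurable_of_finite _).comp (measurable_restr n M)

theorem measurable_windCount (n : ℕ) [NeZero n] : Measurable (windCount n) := by
  refine measurable_of_tendsto_metrizable (f := fun M => windCountM n M)
    (fun M => measurable_windCountM n M) ?_
  rw [tendsto_pi_nhds]
  intro ω
  refine tendsto_const_nhds.congr' ?_
  filter_upwards [windCountM_eventually n ω] with M hM
  exact hM.symm

theorem measurableSet_windsM (n : ℕ) [NeZero n] (M : ℕ) (x : ℤ) :
    MeasurableSet {ω : CConf n | WindsM n M ω x} := by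
  have : {ω : CConf n | WindsM n M ω x} = restr n M ⁻¹'
      {η | Exposed (runRows (extRows η) M (cap n M)) (2 * x)} := by
    ext ω
    exact windsM_iff_exposed n M ω x
  rw [this]
  exact measurable_restr n M (Set.toFinite _).measurableSet

theorem measurableSet_winds (n : ℕ) [NeZero n] (x : ℤ) :
    MeasurableSet {ω : CConf n | Winds n ω x} := by
  have : {ω : CConf n | Winds n ω x} = ⋃ M, {ω : CConf n | WindsM n M ω x} := by
    ext ω
    rw [Set.mem_iUnion]
    exact winds_iff n ω x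
  rw [this]
  exact MeasurableSet.iUnion fun M => measurableSet_windsM n M x

/-! ### the law of the rows -/

instance (n : ℕ) : IsProbabilityMeasure (cylMeasure n) := by
  unfold cylMeasure; infer_instance

theorem edgeOf_inj (n : ℕ) [NeZero n] {M : ℕ} :
    Function.Injective (fun p : Fin M × Fin (2 * n) => edgeOf n p.1 (p.2.val : ℤ)) := by
  have hn := Nat.pos_of_ne_zero (NeZero.ne n)
  rintro ⟨r, i⟩ ⟨r', j⟩ h
  have hi := i.isLt
  have hj := j.isLt
  simp only [edgeOf] at h
  have key : ∀ a b : ℤ, ((a : ℤ) : ZMod n) = ((b : ℤ) : ZMod n) → |a - b| < n → a = b := by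
    intro a b hab hlt
    rw [ZMod.intCast_eq_intCast_iff_dvd_sub] at hab
    by_contra hne
    have h1 := Int.le_of_dvd (by
      rw [abs_pos]; intro h0; apply hne; omega) ((dvd_abs (n : ℤ) (b - a)).2 hab)
    rw [abs_sub_comm] at hlt
    omega
  split_ifs at h with h1 h2 h2
  · simp only [Prod.mk.injEq, and_true] at h
    obtain ⟨hr, h⟩ := h
    have := key _ _ h (by rw [abs_lt]; constructor <;> omega)
    ext
    · exact hr
    · simp only; omega
  · simp at h
  · simp at h
  · simp only [Prod.mk.injEq, and_true] at h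
    obtain ⟨hr, h⟩ := h
    have := key _ _ h (by rw [abs_lt]; constructor <;> omega)
    ext
    · exact hr
    · simp only; omega

theorem cylMeasure_restr (n : ℕ) [NeZero n] (M : ℕ) (η : Fin M → Fin (2 * n) → Bool) :
    (cylMeasure n) (restr n M ⁻¹' {η}) = (1 / 2) ^ (2 * n * M) := by
  classical
  set e : Fin M × Fin (2 * n) → ℕ × ZMod n × Bool := fun p => edgeOf n p.1 (p.2.val : ℤ) with he
  set val : Fin M × Fin (2 * n) → Bool := fun p =>
    if ((p.1.val : ℤ) + (p.2.val : ℤ)) % 2 = 0 then !(η p.1 p.2) else η p.1 p.2 with hval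
  have hinj : Function.Injective e := edgeOf_inj n
  have hset : restr n M ⁻¹' {η} = Set.pi (↑(Finset.univ.image e))
      (fun i => {Function.extend e val (fun _ => true) i}) := by
    ext ω
    simp only [Set.mem_preimage, Set.mem_singleton_iff, Set.mem_pi, Finset.coe_image,
      Finset.coe_univ, Set.image_univ, Set.mem_range, forall_exists_index,
      forall_apply_eq_imp_iff]
    constructor
    · intro h p
      rw [hinj.extend_apply]
      simp only [hval]
      rw [← h]
      simp only [restr, rowsOf, he]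
      split_ifs <;> simp
    · intro h
      funext r i
      have := h (r, i)
      rw [hinj.extend_apply] at this
      simp only [hval, he] at this
      simp only [restr, rowsOf]
      rw [this]
      split_ifs <;> simp
  rw [hset, cylMeasure, Measure.infinitePi_pi _ (fun i _ => MeasurableSet.singleton _)]
  have h1 : ∀ b : Bool, ((PMF.uniformOfFintype Bool).toMeasure) {b} = 1 / 2 := by
    intro b
    rw [PMF.toMeasure_apply_singleton _ _ (MeasurableSet.singleton _)]
    simp
  simp only [h1]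
  rw [Finset.prod_const, Finset.card_image_of_injective _ hinj]
  simp only [Finset.card_univ, Fintype.card_prod, Fintype.card_fin]
  rw [mul_comm]

theorem integral_windCountM (n : ℕ) [NeZero n] (M : ℕ) (g : ℕ → ℝ) :
    ∫ ω, g (windCountM n M ω) ∂(cylMeasure n) = (1 / 2 : ℝ) ^ (2 * n * M) *
      ∑ η : Fin M → Fin (2 * n) → Bool, g (numEven (runRows (extRows η) M (cap n M))) := by
  have h1 : ∫ ω, g (windCountM n M ω) ∂(cylMeasure n)
      = ∫ η, g (numEven (runRows (extRows η) M (cap n M))) ∂((cylMeasure n).map (restr n M)) := by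
    rw [integral_map (measurable_restr n M).aemeasurable
      (measurable_of_finite _).aestronglyMeasurable]
    refine integral_congr_ae (Eventually.of_forall fun ω => ?_)
    simp only
    rw [windCountM_eq]
  rw [h1]
  have : IsProbabilityMeasure ((cylMeasure n).map (restr n M)) :=
    Measure.isProbabilityMeasure_map (measurable_restr n M).aemeasurable
  rw [integral_fintype (Integrable.of_finite), Finset.mul_sum]
  refine Finset.sum_congr rfl fun η _ => ?_
  rw [Measure.real, Measure.map_apply (measurable_restr n M) (MeasurableSet.singleton _),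
    cylMeasure_restr]
  simp

theorem tendsto_cyl (n : ℕ) [NeZero n] (g : ℕ → ℝ) :
    Tendsto (fun M : ℕ => (1 / 2 : ℝ) ^ (2 * n * M) *
      ∑ ω : Fin M → Fin (2 * n) → Bool, g (numEven (runRows (extRows ω) M (cap n M))))
      atTop (𝓝 (∫ ω, g (windCount n ω) ∂(cylMeasure n))) := by
  simp only [← integral_windCountM]
  refine tendsto_integral_of_dominated_convergence
    (fun _ => ∑ k ∈ Finset.range (n + 1), |g k|) ?_ (integrable_const _) ?_ ?_
  · intro M
    exact ((measurable_from_top (f := g)).comp (measurable_windCountM n M)).aestronglyMeasurable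
  · intro M
    refine Eventually.of_forall fun ω => ?_
    rw [Real.norm_eq_abs]
    refine Finset.single_le_sum (f := fun k => |g k|) (fun _ _ => abs_nonneg _) ?_
    rw [Finset.mem_range, Nat.lt_succ_iff]
    unfold windCountM
    classical
    refine (Finset.card_filter_le _ _).trans ?_
    simp
  · refine Eventually.of_forall fun ω => ?_
    refine tendsto_const_nhds.congr' ?_
    filter_upwards [windCountM_eventually n ω] with M hM
    rw [hM]

/-! ### translation invariance -/

/-- translation of the coordinates -/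
def shiftE (n : ℕ) (x : ℤ) : (ℕ × ZMod n × Bool) ≃ (ℕ × ZMod n × Bool) :=
  Equiv.prodCongr (Equiv.refl ℕ) (Equiv.prodCongr (Equiv.addRight (x : ZMod n)) (Equiv.refl Bool))

theorem winds_shift (n : ℕ) (ω : CConf n) (x : ℤ) :
    Winds n (fun i => ω ((shiftE n x).symm i)) x ↔ Winds n ω 0 := by
  set ω' : CConf n := fun i => ω ((shiftE n x).symm i) with hω'
  have hval : ∀ (k : ℕ) (a : ℤ) (d : Bool),
      ω' (k, ((a + x : ℤ) : ZMod n), d) = ω (k, (a : ZMod n), d) := by
    intro k a d
    simp only [hω', shiftE]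
    congr 1
    simp [Equiv.prodCongr]
  let φ : (ℤ × ℤ) ≃ (ℤ × ℤ) := Equiv.prodCongr (Equiv.addRight x) (Equiv.addRight (-x))
  have hφ : ∀ u : ℤ × ℤ, φ u = (u.1 + x, u.2 - x) := fun u => by
    rcases u with ⟨a, b⟩
    simp [φ, sub_eq_add_neg]
  have hadj : ∀ u v, (cylGraph n ω').Adj (φ u) (φ v) ↔ (cylGraph n ω).Adj u v := by
    intro u v
    simp only [cylGraph, SimpleGraph.fromRel_adj, hφ]
    have e1 : ∀ u : ℤ × ℤ, u.1 + x + (u.2 - x) = u.1 + u.2 := fun u => by ring
    simp only [e1, hval]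
    simp only [ne_eq, add_left_inj, sub_left_inj, Prod.ext_iff]
    have e2 : ∀ u v : ℤ × ℤ, (v.1 + x = u.1 + x + 1 ↔ v.1 = u.1 + 1) := fun u v => by omega
    have e3 : ∀ u v : ℤ × ℤ, (v.2 - x = u.2 - x + 1 ↔ v.2 = u.2 + 1) := fun u v => by omega
    simp only [e2, e3]
  let Φ : cylGraph n ω ≃g cylGraph n ω' := ⟨φ, fun {u v} => hadj u v⟩
  unfold Winds
  refine exists_congr fun m => and_congr_right fun _ => ?_
  have h1 := Φ.reachable_iff (u := ((0 : ℤ), -(0 : ℤ))) (v := (0 + m * (n : ℤ), -(0 + m * (n : ℤ))))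
  rw [← h1]
  have e4 : Φ (0, -0) = (x, -x) := by
    change φ (0, -0) = (x, -x)
    rw [hφ]; simp
  have e5 : Φ (0 + m * (n : ℤ), -(0 + m * (n : ℤ))) = (x + m * n, -(x + m * n)) := by
    change φ (0 + m * (n : ℤ), -(0 + m * (n : ℤ))) = _
    rw [hφ]; ext <;> simp <;> ring
  rw [e4, e5]

theorem measure_winds (n : ℕ) [NeZero n] (x : ℤ) :
    (cylMeasure n) {ω | Winds n ω x} = (cylMeasure n) {ω | Winds n ω 0} := by
  have h := Measure.infinitePi_map_piCongrLeft (X := fun _ : ℕ × ZMod n × Bool => Bool)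
    (μ := fun _ => (PMF.uniformOfFintype Bool).toMeasure) (shiftE n x)
  change (cylMeasure n).map _ = cylMeasure n at h
  conv_lhs => rw [← h]
  rw [Measure.map_apply (MeasurableEquiv.measurable _) (measurableSet_winds n x)]
  congr 1
  ext ω
  have e : (MeasurableEquiv.piCongrLeft (fun _ => Bool) (shiftE n x)) ω
      = fun i => ω ((shiftE n x).symm i) := by
    funext i
    obtain ⟨j, rfl⟩ := (shiftE n x).surjective i
    rw [MeasurableEquiv.coe_piCongrLeft, Equiv.piCongrLeft_apply_apply, Equiv.symm_apply_apply]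
  change Winds n ((MeasurableEquiv.piCongrLeft (fun _ => Bool) (shiftE n x)) ω) x ↔ Winds n ω 0
  rw [e]
  exact winds_shift n ω x

/-- the probability that the origin winds does not depend on the boundary vertex -/
theorem integral_windCount (n : ℕ) [NeZero n] :
    ∫ ω, (windCount n ω : ℝ) ∂(cylMeasure n) = n * ((cylMeasure n) {ω | Winds n ω 0}).toReal := by
  classical
  have h1 : ∀ ω : CConf n, (windCount n ω : ℝ)
      = ∑ x ∈ Finset.range n, Set.indicator {ω : CConf n | Winds n ω (x : ℤ)} (fun _ => (1 : ℝ)) ω := by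
    intro ω
    unfold windCount
    rw [Finset.card_filter]
    push_cast
    refine Finset.sum_congr rfl fun x _ => ?_
    simp [Set.indicator_apply]
  simp only [h1]
  rw [integral_finsetSum _ (fun (x : ℕ) _ => (integrable_const (1 : ℝ)).indicator
    (measurableSet_winds n (x : ℤ)))]
  simp only [integral_indicator_const _ (measurableSet_winds n _), smul_eq_mul, mul_one,
    Measure.real, measure_winds]
  simp

end Pool.Agent.H65.Perc
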