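import Mathlib
import Pool.Agent.H65.Perc.Model

/-! JOB J7 (MP_fe58d8_pr): combinatorics of exposed intervals. -/

namespace Pool.Agent.H65.Perc

open St

variable {L : ℕ}

theorem exposed_add_period (s : St (Lab L)) (c m : ℤ) :
    Exposed s (c + m * L) ↔ Exposed s c := by
  constructor
  · intro h i j hij m'
    have h1 := h i j hij (m' + m)
    have e1 : (i : ℤ) + (m' + m) * L < c + m * L ↔ (i : ℤ) + m' * L < c := by
      constructor <;> intro h <;> linarith
    have e2 : (j : ℤ) + (m' + m + s.g (Sum.inl i)) * L < c + m * L ↔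
        (j : ℤ) + (m' + s.g (Sum.inl i)) * L < c := by
      constructor <;> intro h <;> linarith
    rw [e1, e2] at h1
    exact h1
  · intro h i j hij m'
    have h1 := h i j hij (m' - m)
    have e1 : (i : ℤ) + m' * L < c + m * L ↔ (i : ℤ) + (m' - m) * L < c := by
      constructor <;> intro h <;> linarith
    have e2 : (j : ℤ) + (m' + s.g (Sum.inl i)) * L < c + m * L ↔
        (j : ℤ) + (m' - m + s.g (Sum.inl i)) * L < c := by
      constructor <;> intro h <;> linarith
    rw [e1, e2]
    exact h1

namespace Exq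

/-- the rotation of the labels -/
def rho (L : ℕ) : Equiv.Perm (Lab L) := Equiv.sumCongr (finRotate L) (Equiv.refl _)

theorem rho_inl (i : Fin L) : rho L (Sum.inl i) = Sum.inl (finRotate L i) := rfl
theorem rho_inr (a : Fin 3 × Bool) : rho L (Sum.inr a) = Sum.inr a := rfl
theorem rho_symm_inl (i : Fin L) : (rho L).symm (Sum.inl i) = Sum.inl ((finRotate L).symm i) := rfl
theorem rho_symm_inr (a : Fin 3 × Bool) : (rho L).symm (Sum.inr a) = Sum.inr a := rfl
theorem rho_lx (k : Fin 3) : rho L (lx k) = lx k := rfl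
theorem rho_ly (k : Fin 3) : rho L (ly k) = ly k := rfl

theorem finRotate_val [NeZero L] (i : Fin L) :
    (finRotate L i : ℕ) + (if finRotate L i = 0 then L else 0) = i + 1 := by
  obtain ⟨n, rfl⟩ : ∃ n, L = n + 1 := ⟨L - 1, by have := Nat.pos_of_ne_zero (NeZero.ne L); omega⟩
  have hc := coe_finRotate (n := n) i
  have h0 : (finRotate (n + 1) i = 0) ↔ ((finRotate (n + 1) i : Fin (n + 1)) : ℕ) = 0 := by
    rw [Fin.ext_iff]; rfl
  by_cases h : i = Fin.last n
  · rw [if_pos h] at hc
    rw [if_pos (h0.2 hc), hc, h]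
    simp
  · rw [if_neg h] at hc
    have h1 : ¬ (finRotate (n + 1) i = 0) := by
      rw [h0, hc]; omega
    rw [if_neg h1, hc]

/-- gauge transformation -/
def gauge {Λ : Type*} (d : Λ → ℤ) (s : St Λ) : St Λ where
  p := s.p
  g w := s.g w + d w - d (s.p w)
  inv := s.inv
  ne := s.ne
  gs w := by rw [s.gs, s.inv]; ring

theorem gauge_p {Λ : Type*} (d : Λ → ℤ) (s : St Λ) (w : Λ) : (gauge d s).p w = s.p w := rfl
theorem gauge_g {Λ : Type*} (d : Λ → ℤ) (s : St Λ) (w : Λ) :
    (gauge d s).g w = s.g w + d w - d (s.p w) := rfl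

theorem twist_eq_gauge {Λ : Type*} [DecidableEq Λ] (u : Λ) (k : ℤ) (s : St Λ) :
    twist u k s = gauge (fun w => if w = u then k else 0) s := by
  have := s.inv; have := s.ne
  ext w
  · rfl
  · rw [twist_g, gauge_g]
    grind

theorem gauge_gauge {Λ : Type*} (d d' : Λ → ℤ) (s : St Λ) :
    gauge d (gauge d' s) = gauge (d' + d) s := by
  ext w
  · rfl
  · simp only [gauge_g, gauge_p, Pi.add_apply]; ring

theorem gauge_perm {Λ : Type*} (d : Λ → ℤ) (π : Equiv.Perm Λ) (s : St Λ) :
    gauge d (perm π s) = perm π (gauge (d ∘ π.symm) s) := by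
  ext w
  · rfl
  · simp [gauge_g, perm_g, perm_p]

theorem rot_eq [NeZero L] (s : St (Lab L)) :
    rot s = perm (rho L) (gauge (fun w => if w = Sum.inl 0 then 1 else 0) s) := by
  unfold rot
  rw [twist_eq_gauge]
  rfl

theorem rot_p [NeZero L] (s : St (Lab L)) (w : Lab L) :
    (rot s).p w = (rho L).symm (s.p (rho L w)) := rfl

theorem rot_g [NeZero L] (s : St (Lab L)) (w : Lab L) :
    (rot s).g w = s.g (rho L w) + (if rho L w = Sum.inl 0 then 1 else 0)
      - (if s.p (rho L w) = Sum.inl 0 then 1 else 0) := by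
  rw [rot_eq, perm_g, gauge_g]

theorem rot_inj [NeZero L] : Function.Injective (rot : St (Lab L) → St (Lab L)) := by
  intro s s' h
  have hp : s.p = s'.p := by
    funext w
    have h1 := congrArg (fun t : St (Lab L) => t.p ((rho L).symm w)) h
    simp only [rot_p, Equiv.apply_symm_apply] at h1
    exact (rho L).symm.injective h1
  ext w
  · rw [hp]
  · have h1 := congrArg (fun t : St (Lab L) => t.g ((rho L).symm w)) h
    simp only [rot_g, Equiv.apply_symm_apply, hp] at h1
    linarith

/-- the partner of a strand of an idle state is a strand -/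
theorem partner_strand {s : St (Lab L)} (hs : AllIdle s) (i : Fin L) :
    ∃ i' : Fin L, s.p (Sum.inl i) = Sum.inl i' := by
  rcases h : s.p (Sum.inl i) with i' | ⟨k, b⟩
  · exact ⟨i', rfl⟩
  · exfalso
    have h2 := s.inv (Sum.inl i)
    rw [h] at h2
    cases b
    · have := (hs k).1
      unfold lx ly at this
      rw [this] at h2
      simp at h2
    · have h3 := s.inv (lx k)
      rw [(hs k).1] at h3
      unfold lx ly at h3
      rw [h3] at h2
      simp at h2

end Exq

open Exq

theorem exposed_rot [NeZero L] (s : St (Lab L)) (_hs : AllIdle s) (c : ℤ) :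
    Exposed (rot s) c ↔ Exposed s (c + 1) := by
  have key : ∀ (i j : Fin L) (m : ℤ), (rot s).p (Sum.inl i) = Sum.inl j →
      (((i : ℤ) + m * L < c ↔ (j : ℤ) + (m + (rot s).g (Sum.inl i)) * L < c) ↔
      (((finRotate L i : ℕ) : ℤ) + (m + (if finRotate L i = 0 then 1 else 0)) * L < c + 1 ↔
        ((finRotate L j : ℕ) : ℤ) + (m + (if finRotate L i = 0 then 1 else 0)
          + s.g (Sum.inl (finRotate L i))) * L < c + 1)) := by
    intro i j m hij
    have hp : s.p (Sum.inl (finRotate L i)) = Sum.inl (finRotate L j) := by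
      rw [rot_p] at hij
      rw [Equiv.symm_apply_eq] at hij
      exact hij
    have hg := rot_g s (Sum.inl i)
    rw [rho_inl, hp] at hg
    simp only [Sum.inl.injEq] at hg
    rw [hg]
    have hi := finRotate_val i
    have hj := finRotate_val j
    have hi' : ((finRotate L i : ℕ) : ℤ) + (if finRotate L i = 0 then (L : ℤ) else 0) = i + 1 := by
      exact_mod_cast hi
    have hj' : ((finRotate L j : ℕ) : ℤ) + (if finRotate L j = 0 then (L : ℤ) else 0) = j + 1 := by
      exact_mod_cast hj
    have e1 : ((i : ℤ) + m * L < c) ↔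
        (((finRotate L i : ℕ) : ℤ) + (m + (if finRotate L i = 0 then 1 else 0)) * L < c + 1) := by
      split_ifs at hi' ⊢ <;> constructor <;> intro h <;> linarith
    have e2 : ((j : ℤ) + (m + (s.g (Sum.inl (finRotate L i)) + (if finRotate L i = 0 then 1 else 0)
          - (if finRotate L j = 0 then 1 else 0))) * L < c) ↔
        ((finRotate L j : ℕ) : ℤ) + (m + (if finRotate L i = 0 then 1 else 0)
          + s.g (Sum.inl (finRotate L i))) * L < c + 1 := by
      split_ifs at hj' ⊢ <;> constructor <;> intro h <;> linarith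
    rw [e1, e2]
  constructor
  · intro h i' j' hij m
    obtain ⟨i, rfl⟩ := (finRotate L).surjective i'
    obtain ⟨j, rfl⟩ := (finRotate L).surjective j'
    have hp : (rot s).p (Sum.inl i) = Sum.inl j := by
      rw [rot_p, Equiv.symm_apply_eq]
      exact hij
    have h1 := h i j hp (m - (if finRotate L i = 0 then 1 else 0))
    rw [key i j _ hp] at h1
    simpa using h1
  · intro h i j hij m
    rw [key i j m hij]
    apply h
    rw [rot_p, Equiv.symm_apply_eq] at hij
    exact hij

theorem allIdle_rot [NeZero L] (s : St (Lab L)) : AllIdle (rot s) ↔ AllIdle s := by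
  unfold AllIdle
  apply forall_congr'
  intro k
  rw [rot_p, rot_g, rho_lx, Equiv.symm_apply_eq, rho_ly]
  have h1 : (lx k : Lab L) ≠ Sum.inl 0 := by simp [lx]
  have h2 : (ly k : Lab L) ≠ Sum.inl 0 := by simp [ly]
  constructor
  · rintro ⟨h3, h4⟩
    refine ⟨h3, ?_⟩
    rw [h3, if_neg h1, if_neg h2] at h4
    simpa using h4
  · rintro ⟨h3, h4⟩
    refine ⟨h3, ?_⟩
    rw [h3, if_neg h1, if_neg h2, h4]
    simp

namespace Exq

theorem allIdle_iterate [NeZero L] (s : St (Lab L)) (c : ℕ) :
    AllIdle (rot^[c] s) ↔ AllIdle s := by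
  induction c generalizing s with
  | zero => rfl
  | succ c ih => rw [Function.iterate_succ_apply, ih, allIdle_rot]

/-- number of wraps of the labels after `c` rotations -/
def dd (c : ℕ) : Lab L → ℤ := fun w => match w with
  | Sum.inl i => if i.val < c then 1 else 0
  | Sum.inr _ => 0

theorem rho_pow_inl_zero [NeZero L] (c : ℕ) (hc : c < L) :
    ((rho L) ^ c) (Sum.inl 0) = Sum.inl ⟨c, hc⟩ := by
  induction c with
  | zero =>
    simp only [pow_zero, Equiv.Perm.coe_one, id_eq]
    rfl
  | succ c ih =>
    rw [pow_succ', Equiv.Perm.mul_apply, ih (by omega), rho_inl]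
    congr 1
    have h := finRotate_val (⟨c, by omega⟩ : Fin L)
    apply Fin.ext
    simp only at h ⊢
    split_ifs at h with h0
    · rw [h0] at h
      simp at h
      omega
    · omega

theorem iterate_rot [NeZero L] (s : St (Lab L)) (c : ℕ) (hc : c ≤ L) :
    rot^[c] s = perm ((rho L) ^ c) (gauge (dd c) s) := by
  induction c with
  | zero =>
    rw [Function.iterate_zero, id, pow_zero]
    ext w
    · rfl
    · rcases w with i | a <;> simp [perm_g, gauge_g, dd]
      rcases s.p (Sum.inl i) with j | b <;> simp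
      rcases s.p (Sum.inr a) with j | b <;> simp
  | succ c ih =>
    rw [Function.iterate_succ_apply', ih (by omega), rot_eq, gauge_perm, perm_perm, gauge_gauge,
      ← pow_succ]
    congr 2
    funext w
    simp only [Pi.add_apply, Function.comp]
    have h1 : (((rho L) ^ c).symm w = Sum.inl 0) ↔ w = Sum.inl ⟨c, by omega⟩ := by
      rw [Equiv.symm_apply_eq, rho_pow_inl_zero c (by omega)]
    rw [if_congr h1 rfl rfl]
    rcases w with i | a
    · simp only [dd, Sum.inl.injEq, Fin.ext_iff]
      split_ifs <;> omega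
    · simp [dd]

theorem rho_pow_self (L : ℕ) [NeZero L] : (rho L) ^ L = 1 := by
  have h1 : ∀ (c : ℕ) (i : Fin L), ((rho L) ^ c) (Sum.inl i) = Sum.inl (((finRotate L) ^ c) i) := by
    intro c
    induction c with
    | zero => intro i; rfl
    | succ c ih => intro i; rw [pow_succ', Equiv.Perm.mul_apply, ih, rho_inl, pow_succ',
        Equiv.Perm.mul_apply]
  have h2 : ∀ (c : ℕ) (a : Fin 3 × Bool), ((rho L) ^ c) (Sum.inr a) = Sum.inr a := by
    intro c
    induction c with
    | zero => intro a; rfl
    | succ c ih => intro a; rw [pow_succ', Equiv.Perm.mul_apply, ih, rho_inr]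
  have h3 : ∀ (c : ℕ) (i : Fin L), ((((finRotate L) ^ c) i : Fin L) : ℕ) = (i + c) % L := by
    intro c
    induction c with
    | zero => intro i; simp [Nat.mod_eq_of_lt i.isLt]
    | succ c ih =>
      intro i
      rw [pow_succ', Equiv.Perm.mul_apply]
      have h := finRotate_val (((finRotate L) ^ c) i)
      rw [ih] at h
      have hL : 0 < L := Nat.pos_of_ne_zero (NeZero.ne L)
      have hlt := Nat.mod_lt (i + c) hL
      have hlt2 := ((finRotate L) (((finRotate L) ^ c) i)).isLt
      have e : (i + (c + 1)) % L = ((i + c) % L + 1) % L := by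
        rw [← add_assoc, Nat.mod_add_mod]
      rw [e]
      split_ifs at h with h0
      · rw [h0] at h
        simp only [Fin.val_zero, zero_add] at h
        rw [h0, ← h, Nat.mod_self]
        rfl
      · rw [add_zero] at h
        rw [← h, Nat.mod_eq_of_lt hlt2]
  ext w
  rcases w with i | a
  · rw [h1]
    simp only [Equiv.Perm.coe_one, id_eq]
    congr 1
    apply Fin.ext
    rw [h3, Nat.add_mod_right, Nat.mod_eq_of_lt i.isLt]
  · rw [h2]; rfl

end Exq

/-- `rot` is a bijection; `rot^L` is the identity on idle states -/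
theorem rot_iterate_self [NeZero L] (s : St (Lab L)) (hs : AllIdle s) : rot^[L] s = s := by
  rw [iterate_rot s L le_rfl, rho_pow_self]
  ext w
  · rfl
  · rw [perm_g, gauge_g, Equiv.Perm.coe_one, id]
    rcases w with i | ⟨k, b⟩
    · obtain ⟨j, hj⟩ := partner_strand hs i
      rw [hj]
      simp [dd]
    · rcases hp : s.p (Sum.inr (k, b)) with j | a
      · exfalso
        obtain ⟨i, hi⟩ := partner_strand hs j
        have h1 := s.inv (Sum.inr (k, b))
        rw [hp, hi] at h1
        simp at h1
      · simp [dd]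

theorem numExp_rot [NeZero L] (s : St (Lab L)) (hs : AllIdle s) : numExp (rot s) = numExp s := by
  classical
  have hL : 0 < L := Nat.pos_of_ne_zero (NeZero.ne L)
  unfold numExp
  have hper : ∀ c : ℕ, Exposed s ((c % L : ℕ) : ℤ) ↔ Exposed s (c : ℤ) := by
    intro c
    have h := exposed_add_period s ((c % L : ℕ) : ℤ) ((c / L : ℕ) : ℤ)
    rw [← h]
    have e : (((c % L : ℕ) : ℤ) + ((c / L : ℕ) : ℤ) * (L : ℤ)) = (c : ℤ) := by
      have := Nat.mod_add_div c L
      rw [mul_comm] at this
      exact_mod_cast this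
    rw [e]
  refine Finset.card_bij (fun c _ => (c + 1) % L) ?_ ?_ ?_
  · intro c hc
    simp only [Finset.mem_filter, Finset.mem_range] at hc ⊢
    refine ⟨Nat.mod_lt _ hL, ?_⟩
    rw [hper]
    have := (exposed_rot s hs c).1 hc.2
    push_cast
    exact this
  · intro c hc c' hc' h
    simp only [Finset.mem_filter, Finset.mem_range] at hc hc'
    have h1 : (c + 1) % L = (c' + 1) % L := h
    have h2 : c % L = c' % L := Nat.ModEq.add_right_cancel' 1 h1
    rwa [Nat.mod_eq_of_lt hc.1, Nat.mod_eq_of_lt hc'.1] at h2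
  · intro c hc
    simp only [Finset.mem_filter, Finset.mem_range] at hc
    refine ⟨(c + (L - 1)) % L, ?_, ?_⟩
    · simp only [Finset.mem_filter, Finset.mem_range]
      refine ⟨Nat.mod_lt _ hL, ?_⟩
      rw [exposed_rot s hs, ← Nat.cast_succ, ← hper]
      have h2 : (((c + (L - 1)) % L : ℕ) + 1) % L = c := by
        rw [Nat.mod_add_mod]
        have : c + (L - 1) + 1 = c + L := by omega
        rw [this, Nat.add_mod_right, Nat.mod_eq_of_lt hc.1]
      have h3 : ((c + (L - 1)) % L).succ % L = c := h2
      rw [h3]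
      exact hc.2
    · rw [Nat.mod_add_mod]
      have : c + (L - 1) + 1 = c + L := by omega
      rw [this, Nat.add_mod_right, Nat.mod_eq_of_lt hc.1]

namespace Exq

theorem numExp_iterate [NeZero L] (s : St (Lab L)) (hs : AllIdle s) (c : ℕ) :
    numExp (rot^[c] s) = numExp s := by
  induction c with
  | zero => rfl
  | succ c ih => rw [Function.iterate_succ_apply', numExp_rot _ ((allIdle_iterate s c).2 hs), ih]

theorem exposed_iterate [NeZero L] (s : St (Lab L)) (hs : AllIdle s) (k : ℕ) (c : ℤ) :
    Exposed (rot^[k] s) c ↔ Exposed s (c + k) := by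
  induction k generalizing c with
  | zero => simp
  | succ k ih =>
    rw [Function.iterate_succ_apply', exposed_rot _ ((allIdle_iterate s k).2 hs), ih]
    push_cast
    rw [add_assoc, add_comm (1 : ℤ)]

end Exq

theorem planar_rot [NeZero L] (s : St (Lab L)) (hs : AllIdle s) : Planar (rot s) ↔ Planar s := by
  constructor
  · rintro ⟨c, hc⟩
    exact ⟨c + 1, by rw [Function.iterate_succ_apply]; exact hc⟩
  · rintro ⟨c, hc⟩
    rcases c with _ | c
    · refine ⟨L - 1, ?_⟩
      rw [← Function.iterate_succ_apply]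
      have : (L - 1).succ = L := by
        have := Nat.pos_of_ne_zero (NeZero.ne L); omega
      rw [this, rot_iterate_self s hs]
      exact hc
    · exact ⟨c, by rw [← Function.iterate_succ_apply]; exact hc⟩

/-- planar states are idle -/
theorem Planar.allIdle [NeZero L] {s : St (Lab L)} (hs : Planar s) : AllIdle s := by
  obtain ⟨c, hc⟩ := hs
  exact (allIdle_iterate s c).1 hc.1

/-- the cut can be chosen in one period -/
theorem Planar.exists_lt [NeZero L] {s : St (Lab L)} (hs : Planar s) :
    ∃ c < L, Flat (rot^[c] s) := by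
  have hid := hs.allIdle
  obtain ⟨c, hc⟩ := hs
  refine ⟨c % L, Nat.mod_lt _ (Nat.pos_of_ne_zero (NeZero.ne L)), ?_⟩
  have h1 : Function.IsPeriodicPt rot L s := rot_iterate_self s hid
  rw [h1.iterate_mod_apply]
  exact hc

namespace Exq

theorem flat_gain {s : St (Lab L)} (hs : Flat s) (w : Lab L) : s.g w = 0 := by
  rcases w with i | ⟨k, b⟩
  · exact hs.2.1 i
  · cases b
    · exact (hs.1 k).2
    · have h1 := s.gs (lx k)
      rw [(hs.1 k).1, (hs.1 k).2, neg_zero] at h1
      exact h1

theorem finite_flat : {s : St (Lab L) | Flat s}.Finite := by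
  apply Set.Finite.of_injOn (f := fun s : St (Lab L) => s.p) (t := Set.univ)
  · intro _ _; trivial
  · intro s hs s' hs' h
    ext w
    · exact congrFun h w
    · rw [flat_gain hs, flat_gain hs']
  · exact Set.toFinite _

end Exq

theorem finite_planar [NeZero L] : Finite {s : St (Lab L) // Planar s} := by
  have h : {s : St (Lab L) | Planar s} ⊆ ⋃ c ∈ Finset.range L, {s : St (Lab L) | Flat (rot^[c] s)} := by
    intro s hs
    obtain ⟨c, hc, hf⟩ := Planar.exists_lt hs
    simp only [Set.mem_iUnion, Finset.mem_range, exists_prop]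
    exact ⟨c, hc, hf⟩
  have h2 : {s : St (Lab L) | Planar s}.Finite := by
    apply Set.Finite.subset _ h
    apply Set.Finite.biUnion (Finset.finite_toSet _)
    intro c _
    exact Set.Finite.preimage ((rot_inj.iterate c).injOn) finite_flat
  exact h2.to_subtype

theorem planar_pi0 (n : ℕ) [NeZero (2 * n)] : Planar (pi0 n) := by
  refine ⟨0, ?_, ?_, ?_⟩
  · intro k
    exact ⟨rfl, rfl⟩
  · intro i; rfl
  · rintro i j k l hij hjk hkl ⟨h1, h2⟩
    simp only [Function.iterate_zero, id, pi0, Sum.inl.injEq, Fin.ext_iff] at h1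
    rw [Fin.lt_def] at hij hjk
    split_ifs at h1 <;> omega

namespace Exq

/-- exposure with natural numbers -/
def Ex0 (s : St (Lab L)) (c : ℕ) : Prop :=
  ∀ i i' : Fin L, s.p (Sum.inl i) = Sum.inl i' → (i.val < c ↔ i'.val < c)

theorem exposed_iff {s : St (Lab L)} (hg : ∀ i : Fin L, s.g (Sum.inl i) = 0) {c : ℕ} (hc : c ≤ L) :
    Exposed s (c : ℤ) ↔ Ex0 s c := by
  constructor
  · intro h i i' hii
    have := h i i' hii 0
    rw [hg] at this
    simp only [add_zero, zero_mul] at this
    exact_mod_cast this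
  · intro h i i' hii m
    have h1 := h i i' hii
    rw [hg, add_zero]
    have hi : (i : ℤ) < L := by exact_mod_cast i.isLt
    have hi' : (i' : ℤ) < L := by exact_mod_cast i'.isLt
    have hi0 : (0 : ℤ) ≤ (i : ℤ) := by positivity
    have hi0' : (0 : ℤ) ≤ (i' : ℤ) := by positivity
    have hcL : (c : ℤ) ≤ L := by exact_mod_cast hc
    have hc0 : (0 : ℤ) ≤ (c : ℤ) := by positivity
    rcases lt_trichotomy m 0 with hm | hm | hm
    · have : m * (L : ℤ) ≤ -1 * L := mul_le_mul_of_nonneg_right (by omega) (by positivity)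
      constructor <;> intro _ <;> linarith
    · subst hm
      simp only [zero_mul, add_zero]
      exact_mod_cast h1
    · have : 1 * (L : ℤ) ≤ m * L := mul_le_mul_of_nonneg_right (by omega) (by positivity)
      constructor <;> intro _ <;> linarith

/-- the strands before an exposed interval are matched among themselves -/
theorem even_of_ex0 {s : St (Lab L)} (hs : AllIdle s) {c : ℕ} (hc : c ≤ L) (h : Ex0 s c) :
    Even c := by
  classical
  choose f hf using partner_strand hs
  have h1 : ∑ i ∈ Finset.univ.filter (fun i : Fin L => i.val < c), (1 : ZMod 2) = 0 := by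
    apply Finset.sum_involution (fun i _ => f i)
    · intro i _; decide
    · intro i _ _ hfi
      have := hf i
      rw [hfi] at this
      exact s.ne _ this
    · intro i hi
      simp only [Finset.mem_filter, Finset.mem_univ, true_and] at hi ⊢
      exact (h i _ (hf i)).1 hi
    · intro i _
      have h1 := s.inv (Sum.inl i)
      rw [hf i, hf (f i)] at h1
      simpa using h1
  rw [Finset.sum_const, nsmul_eq_mul, mul_one] at h1
  have h2 : (Finset.univ.filter (fun i : Fin L => i.val < c)).card = c := by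
    rw [Fin.card_filter_val_lt, min_eq_right hc]
  rw [h2] at h1
  rw [ZMod.natCast_eq_zero_iff] at h1
  exact even_iff_two_dvd.2 h1

theorem card_even (n : ℕ) : ((Finset.range (2 * n)).filter (fun c => c % 2 = 0)).card = n := by
  induction n with
  | zero => simp
  | succ n ih =>
    have : 2 * (n + 1) = 2 * n + 1 + 1 := by ring
    rw [this, Finset.range_add_one, Finset.filter_insert, Finset.range_add_one, Finset.filter_insert]
    rw [if_neg (by omega), if_pos (by omega), Finset.card_insert_of_notMem, ih]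
    simp

end Exq

theorem numExp_pi0 (n : ℕ) [NeZero (2 * n)] : numExp (pi0 n) = n := by
  classical
  unfold numExp
  rw [← card_even n]
  congr 1
  rw [card_even n]
  apply Finset.filter_congr
  intro c hc
  rw [Finset.mem_range] at hc
  rw [exposed_iff (fun _ => rfl) hc.le]
  constructor
  · intro h
    have h1 := even_of_ex0 (s := pi0 n) (fun k => ⟨rfl, rfl⟩) hc.le h
    exact Nat.even_iff.1 h1
  · intro h i i' hi
    simp only [pi0, Sum.inl.injEq, Fin.ext_iff] at hi
    split_ifs at hi <;> omega

/-- there is an exposed interval -/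
theorem numExp_pos [NeZero L] {s : St (Lab L)} (hs : Planar s) : 1 ≤ numExp s := by
  classical
  have hid := hs.allIdle
  obtain ⟨c, hc⟩ := hs
  rw [← numExp_iterate s hid c]
  unfold numExp
  apply Finset.card_pos.2
  refine ⟨0, ?_⟩
  simp only [Finset.mem_filter, Finset.mem_range]
  refine ⟨Nat.pos_of_ne_zero (NeZero.ne L), ?_⟩
  rw [exposed_iff hc.2.1 (by omega)]
  intro i i' _
  simp

theorem numExp_le (n : ℕ) [NeZero (2 * n)] {s : St (Lab (2 * n))} (hs : Planar s) :
    numExp s ≤ n := by
  classical
  have hid := hs.allIdle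
  obtain ⟨c, hc⟩ := hs
  rw [← numExp_iterate s hid c]
  unfold numExp
  calc _ ≤ ((Finset.range (2 * n)).filter (fun c => c % 2 = 0)).card := by
        apply Finset.card_le_card
        intro x hx
        simp only [Finset.mem_filter, Finset.mem_range] at hx ⊢
        refine ⟨hx.1, ?_⟩
        have h2 := hx.2
        rw [exposed_iff hc.2.1 hx.1.le] at h2
        exact Nat.even_iff.1 (even_of_ex0 hc.1 hx.1.le h2)
    _ = n := card_even n

/-- all exposed intervals have the same parity -/
theorem exposed_parity (n : ℕ) [NeZero (2 * n)] {s : St (Lab (2 * n))} (hs : Planar s) {c c' : ℤ}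
    (h : Exposed s c) (h' : Exposed s c') : Even (c - c') := by
  have hid := hs.allIdle
  obtain ⟨k, hk⟩ := hs
  have key : ∀ c : ℤ, Exposed s c → Even (c - k) := by
    intro c hc
    have h1 : Exposed (rot^[k] s) (c - k) := by
      rw [exposed_iterate s hid]
      simpa using hc
    have hL : (0 : ℤ) < ((2 * n : ℕ) : ℤ) := by
      have := Nat.pos_of_ne_zero (NeZero.ne (2 * n)); exact_mod_cast this
    have h2 : Exposed (rot^[k] s) ((c - k) % ((2 * n : ℕ) : ℤ)) := by
      rw [← exposed_add_period _ _ ((c - k) / ((2 * n : ℕ) : ℤ))]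
      have e : (c - k) % ((2 * n : ℕ) : ℤ) + (c - k) / ((2 * n : ℕ) : ℤ) * ((2 * n : ℕ) : ℤ)
          = c - k := by
        rw [mul_comm ((c - k) / ((2 * n : ℕ) : ℤ)), Int.emod_add_mul_ediv]
      rw [e]
      exact h1
    obtain ⟨r, hr⟩ : ∃ r : ℕ, (r : ℤ) = (c - k) % ((2 * n : ℕ) : ℤ) :=
      ⟨((c - k) % ((2 * n : ℕ) : ℤ)).toNat, by rw [Int.toNat_of_nonneg (Int.emod_nonneg _ hL.ne')]⟩
    have hr2 : r < 2 * n := by
      have := Int.emod_lt_of_pos (c - k) hL
      rw [← hr] at this
      exact_mod_cast this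
    rw [← hr, exposed_iff hk.2.1 hr2.le] at h2
    have h3 := even_of_ex0 hk.1 hr2.le h2
    have h4 : c - k = r + ((2 * n : ℕ) : ℤ) * ((c - k) / ((2 * n : ℕ) : ℤ)) := by
      rw [hr, Int.emod_add_mul_ediv]
    rw [h4]
    apply Even.add
    · exact_mod_cast h3
    · apply Even.mul_right
      push_cast
      exact even_two_mul _
  have h1 := key c h
  have h2 := key c' h'
  have h3 := h1.sub h2
  have : c - (k : ℤ) - (c' - k) = c - c' := by ring
  rwa [this] at h3

end Pool.Agent.H65.Perc
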