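import Mathlib
import Pool.Agent.H65.Perc.Model

/-!
# Noncrossing states
-/

namespace Pool.Agent.H65.Perc

open St

variable {Λ : Type*} [DecidableEq Λ]

/-- the matching is noncrossing for the linear order given by `pos` -/
def NC (pos : Λ → ℤ) (s : St Λ) : Prop :=
  ∀ a b, pos a < pos b → pos b < pos (s.p a) → pos a < pos (s.p b) ∧ pos (s.p b) < pos (s.p a)

theorem NC_join {pos : Λ → ℤ} (hinj : Function.Injective pos) {u v : Λ} (huv : pos u < pos v)
    (hadj : ∀ w, ¬ (pos u < pos w ∧ pos w < pos v)) {s : St Λ} (h : NC pos s) :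
    NC pos (join u v s) := by
  have hne : u ≠ v := fun e => by simp [e] at huv
  have hinv := s.inv
  have hn := s.ne
  intro a b hab hb
  have key : ∀ c d, pos c < pos d → pos d < pos (s.p c) →
    pos c < pos (s.p d) ∧ pos (s.p d) < pos (s.p c) := h
  have hp := fun w => join_p hne s w
  by_cases hau : a = u
  · have h1 : (join u v s).p a = v := by rw [hp]; simp [hau]
    rw [h1] at hb
    exact absurd ⟨hau ▸ hab, hb⟩ (hadj b)
  by_cases hav : a = v
  · have h1 : (join u v s).p a = u := by rw [hp]; simp [hav, hne.symm]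
    rw [h1] at hb
    rw [hav] at hab
    omega
  have inj : ∀ {c d}, c ≠ d → pos c ≠ pos d := fun hcd e => hcd (hinj e)
  have nu : ∀ w, w ≠ u → w ≠ v → pos w < pos u ∨ pos v < pos w := by
    intro w h1 h2
    have := inj h1; have := inj h2; have := hadj w
    omega
  by_cases haU : a = s.p u
  · have hUv : s.p u ≠ v := fun e => hav (haU.trans e)
    have hVu : s.p v ≠ u := fun e => hUv (by rw [← e, hinv])
    have h1 : (join u v s).p a = s.p v := by rw [hp]; simp [haU, hn, hUv]
    rw [h1] at hb ⊢
    have pU := nu (s.p u) (hn u) hUv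
    have pV := nu (s.p v) hVu (hn v)
    rw [haU] at hab ⊢
    by_cases hbu : b = u
    · have h2 : (join u v s).p b = v := by rw [hp]; simp [hbu]
      rw [h2]; rw [hbu] at hab hb
      have := inj (hn v)
      omega
    by_cases hbv : b = v
    · have h2 : (join u v s).p b = u := by rw [hp]; simp [hbv, hne.symm]
      rw [h2]; rw [hbv] at hab hb
      omega
    have hbU : b ≠ s.p u := fun e => by rw [e] at hab; omega
    have hbV : b ≠ s.p v := fun e => by rw [e] at hb; omega
    have h2 : (join u v s).p b = s.p b := by rw [hp]; simp [hbu, hbv, hbU, hbV]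
    rw [h2]
    have pb := nu b hbu hbv
    have pB := nu (s.p b) (fun e => hbU (by rw [← e, hinv])) (fun e => hbV (by rw [← e, hinv]))
    have k1 := key (s.p u) (s.p v); have k2 := key u v
    have k3 := key (s.p u) b; have k4 := key v b
    have k5 := key (s.p u) (s.p b); have k6 := key v (s.p b)
    have k7 := key (s.p u) v
    have k8 := key u (s.p v)
    simp only [hinv] at k1 k2 k3 k4 k5 k6 k7 k8
    have := inj hbU; have := inj hbV
    omega
  by_cases haV : a = s.p v
  · have hVu : s.p v ≠ u := fun e => hau (haV.trans e)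
    have hUv : s.p u ≠ v := fun e => hVu (by rw [← e, hinv])
    have hVU : s.p v ≠ s.p u := fun e => hne (by rw [← hinv u, ← e, hinv])
    have h1 : (join u v s).p a = s.p u := by rw [hp]; simp [haV, hn, hVu, hVU]
    rw [h1] at hb ⊢
    have pU := nu (s.p u) (hn u) hUv
    have pV := nu (s.p v) hVu (hn v)
    rw [haV] at hab ⊢
    by_cases hbu : b = u
    · have h2 : (join u v s).p b = v := by rw [hp]; simp [hbu]
      rw [h2]; rw [hbu] at hab hb
      have k1 := key (s.p v) u
      simp only [hinv] at k1
      omega
    by_cases hbv : b = v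
    · have h2 : (join u v s).p b = u := by rw [hp]; simp [hbv, hne.symm]
      rw [h2]; rw [hbv] at hab hb
      have k1 := key (s.p v) u
      simp only [hinv] at k1
      omega
    have hbU : b ≠ s.p u := fun e => by rw [e] at hb; omega
    have hbV : b ≠ s.p v := fun e => by rw [e] at hab; omega
    have h2 : (join u v s).p b = s.p b := by rw [hp]; simp [hbu, hbv, hbU, hbV]
    rw [h2]
    have pb := nu b hbu hbv
    have pB := nu (s.p b) (fun e => hbU (by rw [← e, hinv])) (fun e => hbV (by rw [← e, hinv]))
    have k1 := key (s.p v) b; have k2 := key (s.p u) (s.p b); have k3 := key u b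
    have k4 := key v (s.p b); have k5 := key (s.p v) u; have k6 := key (s.p v) (s.p b)
    have k7 := key u (s.p b); have k8 := key v b; have k9 := key (s.p u) b
    simp only [hinv] at k1 k2 k3 k4 k5 k6 k7 k8 k9
    have := inj hbU; have := inj hbV
    have nB1 : s.p b ≠ s.p u := fun e => hbu (by rw [← hinv b, e, hinv])
    have nB2 : s.p b ≠ s.p v := fun e => hbv (by rw [← hinv b, e, hinv])
    have := inj nB1; have := inj nB2
    have := inj (hn b)
    omega
  have h1 : (join u v s).p a = s.p a := by rw [hp]; simp [hau, hav, haU, haV]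
  rw [h1] at hb ⊢
  have hAu : s.p a ≠ u := fun e => haU (by rw [← e, hinv])
  have hAv : s.p a ≠ v := fun e => haV (by rw [← e, hinv])
  have pa := nu a hau hav
  have pA := nu (s.p a) hAu hAv
  by_cases hbu : b = u
  · have h2 : (join u v s).p b = v := by rw [hp]; simp [hbu]
    rw [h2]; rw [hbu] at hab hb
    omega
  by_cases hbv : b = v
  · have h2 : (join u v s).p b = u := by rw [hp]; simp [hbv, hne.symm]
    rw [h2]; rw [hbv] at hab hb
    omega
  by_cases hbU : b = s.p u
  · have hUv : s.p u ≠ v := fun e => hbv (hbU.trans e)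
    have h2 : (join u v s).p b = s.p v := by rw [hp]; simp [hbU, hn, hUv]
    rw [h2]; rw [hbU] at hab hb
    have k1 := key a (s.p u) hab hb
    rw [hinv] at k1
    exact key a v (by omega) (by omega)
  by_cases hbV : b = s.p v
  · have hVU : s.p v ≠ s.p u := fun e => hne (by rw [← hinv u, ← e, hinv])
    have hVu : s.p v ≠ u := fun e => hbu (hbV.trans e)
    have h2 : (join u v s).p b = s.p u := by
      rw [hp]; simp [hbV, hn, hVU, hVu]
    rw [h2]; rw [hbV] at hab hb
    have k1 := key a (s.p v) hab hb
    rw [hinv] at k1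
    exact key a u (by omega) (by omega)
  have h2 : (join u v s).p b = s.p b := by rw [hp]; simp [hbu, hbv, hbU, hbV]
  rw [h2]
  exact key a b hab hb

end Pool.Agent.H65.Perc
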