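import Mathlib
import Pool.Agent.H65.Perc.Comm

/-!
# Degenerate points of the Yang–Baxter equation
-/

namespace Pool.Agent.H65.Perc

open St

variable {Λ : Type*} [DecidableEq Λ]

/-- words of length three -/
theorem words (t : ℝ) {u y y' : Λ} (huy : u ≠ y) (huy' : u ≠ y') (hyy' : y ≠ y') :
    opP u y * opE t u y' = opE t y y' * opE t u y' ∧
    opE t u y * opP u y' = opE t u y * opE t y y' ∧
    opE t y y' * opP u y * opP u y' = opE t y y' * opE t u y' ∧
    opE t y y' * opP u y * opE t u y' = opE t y y' * opE t u y' ∧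
    opE t y y' * opE t u y * opP u y' = opE t y y' ∧
    opE t y y' * opE t u y * opE t u y' = opE t y y' * opE t u y' ∧
    opP u y * opP u y' * opE t y y' = opE t u y * opE t y y' ∧
    opP u y * opE t u y' * opE t y y' = opE t y y' ∧
    opE t u y * opP u y' * opE t y y' = opE t u y * opE t y y' ∧
    opE t u y * opE t u y' * opE t y y' = opE t u y * opE t y y' := by
  have EE := fun {u v w : Λ} (huv : u ≠ v) (huw : u ≠ w) (hvw : v ≠ w) => opE_opE t huv huw hvw
  have EP := fun {u v w : Λ} (huv : u ≠ v) (huw : u ≠ w) (hvw : v ≠ w) => opE_opP t huv huw hvw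
  have q1 : opP u y * opE t u y' = opE t y y' * opE t u y' := by
    have := EE (u := u) (v := y') (w := y) huy' huy hyy'.symm
    rw [opE_comm t y' y] at this
    exact this.symm
  have q2 : opE t u y * opP u y' = opE t u y * opE t y y' := EP huy huy' hyy'
  have r31 : opE t y y' * opP u y = opE t y y' * opE t u y' := by
    have := EP (u := y) (v := y') (w := u) hyy' huy.symm huy'.symm
    rw [opP_comm y u, opE_comm t y' u] at this
    exact this
  have r2p : opE t u y' * opP u y' = opE t u y' := opE_opP_self t huy'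
  have r22 : opE t u y' * opE t u y' = opE t u y' := opE_sq t huy'
  have r3e1 : opE t y y' * opE t u y = opE t y y' * opP u y' := by
    have := EP (u := y') (v := y) (w := u) hyy'.symm huy'.symm huy.symm
    rw [opE_comm t y' y, opP_comm y' u, opE_comm t y u] at this
    exact this.symm
  have pp2 : (opP u y' : Op Λ) * opP u y' = 1 := opP_sq u y'
  have pp1 : (opP u y : Op Λ) * opP u y = 1 := opP_sq u y
  have r23 : opP u y' * opE t y y' = opE t u y * opE t y y' := by
    have := EE (u := y') (v := y) (w := u) hyy'.symm huy'.symm huy.symm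
    rw [opE_comm t y u, opE_comm t y' y, opP_comm y' u] at this
    exact this.symm
  have r11 : opP u y * opE t u y = opE t u y := opP_opE_self t huy
  have re23 : opE t u y' * opE t y y' = opP u y * opE t y y' := by
    have := EE (u := y) (v := y') (w := u) hyy' huy.symm huy'.symm
    rw [opE_comm t y' u, opP_comm y u] at this
    exact this
  have re1p1 : opE t u y * opP u y = opE t u y := opE_opP_self t huy
  have re11 : opE t u y * opE t u y = opE t u y := opE_sq t huy
  refine ⟨q1, q2, ?_, ?_, ?_, ?_, ?_, ?_, ?_, ?_⟩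
  · rw [r31, mul_assoc, r2p]
  · rw [r31, mul_assoc, r22]
  · rw [r3e1, mul_assoc, pp2, mul_one]
  · rw [r3e1, mul_assoc, opP_opE_self t huy']
  · rw [mul_assoc, r23, ← mul_assoc, r11]
  · rw [mul_assoc, re23, ← mul_assoc, pp1, one_mul]
  · rw [mul_assoc, r23, ← mul_assoc, re11]
  · rw [mul_assoc, re23, ← mul_assoc, re1p1]

theorem absorb_left (t : ℝ) {a a' : ℝ} {u y y' : Λ} (huy : u ≠ y) (huy' : u ≠ y') (hyy' : y ≠ y')
    (h : (1 - a) * a' = 1) :
    opE t y y' * (opR t a u y * opR t a' u y') = opE t y y' := by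
  obtain ⟨q1, q2, w1, w2, w3, w4, w5, w6, w7, w8⟩ := words t huy huy' hyy'
  unfold opR
  simp only [add_mul, mul_add, smul_mul_assoc, mul_smul_comm, smul_add, smul_smul, ← mul_assoc,
    w1, w2, w3, w4]
  match_scalars
  · linear_combination -h
  · linear_combination h

theorem absorb_right (t : ℝ) {a a' : ℝ} {u y y' : Λ} (huy : u ≠ y) (huy' : u ≠ y') (hyy' : y ≠ y')
    (h : (1 - a') * a = 1) :
    opR t a u y * opR t a' u y' * opE t y y' = opE t y y' := by
  obtain ⟨q1, q2, w1, w2, w3, w4, w5, w6, w7, w8⟩ := words t huy huy' hyy'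
  unfold opR
  simp only [add_mul, mul_add, smul_mul_assoc, mul_smul_comm, smul_add, smul_smul, ← mul_assoc,
    w5, w6, w7, w8]
  match_scalars
  · linear_combination -h
  · linear_combination h

theorem exchange (t : ℝ) {a a' : ℝ} {u y y' : Λ} (huy : u ≠ y) (huy' : u ≠ y') (hyy' : y ≠ y')
    (h : (1 - a) * a' = 1) :
    opR t a u y * opR t a' u y' * (opE t y y' - 1)
      = (opE t y y' - 1) * (opR t a' u y * opR t a u y') := by
  obtain ⟨q1, q2, w1, w2, w3, w4, w5, w6, w7, w8⟩ := words t huy huy' hyy'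
  unfold opR
  simp only [add_mul, mul_add, smul_mul_assoc, mul_smul_comm, smul_add, smul_smul, ← mul_assoc,
    mul_sub, sub_mul, mul_one, one_mul, w1, w2, w3, w4, w5, w6, w7, w8]
  rw [q1, q2]
  match_scalars
  all_goals first | ring1 | linear_combination h | linear_combination -h

theorem absorb_left_list (t : ℝ) {a a' : ℝ} {us : List Λ} {y y' : Λ} (hy : y ∉ us) (hy' : y' ∉ us)
    (hyy' : y ≠ y') (h : (1 - a) * a' = 1) :
    opE t y y' * opKK t a a' us y y' = opE t y y' := by
  induction us with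
  | nil => simp [opKK]
  | cons u us ih =>
    rw [List.mem_cons, not_or] at hy hy'
    rw [opKK_cons, ← mul_assoc, absorb_left t (Ne.symm hy.1) (Ne.symm hy'.1) hyy' h, ih hy.2 hy'.2]

theorem absorb_right_list (t : ℝ) {a a' : ℝ} {us : List Λ} {y y' : Λ} (hy : y ∉ us) (hy' : y' ∉ us)
    (hyy' : y ≠ y') (h : (1 - a') * a = 1) :
    opKK t a a' us y y' * opE t y y' = opE t y y' := by
  induction us with
  | nil => simp [opKK]
  | cons u us ih =>
    rw [List.mem_cons, not_or] at hy hy'
    rw [opKK_cons, mul_assoc, ih hy.2 hy'.2, absorb_right t (Ne.symm hy.1) (Ne.symm hy'.1) hyy' h]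

theorem exchange_list (t : ℝ) {a a' : ℝ} {us : List Λ} {y y' : Λ} (hy : y ∉ us) (hy' : y' ∉ us)
    (hyy' : y ≠ y') (h : (1 - a) * a' = 1) :
    opKK t a a' us y y' * (opE t y y' - 1) = (opE t y y' - 1) * opKK t a' a us y y' := by
  induction us with
  | nil => simp [opKK]
  | cons u us ih =>
    rw [List.mem_cons, not_or] at hy hy'
    rw [opKK_cons, opKK_cons, mul_assoc, ih hy.2 hy'.2, ← mul_assoc,
      exchange t (Ne.symm hy.1) (Ne.symm hy'.1) hyy' h]
    simp only [mul_assoc]

/-! ### Maps between classes of states -/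

/-- from states in `A`, the operator only reaches states in `B` -/
def Maps (Z : Op Λ) (A B : St Λ → Prop) : Prop :=
  ∀ f : St Λ → ℝ, (∀ s, B s → f s = 0) → ∀ s, A s → Z f s = 0

omit [DecidableEq Λ] in
theorem Maps.congr {Z : Op Λ} {A B : St Λ → Prop} (h : Maps Z A B) {f g : St Λ → ℝ}
    (hfg : ∀ s, B s → f s = g s) {s : St Λ} (hs : A s) : Z f s = Z g s := by
  have := h (f - g) (fun s hs => by simp [hfg s hs]) s hs
  rw [map_sub] at this
  simpa [sub_eq_zero] using this

omit [DecidableEq Λ] in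
theorem Maps.mul {Z W : Op Λ} {A B C : St Λ → Prop} (h : Maps Z A B) (h' : Maps W B C) :
    Maps (Z * W) A C := by
  intro f hf s hs
  rw [Module.End.mul_apply]
  exact h (W f) (fun s' hs' => h' f hf s' hs') s hs

omit [DecidableEq Λ] in
theorem Maps.one (A : St Λ → Prop) : Maps (1 : Op Λ) A A := fun _ hf s hs => hf s hs

omit [DecidableEq Λ] in
theorem Maps.mono {Z : Op Λ} {A A' B B' : St Λ → Prop} (h : Maps Z A B) (hA : ∀ s, A' s → A s)
    (hB : ∀ s, B s → B' s) : Maps Z A' B' :=
  fun f hf s hs => h f (fun s' hs' => hf s' (hB s' hs')) s (hA s hs)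

theorem maps_opR (t a : ℝ) {u y : Λ} {A B : St Λ → Prop}
    (h : ∀ s, A s → B (swap u y s) ∧ B (join u y s)) : Maps (opR t a u y) A B := by
  intro f hf s hs
  unfold opR
  simp only [LinearMap.add_apply, LinearMap.smul_apply, Pi.add_apply, Pi.smul_apply, smul_eq_mul,
    opP_apply, opE_apply]
  rw [hf _ (h s hs).1, hf _ (h s hs).2]
  ring

theorem maps_opE (t : ℝ) {u y : Λ} {A B : St Λ → Prop}
    (h : ∀ s, A s → B (join u y s)) : Maps (opE t u y) A B := by
  intro f hf s hs
  rw [opE_apply, hf _ (h s hs), mul_zero]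

/-- all the gains vanish -/
def ZG (s : St Λ) : Prop := ∀ w, s.g w = 0

theorem ZG.swap {s : St Λ} (h : ZG s) (u v : Λ) : ZG (St.swap u v s) := fun w => by
  rw [swap_g]; exact h _

theorem ZG.join {s : St Λ} (h : ZG s) {u v : Λ} (huv : u ≠ v) : ZG (St.join u v s) := fun w => by
  rw [join_g huv, h, h, h]; simp

theorem ZG.wt {s : St Λ} (h : ZG s) (t : ℝ) (u v : Λ) : St.wt t u v s = 1 := by
  unfold St.wt; simp [h u]

/-- on states without gains the loop weight does not matter -/
theorem opR_zg (t a : ℝ) (u y : Λ) {s : St Λ} (h : ZG s) (f : St Λ → ℝ) :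
    opR t a u y f s = opR 1 a u y f s := by
  unfold opR
  simp only [LinearMap.add_apply, LinearMap.smul_apply, Pi.add_apply, Pi.smul_apply,
    opP_apply, opE_apply, h.wt]

theorem maps_opR_zg (t a : ℝ) {u y : Λ} (huy : u ≠ y) : Maps (opR t a u y) ZG ZG :=
  maps_opR t a fun _ hs => ⟨hs.swap _ _, hs.join huy⟩

theorem maps_opK_zg (t a : ℝ) {us : List Λ} {y : Λ} (hy : y ∉ us) :
    Maps (opK t a us y) ZG ZG := by
  induction us with
  | nil => exact Maps.one _
  | cons u us ih =>
    rw [List.mem_cons, not_or] at hy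
    rw [opK_cons]
    exact (maps_opR_zg t a (Ne.symm hy.1)).mul (ih hy.2)

theorem opK_zg (t a : ℝ) {us : List Λ} {y : Λ} (hy : y ∉ us) {s : St Λ} (h : ZG s)
    (f : St Λ → ℝ) : opK t a us y f s = opK 1 a us y f s := by
  induction us generalizing s with
  | nil => rfl
  | cons u us ih =>
    rw [List.mem_cons, not_or] at hy
    rw [opK_cons, opK_cons, Module.End.mul_apply, Module.End.mul_apply, opR_zg t a u y h]
    exact (maps_opR_zg 1 a (Ne.symm hy.1)).congr (fun s' hs' => ih hy.2 hs') h

/-- constants are preserved at loop weight 1 -/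
theorem wt_one (u v : Λ) (s : St Λ) : St.wt 1 u v s = 1 := by unfold St.wt; split_ifs <;> rfl

theorem opR_const (a : ℝ) (u y : Λ) (c : ℝ) :
    opR 1 a u y (fun _ => c) = fun _ => c := by
  ext s
  unfold opR
  simp only [LinearMap.add_apply, LinearMap.smul_apply, Pi.add_apply, Pi.smul_apply, smul_eq_mul,
    opP_apply, opE_apply, wt_one]
  ring

theorem opK_const (a : ℝ) (us : List Λ) (y : Λ) (c : ℝ) :
    opK 1 a us y (fun _ => c) = fun _ => c := by
  induction us with
  | nil => rfl
  | cons u us ih => rw [opK_cons, Module.End.mul_apply, ih, opR_const]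

/-- a property preserved by the crossings -/
theorem maps_opK_of (t a : ℝ) {us : List Λ} {y : Λ} {A : St Λ → Prop}
    (h : ∀ u ∈ us, ∀ s, A s → A (St.swap u y s) ∧ A (St.join u y s)) :
    Maps (opK t a us y) A A := by
  induction us with
  | nil => exact Maps.one _
  | cons u us ih =>
    rw [opK_cons]
    exact (maps_opR t a (h u List.mem_cons_self)).mul
      (ih fun v hv => h v (List.mem_cons_of_mem _ hv))

/-- value of a function which is constant on an invariant class -/
theorem opK_eq_const (a : ℝ) {us : List Λ} {y : Λ} {A : St Λ → Prop}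
    (h : ∀ u ∈ us, ∀ s, A s → A (St.swap u y s) ∧ A (St.join u y s)) {f : St Λ → ℝ} {c : ℝ}
    (hf : ∀ s, A s → f s = c) {s : St Λ} (hs : A s) : opK 1 a us y f s = c := by
  rw [(maps_opK_of 1 a h).congr (g := fun _ => c) hf hs, opK_const]

end Pool.Agent.H65.Perc
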