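import Mathlib
import Pool.Agent.H65.Perc.Model
import Pool.Agent.H65.Perc.NC
import Pool.Agent.H65.Perc.Special

/-!
# Sweeping the lines over the strands preserves planarity
-/

namespace Pool.Agent.H65.Perc

open St

section General

variable {Λ : Type*} [DecidableEq Λ]

omit [DecidableEq Λ] in
theorem NC_congr {pos pos' : Λ → ℤ} (h : ∀ a b, pos a < pos b ↔ pos' a < pos' b) {s : St Λ}
    (hs : NC pos s) : NC pos' s := by
  intro a b h1 h2
  rw [← h] at h1 h2
  have := hs a b h1 h2
  rwa [h, h] at this

theorem NC_swap {pos : Λ → ℤ} (u v : Λ) {s : St Λ} (hs : NC pos s) :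
    NC (pos ∘ Equiv.swap u v) (swap u v s) := by
  intro a b h1 h2
  simp only [Function.comp_apply, swap_p, Equiv.swap_apply_self] at h1 h2 ⊢
  exact hs _ _ h1 h2

theorem NC_step {pos : Λ → ℤ} (hinj : Function.Injective pos) {u v : Λ} (huv : pos v < pos u)
    (hadj : ∀ w, ¬ (pos v < pos w ∧ pos w < pos u)) {s : St Λ} (h : NC pos s) :
    NC (pos ∘ Equiv.swap u v) (swap u v s) ∧ NC (pos ∘ Equiv.swap u v) (join u v s) := by
  refine ⟨NC_swap u v h, ?_⟩
  have hne : u ≠ v := fun e => by simp [e] at huv
  rw [← swap_join hne]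
  apply NC_swap
  rw [join_comm]
  exact NC_join hinj huv hadj h

end General

variable {L : ℕ}

/-- positions of the labels while line `k` is crossing strand `j` -/
def posS (k : Fin 3) (j : ℕ) : Lab L → ℤ
  | Sum.inl i => if (i : ℕ) < j then i else i + 1
  | Sum.inr (m, false) => -6 + (m : ℕ)
  | Sum.inr (m, true) => if m < k then L + ((k : ℕ) - (m : ℕ)) else if m = k then j
      else -1 - (m : ℕ)

theorem posS_inj (k : Fin 3) {j : ℕ} (hj : j ≤ L) :
    Function.Injective (posS k j : Lab L → ℤ) := by
  intro a b hab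
  have hj' : (j : ℤ) ≤ L := by exact_mod_cast hj
  rcases a with a | ⟨a, a'⟩ <;> rcases b with b | ⟨b, b'⟩
  · have := a.isLt; have := b.isLt
    simp only [posS] at hab
    rw [Sum.inl.injEq, Fin.ext_iff]
    split_ifs at hab <;> omega
  · exfalso
    have := a.isLt
    have hb := b.isLt; have hk := k.isLt
    rcases b' with _ | _ <;> simp only [posS, Fin.lt_def, Fin.ext_iff] at hab <;>
      split_ifs at hab <;> omega
  · exfalso
    have := b.isLt
    have hb := a.isLt; have hk := k.isLt
    rcases a' with _ | _ <;> simp only [posS, Fin.lt_def, Fin.ext_iff] at hab <;>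
      split_ifs at hab <;> omega
  · have hb := a.isLt; have hk := k.isLt; have hb := b.isLt
    rcases a' with _ | _ <;> rcases b' with _ | _ <;>
      simp only [posS, Fin.lt_def, Fin.ext_iff] at hab <;>
      simp only [Sum.inr.injEq, Prod.mk.injEq, Fin.ext_iff] <;>
      (try split_ifs at hab) <;> simp <;> omega

theorem posS_succ (k : Fin 3) {j : ℕ} (hj : j < L) :
    (posS k (j + 1) : Lab L → ℤ) = posS k j ∘ Equiv.swap (Sum.inl ⟨j, hj⟩) (ly k) := by
  funext w
  rcases w with i | ⟨m, b⟩
  · by_cases hi : i = ⟨j, hj⟩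
    · subst hi
      simp [posS, ly]
    · have h2 : (Sum.inl i : Lab L) ≠ Sum.inl ⟨j, hj⟩ := by simpa using hi
      have h3 : (Sum.inl i : Lab L) ≠ ly k := by simp [ly]
      rw [Function.comp_apply, Equiv.swap_apply_of_ne_of_ne h2 h3]
      have : (i : ℕ) ≠ j := fun h => hi (Fin.ext h)
      simp only [posS]
      split_ifs <;> omega
  · rcases b with _ | _
    · rw [Function.comp_apply, Equiv.swap_apply_of_ne_of_ne (by simp) (by simp [ly])]
      rfl
    · by_cases hm : m = k
      · subst hm
        have : (Sum.inr (m, true) : Lab L) = ly m := rfl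
        rw [this, Function.comp_apply, Equiv.swap_apply_right]
        simp [posS, ly]
      · rw [Function.comp_apply, Equiv.swap_apply_of_ne_of_ne (by simp) (by simp [ly, hm])]
        simp [posS, hm]

/-- planar class while line `k` is at strand `j` -/
def PS (k : Fin 3) (j : ℕ) (s : St (Lab L)) : Prop := ZG s ∧ NC (posS k j) s

theorem maps_sweep_aux (t a : ℝ) (k : Fin 3) (d : ℕ) : ∀ j, j + d = L →
    Maps (opK t a (((List.finRange L).drop j).map Sum.inl) (ly k)) (PS (L := L) k j) (PS k L) := by
  induction d with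
  | zero =>
    intro j hj
    simp only [add_zero] at hj
    subst hj
    rw [List.drop_of_length_le (by simp)]
    exact Maps.one _
  | succ d ih =>
    intro j hj
    have hjL : j < L := by omega
    have hcons : (List.finRange L).drop j = ⟨j, hjL⟩ :: (List.finRange L).drop (j + 1) := by
      rw [List.drop_eq_getElem_cons (by simpa using hjL)]
      simp
    rw [hcons, List.map_cons, opK_cons]
    refine Maps.mul (B := PS k (j + 1)) (maps_opR t a ?_) (ih (j + 1) (by omega))
    intro s hs
    have hne : (Sum.inl ⟨j, hjL⟩ : Lab L) ≠ ly k := by simp [ly]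
    have h1 : posS k j (ly k : Lab L) = j := by simp [posS, ly]
    have h2 : posS k j (Sum.inl ⟨j, hjL⟩ : Lab L) = j + 1 := by simp [posS]
    have := NC_step (posS_inj k hjL.le) (u := (Sum.inl ⟨j, hjL⟩ : Lab L)) (v := ly k)
      (by rw [h1, h2]; omega) (by intro w; rw [h1, h2]; omega) hs.2
    rw [← posS_succ k hjL] at this
    exact ⟨⟨hs.1.swap _ _, this.1⟩, ⟨hs.1.join hne, this.2⟩⟩

theorem maps_sweep (t a : ℝ) (k : Fin 3) :
    Maps (opK t a (strands L) (ly k)) (PS (L := L) k 0) (PS k L) := by
  have := maps_sweep_aux (L := L) t a k L 0 (by omega)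
  simpa [strands] using this

theorem PS_next {k k' : Fin 3} (h : (k' : ℕ) = k + 1) {s : St (Lab L)} (hs : PS k L s) :
    PS k' 0 s := by
  refine ⟨hs.1, NC_congr ?_ hs.2⟩
  intro a b
  have hk := k.isLt; have hk' := k'.isLt
  rcases a with a | ⟨a, a'⟩ <;> rcases b with b | ⟨b, b'⟩
  · have := a.isLt; have := b.isLt
    simp only [posS]; split_ifs <;> omega
  · have := a.isLt; have hb := b.isLt
    rcases b' with _ | _ <;> simp only [posS, Fin.lt_def, Fin.ext_iff] <;> split_ifs <;> omega
  · have := b.isLt; have hb := a.isLt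
    rcases a' with _ | _ <;> simp only [posS, Fin.lt_def, Fin.ext_iff] <;> split_ifs <;> omega
  · have := b.isLt; have hb := a.isLt
    rcases a' with _ | _ <;> rcases b' with _ | _ <;>
      simp only [posS, Fin.lt_def, Fin.ext_iff] <;> split_ifs <;> omega

theorem Flat.zg {s : St (Lab L)} (hs : Flat s) : ZG s := by
  intro w
  rcases w with i | ⟨m, b⟩
  · exact hs.2.1 i
  · have h := hs.1 m
    rcases b with _ | _
    · exact h.2
    · have := s.gs (lx m)
      rw [h.1, h.2] at this
      simpa [ly] using this

theorem Flat.ps {s : St (Lab L)} (hs : Flat s) : PS 0 0 s := by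
  refine ⟨hs.zg, ?_⟩
  have hx : ∀ m : Fin 3, s.p (Sum.inr (m, false)) = Sum.inr (m, true) := fun m => (hs.1 m).1
  have hy : ∀ m : Fin 3, s.p (Sum.inr (m, true)) = Sum.inr (m, false) := fun m => by
    have := s.inv (Sum.inr (m, false))
    rwa [hx] at this
  intro a b hab hb
  rcases a with a | ⟨a, a'⟩
  · -- partner of a strand is a strand
    have hA : ∃ A : Fin L, s.p (Sum.inl a) = Sum.inl A := by
      rcases h : s.p (Sum.inl a) with A | ⟨m, b'⟩
      · exact ⟨A, rfl⟩
      · exfalso
        have := s.inv (Sum.inl a)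
        rw [h] at this
        rcases b' with _ | _
        · rw [hx] at this; simp at this
        · rw [hy] at this; simp at this
    obtain ⟨A, hA⟩ := hA
    rw [hA] at hb ⊢
    rcases b with b | ⟨b, b'⟩
    · have hB : ∃ B : Fin L, s.p (Sum.inl b) = Sum.inl B := by
        rcases h : s.p (Sum.inl b) with B | ⟨m, b'⟩
        · exact ⟨B, rfl⟩
        · exfalso
          have := s.inv (Sum.inl b)
          rw [h] at this
          rcases b' with _ | _
          · rw [hx] at this; simp at this
          · rw [hy] at this; simp at this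
      obtain ⟨B, hB⟩ := hB
      rw [hB]
      simp only [posS, Nat.not_lt_zero, if_false] at hab hb ⊢
      have hab' : a < b := by rw [Fin.lt_def]; omega
      have hbA : b < A := by rw [Fin.lt_def]; omega
      have hBb : s.p (Sum.inl B) = Sum.inl b := by rw [← hB, s.inv]
      have hAa : s.p (Sum.inl A) = Sum.inl a := by rw [← hA, s.inv]
      have h1 : ¬ (A < B) := fun h => hs.2.2 a b A B hab' hbA h ⟨hA, hB⟩
      have h2 : ¬ (B < a) := fun h => hs.2.2 B a b A h hab' hbA ⟨hBb, hA⟩
      have h3 : B ≠ A := by
        intro h; rw [h] at hBb; rw [hBb] at hAa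
        simp only [Sum.inl.injEq] at hAa
        omega
      have h4 : B ≠ a := by
        intro h; rw [h] at hBb; rw [hBb] at hA
        simp only [Sum.inl.injEq] at hA
        omega
      rw [Fin.lt_def] at h1 h2
      rw [ne_eq, Fin.ext_iff] at h3 h4
      constructor <;> omega
    · exfalso
      have := b.isLt; have := a.isLt
      rcases b' with _ | _ <;> simp only [posS, Fin.lt_def, Fin.ext_iff] at hab <;>
        split_ifs at hab <;> omega
  · have ha := a.isLt
    rcases a' with _ | _
    · rw [hx] at hb ⊢
      rcases b with b | ⟨b, b'⟩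
      · exfalso
        simp only [posS, Fin.lt_def, Fin.ext_iff] at hb
        split_ifs at hb <;> (try simp at hb) <;> omega
      · have hb' := b.isLt
        rcases b' with _ | _
        · rw [hx]
          simp only [posS, Fin.lt_def, Fin.ext_iff] at hab hb ⊢
          (try split_ifs at hab hb ⊢) <;> (try simp at hab hb ⊢) <;> omega
        · rw [hy]
          simp only [posS, Fin.lt_def, Fin.ext_iff] at hab hb ⊢
          (try split_ifs at hab hb ⊢) <;> (try simp at hab hb ⊢) <;> omega
    · exfalso
      rw [hy] at hb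
      rcases b with b | ⟨b, b'⟩
      · simp only [posS] at hb
        split_ifs at hb <;> (try simp at hb) <;> omega
      · have hb' := b.isLt
        rcases b' with _ | _ <;> simp only [posS, Fin.lt_def, Fin.ext_iff] at hab hb <;>
          (try split_ifs at hab hb) <;> (try simp at hab hb) <;> omega

end Pool.Agent.H65.Perc
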