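import Mathlib
import Pool.Agent.H65.Perc.Sweep

/-!
# The six line ends: finite codes of states
-/

namespace Pool.Agent.H65.Perc

open St

variable {L : ℕ}

/-- the six line ends in planar order -/
def lab6 (a : Fin 6) : Lab L := match a with
  | 0 => lx 0 | 1 => lx 1 | 2 => lx 2 | 3 => ly 2 | 4 => ly 1 | 5 => ly 0

def idx6 : Fin 3 × Bool → Fin 6
  | (0, false) => 0 | (1, false) => 1 | (2, false) => 2
  | (2, true) => 3 | (1, true) => 4 | (0, true) => 5

theorem lab6_idx6 (m : Fin 3 × Bool) : (lab6 (idx6 m) : Lab L) = Sum.inr m := by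
  rcases m with ⟨m, b⟩; fin_cases m <;> cases b <;> rfl

theorem lab6_inj : Function.Injective (lab6 : Fin 6 → Lab L) := by
  intro a b h
  fin_cases a <;> fin_cases b <;> simp [lab6, lx, ly] at h ⊢

abbrev Code := Fin 6 → Option (Fin 6 × ℤ)

def code (s : St (Lab L)) : Code := fun a =>
  match s.p (lab6 a) with
  | Sum.inl _ => none
  | Sum.inr m => some (idx6 m, s.g (lab6 a))

theorem code_eq_some {s : St (Lab L)} {a b : Fin 6} {g : ℤ} :
    code s a = some (b, g) ↔ s.p (lab6 a) = lab6 b ∧ s.g (lab6 a) = g := by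
  unfold code
  rcases h : s.p (lab6 a) with i | m
  · simp only [reduceCtorEq, false_iff, not_and]
    intro h'
    exfalso
    fin_cases b <;> simp [lab6, lx, ly] at h'
  · simp only [Option.some.injEq, Prod.mk.injEq]
    constructor
    · rintro ⟨h1, h2⟩; exact ⟨by rw [← h1, lab6_idx6], h2⟩
    · rintro ⟨h1, h2⟩; exact ⟨lab6_inj (L := L) (by rw [lab6_idx6, h1]), h2⟩

theorem code_eq_none {s : St (Lab L)} {a : Fin 6} :
    code s a = none ↔ ∃ i, s.p (lab6 a) = Sum.inl i := by
  unfold code
  rcases h : s.p (lab6 a) with i | m <;> simp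

def cjoin (u v : Fin 6) (c : Code) : Code := fun a =>
  if a = u then some (v, 0) else if a = v then some (u, 0)
  else if (c u).map Prod.fst = some a then
    (match c u, c v with
    | some (_, gu), some (V, gv) => some (V, gv - gu)
    | _, _ => none)
  else if (c v).map Prod.fst = some a then
    (match c u, c v with
    | some (U, gu), some (_, gv) => some (U, gu - gv)
    | _, _ => none)
  else c a

def ctwist (u : Fin 6) (k : ℤ) (c : Code) : Code := fun a =>
  if a = u then (c a).map (fun x => (x.1, x.2 + k))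
  else if (c u).map Prod.fst = some a then (c a).map (fun x => (x.1, x.2 - k))
  else c a

def cnc (u v : Fin 6) (c : Code) : Bool :=
  match c u with
  | some (w, g) => decide (w = v) && decide (g ≠ 0)
  | none => false

theorem map_fst_eq {s : St (Lab L)} {u a : Fin 6} :
    (code s u).map Prod.fst = some a ↔ s.p (lab6 u) = lab6 a := by
  rw [Option.map_eq_some_iff]
  constructor
  · rintro ⟨⟨b, g⟩, h, rfl⟩
    exact (code_eq_some.1 h).1
  · intro h
    exact ⟨(a, s.g (lab6 u)), code_eq_some.2 ⟨h, rfl⟩, rfl⟩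

theorem code_join {u v : Fin 6} (huv : u ≠ v) (s : St (Lab L)) :
    code (join (lab6 u) (lab6 v) s) = cjoin u v (code s) := by
  have hne : (lab6 u : Lab L) ≠ lab6 v := fun h => huv (lab6_inj h)
  have hinv := s.inv
  funext a
  unfold cjoin
  by_cases hau : a = u
  · subst hau
    rw [if_pos rfl, code_eq_some, join_p hne, join_g hne]
    simp
  rw [if_neg hau]
  have hau' : (lab6 a : Lab L) ≠ lab6 u := fun h => hau (lab6_inj h)
  by_cases hav : a = v
  · subst hav
    rw [if_pos rfl, code_eq_some, join_p hne, join_g hne]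
    simp [hau']
  rw [if_neg hav]
  have hav' : (lab6 a : Lab L) ≠ lab6 v := fun h => hav (lab6_inj h)
  by_cases h1 : (code s u).map Prod.fst = some a
  · rw [if_pos h1]
    have h1' := map_fst_eq.1 h1
    rcases hu : code s u with _ | ⟨U, gu⟩
    · rw [hu] at h1; simp at h1
    rcases hv : code s v with _ | ⟨V, gv⟩
    · simp only
      rw [code_eq_none] at hv ⊢
      obtain ⟨i, hi⟩ := hv
      exact ⟨i, by rw [join_p hne]; simp [hau', hav', h1', hi]⟩
    · simp only
      rw [code_eq_some] at hu hv ⊢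
      rw [join_p hne, join_g hne]
      simp [hau', hav', h1', hv.1, hv.2, hu.2]
  rw [if_neg h1]
  have h1' : (lab6 a : Lab L) ≠ s.p (lab6 u) := fun h => h1 (map_fst_eq.2 h.symm)
  by_cases h2 : (code s v).map Prod.fst = some a
  · rw [if_pos h2]
    have h2' := map_fst_eq.1 h2
    rcases hv : code s v with _ | ⟨V, gv⟩
    · rw [hv] at h2; simp at h2
    rcases hu : code s u with _ | ⟨U, gu⟩
    · simp only
      rw [code_eq_none] at hu ⊢
      obtain ⟨i, hi⟩ := hu
      refine ⟨i, ?_⟩
      rw [join_p hne]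
      rw [if_neg hau', if_neg hav', if_neg h1', if_pos h2'.symm, hi]
    · simp only
      rw [code_eq_some] at hu hv ⊢
      rw [join_p hne, join_g hne]
      rw [if_neg hau', if_neg hav', if_neg h1', if_pos h2'.symm,
        if_neg (by rintro (h | h); exacts [hau' h, hav' h]), if_neg h1', if_pos h2'.symm]
      exact ⟨hu.1, by rw [hu.2, hv.2]⟩
  rw [if_neg h2]
  have h2' : (lab6 a : Lab L) ≠ s.p (lab6 v) := fun h => h2 (map_fst_eq.2 h.symm)
  rcases ha : code s a with _ | ⟨A, ga⟩
  · rw [code_eq_none] at ha ⊢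
    obtain ⟨i, hi⟩ := ha
    exact ⟨i, by rw [join_p hne]; simp [hau', hav', h1', h2', hi]⟩
  · rw [code_eq_some] at ha ⊢
    rw [join_p hne, join_g hne]
    rw [if_neg hau', if_neg hav', if_neg h1', if_neg h2',
        if_neg (by rintro (h | h); exacts [hau' h, hav' h]), if_neg h1', if_neg h2']
    exact ha

theorem code_twist (u : Fin 6) (k : ℤ) (s : St (Lab L)) :
    code (twist (lab6 u) k s) = ctwist u k (code s) := by
  funext a
  unfold ctwist
  by_cases hau : a = u
  · subst hau
    rw [if_pos rfl]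
    rcases ha : code s a with _ | ⟨A, ga⟩
    · rw [code_eq_none] at ha
      simp only [Option.map_none]
      rw [code_eq_none]; exact ha
    · rw [code_eq_some] at ha
      simp only [Option.map_some]
      rw [code_eq_some, twist_g, twist_p, if_pos rfl]
      exact ⟨ha.1, by rw [ha.2]⟩
  rw [if_neg hau]
  have hau' : (lab6 a : Lab L) ≠ lab6 u := fun h => hau (lab6_inj h)
  by_cases h1 : (code s u).map Prod.fst = some a
  · rw [if_pos h1]
    have h1' := map_fst_eq.1 h1
    rcases ha : code s a with _ | ⟨A, ga⟩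
    · rw [code_eq_none] at ha
      simp only [Option.map_none]
      rw [code_eq_none]; exact ha
    · rw [code_eq_some] at ha
      simp only [Option.map_some]
      rw [code_eq_some, twist_g, twist_p, if_neg hau', if_pos h1'.symm]
      exact ⟨ha.1, by rw [ha.2]⟩
  rw [if_neg h1]
  have h1' : (lab6 a : Lab L) ≠ s.p (lab6 u) := fun h => h1 (map_fst_eq.2 h.symm)
  rcases ha : code s a with _ | ⟨A, ga⟩
  · rw [code_eq_none] at ha
    rw [code_eq_none]; exact ha
  · rw [code_eq_some] at ha
    rw [code_eq_some, twist_g, twist_p, if_neg hau', if_neg h1']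
    exact ha

theorem wt_code (t : ℝ) (u v : Fin 6) (s : St (Lab L)) :
    wt t (lab6 u) (lab6 v) s = if cnc u v (code s) then t else 1 := by
  unfold wt cnc
  rcases h : code s u with _ | ⟨U, gu⟩
  · rw [code_eq_none] at h
    obtain ⟨i, hi⟩ := h
    have : s.p (lab6 u) ≠ lab6 v := by
      rw [hi]; fin_cases v <;> simp [lab6, lx, ly]
    simp [this]
  · rw [code_eq_some] at h
    have h2 : s.p (lab6 u) = lab6 v ↔ U = v := by
      rw [h.1]; exact lab6_inj.eq_iff
    simp [h2, h.2]

/-! ### closing the three lines -/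

def cclose (a b : Fin 6) (c : Code) : Code := cjoin a b (ctwist a 1 c)

def cnum (a b : Fin 6) (c : Code) : ℕ := if cnc a b (ctwist a 1 c) then 1 else 0

/-- number of noncontractible loops when the three lines are closed -/
def ccount (c : Code) : ℕ :=
  cnum 0 5 c + cnum 1 4 (cclose 0 5 c) + cnum 2 3 (cclose 1 4 (cclose 0 5 c))

noncomputable def opJ (t : ℝ) (k : Fin 3) : Op (Lab L) := opG (lx k) 1 * opE t (lx k) (ly k)

theorem opJ_apply {k : Fin 3} {a b : Fin 6} (ha : (lab6 a : Lab L) = lx k)
    (hb : (lab6 b : Lab L) = ly k) (t : ℝ) (f : St (Lab L) → ℝ) (s : St (Lab L)) :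
    opJ t k f s = t ^ cnum a b (code s) * f (join (lab6 a) (lab6 b) (twist (lab6 a) 1 s)) := by
  unfold opJ
  rw [Module.End.mul_apply, opG_apply, opE_apply, ← ha, ← hb, wt_code, code_twist]
  congr 1
  unfold cnum
  split_ifs <;> simp

theorem close_eq (t : ℝ) (s : St (Lab L)) :
    (opJ t 0 * (opJ t 1 * opJ t 2) : Op (Lab L)) (fun _ => 1) s = t ^ ccount (code s) := by
  rw [Module.End.mul_apply, Module.End.mul_apply, opJ_apply (a := 0) (b := 5) rfl rfl,
    opJ_apply (a := 1) (b := 4) rfl rfl, opJ_apply (a := 2) (b := 3) rfl rfl]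
  simp only [code_join (show (0 : Fin 6) ≠ 5 by decide), code_join (show (1 : Fin 6) ≠ 4 by decide),
    code_twist, mul_one]
  rw [← pow_add, ← pow_add, ← add_assoc]
  rfl

/-! ### the test functions -/

def tx12 (c : Code) : ℤ := if (c 1).map Prod.fst = some 2 then 1 else 0
def tfree (c : Code) : ℤ := if c 1 = none ∧ c 2 = none then 1 else 0
def tx0y0 (c : Code) : ℤ := if (c 0).map Prod.fst = some 5 then 1 else 0
def tx0y0' (c : Code) : ℤ :=
  if (c 0).map Prod.fst = some 5 ∧ (c 4).map Prod.fst = some 3 then 1 else 0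
def tx2y2 (c : Code) : ℤ := if (c 2).map Prod.fst = some 3 then 1 else 0

/-- `h(join y1 y2 s) - h(join y1 y2 (join y0 y1 s))` -/
def cdiff (h : Code → ℤ) (c : Code) : ℤ := h (cjoin 4 3 c) - h (cjoin 4 3 (cjoin 5 4 c))

def cn3 (c : Code) : ℤ := cdiff tx12 c
def cn2 (c : Code) : ℤ := cdiff tfree c
def cn1 (c : Code) : ℤ := tx2y2 (cjoin 0 1 c) + tx0y0' (cjoin 1 2 c) + cdiff tfree c + cdiff tx0y0 c

def zcode (q : Fin 6 → Option (Fin 6)) : Code := fun a => (q a).map (fun b => (b, 0))

def Good (c : Code) : Prop :=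
  ccount c ≤ 3 ∧ cn1 c = ccount c ∧ cn2 c = (if ccount c = 2 then 1 else 0) ∧
    cn3 c = (if ccount c = 3 then 1 else 0)

instance (c : Code) : Decidable (Good c) := by unfold Good; infer_instance

/-- `b` lies strictly between `a` and `a'` -/
def btw (a a' b : Fin 6) : Bool := (decide (a < b) && decide (b < a')) || (decide (a' < b) && decide (b < a))

/-- the strands lie between `a` and `a'` -/
def mid (a a' : Fin 6) : Bool := (decide (a ≤ 2) && decide (3 ≤ a')) || (decide (a' ≤ 2) && decide (3 ≤ a))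

/-- compatibility of the values at two places -/
def okPair (a b : Fin 6) : Option (Fin 6) → Option (Fin 6) → Bool
  | none, none => true
  | some a', none => !decide (a' = a) && !decide (a' = b) && (btw a a' b == mid a a')
  | none, some b' => !decide (b' = a) && !decide (b' = b) && (btw b b' a == mid b b')
  | some a', some b' => !decide (a' = a) && !decide (b' = b) &&
      (decide (a' = b) == decide (b' = a)) && (decide (a' = b) || (btw a a' b == btw a a' b'))

set_option maxRecDepth 100000 in
theorem good_all : ∀ q0 q1 : Option (Fin 6), okPair 0 1 q0 q1 = true →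
    ∀ q2, (okPair 0 2 q0 q2 && okPair 1 2 q1 q2) = true →
    ∀ q3, (okPair 0 3 q0 q3 && okPair 1 3 q1 q3 && okPair 2 3 q2 q3) = true →
    ∀ q4, (okPair 0 4 q0 q4 && okPair 1 4 q1 q4 && okPair 2 4 q2 q4 && okPair 3 4 q3 q4) = true →
    ∀ q5, (okPair 0 5 q0 q5 && okPair 1 5 q1 q5 && okPair 2 5 q2 q5 && okPair 3 5 q3 q5
      && okPair 4 5 q4 q5) = true →
    Good (zcode ![q0, q1, q2, q3, q4, q5]) := by
  decide +kernel

end Pool.Agent.H65.Perc
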