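import Mathlib
import Pool.Agent.H65.Perc.Code

/-!
# The pointwise identity for planar states of the three lines
-/

namespace Pool.Agent.H65.Perc

open St

theorem NC.btw_imp {Λ : Type*} [DecidableEq Λ] {pos : Λ → ℤ} {s : St Λ} (h : NC pos s) {A B : Λ}
    (hb : (pos A < pos B ∧ pos B < pos (s.p A)) ∨ (pos (s.p A) < pos B ∧ pos B < pos A)) :
    (pos A < pos (s.p B) ∧ pos (s.p B) < pos (s.p A)) ∨
      (pos (s.p A) < pos (s.p B) ∧ pos (s.p B) < pos A) := by
  rcases hb with ⟨h1, h2⟩ | ⟨h1, h2⟩
  · exact Or.inl (h A B h1 h2)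
  · have := h (s.p A) B h1 (by rw [s.inv]; exact h2)
    rw [s.inv] at this
    exact Or.inr this

theorem NC.btw {Λ : Type*} [DecidableEq Λ] {pos : Λ → ℤ} {s : St Λ} (h : NC pos s) (A B : Λ) :
    ((pos A < pos B ∧ pos B < pos (s.p A)) ∨ (pos (s.p A) < pos B ∧ pos B < pos A)) ↔
    ((pos A < pos (s.p B) ∧ pos (s.p B) < pos (s.p A)) ∨
      (pos (s.p A) < pos (s.p B) ∧ pos (s.p B) < pos A)) := by
  constructor
  · exact h.btw_imp
  · intro hb
    have := h.btw_imp (B := s.p B) hb
    rwa [s.inv] at this

variable {L : ℕ}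

theorem pos6_lt (a b : Fin 6) :
    posS 2 L (lab6 a : Lab L) < posS 2 L (lab6 b : Lab L) ↔ a < b := by
  fin_cases a <;> fin_cases b <;> simp [posS, lab6, lx, ly, Fin.lt_def] <;> omega

theorem pos6_strand (a : Fin 6) (i : Fin L) :
    (posS 2 L (lab6 a : Lab L) < posS 2 L (Sum.inl i : Lab L) ↔ a ≤ 2) ∧
    (posS 2 L (Sum.inl i : Lab L) < posS 2 L (lab6 a : Lab L) ↔ 3 ≤ a) := by
  have := i.isLt
  fin_cases a <;> simp [posS, lab6, lx, ly, Fin.lt_def, Fin.le_def] <;> omega

theorem good_of_PS {s : St (Lab L)} (hs : PS 2 L s) : Good (code s) := by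
  obtain ⟨hz, hnc⟩ := hs
  set q : Fin 6 → Option (Fin 6) := fun a => (code s a).map Prod.fst with hq
  have hcode : code s = zcode q := by
    funext a
    rcases h : code s a with _ | ⟨A, g⟩
    · simp [zcode, hq, h]
    · have hg := (code_eq_some.1 h).2
      rw [hz] at hg
      simp [zcode, hq, h, ← hg]
  have some_iff : ∀ a b, q a = some b ↔ s.p (lab6 a) = lab6 b := fun a b => map_fst_eq
  have none_iff : ∀ a, q a = none ↔ ∃ i, s.p (lab6 a) = Sum.inl i := by
    intro a
    rw [← code_eq_none, hq]
    simp
  have hok : ∀ a b : Fin 6, a < b → okPair a b (q a) (q b) = true := by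
    intro a b hab
    have hself : ∀ c, q c ≠ some c := by
      intro c h
      exact s.ne _ ((some_iff c c).1 h)
    have hsymm : ∀ c d, q c = some d → q d = some c := by
      intro c d h
      rw [some_iff] at h ⊢
      rw [← h, s.inv]
    -- mixed case
    have mixed : ∀ c d c', q c = some c' → q d = none →
        (btw c c' d = mid c c') := by
      intro c d c' hc hd
      obtain ⟨i, hi⟩ := (none_iff d).1 hd
      have hc' := (some_iff c c').1 hc
      have key := hnc.btw (lab6 c) (lab6 d)
      rw [hc', hi, pos6_lt, pos6_lt, pos6_lt, pos6_lt, (pos6_strand c i).1, (pos6_strand c' i).2,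
        (pos6_strand c' i).1, (pos6_strand c i).2] at key
      rw [Bool.eq_iff_iff]
      simp only [Perc.btw, mid, Bool.or_eq_true, Bool.and_eq_true, decide_eq_true_eq]
      rw [key]
    rcases ha : q a with _ | a' <;> rcases hb : q b with _ | b'
    · rfl
    · have h1 : b' ≠ b := fun h => hself b (by rw [hb, h])
      have h2 : b' ≠ a := fun h => by
        have := hsymm b a (by rw [hb, h])
        rw [ha] at this; simp at this
      simp [okPair, h1, h2, mixed b a b' hb ha]
    · have h1 : a' ≠ a := fun h => hself a (by rw [ha, h])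
      have h2 : a' ≠ b := fun h => by
        have := hsymm a b (by rw [ha, h])
        rw [hb] at this; simp at this
      simp [okPair, h1, h2, mixed a b a' ha hb]
    · have h1 : a' ≠ a := fun h => hself a (by rw [ha, h])
      have h2 : b' ≠ b := fun h => hself b (by rw [hb, h])
      have h3 : (a' = b) ↔ (b' = a) := by
        constructor
        · intro h
          have := hsymm a b (by rw [ha, h])
          rw [hb] at this; simpa using this
        · intro h
          have := hsymm b a (by rw [hb, h])
          rw [ha] at this; simpa using this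
      have key := hnc.btw (lab6 a) (lab6 b)
      rw [(some_iff a a').1 ha, (some_iff b b').1 hb] at key
      simp only [pos6_lt] at key
      have h4 : Perc.btw a a' b = Perc.btw a a' b' := by
        rw [Bool.eq_iff_iff]
        simp only [Perc.btw, Bool.or_eq_true, Bool.and_eq_true, decide_eq_true_eq]
        rw [key]
      simp [okPair, h1, h2, h3, h4]
  have hq6 : q = ![q 0, q 1, q 2, q 3, q 4, q 5] := by
    funext a; fin_cases a <;> rfl
  rw [hcode, hq6]
  apply good_all (q 0) (q 1) (hok 0 1 (by decide)) (q 2) _ (q 3) _ (q 4) _ (q 5)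
  · simp only [hok 0 5 (by decide), hok 1 5 (by decide), hok 2 5 (by decide),
      hok 3 5 (by decide), hok 4 5 (by decide), Bool.and_self]
  · simp only [hok 0 2 (by decide), hok 1 2 (by decide), Bool.and_self]
  · simp only [hok 0 3 (by decide), hok 1 3 (by decide), hok 2 3 (by decide), Bool.and_self]
  · simp only [hok 0 4 (by decide), hok 1 4 (by decide), hok 2 4 (by decide),
      hok 3 4 (by decide), Bool.and_self]

/-- the weight of the closed loops, in terms of the three test numbers -/
theorem pow_count {s : St (Lab L)} (hs : PS 2 L s) (t : ℝ) :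
    t ^ ccount (code s) = 1 + (t - 1) * (cn1 (code s) : ℝ) + (t - 1) ^ 2 * (cn2 (code s) : ℝ)
      + (t ^ 3 - 3 * t + 2) * (cn3 (code s) : ℝ) := by
  obtain ⟨h0, h1, h2, h3⟩ := good_of_PS hs
  rw [h1, h2, h3]
  have : ccount (code s) = 0 ∨ ccount (code s) = 1 ∨ ccount (code s) = 2 ∨ ccount (code s) = 3 := by
    omega
  rcases this with h | h | h | h <;> rw [h] <;> norm_num <;> ring

end Pool.Agent.H65.Perc
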