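import Mathlib
import Pool.Agent.H65.Perc.Model

/-! JOB J3 (MP_fe58d8_pr): probability that a line passes through a flat pattern. -/

namespace Pool.Agent.H65.Perc

open St

variable {L : ℕ}

namespace Thr

/-- exposure of a flat state, with natural numbers -/
def Ex0 (s : St (Lab L)) (c : ℕ) : Prop :=
  ∀ i i' : Fin L, s.p (Sum.inl i) = Sum.inl i' → (i.val < c ↔ i'.val < c)

open Classical in
noncomputable def N0 (s : St (Lab L)) (j : ℕ) : ℕ :=
  ((Finset.range L).filter (fun c : ℕ => j ≤ c ∧ Ex0 s c)).card

theorem exposed_iff {s : St (Lab L)} (hg : ∀ i : Fin L, s.g (Sum.inl i) = 0) {c : ℕ} (hc : c ≤ L) :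
    Exposed s (c : ℤ) ↔ Ex0 s c := by
  constructor
  · intro h i i' hii
    have := h i i' hii 0
    rw [hg] at this
    simp only [add_zero, zero_mul] at this
    exact_mod_cast this
  · intro h i i' hii m
    have h1 := h i i' hii
    rw [hg, add_zero]
    have hi : (i : ℤ) < L := by exact_mod_cast i.isLt
    have hi' : (i' : ℤ) < L := by exact_mod_cast i'.isLt
    have hi0 : (0 : ℤ) ≤ (i : ℤ) := by positivity
    have hi0' : (0 : ℤ) ≤ (i' : ℤ) := by positivity
    have hcL : (c : ℤ) ≤ L := by exact_mod_cast hc
    have hc0 : (0 : ℤ) ≤ (c : ℤ) := by positivity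
    rcases lt_trichotomy m 0 with hm | hm | hm
    · have : m * (L : ℤ) ≤ -1 * L := mul_le_mul_of_nonneg_right (by omega) (by positivity)
      constructor <;> intro _ <;> linarith
    · subst hm
      simp only [zero_mul, add_zero]
      exact_mod_cast h1
    · have : 1 * (L : ℤ) ≤ m * L := mul_le_mul_of_nonneg_right (by omega) (by positivity)
      constructor <;> intro _ <;> linarith

/-- the partner of a strand of an idle state is a strand -/
theorem partner_strand {s : St (Lab L)} (hs : AllIdle s) (i : Fin L) :
    ∃ i' : Fin L, s.p (Sum.inl i) = Sum.inl i' := by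
  rcases h : s.p (Sum.inl i) with i' | ⟨k, b⟩
  · exact ⟨i', rfl⟩
  · exfalso
    have h2 := s.inv (Sum.inl i)
    rw [h] at h2
    cases b
    · have := (hs k).1
      unfold lx ly at this
      rw [this] at h2
      simp at h2
    · have h3 := s.inv (lx k)
      rw [(hs k).1] at h3
      unfold lx ly at h3
      rw [h3] at h2
      simp at h2

/-- the next exposed interval -/
theorem next_exposed {s : St (Lab L)} (hs : Flat s) {j : ℕ} (hj : j < L) (he : Ex0 s j) {i : Fin L}
    (hi : s.p (Sum.inl ⟨j, hj⟩) = Sum.inl i) :
    j < i.val ∧ Ex0 s (i.val + 1) ∧ N0 s j = 1 + N0 s (i.val + 1) ∧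
      (∀ k k' : Fin L, s.p (Sum.inl k) = Sum.inl k' → j < k.val → k.val < i.val →
        (j < k'.val ∧ k'.val < i.val)) := by
  obtain ⟨hidle, hg, hnc⟩ := hs
  have hi' : s.p (Sum.inl i) = Sum.inl ⟨j, hj⟩ := by rw [← hi, s.inv]
  have hji : j < i.val := by
    have h1 := he _ _ hi
    have h2 : i.val ≠ j := by
      intro h
      apply s.ne (Sum.inl ⟨j, hj⟩)
      rw [hi]
      congr 1
      exact Fin.ext h
    simp at h1
    omega
  have hin : ∀ k k' : Fin L, s.p (Sum.inl k) = Sum.inl k' → j < k.val → k.val < i.val →
      (j < k'.val ∧ k'.val < i.val) := by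
    intro k k' hk hjk hki
    have hk' : s.p (Sum.inl k') = Sum.inl k := by rw [← hk, s.inv]
    have h1 := he _ _ hk
    have h2 : k'.val ≠ j := by
      intro h
      have : k' = ⟨j, hj⟩ := Fin.ext h
      rw [this, hi] at hk'
      simp only [Sum.inl.injEq] at hk'
      omega
    have h3 : k'.val ≠ i.val := by
      intro h
      have : k' = i := Fin.ext h
      rw [this, hi'] at hk'
      simp only [Sum.inl.injEq] at hk'
      rw [← hk'] at hjk
      simp at hjk
    refine ⟨by omega, ?_⟩
    by_contra h4
    have h5 : i < k' := by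
      rw [Fin.lt_def]; omega
    exact hnc ⟨j, hj⟩ k i k' (by rw [Fin.lt_def]; exact hjk) (by rw [Fin.lt_def]; exact hki) h5
      ⟨hi, hk⟩
  have hex : Ex0 s (i.val + 1) := by
    have key : ∀ k k' : Fin L, s.p (Sum.inl k) = Sum.inl k' → k.val < i.val + 1 →
        k'.val < i.val + 1 := by
      intro k k' hk hk1
      rcases lt_trichotomy k.val j with h | h | h
      · have := (he _ _ hk).1 h
        omega
      · have : k = ⟨j, hj⟩ := Fin.ext h
        rw [this, hi] at hk
        simp only [Sum.inl.injEq] at hk
        omega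
      · rcases Nat.lt_succ_iff_lt_or_eq.1 hk1 with h' | h'
        · have := (hin k k' hk h h').2
          omega
        · have : k = i := Fin.ext h'
          rw [this, hi'] at hk
          simp only [Sum.inl.injEq] at hk
          rw [← hk]
          simp only
          omega
    intro k k' hk
    exact ⟨key k k' hk, key k' k (by rw [← hk, s.inv])⟩
  refine ⟨hji, hex, ?_, hin⟩
  classical
  have : (Finset.range L).filter (fun c : ℕ => j ≤ c ∧ Ex0 s c)
      = insert j ((Finset.range L).filter (fun c : ℕ => i.val + 1 ≤ c ∧ Ex0 s c)) := by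
    ext c
    simp only [Finset.mem_filter, Finset.mem_range, Finset.mem_insert]
    constructor
    · rintro ⟨h1, h2, h3⟩
      rcases eq_or_lt_of_le h2 with h | h
      · left; exact h.symm
      · right
        refine ⟨h1, ?_, h3⟩
        by_contra h4
        have := h3 _ _ hi
        simp at this
        omega
    · rintro (h | ⟨h1, h2, h3⟩)
      · subst h
        exact ⟨hj, le_refl _, he⟩
      · exact ⟨h1, by omega, h3⟩
  unfold N0
  rw [this, Finset.card_insert_of_notMem, add_comm]
  simp only [Finset.mem_filter, Finset.mem_range, not_and]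
  intro _ h
  omega

/-- the strands still to be crossed -/
def rem (L : ℕ) (j : ℕ) : List (Lab L) := ((List.finRange L).drop j).map Sum.inl

theorem rem_zero : rem L 0 = strands L := by simp [rem, strands]

theorem rem_last : rem L L = [] := by simp [rem]

theorem rem_cons {j : ℕ} (hj : j < L) : rem L j = Sum.inl ⟨j, hj⟩ :: rem L (j + 1) := by
  unfold rem
  rw [List.drop_eq_getElem_cons (by simpa using hj)]
  simp

/-- all the gains vanish -/
def Z (s : St (Lab L)) : Prop := ∀ w, s.g w = 0

theorem Z.swap {s : St (Lab L)} (h : Z s) (u v : Lab L) : Z (swap u v s) := by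
  intro w
  rw [swap_g]; exact h _

theorem Z.join {s : St (Lab L)} (h : Z s) {u v : Lab L} (huv : u ≠ v) : Z (join u v s) := by
  intro w
  rw [join_g huv]
  simp [h _]

theorem Z.wt {s : St (Lab L)} (h : Z s) (t : ℝ) (u v : Lab L) : wt t u v s = 1 := by
  unfold St.wt
  simp [h u]

/-- the other lines are idle -/
def Oth (k : Fin 3) (s : St (Lab L)) : Prop := ∀ k', k' ≠ k → s.p (lx k') = ly k'

theorem lx_ne_ly (k k' : Fin 3) : (lx k : Lab L) ≠ ly k' := by simp [lx, ly]
theorem inl_ne_ly (i : Fin L) (k : Fin 3) : (Sum.inl i : Lab L) ≠ ly k := by simp [ly]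
theorem inl_ne_lx (i : Fin L) (k : Fin 3) : (Sum.inl i : Lab L) ≠ lx k := by simp [lx]

/-- the indicator that the line gets through -/
noncomputable def ind (k : Fin 3) : St (Lab L) → ℝ := fun s' => if s'.p (lx k) = ly k then 1 else 0

/-- probability of getting through the remaining strands -/
noncomputable def F (t a : ℝ) (k : Fin 3) (j : ℕ) (s : St (Lab L)) : ℝ :=
  (opK t a (rem L j) (ly k) (ind k)) s

theorem F_last (t a : ℝ) (k : Fin 3) (s : St (Lab L)) : F t a k L s = ind k s := by
  unfold F
  rw [rem_last, opK_nil]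
  rfl

theorem F_step (t a : ℝ) (k : Fin 3) {j : ℕ} (hj : j < L) {s : St (Lab L)} (hz : Z s) :
    F t a k j s = a * F t a k (j + 1) (swap (Sum.inl ⟨j, hj⟩) (ly k) s)
      + (1 - a) * F t a k (j + 1) (join (Sum.inl ⟨j, hj⟩) (ly k) s) := by
  unfold F
  rw [rem_cons hj, opK_cons, Module.End.mul_apply]
  unfold opR
  simp only [LinearMap.add_apply, LinearMap.smul_apply, Pi.add_apply, Pi.smul_apply, smul_eq_mul,
    opP_apply, opE_apply, hz.wt, one_mul]

/-- case A: the line is already lost -/
def CA (k : Fin 3) (j : ℕ) (s : St (Lab L)) : Prop :=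
  ∃ i : Fin L, i.val < j ∧ s.p (lx k) = Sum.inl i

/-- case B: the line is idle at an exposed place -/
def CB (s0 : St (Lab L)) (k : Fin 3) (j : ℕ) (s : St (Lab L)) : Prop :=
  s.p (lx k) = ly k ∧ Ex0 s0 j ∧ ∀ i : Fin L, j ≤ i.val → s.p (Sum.inl i) = s0.p (Sum.inl i)

/-- case C: the line is paired with a later strand -/
def CC (s0 : St (Lab L)) (k : Fin 3) (j : ℕ) (i : Fin L) (s : St (Lab L)) : Prop :=
  j ≤ i.val ∧ s.p (lx k) = Sum.inl i ∧ Ex0 s0 (i.val + 1) ∧
    (∃ i' : Fin L, i'.val < i.val ∧ s.p (ly k) = Sum.inl i') ∧
    (∀ i' : Fin L, i'.val < i.val → s.p (Sum.inl i') = ly k ∨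
      ∃ i'' : Fin L, i''.val < i.val ∧ s.p (Sum.inl i') = Sum.inl i'') ∧
    (∀ i' : Fin L, i.val < i'.val → s.p (Sum.inl i') = s0.p (Sum.inl i'))

theorem swap_other {u v w : Lab L} {s : St (Lab L)} (h1 : w ≠ u) (h2 : w ≠ v)
    (h3 : s.p w ≠ u) (h4 : s.p w ≠ v) : (swap u v s).p w = s.p w := by
  rw [swap_p, Equiv.swap_apply_of_ne_of_ne h1 h2, Equiv.swap_apply_of_ne_of_ne h3 h4]

theorem join_other {u v w : Lab L} {s : St (Lab L)} (huv : u ≠ v) (h1 : w ≠ u) (h2 : w ≠ v)
    (h3 : s.p w ≠ u) (h4 : s.p w ≠ v) : (join u v s).p w = s.p w := by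
  have := s.inv
  rw [join_p huv]
  grind

theorem swap_oth {k : Fin 3} {s : St (Lab L)} (h : Oth k s) (i : Fin L) :
    Oth k (swap (Sum.inl i) (ly k) s) := by
  intro k' hk'
  rw [swap_other, h k' hk']
  · exact (inl_ne_lx _ _).symm
  · exact lx_ne_ly _ _
  · rw [h k' hk']; exact (inl_ne_ly _ _).symm
  · rw [h k' hk']; simp [ly, hk']

theorem join_oth {k : Fin 3} {s : St (Lab L)} (h : Oth k s) (i : Fin L) :
    Oth k (join (Sum.inl i) (ly k) s) := by
  intro k' hk'
  rw [join_other (inl_ne_ly _ _), h k' hk']
  · exact (inl_ne_lx _ _).symm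
  · exact lx_ne_ly _ _
  · rw [h k' hk']; exact (inl_ne_ly _ _).symm
  · rw [h k' hk']; simp [ly, hk']

/-- in case B the processed strands are matched among themselves -/
theorem CB.low {s0 s : St (Lab L)} {k : Fin 3} {j : ℕ} (h : CB s0 k j s)
    (ho : Oth k s) (i : Fin L) (hi : i.val < j) :
    ∃ i' : Fin L, i'.val < j ∧ s.p (Sum.inl i) = Sum.inl i' := by
  obtain ⟨h1, h2, h3⟩ := h
  have hinv := s.inv (Sum.inl i)
  rcases hp : s.p (Sum.inl i) with i' | ⟨k', b⟩
  · refine ⟨i', ?_, rfl⟩
    by_contra hcon
    have h4 := h3 i' (by omega)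
    rw [hp] at hinv
    rw [h4] at hinv
    have := h2 _ _ hinv
    omega
  · exfalso
    rw [hp] at hinv
    by_cases hk : k' = k
    · subst hk
      cases b
      · have : (Sum.inr (k', false) : Lab L) = lx k' := rfl
        rw [this, h1] at hinv
        exact inl_ne_ly _ _ hinv.symm
      · have h5 := s.inv (lx k')
        rw [h1] at h5
        have : (Sum.inr (k', true) : Lab L) = ly k' := rfl
        rw [this, h5] at hinv
        exact inl_ne_lx _ _ hinv.symm
    · have h1' := ho k' hk
      cases b
      · have : (Sum.inr (k', false) : Lab L) = lx k' := rfl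
        rw [this, h1'] at hinv
        exact inl_ne_ly _ _ hinv.symm
      · have h5 := s.inv (lx k')
        rw [h1'] at h5
        have : (Sum.inr (k', true) : Lab L) = ly k' := rfl
        rw [this, h5] at hinv
        exact inl_ne_lx _ _ hinv.symm

/-- the backward induction -/
theorem main (t a : ℝ) (k : Fin 3) {s0 : St (Lab L)} (h0 : Flat s0) :
    ∀ n j : ℕ, j + n = L → ∀ s : St (Lab L), Z s → Oth k s →
      ((CA k j s → F t a k j s = 0) ∧
       (CB s0 k j s → F t a k j s = (a * (1 - a)) ^ N0 s0 j) ∧
       (∀ i, CC s0 k j i s → F t a k j s = a * (a * (1 - a)) ^ N0 s0 (i.val + 1))) := by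
  intro n
  induction n with
  | zero =>
    intro j hj s hz ho
    have hj' : j = L := by omega
    subst hj'
    rw [F_last]
    refine ⟨?_, ?_, ?_⟩
    · rintro ⟨i, hi, hp⟩
      unfold ind
      rw [if_neg]
      rw [hp]; exact inl_ne_ly _ _
    · rintro ⟨h1, h2, h3⟩
      unfold ind
      rw [if_pos h1]
      have : N0 s0 j = 0 := by
        classical
        unfold N0
        rw [Finset.card_eq_zero, Finset.filter_eq_empty_iff]
        intro c hc
        rw [Finset.mem_range] at hc
        intro h
        omega
      rw [this, pow_zero]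
    · rintro i ⟨h1, _⟩
      have := i.isLt
      omega
  | succ n ih =>
    intro j hj s hz ho
    have hjL : j < L := by omega
    rw [F_step t a k hjL hz]
    have ih1 := ih (j + 1) (by omega) (swap (Sum.inl ⟨j, hjL⟩) (ly k) s) (hz.swap _ _)
      (swap_oth ho _)
    have ih2 := ih (j + 1) (by omega) (join (Sum.inl ⟨j, hjL⟩) (ly k) s)
      (hz.join (inl_ne_ly _ _)) (join_oth ho _)
    have hxy : (lx k : Lab L) ≠ ly k := lx_ne_ly _ _
    have hxu : (lx k : Lab L) ≠ Sum.inl ⟨j, hjL⟩ := (inl_ne_lx _ _).symm
    have huy : (Sum.inl ⟨j, hjL⟩ : Lab L) ≠ ly k := inl_ne_ly _ _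
    have hinv := s.inv
    refine ⟨?_, ?_, ?_⟩
    · -- case A
      rintro ⟨i, hi, hp⟩
      have hiu : (Sum.inl i : Lab L) ≠ Sum.inl ⟨j, hjL⟩ := by
        intro h
        simp only [Sum.inl.injEq] at h
        rw [h] at hi
        simp at hi
      have e1 : CA k (j + 1) (swap (Sum.inl ⟨j, hjL⟩) (ly k) s) := by
        refine ⟨i, by omega, ?_⟩
        rw [swap_other hxu hxy (by rw [hp]; exact hiu) (by rw [hp]; exact inl_ne_ly _ _), hp]
      have e2 : CA k (j + 1) (join (Sum.inl ⟨j, hjL⟩) (ly k) s) := by
        refine ⟨i, by omega, ?_⟩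
        rw [join_other huy hxu hxy (by rw [hp]; exact hiu) (by rw [hp]; exact inl_ne_ly _ _), hp]
      rw [ih1.1 e1, ih2.1 e2]
      ring
    · -- case B
      intro hB
      obtain ⟨hp, hex, hlater⟩ := id hB
      have hpy : s.p (ly k) = lx k := by rw [← hp, s.inv]
      obtain ⟨i, hi⟩ := partner_strand h0.1 ⟨j, hjL⟩
      obtain ⟨hji, hexi, hN, hin⟩ := next_exposed h0 hjL hex hi
      have hsu : s.p (Sum.inl ⟨j, hjL⟩) = Sum.inl i := by rw [hlater _ (le_refl _), hi]
      have e1 : CA k (j + 1) (swap (Sum.inl ⟨j, hjL⟩) (ly k) s) := by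
        refine ⟨⟨j, hjL⟩, by simp, ?_⟩
        rw [swap_p, Equiv.swap_apply_of_ne_of_ne hxu hxy, hp, Equiv.swap_apply_right]
      have e2 : CC s0 k (j + 1) i (join (Sum.inl ⟨j, hjL⟩) (ly k) s) := by
        refine ⟨by omega, ?_, hexi, ⟨⟨j, hjL⟩, hji, ?_⟩, ?_, ?_⟩
        · rw [join_p huy, if_neg hxu, if_neg hxy, if_neg, if_pos hpy.symm, hsu]
          rw [hsu]; exact (inl_ne_lx _ _).symm
        · rw [join_p huy, if_neg huy.symm, if_pos rfl]
        · intro i' hi'
          by_cases hij : i'.val = j
          · left
            have : i' = ⟨j, hjL⟩ := Fin.ext hij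
            rw [this, join_p huy, if_pos rfl]
          · right
            have hne : (Sum.inl i' : Lab L) ≠ Sum.inl ⟨j, hjL⟩ := by
              intro h
              simp only [Sum.inl.injEq] at h
              rw [h] at hij
              simp at hij
            have key : ∃ i'' : Fin L, i''.val < i.val ∧ i''.val ≠ j ∧
                s.p (Sum.inl i') = Sum.inl i'' := by
              rcases lt_or_gt_of_ne hij with h | h
              · obtain ⟨i'', h1, h2⟩ := hB.low ho i' h
                exact ⟨i'', by omega, by omega, h2⟩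
              · obtain ⟨i'', h2⟩ := partner_strand h0.1 i'
                have := hin _ _ h2 h hi'
                exact ⟨i'', this.2, by omega, by rw [hlater _ (by omega), h2]⟩
            obtain ⟨i'', h1, h2, h3⟩ := key
            refine ⟨i'', h1, ?_⟩
            rw [join_other huy hne (inl_ne_ly _ _), h3]
            · rw [h3]
              intro h
              simp only [Sum.inl.injEq] at h
              rw [h] at h2
              simp at h2
            · rw [h3]; exact inl_ne_ly _ _
        · intro i' hi'
          have hne : (Sum.inl i' : Lab L) ≠ Sum.inl ⟨j, hjL⟩ := by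
            intro h
            simp only [Sum.inl.injEq] at h
            rw [h] at hi'
            simp at hi'
            omega
          obtain ⟨i'', h2⟩ := partner_strand h0.1 i'
          have h3 : s.p (Sum.inl i') = Sum.inl i'' := by rw [hlater _ (by omega), h2]
          rw [join_other huy hne (inl_ne_ly _ _), h3, h2]
          · rw [h3]
            intro h
            simp only [Sum.inl.injEq] at h
            rw [h] at h2
            have h4 := s0.inv (Sum.inl i')
            rw [h2, hi] at h4
            simp only [Sum.inl.injEq] at h4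
            omega
          · rw [h3]; exact inl_ne_ly _ _
      rw [ih1.1 e1, ih2.2.2 i e2, hN]
      ring
    · -- case C
      rintro i ⟨h1, hp, hex, ⟨iy, hiy, hpy⟩, hlow, hlater⟩
      rcases eq_or_lt_of_le h1 with hji | hji
      · -- the strand `i` is crossed now
        have hu : (Sum.inl ⟨j, hjL⟩ : Lab L) = Sum.inl i := by
          congr 1
          exact Fin.ext hji
        have hpi : s.p (Sum.inl i) = lx k := by rw [← hp, s.inv]
        rw [hu] at hxu huy ih1 ih2 ⊢
        have e1 : CB s0 k (j + 1) (swap (Sum.inl i) (ly k) s) := by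
          refine ⟨?_, ?_, ?_⟩
          · rw [swap_p, Equiv.swap_apply_of_ne_of_ne hxu hxy, hp, Equiv.swap_apply_left]
          · rw [hji]; exact hex
          · intro i' hi'
            have hne : (Sum.inl i' : Lab L) ≠ Sum.inl i := by
              intro h
              simp only [Sum.inl.injEq] at h
              rw [h] at hi'
              omega
            have h3 : s.p (Sum.inl i') = s0.p (Sum.inl i') := hlater i' (by omega)
            obtain ⟨i'', h2⟩ := partner_strand h0.1 i'
            rw [swap_other hne (inl_ne_ly _ _), h3]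
            · rw [h3, h2]
              intro h
              rw [h] at h2
              rw [h2] at h3
              have h4 := hinv (Sum.inl i')
              rw [h3, hpi] at h4
              exact inl_ne_lx _ _ h4.symm
            · rw [h3, h2]; exact inl_ne_ly _ _
        have e2 : CA k (j + 1) (join (Sum.inl i) (ly k) s) := by
          refine ⟨iy, by omega, ?_⟩
          rw [join_p huy, if_neg hxu, if_neg hxy, if_pos hpi.symm, hpy]
        rw [ih1.2.1 e1, ih2.1 e2, hji]
        ring
      · -- the strand `i` is crossed later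
        have hui : (Sum.inl i : Lab L) ≠ Sum.inl ⟨j, hjL⟩ := by
          intro h
          simp only [Sum.inl.injEq] at h
          rw [h] at hji
          simp at hji
        have hupper : ∀ i' : Fin L, i.val < i'.val →
            s.p (Sum.inl i') ≠ Sum.inl ⟨j, hjL⟩ ∧ s.p (Sum.inl i') ≠ ly k := by
          intro i' hi'
          constructor
          · intro h
            have h4 := hinv (Sum.inl i')
            rw [h] at h4
            rcases hlow ⟨j, hjL⟩ hji with h5 | ⟨i'', h5, h6⟩
            · rw [h4] at h5
              exact inl_ne_ly _ _ h5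
            · rw [h4] at h6
              simp only [Sum.inl.injEq] at h6
              omega
          · intro h
            have h4 := hinv (Sum.inl i')
            rw [h, hpy] at h4
            simp only [Sum.inl.injEq] at h4
            omega
        have e1 : CC s0 k (j + 1) i (swap (Sum.inl ⟨j, hjL⟩) (ly k) s) := by
          refine ⟨by omega, ?_, hex, ?_, ?_, ?_⟩
          · rw [swap_other hxu hxy (by rw [hp]; exact hui) (by rw [hp]; exact inl_ne_ly _ _), hp]
          · rw [swap_p, Equiv.swap_apply_right]
            rcases hlow ⟨j, hjL⟩ hji with h5 | ⟨i'', h5, h6⟩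
            · rw [h5, Equiv.swap_apply_right]
              exact ⟨⟨j, hjL⟩, hji, rfl⟩
            · rw [h6]
              have : (Sum.inl i'' : Lab L) ≠ Sum.inl ⟨j, hjL⟩ := by
                intro h
                rw [h] at h6
                exact s.ne _ h6
              rw [Equiv.swap_apply_of_ne_of_ne this (inl_ne_ly _ _)]
              exact ⟨i'', h5, rfl⟩
          · intro i' hi'
            rw [swap_p]
            by_cases hij : (Sum.inl i' : Lab L) = Sum.inl ⟨j, hjL⟩
            · rw [hij, Equiv.swap_apply_left, hpy]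
              by_cases hyy : (Sum.inl iy : Lab L) = Sum.inl ⟨j, hjL⟩
              · rw [hyy, Equiv.swap_apply_left]
                left; rfl
              · rw [Equiv.swap_apply_of_ne_of_ne hyy (inl_ne_ly _ _)]
                right
                exact ⟨iy, hiy, rfl⟩
            · rw [Equiv.swap_apply_of_ne_of_ne hij (inl_ne_ly _ _)]
              rcases hlow i' hi' with h5 | ⟨i'', h5, h6⟩
              · rw [h5, Equiv.swap_apply_right]
                right
                exact ⟨⟨j, hjL⟩, hji, rfl⟩
              · rw [h6]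
                by_cases hij' : (Sum.inl i'' : Lab L) = Sum.inl ⟨j, hjL⟩
                · rw [hij', Equiv.swap_apply_left]
                  left; rfl
                · rw [Equiv.swap_apply_of_ne_of_ne hij' (inl_ne_ly _ _)]
                  right
                  exact ⟨i'', h5, rfl⟩
          · intro i' hi'
            obtain ⟨h5, h6⟩ := hupper i' hi'
            rw [swap_other _ (inl_ne_ly _ _) h5 h6, hlater i' hi']
            intro h
            simp only [Sum.inl.injEq] at h
            rw [h] at hi'
            simp at hi'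
            omega
        have e2 : CC s0 k (j + 1) i (join (Sum.inl ⟨j, hjL⟩) (ly k) s) := by
          refine ⟨by omega, ?_, hex, ?_, ?_, ?_⟩
          · rw [join_other huy hxu hxy (by rw [hp]; exact hui) (by rw [hp]; exact inl_ne_ly _ _),
              hp]
          · rw [join_p huy, if_neg huy.symm, if_pos rfl]
            exact ⟨⟨j, hjL⟩, hji, rfl⟩
          · intro i' hi'
            rw [join_p huy]
            split_ifs with g1 g2 g3 g4
            · left; rfl
            · exact absurd g2 (inl_ne_ly _ _)
            · right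
              exact ⟨iy, hiy, hpy⟩
            · rcases hlow ⟨j, hjL⟩ hji with h5 | ⟨i'', h5, h6⟩
              · left; exact h5
              · right; exact ⟨i'', h5, h6⟩
            · exact hlow i' hi'
          · intro i' hi'
            obtain ⟨h5, h6⟩ := hupper i' hi'
            rw [join_other huy _ (inl_ne_ly _ _) h5 h6, hlater i' hi']
            intro h
            simp only [Sum.inl.injEq] at h
            rw [h] at hi'
            simp at hi'
            omega
        rw [ih1.2.2 i e1, ih2.2.2 i e2]
        ring

end Thr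

open Thr in
/-- the line `k` gets through (its two ends stay paired) with probability `(a(1-a))^(number of
exposed intervals)` -/
theorem through (t a : ℝ) (k : Fin 3) (s : St (Lab L)) (hs : Flat s) :
    (opK t a (strands L) (ly k) (fun s' => if s'.p (lx k) = ly k then 1 else 0)) s
      = (a * (1 - a)) ^ numExp s := by
  have hz : Z s := by
    rintro (i | ⟨k', b⟩)
    · exact hs.2.1 i
    · cases b
      · exact (hs.1 k').2
      · have h1 := s.gs (lx k')
        rw [(hs.1 k').1, (hs.1 k').2, neg_zero] at h1
        exact h1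
  have ho : Oth k s := fun k' _ => (hs.1 k').1
  have hB : CB s k 0 s := by
    refine ⟨(hs.1 k).1, ?_, fun _ _ => rfl⟩
    intro i i' _
    simp
  have h1 := (main t a k hs L 0 (by simp) s hz ho).2.1 hB
  have h2 : N0 s 0 = numExp s := by
    classical
    unfold N0 numExp
    congr 1
    apply Finset.filter_congr
    intro c hc
    rw [Finset.mem_range] at hc
    rw [exposed_iff hs.2.1 hc.le]
    simp
  rw [h2] at h1
  unfold F at h1
  rw [rem_zero] at h1
  exact h1

end Pool.Agent.H65.Perc
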