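import Mathlib
import Pool.Agent.H65.Perc.Star0
import Pool.Agent.H65.Perc.Through

/-!
# The three-row identity
-/

namespace Pool.Agent.H65.Perc

open St

variable {L : ℕ}

theorem ly_notin (k : Fin 3) : (ly k : Lab L) ∉ strands L := by simp [ly, strands]
theorem lx_notin (k : Fin 3) : (lx k : Lab L) ∉ strands L := by simp [lx, strands]
theorem ly_ne {k m : Fin 3} (h : k ≠ m) : (ly k : Lab L) ≠ ly m := by simp [ly, h]
theorem lx_ne {k m : Fin 3} (h : k ≠ m) : (lx k : Lab L) ≠ lx m := by simp [lx, h]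
theorem lx_ne_ly (k m : Fin 3) : (lx k : Lab L) ≠ ly m := by simp [lx, ly]
theorem strands_nodup : (strands L).Nodup := by
  unfold strands
  exact (List.nodup_finRange L).map Sum.inl_injective

theorem mem_ne {u v : Lab L} (hu : u ∈ strands L) (hv : v ∉ strands L) : u ≠ v :=
  fun h => hv (h ▸ hu)

/-- `K` commutes with `E` on other line ends -/
theorem K_comm_E (t a : ℝ) {y v w : Lab L} (hy : y ∉ strands L) (hv : v ∉ strands L)
    (hw : w ∉ strands L) (hyv : y ≠ v) (hyw : y ≠ w) (hvw : v ≠ w) :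
    opK t a (strands L) y * opE t v w = opE t v w * opK t a (strands L) y := by
  apply opK_comm_of
  intro u hu
  exact opR_opE_disj t a (mem_ne hu hy) (mem_ne hu hv) (mem_ne hu hw) hyv hyw hvw

theorem K_comm_G (t a : ℝ) {y v : Lab L} (hy : y ∉ strands L) (hv : v ∉ strands L)
    (hyv : y ≠ v) (k : ℤ) :
    opK t a (strands L) y * opG v k = opG v k * opK t a (strands L) y := by
  apply opK_comm_of
  intro u hu
  exact opR_opG_disj t a (mem_ne hu hy) (mem_ne hu hv) hyv k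

theorem T_eq (t a : ℝ) (k : Fin 3) :
    opT t a (strands L) (lx k) (ly k)
      = opE t (lx k) (ly k) * opK t a (strands L) (ly k) * opJ t k := rfl

theorem J_comm_E (t : ℝ) {k m : Fin 3} (h : k ≠ m) :
    (opJ t k : Op (Lab L)) * opE t (lx m) (ly m) = opE t (lx m) (ly m) * opJ t k := by
  unfold opJ
  rw [mul_assoc, opE_opE_disj t (lx_ne_ly k k) (lx_ne h) (lx_ne_ly k m) (lx_ne_ly m k).symm
    (ly_ne h) (lx_ne_ly m m), ← mul_assoc, ← opE_opG_disj t (lx_ne_ly m m) (lx_ne h.symm)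
    (lx_ne_ly k m).symm 1, mul_assoc]

theorem J_comm_K (t a : ℝ) {k m : Fin 3} (h : k ≠ m) :
    opJ t k * opK t a (strands L) (ly m) = opK t a (strands L) (ly m) * opJ t k := by
  unfold opJ
  rw [mul_assoc, ← K_comm_E t a (ly_notin m) (lx_notin k) (ly_notin k) (lx_ne_ly k m).symm
    (ly_ne h.symm) (lx_ne_ly k k), ← mul_assoc, ← K_comm_G t a (ly_notin m) (lx_notin k)
    (lx_ne_ly k m).symm 1, mul_assoc]

theorem J_comm_T (t a : ℝ) {k m : Fin 3} (h : k ≠ m) :
    opJ t k * (opE t (lx m) (ly m) * opK t a (strands L) (ly m))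
      = opE t (lx m) (ly m) * opK t a (strands L) (ly m) * opJ t k := by
  rw [← mul_assoc, J_comm_E t h, mul_assoc, J_comm_K t a h, mul_assoc]

/-- rearrangement of the product of three row operators -/
theorem three_rows (t a0 a1 a2 : ℝ) :
    opT t a0 (strands L) (lx 0) (ly 0) * (opT t a1 (strands L) (lx 1) (ly 1) *
        opT t a2 (strands L) (lx 2) (ly 2))
      = opE t (lx 0) (ly 0) * (opE t (lx 1) (ly 1) * opE t (lx 2) (ly 2)) *
        (opK t a0 (strands L) (ly 0) * (opK t a1 (strands L) (ly 1) *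
          opK t a2 (strands L) (ly 2))) * (opJ t 0 * (opJ t 1 * opJ t 2)) := by
  have h01 : (0 : Fin 3) ≠ 1 := by decide
  have h02 : (0 : Fin 3) ≠ 2 := by decide
  have h12 : (1 : Fin 3) ≠ 2 := by decide
  rw [T_eq, T_eq, T_eq]
  set E0 : Op (Lab L) := opE t (lx 0) (ly 0)
  set E1 : Op (Lab L) := opE t (lx 1) (ly 1)
  set E2 : Op (Lab L) := opE t (lx 2) (ly 2)
  set K0 := opK t a0 (strands L) (ly 0)
  set K1 := opK t a1 (strands L) (ly 1)
  set K2 := opK t a2 (strands L) (ly 2)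
  have c1 : opJ t 1 * (E2 * K2) = E2 * K2 * opJ t 1 := J_comm_T t a2 h12
  have c0 : opJ t 0 * (E2 * K2) = E2 * K2 * opJ t 0 := J_comm_T t a2 h02
  have c0' : opJ t 0 * (E1 * K1) = E1 * K1 * opJ t 0 := J_comm_T t a1 h01
  have k01 : K0 * E1 = E1 * K0 := K_comm_E t a0 (ly_notin 0) (lx_notin 1) (ly_notin 1)
    (lx_ne_ly 1 0).symm (ly_ne h01) (lx_ne_ly 1 1)
  have k02 : K0 * E2 = E2 * K0 := K_comm_E t a0 (ly_notin 0) (lx_notin 2) (ly_notin 2)
    (lx_ne_ly 2 0).symm (ly_ne h02) (lx_ne_ly 2 2)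
  have k12 : K1 * E2 = E2 * K1 := K_comm_E t a1 (ly_notin 1) (lx_notin 2) (ly_notin 2)
    (lx_ne_ly 2 1).symm (ly_ne h12) (lx_ne_ly 2 2)
  calc E0 * K0 * opJ t 0 * (E1 * K1 * opJ t 1 * (E2 * K2 * opJ t 2))
      = E0 * K0 * (opJ t 0 * (E1 * K1)) * (opJ t 1 * (E2 * K2)) * opJ t 2 := by
        simp only [mul_assoc]
    _ = E0 * K0 * E1 * K1 * (opJ t 0 * (E2 * K2)) * opJ t 1 * opJ t 2 := by
        rw [c0', c1]; simp only [mul_assoc]
    _ = E0 * (K0 * E1) * (K1 * E2) * K2 * (opJ t 0 * (opJ t 1 * opJ t 2)) := by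
        rw [c0]; simp only [mul_assoc]
    _ = E0 * E1 * (K0 * E2) * K1 * K2 * (opJ t 0 * (opJ t 1 * opJ t 2)) := by
        rw [k01, k12]; simp only [mul_assoc]
    _ = _ := by rw [k02]; simp only [mul_assoc]

/-- joining the ends of an idle line does nothing -/
theorem join_idle {s : St (Lab L)} {k : Fin 3} (h : s.p (lx k) = ly k) (h' : s.g (lx k) = 0) :
    join (lx k) (ly k) s = s := by
  have hne : (lx k : Lab L) ≠ ly k := lx_ne_ly k k
  have hy : s.p (ly k) = lx k := by rw [← h, s.inv]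
  have hgy : s.g (ly k) = 0 := by rw [← h, s.gs, h']; rfl
  ext w
  · rw [join_p hne, h, hy]
    split_ifs with h1 h2
    · rw [h1, h]
    · rw [h2, hy]
    · rfl
  · rw [join_g hne, h, hy]
    split_ifs with h1 h2 h3
    · rcases h1 with h1 | h1 <;> rw [h1]
      · exact h'.symm
      · exact hgy.symm
    · exact absurd (Or.inr h2) h1
    · exact absurd (Or.inl h3) h1
    · rfl

theorem opE_idle (t : ℝ) {s : St (Lab L)} {k : Fin 3} (h : s.p (lx k) = ly k)
    (h' : s.g (lx k) = 0) (f : St (Lab L) → ℝ) : opE t (lx k) (ly k) f s = f s := by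
  rw [opE_apply, join_idle h h']
  unfold wt
  simp [h']

theorem EEE_idle (t : ℝ) {s : St (Lab L)} (hs : AllIdle s) (f : St (Lab L) → ℝ) :
    (opE t (lx 0) (ly 0) * (opE t (lx 1) (ly 1) * opE t (lx 2) (ly 2)) : Op (Lab L)) f s
      = f s := by
  rw [Module.End.mul_apply, Module.End.mul_apply, opE_idle t (hs 0).1 (hs 0).2,
    opE_idle t (hs 1).1 (hs 1).2, opE_idle t (hs 2).1 (hs 2).2]

/-- on gain-free states, products of the `K`s do not depend on the loop weight -/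
theorem KKK_zg (t a0 a1 a2 : ℝ) {s : St (Lab L)} (hs : ZG s) (f : St (Lab L) → ℝ) :
    (opK t a0 (strands L) (ly 0) * (opK t a1 (strands L) (ly 1) *
        opK t a2 (strands L) (ly 2)) : Op (Lab L)) f s
      = (opK 1 a0 (strands L) (ly 0) * (opK 1 a1 (strands L) (ly 1) *
        opK 1 a2 (strands L) (ly 2)) : Op (Lab L)) f s := by
  simp only [Module.End.mul_apply]
  rw [opK_zg t a0 (ly_notin 0) hs]
  refine (maps_opK_zg 1 a0 (ly_notin 0)).congr (fun s' hs' => ?_) hs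
  rw [opK_zg t a1 (ly_notin 1) hs']
  refine (maps_opK_zg 1 a1 (ly_notin 1)).congr (fun s'' hs'' => ?_) hs'
  rw [opK_zg t a2 (ly_notin 2) hs'']

theorem maps_KKK (t a0 a1 a2 : ℝ) :
    Maps (opK t a0 (strands L) (ly 0) * (opK t a1 (strands L) (ly 1) *
        opK t a2 (strands L) (ly 2)) : Op (Lab L)) (PS 0 0) (PS 2 L) := by
  refine (maps_sweep t a0 0).mul (Maps.mul (B := PS 1 L) ?_ ?_)
  · exact (maps_sweep t a1 1).mono (fun s hs => PS_next (by rfl) hs) (fun _ h => h)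
  · exact (maps_sweep t a2 2).mono (fun s hs => PS_next (by rfl) hs) (fun _ h => h)

section Identities

variable {a0 a1 a2 : ℝ} (h01 : (1 - a0) * a1 = 1) (h12 : (1 - a1) * a2 = 1)
  (h20 : (1 - a2) * a0 = 1)

/-- the three sweeps at loop weight 1 -/
noncomputable def KK3 (a0 a1 a2 : ℝ) : Op (Lab L) :=
  opK 1 a0 (strands L) (ly 0) * (opK 1 a1 (strands L) (ly 1) * opK 1 a2 (strands L) (ly 2))

include h01 in
theorem id_one : opE 1 (ly 0) (ly 1) * KK3 (L := L) a0 a1 a2
    = opK 1 a2 (strands L) (ly 2) * opE 1 (ly 0) (ly 1) := by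
  have h : opE 1 (ly 0) (ly 1) * (opK 1 a0 (strands L) (ly 0) * opK 1 a1 (strands L) (ly 1))
      = opE 1 (ly 0) (ly 1) := by
    rw [opK_mul_opK 1 a0 a1 strands_nodup (ly_ne (by decide)) (ly_notin 0) (ly_notin 1),
      absorb_left_list 1 (ly_notin 0) (ly_notin 1) (ly_ne (by decide)) h01]
  unfold KK3
  rw [← mul_assoc (opK 1 a0 _ _), ← mul_assoc, h,
    K_comm_E 1 a2 (ly_notin 2) (ly_notin 0) (ly_notin 1) (ly_ne (by decide)) (ly_ne (by decide))
      (ly_ne (by decide))]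

include h12 in
theorem id_two : opE 1 (ly 1) (ly 2) * KK3 (L := L) a0 a1 a2
    = opK 1 a0 (strands L) (ly 0) * opE 1 (ly 1) (ly 2) := by
  have h : opE 1 (ly 1) (ly 2) * (opK 1 a1 (strands L) (ly 1) * opK 1 a2 (strands L) (ly 2))
      = opE 1 (ly 1) (ly 2) := by
    rw [opK_mul_opK 1 a1 a2 strands_nodup (ly_ne (by decide)) (ly_notin 1) (ly_notin 2),
      absorb_left_list 1 (ly_notin 1) (ly_notin 2) (ly_ne (by decide)) h12]
  unfold KK3
  rw [← mul_assoc (opE 1 (ly 1) (ly 2)),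
    ← K_comm_E 1 a0 (ly_notin 0) (ly_notin 1) (ly_notin 2) (ly_ne (by decide))
      (ly_ne (by decide)) (ly_ne (by decide)), mul_assoc, h]

include h01 h20 in
theorem id_three : KK3 (L := L) a0 a1 a2 * ((opE 1 (ly 0) (ly 1) - 1) * opE 1 (ly 1) (ly 2))
    = (opE 1 (ly 0) (ly 1) - 1) * (opE 1 (ly 1) (ly 2) * opK 1 a1 (strands L) (ly 0)) := by
  have e1 : opK 1 a2 (strands L) (ly 2) * (opE 1 (ly 0) (ly 1) - 1)
      = (opE 1 (ly 0) (ly 1) - 1) * opK 1 a2 (strands L) (ly 2) := by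
    rw [mul_sub, sub_mul, mul_one, one_mul,
      K_comm_E 1 a2 (ly_notin 2) (ly_notin 0) (ly_notin 1) (ly_ne (by decide))
        (ly_ne (by decide)) (ly_ne (by decide))]
  have e2 : opK 1 a0 (strands L) (ly 0) * opK 1 a1 (strands L) (ly 1) *
      (opE 1 (ly 0) (ly 1) - 1)
      = (opE 1 (ly 0) (ly 1) - 1) * (opK 1 a1 (strands L) (ly 0) * opK 1 a0 (strands L) (ly 1)) := by
    rw [opK_mul_opK 1 a0 a1 strands_nodup (ly_ne (by decide)) (ly_notin 0) (ly_notin 1),
      opK_mul_opK 1 a1 a0 strands_nodup (ly_ne (by decide)) (ly_notin 0) (ly_notin 1),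
      exchange_list 1 (ly_notin 0) (ly_notin 1) (ly_ne (by decide)) h01]
  have e3 : opK 1 a0 (strands L) (ly 1) * opK 1 a2 (strands L) (ly 2) * opE 1 (ly 1) (ly 2)
      = opE 1 (ly 1) (ly 2) := by
    rw [opK_mul_opK 1 a0 a2 strands_nodup (ly_ne (by decide)) (ly_notin 1) (ly_notin 2),
      absorb_right_list 1 (ly_notin 1) (ly_notin 2) (ly_ne (by decide)) h20]
  unfold KK3
  calc opK 1 a0 (strands L) (ly 0) * (opK 1 a1 (strands L) (ly 1) * opK 1 a2 (strands L) (ly 2))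
        * ((opE 1 (ly 0) (ly 1) - 1) * opE 1 (ly 1) (ly 2))
      = opK 1 a0 (strands L) (ly 0) * opK 1 a1 (strands L) (ly 1) *
          (opK 1 a2 (strands L) (ly 2) * (opE 1 (ly 0) (ly 1) - 1)) * opE 1 (ly 1) (ly 2) := by
        simp only [mul_assoc]
    _ = (opK 1 a0 (strands L) (ly 0) * opK 1 a1 (strands L) (ly 1) *
          (opE 1 (ly 0) (ly 1) - 1)) * opK 1 a2 (strands L) (ly 2) * opE 1 (ly 1) (ly 2) := by
        rw [e1]; simp only [mul_assoc]
    _ = (opE 1 (ly 0) (ly 1) - 1) * opK 1 a1 (strands L) (ly 0) *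
          (opK 1 a0 (strands L) (ly 1) * opK 1 a2 (strands L) (ly 2) * opE 1 (ly 1) (ly 2)) := by
        rw [e2]; simp only [mul_assoc]
    _ = _ := by
        rw [e3, mul_assoc, K_comm_E 1 a1 (ly_notin 0) (ly_notin 1) (ly_notin 2)
          (ly_ne (by decide)) (ly_ne (by decide)) (ly_ne (by decide))]

end Identities

/-! ### invariance properties -/

/-- a pair of labels away from the strands and the line end `y` is untouched -/
theorem pair_inv {v w y : Lab L} (hv : v ∉ strands L) (hw : w ∉ strands L) (hvy : v ≠ y)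
    (hwy : w ≠ y) : ∀ u ∈ strands L, ∀ s : St (Lab L), s.p v = w →
      (swap u y s).p v = w ∧ (join u y s).p v = w := by
  intro u hu s h
  have huv : v ≠ u := (mem_ne hu hv).symm
  have huw : w ≠ u := (mem_ne hu hw).symm
  have hinv := s.inv
  constructor
  · rw [swap_p, Equiv.swap_apply_of_ne_of_ne huv hvy, h, Equiv.swap_apply_of_ne_of_ne huw hwy]
  · by_cases huy : u = y
    · subst huy; simp [join, h]
    · rw [join_p huy, if_neg huv, if_neg hvy]
      have h1 : v ≠ s.p u := fun e => huw (by rw [← h, e, hinv])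
      have h2 : v ≠ s.p y := fun e => hwy (by rw [← h, e, hinv])
      rw [if_neg h1, if_neg h2, h]

theorem opE_one (u v : Lab L) (f : St (Lab L) → ℝ) (s : St (Lab L)) :
    opE 1 u v f s = f (join u v s) := by rw [opE_apply, wt_one, one_mul]

/-- the difference test function -/
theorem KK3_diff {a0 a1 a2 : ℝ} (h01 : (1 - a0) * a1 = 1) (h20 : (1 - a2) * a0 = 1)
    (h : Code → ℤ) (s : St (Lab L)) :
    KK3 a0 a1 a2 (fun s' => (cdiff h (code s') : ℝ)) s
      = opK 1 a1 (strands L) (ly 0) (fun s' => (h (code s') : ℝ)) (join (ly 1) (ly 2) s)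
        - opK 1 a1 (strands L) (ly 0) (fun s' => (h (code s') : ℝ))
            (join (ly 1) (ly 2) (join (ly 0) (ly 1) s)) := by
  have e1 : (fun s' : St (Lab L) => (cdiff h (code s') : ℝ))
      = -(((opE 1 (ly 0) (ly 1) - 1) * opE 1 (ly 1) (ly 2) : Op (Lab L))
          (fun s' => (h (code s') : ℝ))) := by
    funext s'
    simp only [Module.End.mul_apply, LinearMap.sub_apply, Module.End.one_apply, Pi.neg_apply,
      Pi.sub_apply, opE_one]
    have c1 : code (join (ly 1) (ly 2) s') = cjoin 4 3 (code s') :=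
      code_join (u := 4) (v := 3) (by decide) s'
    have c2 : code (join (ly 1) (ly 2) (join (ly 0) (ly 1) s'))
        = cjoin 4 3 (cjoin 5 4 (code s')) := by
      have := code_join (L := L) (u := 4) (v := 3) (by decide) (join (ly 0) (ly 1) s')
      have h2 := code_join (L := L) (u := 5) (v := 4) (by decide) s'
      have h3 : code (join (ly 0) (ly 1) s') = cjoin 5 4 (code s') := h2
      rw [h3] at this
      exact this
    rw [c1, c2]
    unfold cdiff
    push_cast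
    ring
  rw [e1, map_neg, Pi.neg_apply, ← Module.End.mul_apply, id_three h01 h20]
  simp only [Module.End.mul_apply, LinearMap.sub_apply, Module.End.one_apply,
    Pi.sub_apply, opE_one]
  ring

section FlatValues

variable {s : St (Lab L)} (hs : Flat s)

include hs

theorem flat_px (k : Fin 3) : s.p (lx k) = ly k := (hs.1 k).1
theorem flat_py (k : Fin 3) : s.p (ly k) = lx k := by rw [← flat_px hs k, s.inv]

theorem s1_x1 : (join (ly 1) (ly 2) s).p (lx 1) = lx 2 := by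
  rw [join_p (ly_ne (by decide)), flat_py hs, flat_py hs]
  simp [lx, ly]

theorem s1_x0 : (join (ly 1) (ly 2) s).p (lx 0) = ly 0 := by
  rw [join_p (ly_ne (by decide)), flat_py hs, flat_py hs, flat_px hs]
  simp [lx, ly]

theorem s01_x1 : (join (ly 0) (ly 1) s).p (lx 1) = lx 0 := by
  rw [join_p (ly_ne (by decide)), flat_py hs, flat_py hs]
  simp [lx, ly]

theorem s01_x0 : (join (ly 0) (ly 1) s).p (lx 0) = lx 1 := by
  rw [join_p (ly_ne (by decide)), flat_py hs, flat_py hs]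
  simp [lx, ly]

theorem s2_x1 : (join (ly 1) (ly 2) (join (ly 0) (ly 1) s)).p (lx 1) = lx 0 := by
  have h1 := s01_x1 hs
  set s' := join (ly 0) (ly 1) s
  have hinv := s'.inv
  rw [join_p (ly_ne (by decide)), if_neg (lx_ne_ly _ _), if_neg (lx_ne_ly _ _)]
  rw [if_neg, if_neg, h1]
  · intro h
    have : s'.p (lx 1) = ly 2 := by rw [h, hinv]
    rw [h1] at this
    exact lx_ne_ly 0 2 this
  · intro h
    have : s'.p (lx 1) = ly 1 := by rw [h, hinv]
    rw [h1] at this
    exact lx_ne_ly 0 1 this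

theorem s2_x0 : (join (ly 1) (ly 2) (join (ly 0) (ly 1) s)).p (lx 0) = lx 1 := by
  rw [← s2_x1 hs, St.inv]

end FlatValues

theorem tx12_eq (s : St (Lab L)) : tx12 (code s) = if s.p (lx 1) = lx 2 then 1 else 0 := by
  unfold tx12; simp only [map_fst_eq]; rfl

theorem tx0y0_eq (s : St (Lab L)) : tx0y0 (code s) = if s.p (lx 0) = ly 0 then 1 else 0 := by
  unfold tx0y0; simp only [map_fst_eq]; rfl

theorem tx2y2_eq (s : St (Lab L)) : tx2y2 (code s) = if s.p (lx 2) = ly 2 then 1 else 0 := by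
  unfold tx2y2; simp only [map_fst_eq]; rfl

theorem tx0y0'_eq (s : St (Lab L)) :
    tx0y0' (code s) = if s.p (lx 0) = ly 0 ∧ s.p (ly 1) = ly 2 then 1 else 0 := by
  unfold tx0y0'; simp only [map_fst_eq]; rfl

theorem tfree_zero {s : St (Lab L)} {m : Fin 3} (h : s.p (lx 1) = lx m) : tfree (code s) = 0 := by
  unfold tfree
  rw [if_neg]
  rintro ⟨h1, -⟩
  obtain ⟨i, hi⟩ := code_eq_none.1 h1
  have : s.p (lx 1) = Sum.inl i := hi
  rw [h] at this
  simp [lx] at this

variable {a0 a1 a2 : ℝ}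

theorem A3_eq {s : St (Lab L)} (hs : Flat s) (h01 : (1 - a0) * a1 = 1) (h20 : (1 - a2) * a0 = 1) :
    KK3 a0 a1 a2 (fun s' => (cn3 (code s') : ℝ)) s = 1 := by
  unfold cn3
  rw [KK3_diff h01 h20]
  have e1 : opK 1 a1 (strands L) (ly 0) (fun s' => (tx12 (code s') : ℝ)) (join (ly 1) (ly 2) s)
      = 1 := by
    refine opK_eq_const a1 (A := fun s' => s'.p (lx 1) = lx 2)
      (pair_inv (lx_notin 1) (lx_notin 2) (lx_ne_ly 1 0) (lx_ne_ly 2 0)) (fun s' hs' => ?_)
      (s1_x1 hs)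
    rw [tx12_eq, if_pos hs']; norm_num
  have e2 : opK 1 a1 (strands L) (ly 0) (fun s' => (tx12 (code s') : ℝ))
      (join (ly 1) (ly 2) (join (ly 0) (ly 1) s)) = 0 := by
    refine opK_eq_const a1 (A := fun s' => s'.p (lx 1) = lx 0)
      (pair_inv (lx_notin 1) (lx_notin 0) (lx_ne_ly 1 0) (lx_ne_ly 0 0)) (fun s' hs' => ?_)
      (s2_x1 hs)
    rw [tx12_eq, if_neg (by rw [hs']; exact lx_ne (by decide))]; norm_num
  rw [e1, e2]; norm_num

theorem A2_eq {s : St (Lab L)} (hs : Flat s) (h01 : (1 - a0) * a1 = 1) (h20 : (1 - a2) * a0 = 1) :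
    KK3 a0 a1 a2 (fun s' => (cdiff tfree (code s') : ℝ)) s = 0 := by
  rw [KK3_diff h01 h20]
  have e1 : opK 1 a1 (strands L) (ly 0) (fun s' => (tfree (code s') : ℝ)) (join (ly 1) (ly 2) s)
      = 0 := by
    refine opK_eq_const a1 (A := fun s' => s'.p (lx 1) = lx 2)
      (pair_inv (lx_notin 1) (lx_notin 2) (lx_ne_ly 1 0) (lx_ne_ly 2 0)) (fun s' hs' => ?_)
      (s1_x1 hs)
    rw [tfree_zero hs']; norm_num
  have e2 : opK 1 a1 (strands L) (ly 0) (fun s' => (tfree (code s') : ℝ))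
      (join (ly 1) (ly 2) (join (ly 0) (ly 1) s)) = 0 := by
    refine opK_eq_const a1 (A := fun s' => s'.p (lx 1) = lx 0)
      (pair_inv (lx_notin 1) (lx_notin 0) (lx_ne_ly 1 0) (lx_ne_ly 0 0)) (fun s' hs' => ?_)
      (s2_x1 hs)
    rw [tfree_zero hs']; norm_num
  rw [e1, e2]; norm_num

/-- joining the ends of two idle lines on the right -/
theorem join_two_idle {s : St (Lab L)} {k m j : Fin 3} (hkm : k ≠ m) (hjk : j ≠ k) (hjm : j ≠ m)
    (hk : s.p (lx k) = ly k) (hm : s.p (lx m) = ly m) :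
    ((join (ly k) (ly m) s).p (lx j) = ly j ↔ s.p (lx j) = ly j) := by
  have hyk : s.p (ly k) = lx k := by rw [← hk, s.inv]
  have hym : s.p (ly m) = lx m := by rw [← hm, s.inv]
  rw [join_p (ly_ne hkm), hyk, hym, if_neg (lx_ne_ly _ _), if_neg (lx_ne_ly _ _),
    if_neg (lx_ne hjk), if_neg (lx_ne hjm)]

theorem idle_inv {k m : Fin 3} (hkm : k ≠ m) : ∀ u ∈ strands L, ∀ s : St (Lab L),
    s.p (lx k) = ly k → (swap u (ly m) s).p (lx k) = ly k ∧ (join u (ly m) s).p (lx k) = ly k :=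
  pair_inv (lx_notin k) (ly_notin k) (lx_ne_ly k m) (ly_ne hkm)

theorem idle2_inv {k k' m : Fin 3} (hkm : k ≠ m) (hkm' : k' ≠ m) : ∀ u ∈ strands L,
    ∀ s : St (Lab L), (s.p (lx k) = ly k ∧ s.p (lx k') = ly k') →
      ((swap u (ly m) s).p (lx k) = ly k ∧ (swap u (ly m) s).p (lx k') = ly k') ∧
      ((join u (ly m) s).p (lx k) = ly k ∧ (join u (ly m) s).p (lx k') = ly k') := by
  intro u hu s hs
  have h1 := idle_inv hkm u hu s hs.1
  have h2 := idle_inv hkm' u hu s hs.2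
  exact ⟨⟨h1.1, h2.1⟩, ⟨h1.2, h2.2⟩⟩

theorem A0_eq {s : St (Lab L)} (hs : Flat s) (h01 : (1 - a0) * a1 = 1) (h20 : (1 - a2) * a0 = 1) :
    KK3 a0 a1 a2 (fun s' => (cdiff tx0y0 (code s') : ℝ)) s = (a1 * (1 - a1)) ^ numExp s := by
  rw [KK3_diff h01 h20]
  have e2 : opK 1 a1 (strands L) (ly 0) (fun s' => (tx0y0 (code s') : ℝ))
      (join (ly 1) (ly 2) (join (ly 0) (ly 1) s)) = 0 := by
    refine opK_eq_const a1 (A := fun s' => s'.p (lx 0) = lx 1)
      (pair_inv (lx_notin 0) (lx_notin 1) (lx_ne_ly 0 0) (lx_ne_ly 1 0)) (fun s' hs' => ?_)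
      (s2_x0 hs)
    rw [tx0y0_eq, if_neg (by rw [hs']; exact lx_ne_ly 1 0)]; norm_num
  have e1 : opK 1 a1 (strands L) (ly 0) (fun s' => (tx0y0 (code s') : ℝ)) (join (ly 1) (ly 2) s)
      = (a1 * (1 - a1)) ^ numExp s := by
    have c := K_comm_E (L := L) 1 a1 (ly_notin 0) (ly_notin 1) (ly_notin 2) (ly_ne (by decide))
      (ly_ne (by decide)) (ly_ne (show (1 : Fin 3) ≠ 2 by decide))
    have : opK 1 a1 (strands L) (ly 0) (fun s' => (tx0y0 (code s') : ℝ)) (join (ly 1) (ly 2) s)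
        = (opE 1 (ly 1) (ly 2) * opK 1 a1 (strands L) (ly 0) : Op (Lab L))
          (fun s' => (tx0y0 (code s') : ℝ)) s := by
      rw [Module.End.mul_apply, opE_one]
    rw [this, ← c, Module.End.mul_apply, ← through 1 a1 0 s hs]
    refine (maps_opK_of 1 a1 (A := fun s' => s'.p (lx 1) = ly 1 ∧ s'.p (lx 2) = ly 2)
      (idle2_inv (by decide) (by decide))).congr (fun s' hs' => ?_)
      ⟨flat_px hs 1, flat_px hs 2⟩
    rw [opE_one, tx0y0_eq]
    have := join_two_idle (s := s') (k := 1) (m := 2) (j := 0) (by decide) (by decide) (by decide)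
      hs'.1 hs'.2
    by_cases h : s'.p (lx 0) = ly 0
    · rw [if_pos h, if_pos (this.2 h)]; norm_num
    · rw [if_neg h, if_neg (fun h' => h (this.1 h'))]; norm_num
  rw [e1, e2, sub_zero]

theorem B1_eq {s : St (Lab L)} (hs : Flat s) (h01 : (1 - a0) * a1 = 1) :
    KK3 a0 a1 a2 (fun s' => (tx2y2 (cjoin 0 1 (code s')) : ℝ)) s = (a2 * (1 - a2)) ^ numExp s := by
  have e1 : (fun s' : St (Lab L) => (tx2y2 (cjoin 0 1 (code s')) : ℝ))
      = opE 1 (lx 0) (lx 1) (fun s' => (tx2y2 (code s') : ℝ)) := by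
    funext s'
    rw [opE_one]
    have c1 : code (join (lx 0) (lx 1) s') = cjoin 0 1 (code s') :=
      code_join (u := 0) (v := 1) (by decide) s'
    rw [c1]
  have c : KK3 (L := L) a0 a1 a2 * opE 1 (lx 0) (lx 1) = opE 1 (lx 0) (lx 1) * KK3 a0 a1 a2 := by
    have ck := fun (a : ℝ) (k : Fin 3) => K_comm_E (L := L) 1 a (ly_notin k) (lx_notin 0)
      (lx_notin 1) (lx_ne_ly 0 k).symm (lx_ne_ly 1 k).symm (lx_ne (by decide))
    unfold KK3
    rw [mul_assoc, mul_assoc, ck, ← mul_assoc (opK 1 a1 _ _), ck, ← mul_assoc, ← mul_assoc, ck]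
    simp only [mul_assoc]
  -- joining the left ends of idle lines is joining the right ends
  have hj : join (lx 0) (lx 1) s = join (ly 0) (ly 1) s := by
    have hgx := fun k => (hs.1 k).2
    have hgy : ∀ k : Fin 3, s.g (ly k) = 0 := fun k => by rw [← flat_px hs k, s.gs, hgx]; rfl
    ext w
    · rw [join_p (lx_ne (by decide)), join_p (ly_ne (by decide)), flat_px hs, flat_px hs,
        flat_py hs, flat_py hs]
      have h1 := lx_ne_ly (L := L) 0 0; have h2 := lx_ne_ly (L := L) 0 1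
      have h3 := lx_ne_ly (L := L) 1 0; have h4 := lx_ne_ly (L := L) 1 1
      grind
    · rw [join_g (lx_ne (by decide)), join_g (ly_ne (by decide)), flat_px hs, flat_px hs,
        flat_py hs, flat_py hs, hgx, hgx, hgy, hgy]
      have h1 := lx_ne_ly (L := L) 0 0; have h2 := lx_ne_ly (L := L) 0 1
      have h3 := lx_ne_ly (L := L) 1 0; have h4 := lx_ne_ly (L := L) 1 1
      grind
  have e3 : KK3 a0 a1 a2 (fun s' => (tx2y2 (code s') : ℝ)) (join (ly 0) (ly 1) s)
      = (opE 1 (ly 0) (ly 1) * KK3 a0 a1 a2 : Op (Lab L)) (fun s' => (tx2y2 (code s') : ℝ)) s := by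
    rw [Module.End.mul_apply, opE_one]
  rw [e1, ← Module.End.mul_apply, c, Module.End.mul_apply, opE_one, hj, e3, id_one h01,
    Module.End.mul_apply, ← through 1 a2 2 s hs]
  refine (maps_opK_of 1 a2 (A := fun s' => s'.p (lx 0) = ly 0 ∧ s'.p (lx 1) = ly 1)
      (idle2_inv (by decide) (by decide))).congr (fun s' hs' => ?_)
      ⟨flat_px hs 0, flat_px hs 1⟩
  rw [opE_one, tx2y2_eq]
  have := join_two_idle (s := s') (k := 0) (m := 1) (j := 2) (by decide) (by decide) (by decide)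
    hs'.1 hs'.2
  by_cases h : s'.p (lx 2) = ly 2
  · rw [if_pos h, if_pos (this.2 h)]; norm_num
  · rw [if_neg h, if_neg (fun h' => h (this.1 h'))]; norm_num

theorem B2_eq {s : St (Lab L)} (hs : Flat s) (h12 : (1 - a1) * a2 = 1) :
    KK3 a0 a1 a2 (fun s' => (tx0y0' (cjoin 1 2 (code s')) : ℝ)) s = (a0 * (1 - a0)) ^ numExp s := by
  have e1 : (fun s' : St (Lab L) => (tx0y0' (cjoin 1 2 (code s')) : ℝ))
      = opE 1 (lx 1) (lx 2) (fun s' => (tx0y0' (code s') : ℝ)) := by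
    funext s'
    rw [opE_one]
    have c1 : code (join (lx 1) (lx 2) s') = cjoin 1 2 (code s') :=
      code_join (u := 1) (v := 2) (by decide) s'
    rw [c1]
  have c : KK3 (L := L) a0 a1 a2 * opE 1 (lx 1) (lx 2) = opE 1 (lx 1) (lx 2) * KK3 a0 a1 a2 := by
    have ck := fun (a : ℝ) (k : Fin 3) => K_comm_E (L := L) 1 a (ly_notin k) (lx_notin 1)
      (lx_notin 2) (lx_ne_ly 1 k).symm (lx_ne_ly 2 k).symm (lx_ne (by decide))
    unfold KK3
    rw [mul_assoc, mul_assoc, ck, ← mul_assoc (opK 1 a1 _ _), ck, ← mul_assoc, ← mul_assoc, ck]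
    simp only [mul_assoc]
  have hj : join (lx 1) (lx 2) s = join (ly 1) (ly 2) s := by
    have hgx := fun k => (hs.1 k).2
    have hgy : ∀ k : Fin 3, s.g (ly k) = 0 := fun k => by rw [← flat_px hs k, s.gs, hgx]; rfl
    ext w
    · rw [join_p (lx_ne (by decide)), join_p (ly_ne (by decide)), flat_px hs, flat_px hs,
        flat_py hs, flat_py hs]
      have h1 := lx_ne_ly (L := L) 1 1; have h2 := lx_ne_ly (L := L) 1 2
      have h3 := lx_ne_ly (L := L) 2 1; have h4 := lx_ne_ly (L := L) 2 2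
      grind
    · rw [join_g (lx_ne (by decide)), join_g (ly_ne (by decide)), flat_px hs, flat_px hs,
        flat_py hs, flat_py hs, hgx, hgx, hgy, hgy]
      have h1 := lx_ne_ly (L := L) 1 1; have h2 := lx_ne_ly (L := L) 1 2
      have h3 := lx_ne_ly (L := L) 2 1; have h4 := lx_ne_ly (L := L) 2 2
      grind
  have e3 : KK3 a0 a1 a2 (fun s' => (tx0y0' (code s') : ℝ)) (join (ly 1) (ly 2) s)
      = (opE 1 (ly 1) (ly 2) * KK3 a0 a1 a2 : Op (Lab L)) (fun s' => (tx0y0' (code s') : ℝ)) s := by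
    rw [Module.End.mul_apply, opE_one]
  rw [e1, ← Module.End.mul_apply, c, Module.End.mul_apply, opE_one, hj, e3, id_two h12,
    Module.End.mul_apply, ← through 1 a0 0 s hs]
  refine (maps_opK_of 1 a0 (A := fun s' => s'.p (lx 1) = ly 1 ∧ s'.p (lx 2) = ly 2)
      (idle2_inv (by decide) (by decide))).congr (fun s' hs' => ?_)
      ⟨flat_px hs 1, flat_px hs 2⟩
  rw [opE_one, tx0y0'_eq]
  have := join_two_idle (s := s') (k := 1) (m := 2) (j := 0) (by decide) (by decide) (by decide)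
    hs'.1 hs'.2
  have h12' : (join (ly 1) (ly 2) s').p (ly 1) = ly 2 := by
    rw [join_p (ly_ne (by decide)), if_pos rfl]
  by_cases h : s'.p (lx 0) = ly 0
  · rw [if_pos h, if_pos ⟨this.2 h, h12'⟩]; norm_num
  · rw [if_neg h, if_neg (fun h' => h (this.1 h'.1))]; norm_num

/-- **The three-row identity** -/
theorem star (t : ℝ) {s : St (Lab L)} (hs : Flat s) (h01 : (1 - a0) * a1 = 1)
    (h12 : (1 - a1) * a2 = 1) (h20 : (1 - a2) * a0 = 1) :
    (opT t a0 (strands L) (lx 0) (ly 0) * (opT t a1 (strands L) (lx 1) (ly 1) *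
        opT t a2 (strands L) (lx 2) (ly 2)) : Op (Lab L)) (fun _ => 1) s
      = t ^ 3 - 3 * t + 3 + (t - 1) * ((a0 * (1 - a0)) ^ numExp s + (a1 * (1 - a1)) ^ numExp s
          + (a2 * (1 - a2)) ^ numExp s) := by
  rw [three_rows, Module.End.mul_apply, Module.End.mul_apply, EEE_idle t hs.1,
    KKK_zg t a0 a1 a2 hs.zg]
  have e1 : (opK 1 a0 (strands L) (ly 0) * (opK 1 a1 (strands L) (ly 1) *
        opK 1 a2 (strands L) (ly 2)) : Op (Lab L))
          ((opJ t 0 * (opJ t 1 * opJ t 2) : Op (Lab L)) (fun _ => 1)) s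
      = KK3 a0 a1 a2 (fun s' => 1 + (t - 1) * (cn1 (code s') : ℝ)
          + (t - 1) ^ 2 * (cn2 (code s') : ℝ)
          + (t ^ 3 - 3 * t + 2) * (cn3 (code s') : ℝ)) s := by
    refine (maps_KKK 1 a0 a1 a2).congr (fun s' hs' => ?_) hs.ps
    rw [close_eq, pow_count hs']
  rw [e1]
  have e2 : (fun s' : St (Lab L) => 1 + (t - 1) * (cn1 (code s') : ℝ)
          + (t - 1) ^ 2 * (cn2 (code s') : ℝ)
          + (t ^ 3 - 3 * t + 2) * (cn3 (code s') : ℝ))
      = (fun _ => 1) + (t - 1) • ((fun s' => (tx2y2 (cjoin 0 1 (code s')) : ℝ))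
          + (fun s' => (tx0y0' (cjoin 1 2 (code s')) : ℝ))
          + (fun s' => (cdiff tfree (code s') : ℝ))
          + (fun s' => (cdiff tx0y0 (code s') : ℝ)))
        + (t - 1) ^ 2 • (fun s' => (cdiff tfree (code s') : ℝ))
        + (t ^ 3 - 3 * t + 2) • (fun s' => (cn3 (code s') : ℝ)) := by
    funext s'
    simp only [Pi.add_apply, Pi.smul_apply, smul_eq_mul]
    unfold cn1 cn2
    push_cast
    ring
  have hc : KK3 a0 a1 a2 (fun _ : St (Lab L) => (1 : ℝ)) s = 1 := by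
    unfold KK3
    rw [Module.End.mul_apply, Module.End.mul_apply, opK_const, opK_const, opK_const]
  rw [e2]
  simp only [map_add, map_smul, Pi.add_apply, Pi.smul_apply, smul_eq_mul]
  rw [hc, A3_eq hs h01 h20, A2_eq hs h01 h20, A0_eq hs h01 h20, B1_eq hs h01, B2_eq hs h12]
  ring

end Pool.Agent.H65.Perc
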