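import Mathlib
import Pool.Agent.H65.Perc.Star
import Pool.Agent.H65.Perc.Exp

/-!
# Closing a line produces a planar state; rotation covariance
-/

namespace Pool.Agent.H65.Perc

open St Exq

variable {L : ℕ}

/-- rotation as an operator on functions -/
noncomputable def opRot [NeZero L] : Op (Lab L) := opG (Sum.inl 0) 1 * opM (rho L)

theorem opRot_apply [NeZero L] (f : St (Lab L) → ℝ) (s : St (Lab L)) :
    opRot f s = f (rot s) := rfl

theorem strands_rotate (L : ℕ) : (strands (L + 1)).map (rho (L + 1))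
    = ((List.finRange L).map (fun i => (Sum.inl i.succ : Lab (L + 1)))) ++ [Sum.inl 0] := by
  unfold strands
  rw [List.finRange_succ_last]
  simp only [List.map_append, List.map_map, List.map_cons, List.map_nil]
  congr 1
  · apply List.map_congr_left
    intro i _
    simp only [Function.comp_apply, rho_inl]
    congr 1
    rw [finRotate_apply]
    simp
  · simp [rho_inl]

theorem strands_cons (L : ℕ) : strands (L + 1)
    = Sum.inl 0 :: ((List.finRange L).map (fun i => (Sum.inl i.succ : Lab (L + 1)))) := by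
  unfold strands
  rw [List.finRange_succ]
  simp [Function.comp_def]

/-- the row operators commute with the rotation -/
theorem opT_rot [NeZero L] (t a : ℝ) (k : Fin 3) :
    opT t a (strands L) (lx k) (ly k) * opRot = opRot * opT t a (strands L) (lx k) (ly k) := by
  obtain ⟨L', rfl⟩ : ∃ L', L = L' + 1 := ⟨L - 1, by have := NeZero.ne L; omega⟩
  unfold opRot
  rw [mul_assoc (opG _ _), opM_opT t a (rho (L' + 1)) (lx_ne_ly k k) (ly_notin k), rho_lx, rho_ly,
    strands_rotate]
  have h := opT_rotate t a (u := (Sum.inl 0 : Lab (L' + 1)))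
    (us := (List.finRange L').map (fun i => (Sum.inl i.succ : Lab (L' + 1))))
    (x := lx k) (y := ly k) (lx_ne_ly k k) (by simp [lx]) (by simp [ly])
    (by simp [Fin.succ_ne_zero]) (by simp [lx]) (by simp [ly])
  rw [strands_cons, h, mul_assoc, ← mul_assoc (opG _ (-1)), opG_opG_add]
  simp [opG_zero, mul_assoc]

theorem rho_pow_val [NeZero L] (c : ℕ) (hc : c ≤ L) (i : Fin L) :
    ∃ i' : Fin L, ((rho L) ^ c) (Sum.inl i) = Sum.inl i' ∧
      (i' : ℕ) = if (i : ℕ) + c < L then (i : ℕ) + c else (i : ℕ) + c - L := by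
  induction c with
  | zero => exact ⟨i, rfl, by simp⟩
  | succ c ih =>
    obtain ⟨i', h1, h2⟩ := ih (by omega)
    refine ⟨finRotate L i', ?_, ?_⟩
    · rw [pow_succ', Equiv.Perm.mul_apply, h1, rho_inl]
    · have := finRotate_val i'
      have hi := i.isLt
      have hr := (finRotate L i').isLt
      have h0 : (finRotate L i' = 0) ↔ ((finRotate L i' : Fin L) : ℕ) = 0 := by
        rw [Fin.ext_iff]; rfl
      rw [if_congr h0 rfl rfl] at this
      split_ifs at h2 this ⊢ <;> omega

/-- closing line `0` after the sweep gives a planar state -/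
theorem planar_close [NeZero L] {s : St (Lab L)} (hs : PS 0 L s) (h1 : s.p (lx 1) = ly 1)
    (h2 : s.p (lx 2) = ly 2) : Planar (closeLine 0 s) := by
  obtain ⟨hz, hnc⟩ := hs
  have hinv := s.inv
  have h1' : s.p (ly 1) = lx 1 := by rw [← h1, hinv]
  have h2' : s.p (ly 2) = lx 2 := by rw [← h2, hinv]
  have hne : (lx 0 : Lab L) ≠ ly 0 := lx_ne_ly 0 0
  set s' := closeLine 0 s with hs'
  have hp' : ∀ w, s'.p w = if w = lx 0 then ly 0 else if w = ly 0 then lx 0
      else if w = s.p (lx 0) then s.p (ly 0) else if w = s.p (ly 0) then s.p (lx 0)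
      else s.p w := fun w => by
    rw [hs', closeLine, join_p hne]; rfl
  have hg' : ∀ w, s'.g w = if w = lx 0 ∨ w = ly 0 then 0 else
      if w = s.p (lx 0) then (if s.p (lx 0) = ly 0 then -2 else -1)
      else if w = s.p (ly 0) then (if s.p (lx 0) = ly 0 then 2 else 1) else 0 := fun w => by
    rw [hs', closeLine, join_g hne]
    simp only [twist_p, twist_g, hz _]
    have := s.ne
    grind
  have idle1 : ∀ k : Fin 3, s'.p (lx k) = ly k ∧ s'.g (lx k) = 0 := by
    intro k
    have hk : k = 0 ∨ k = 1 ∨ k = 2 := by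
      fin_cases k <;> simp
    rcases hk with rfl | rfl | rfl
    · rw [hp', hg']; simp
    · rw [hp', hg']
      have e1 : (lx 1 : Lab L) ≠ lx 0 := lx_ne (by decide)
      have e2 : (lx 1 : Lab L) ≠ ly 0 := lx_ne_ly 1 0
      have e3 : (lx 1 : Lab L) ≠ s.p (lx 0) := fun e => by
        have := hinv (lx 0); rw [← e, h1] at this; exact (lx_ne_ly 0 1) this.symm
      have e4 : (lx 1 : Lab L) ≠ s.p (ly 0) := fun e => by
        have := hinv (ly 0); rw [← e, h1] at this; exact (ly_ne (by decide)) this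
      simp [e1, e2, e3, e4, h1]
    · rw [hp', hg']
      have e1 : (lx 2 : Lab L) ≠ lx 0 := lx_ne (by decide)
      have e2 : (lx 2 : Lab L) ≠ ly 0 := lx_ne_ly 2 0
      have e3 : (lx 2 : Lab L) ≠ s.p (lx 0) := fun e => by
        have := hinv (lx 0); rw [← e, h2] at this; exact (lx_ne_ly 0 2) this.symm
      have e4 : (lx 2 : Lab L) ≠ s.p (ly 0) := fun e => by
        have := hinv (ly 0); rw [← e, h2] at this; exact (ly_ne (by decide)) this
      simp [e1, e2, e3, e4, h2]
  have hidle : AllIdle s' := idle1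
  -- positions
  have pos_i : ∀ i : Fin L, posS 0 L (Sum.inl i : Lab L) = i := fun i => by simp [posS]
  have pos_y : posS 0 L (ly 0 : Lab L) = L := by simp [posS, ly]
  have pos_x : posS 0 L (lx 0 : Lab L) = -6 := by simp [posS, lx]
  -- noncrossing of the pairs of strands, old state
  have ncs : ∀ i j k l : Fin L, i < j → j < k → k < l →
      ¬ (s.p (Sum.inl i) = Sum.inl k ∧ s.p (Sum.inl j) = Sum.inl l) := by
    rintro i j k l hij hjk hkl ⟨e1, e2⟩
    have := hnc (Sum.inl i) (Sum.inl j) (by rw [pos_i, pos_i]; exact_mod_cast hij)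
      (by rw [e1, pos_i, pos_i]; exact_mod_cast hjk)
    rw [e1, e2, pos_i, pos_i, pos_i] at this
    have h3 : (l : ℤ) < k := this.2
    have h4 : (k : ℤ) < l := by exact_mod_cast hkl
    omega
  by_cases hx : s.p (lx 0) = ly 0
  · -- the line got through
    have hy : s.p (ly 0) = lx 0 := by rw [← hx, hinv]
    refine ⟨0, hidle, fun i => ?_, ?_⟩
    · rw [Function.iterate_zero, id, hg', hx, hy]
      have : (Sum.inl i : Lab L) ≠ lx 0 ∧ (Sum.inl i : Lab L) ≠ ly 0 := by simp [lx, ly]
      simp [this.1, this.2]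
    · intro i j k l hij hjk hkl
      have hpp : ∀ i : Fin L, s'.p (Sum.inl i) = s.p (Sum.inl i) := fun i => by
        have : (Sum.inl i : Lab L) ≠ lx 0 ∧ (Sum.inl i : Lab L) ≠ ly 0 := by simp [lx, ly]
        rw [hp', hx, hy]
        simp [this.1, this.2]
      rw [Function.iterate_zero, id, hpp, hpp]
      exact ncs i j k l hij hjk hkl
  -- the line is broken: its ends are connected to strands `P < Q`
  have hstrand : ∀ w : Lab L, w = lx 0 ∨ w = ly 0 → ∃ P : Fin L, s.p w = Sum.inl P := by
    intro w hw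
    rcases h : s.p w with P | ⟨m, b⟩
    · exact ⟨P, rfl⟩
    · exfalso
      have hh := hinv w
      rw [h] at hh
      have hm : m = 0 ∨ m = 1 ∨ m = 2 := by fin_cases m <;> simp
      have hy0 : s.p (ly 0) ≠ lx 0 := fun e => hx (by rw [← e, hinv])
      rcases hm with rfl | rfl | rfl <;> rcases b with _ | _
      · rcases hw with rfl | rfl
        · exact s.ne _ h
        · exact hy0 h
      · rcases hw with rfl | rfl
        · exact hx h
        · exact s.ne _ h
      · have : s.p (Sum.inr (1, false)) = ly 1 := h1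
        rw [this] at hh
        rcases hw with rfl | rfl
        · exact (lx_ne_ly 0 1) hh.symm
        · exact (ly_ne (by decide)) hh
      · have : s.p (Sum.inr (1, true)) = lx 1 := h1'
        rw [this] at hh
        rcases hw with rfl | rfl
        · exact (lx_ne (by decide)) hh
        · exact (lx_ne_ly 1 0) hh
      · have : s.p (Sum.inr (2, false)) = ly 2 := h2
        rw [this] at hh
        rcases hw with rfl | rfl
        · exact (lx_ne_ly 0 2) hh.symm
        · exact (ly_ne (by decide)) hh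
      · have : s.p (Sum.inr (2, true)) = lx 2 := h2'
        rw [this] at hh
        rcases hw with rfl | rfl
        · exact (lx_ne (by decide)) hh
        · exact (lx_ne_ly 2 0) hh
  obtain ⟨P, hP⟩ := hstrand (lx 0) (Or.inl rfl)
  obtain ⟨Q, hQ⟩ := hstrand (ly 0) (Or.inr rfl)
  have hP' : s.p (Sum.inl P) = lx 0 := by rw [← hP, hinv]
  have hQ' : s.p (Sum.inl Q) = ly 0 := by rw [← hQ, hinv]
  have hPQ : P < Q := by
    rcases lt_trichotomy P Q with h | h | h
    · exact h
    · exfalso; rw [h, hQ'] at hP'; exact hne hP'.symm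
    · exfalso
      have h3 : (Q : ℤ) < P := by exact_mod_cast h
      have := hnc (lx 0) (Sum.inl Q) (by rw [pos_x, pos_i]; omega)
        (by rw [hP, pos_i, pos_i]; exact h3)
      rw [hQ', hP, pos_y, pos_i] at this
      have := P.isLt
      omega
  rw [hP, hQ] at hp'
  have hp2 : ∀ i : Fin L, s'.p (Sum.inl i) = if i = P then Sum.inl Q else if i = Q then Sum.inl P
      else s.p (Sum.inl i) := by
    intro i
    rw [hp']
    have : (Sum.inl i : Lab L) ≠ lx 0 ∧ (Sum.inl i : Lab L) ≠ ly 0 := by simp [lx, ly]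
    simp [this.1, this.2]
  have hg2 : ∀ i : Fin L, s'.g (Sum.inl i) = if i = P then -1 else if i = Q then 1 else 0 := by
    intro i
    rw [hg', hP, hQ]
    have : (Sum.inl i : Lab L) ≠ lx 0 ∧ (Sum.inl i : Lab L) ≠ ly 0 := by simp [lx, ly]
    simp [this.1, ly]
  -- facts on the other pairs
  have below : ∀ i j : Fin L, s.p (Sum.inl i) = Sum.inl j → i < P → j < P := by
    intro i j hij hi
    have h3 : (i : ℤ) < P := by exact_mod_cast hi
    have := hnc (lx 0) (Sum.inl i) (by rw [pos_x, pos_i]; omega) (by rw [hP, pos_i, pos_i]; exact h3)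
    rw [hij, hP, pos_i, pos_i] at this
    have h4 := this.2
    exact_mod_cast h4
  have above : ∀ i j : Fin L, s.p (Sum.inl i) = Sum.inl j → Q < i → Q < j := by
    intro i j hij hi
    have h3 : (Q : ℤ) < i := by exact_mod_cast hi
    have hiL := i.isLt
    have := hnc (Sum.inl Q) (Sum.inl i) (by rw [pos_i, pos_i]; exact h3)
      (by rw [hQ', pos_y, pos_i]; omega)
    rw [hij, hQ', pos_i, pos_i] at this
    have h4 := this.1
    exact_mod_cast h4
  have strand_of : ∀ i : Fin L, i ≠ P → i ≠ Q → ∃ j, s.p (Sum.inl i) = Sum.inl j ∧ j ≠ P ∧ j ≠ Q := by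
    intro i hiP hiQ
    have hid : ∃ j, s'.p (Sum.inl i) = Sum.inl j := partner_strand hidle i
    obtain ⟨j, hj⟩ := hid
    rw [hp2, if_neg hiP, if_neg hiQ] at hj
    refine ⟨j, hj, ?_, ?_⟩
    · rintro rfl
      have := hinv (Sum.inl i); rw [hj, hP'] at this; simp [lx] at this
    · rintro rfl
      have := hinv (Sum.inl i); rw [hj, hQ'] at this; simp [ly] at this
  refine ⟨P + 1, ?_⟩
  have hPL : (P : ℕ) + 1 ≤ L := P.isLt
  have hit := iterate_rot s' (P + 1) hPL
  have zero_gain : ∀ i : Fin L, (gauge (dd ((P : ℕ) + 1)) s').g (Sum.inl i) = 0 := by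
    intro i
    rw [gauge_g, hg2, hp2]
    by_cases hiP : i = P
    · subst hiP
      have : ¬ ((Q : ℕ) < i + 1) := by have : (i : ℕ) < Q := hPQ; omega
      simp [dd, this]
    by_cases hiQ : i = Q
    · subst hiQ
      have : ¬ ((i : ℕ) < P + 1) := by have : (P : ℕ) < i := hPQ; omega
      simp [dd, this, hiP]
    obtain ⟨j, hj, hjP, hjQ⟩ := strand_of i hiP hiQ
    rw [if_neg hiP, if_neg hiQ, if_neg hiP, if_neg hiQ, hj]
    have hj' : s.p (Sum.inl j) = Sum.inl i := by rw [← hj, hinv]
    have e1 : (i : ℕ) < P + 1 ↔ (j : ℕ) < P + 1 := by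
      have n1 : (i : ℕ) ≠ P := fun h => hiP (Fin.ext h)
      have n2 : (j : ℕ) ≠ P := fun h => hjP (Fin.ext h)
      constructor
      · intro h
        have : j < P := below i j hj (by rw [Fin.lt_def]; omega)
        rw [Fin.lt_def] at this; omega
      · intro h
        have : i < P := below j i hj' (by rw [Fin.lt_def]; omega)
        rw [Fin.lt_def] at this; omega
    simp only [dd, e1]
    ring
  refine ⟨(allIdle_iterate s' _).2 hidle, fun i => ?_, ?_⟩
  · obtain ⟨i', h3, -⟩ := rho_pow_val ((P : ℕ) + 1) hPL i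
    rw [hit, perm_g, h3]
    exact zero_gain i'
  · rintro i j k l hij hjk hkl ⟨e1, e2⟩
    rw [hit, perm_p, Equiv.symm_apply_eq, gauge_p] at e1 e2
    obtain ⟨i', hi1, hi2⟩ := rho_pow_val ((P : ℕ) + 1) hPL i
    obtain ⟨j', hj1, hj2⟩ := rho_pow_val ((P : ℕ) + 1) hPL j
    obtain ⟨k', hk1, hk2⟩ := rho_pow_val ((P : ℕ) + 1) hPL k
    obtain ⟨l', hl1, hl2⟩ := rho_pow_val ((P : ℕ) + 1) hPL l
    rw [hi1, hk1] at e1
    rw [hj1, hl1] at e2
    rw [Fin.lt_def] at hij hjk hkl
    have bi := i.isLt; have bj := j.isLt; have bk := k.isLt; have bl := l.isLt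
    have bP := P.isLt
    rw [Fin.lt_def] at hPQ
    -- the pair `i', k'` is not `{P, Q}`
    have ni : i' ≠ P := by
      rintro rfl
      split_ifs at hi2 <;> omega
    have niQ : i' ≠ Q := by
      rintro rfl
      rw [hp2, if_neg ni, if_pos rfl, Sum.inl.injEq] at e1
      rw [← e1] at hk2
      split_ifs at hk2 <;> omega
    rw [hp2, if_neg ni, if_neg niQ] at e1
    have nj : j' ≠ P := by
      rintro rfl
      split_ifs at hj2 <;> omega
    have e1' : s.p (Sum.inl k') = Sum.inl i' := by rw [← e1, hinv]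
    have nkP : k' ≠ P := by
      rintro rfl; rw [hP'] at e1'; simp [lx] at e1'
    have nkQ : k' ≠ Q := by
      rintro rfl; rw [hQ'] at e1'; simp [ly] at e1'
    -- sides
    have side1 : (i' : ℕ) < P ↔ (k' : ℕ) < P := by
      constructor
      · intro h; exact below i' k' e1 h
      · intro h; exact below k' i' e1' h
    have vni : (i' : ℕ) ≠ P := fun h => ni (Fin.ext h)
    have vnk : (k' : ℕ) ≠ P := fun h => nkP (Fin.ext h)
    have vnj : (j' : ℕ) ≠ P := fun h => nj (Fin.ext h)
    by_cases hjQ : j' = Q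
    · -- second pair is `{Q, P}`
      have h5 : (Q : ℕ) < k' := by
        rw [← hjQ]
        split_ifs at hi2 hj2 hk2 <;> omega
      have h6 : (Q : ℕ) < i' := above k' i' e1' h5
      rw [← hjQ] at h6
      split_ifs at hi2 hj2 hk2 <;> omega
    · rw [hp2, if_neg nj, if_neg hjQ] at e2
      have e2' : s.p (Sum.inl l') = Sum.inl j' := by rw [← e2, hinv]
      have nlP : l' ≠ P := by
        rintro rfl; rw [hP'] at e2'; simp [lx] at e2'
      have vnl : (l' : ℕ) ≠ P := fun h => nlP (Fin.ext h)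
      have side2 : (j' : ℕ) < P ↔ (l' : ℕ) < P := by
        constructor
        · intro h; exact below j' l' e2 h
        · intro h; exact below l' j' e2' h
      refine ncs i' j' k' l' ?_ ?_ ?_ ⟨e1, e2⟩ <;> rw [Fin.lt_def] <;>
        split_ifs at hi2 hj2 hk2 hl2 <;> omega

/-! ### The row operator on planar states -/

theorem idle2_zero {s : St (Lab L)} (hs : Flat s) :
    s.p (lx 1) = ly 1 ∧ s.p (lx 2) = ly 2 := ⟨flat_px hs 1, flat_px hs 2⟩

/-- invariant class of the sweep of line `0` -/
def QS (j : ℕ) (s : St (Lab L)) : Prop :=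
  PS 0 j s ∧ s.p (lx 1) = ly 1 ∧ s.p (lx 2) = ly 2

theorem maps_QS (t a : ℝ) : Maps (opK t a (strands L) (ly 0)) (QS (L := L) 0) (QS L) := by
  intro f hf s hs
  classical
  -- combine two `Maps` statements
  have h1 := maps_sweep (L := L) t a 0
  have h2 := maps_opK_of (Λ := Lab L) t a (us := strands L) (y := ly 0)
    (A := fun s' => s'.p (lx 1) = ly 1 ∧ s'.p (lx 2) = ly 2) (idle2_inv (by decide) (by decide))
  -- `f` agrees on `PS 0 L` with `f` cut off outside of the second class
  have e1 : opK t a (strands L) (ly 0) f s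
      = opK t a (strands L) (ly 0)
        (fun s' => if s'.p (lx 1) = ly 1 ∧ s'.p (lx 2) = ly 2 then f s' else 0) s :=
    h2.congr (fun s' hs' => by rw [if_pos hs']) hs.2
  rw [e1]
  refine h1 _ (fun s' hs' => ?_) s hs.1
  by_cases h : s'.p (lx 1) = ly 1 ∧ s'.p (lx 2) = ly 2
  · rw [if_pos h]; exact hf s' ⟨hs', h⟩
  · rw [if_neg h]

/-- the row operator on flat states -/
theorem opT_flat (t a : ℝ) {s : St (Lab L)} (hs : Flat s) (f : St (Lab L) → ℝ) :
    opT t a (strands L) (lx 0) (ly 0) f s
      = opK 1 a (strands L) (ly 0)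
        (fun s' => (if s'.p (lx 0) = ly 0 then t else 1) * f (closeLine 0 s')) s := by
  unfold opT
  rw [Module.End.mul_apply, Module.End.mul_apply, opE_idle t (hs.1 0).1 (hs.1 0).2,
    opK_zg t a (ly_notin 0) hs.zg]
  refine (maps_sweep 1 a 0).congr (fun s' hs' => ?_) hs.ps
  rw [Module.End.mul_apply, opG_apply, opE_apply]
  have hz := hs'.1
  unfold wt
  rw [twist_p, twist_g, hz]
  simp only [if_true, zero_add, ne_eq, one_ne_zero, not_false_eq_true, and_true]
  rfl

theorem Flat.qs {s : St (Lab L)} (hs : Flat s) : QS 0 s := ⟨hs.ps, idle2_zero hs⟩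

variable [NeZero L]

/-- vanishing on planar states propagates -/
theorem maps_flat (t a : ℝ) (f : St (Lab L) → ℝ) (hf : ∀ s, Planar s → f s = 0)
    {s : St (Lab L)} (hs : Flat s) : opT t a (strands L) (lx 0) (ly 0) f s = 0 := by
  rw [opT_flat t a hs]
  refine maps_QS 1 a _ (fun s' hs' => ?_) s hs.qs
  rw [hf _ (planar_close hs'.1 hs'.2.1 hs'.2.2), mul_zero]

theorem opT_rot_iterate (t a : ℝ) (k : Fin 3) (m : ℕ) (f : St (Lab L) → ℝ) (s : St (Lab L)) :
    opT t a (strands L) (lx k) (ly k) f (rot^[m] s)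
      = opT t a (strands L) (lx k) (ly k) (fun s' => f (rot^[m] s')) s := by
  induction m generalizing f s with
  | zero => rfl
  | succ m ih =>
    have h := congrFun (congrArg (fun Z : Op (Lab L) => Z f) (opT_rot (L := L) t a k))
      (rot^[m] s)
    simp only [Module.End.mul_apply, opRot_apply] at h
    rw [Function.iterate_succ_apply', ← h, ih]
    simp only [opRot_apply, ← Function.iterate_succ_apply']

theorem planar_iterate {s : St (Lab L)} (hs : Planar s) (m : ℕ) : Planar (rot^[m] s) := by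
  induction m with
  | zero => exact hs
  | succ m ih =>
    rw [Function.iterate_succ_apply']
    exact (planar_rot _ ih.allIdle).2 ih

/-- every planar state is a rotation of a flat state -/
theorem Planar.exists_flat {s : St (Lab L)} (hs : Planar s) :
    ∃ (m : ℕ) (s0 : St (Lab L)), Flat s0 ∧ s = rot^[m] s0 ∧ numExp s = numExp s0 := by
  obtain ⟨c, hc, hflat⟩ := hs.exists_lt
  refine ⟨L - c, rot^[c] s, hflat, ?_, ?_⟩
  · rw [← Function.iterate_add_apply, Nat.sub_add_cancel hc.le, rot_iterate_self s hs.allIdle]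
  · rw [numExp_iterate s hs.allIdle]

theorem maps_planar (t a : ℝ) :
    Maps (opT t a (strands L) (lx 0) (ly 0)) (Planar (L := L)) Planar := by
  intro f hf s hs
  obtain ⟨m, s0, h0, rfl, -⟩ := hs.exists_flat
  rw [opT_rot_iterate]
  exact maps_flat t a _ (fun s' hs' => hf _ (planar_iterate hs' m)) h0

/-- the row operator is affine in the loop weight -/
theorem opT_affine (t a : ℝ) (f : St (Lab L) → ℝ) {s : St (Lab L)} (hs : Planar s) :
    opT t a (strands L) (lx 0) (ly 0) f s = opT 1 a (strands L) (lx 0) (ly 0) f s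
      + (t - 1) * (opT 2 a (strands L) (lx 0) (ly 0) f s
        - opT 1 a (strands L) (lx 0) (ly 0) f s) := by
  obtain ⟨m, s0, h0, rfl, -⟩ := hs.exists_flat
  rw [opT_rot_iterate, opT_rot_iterate, opT_rot_iterate, opT_flat t a h0, opT_flat 1 a h0,
    opT_flat 2 a h0]
  set F : St (Lab L) → ℝ := fun s' => f (rot^[m] (closeLine 0 s'))
  have key : ∀ r : ℝ, (fun s' : St (Lab L) => (if s'.p (lx 0) = ly 0 then r else 1) *
      f (rot^[m] (closeLine 0 s')))
      = F + (r - 1) • (fun s' : St (Lab L) => (if s'.p (lx 0) = ly 0 then (1 : ℝ) else 0) * F s') := by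
    intro r
    funext s'
    simp only [Pi.add_apply, Pi.smul_apply, smul_eq_mul, F]
    split_ifs <;> ring
  rw [key t, key 1, key 2]
  simp only [map_add, map_smul, Pi.add_apply, Pi.smul_apply, smul_eq_mul]
  ring

/-- the value on the constant function -/
theorem opT_const (t a : ℝ) {s : St (Lab L)} (hs : Planar s) :
    opT t a (strands L) (lx 0) (ly 0) (fun _ => 1) s = 1 + (t - 1) * (a * (1 - a)) ^ numExp s := by
  obtain ⟨m, s0, h0, rfl, hn⟩ := hs.exists_flat
  rw [opT_rot_iterate, opT_flat t a h0, hn, ← through 1 a 0 s0 h0]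
  have key : (fun s' : St (Lab L) => (if s'.p (lx 0) = ly 0 then t else 1) * (1 : ℝ))
      = (fun _ => 1) + (t - 1) • (fun s' : St (Lab L) => if s'.p (lx 0) = ly 0 then (1 : ℝ) else 0) := by
    funext s'
    simp only [Pi.add_apply, Pi.smul_apply, smul_eq_mul]
    split_ifs <;> ring
  rw [key, map_add, map_smul, opK_const]
  simp

/-- on idle states the three lines are interchangeable -/
theorem opT_lines (t a : ℝ) {k : Fin 3} (hk : k ≠ 0) (f : St (Lab L) → ℝ) {s : St (Lab L)}
    (hs : AllIdle s) :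
    opT t a (strands L) (lx k) (ly k) f s = opT t a (strands L) (lx 0) (ly 0) f s := by
  have h := congrFun (congrArg (fun Z : Op (Lab L) => Z f) (opT_line (Λ := Lab L) t
    (us := strands L) (x := lx 0) (y := ly 0) (x' := lx k) (y' := ly k)
    (lx_ne_ly 0 0) (lx_ne hk.symm) (lx_ne_ly 0 k) (lx_ne_ly k 0).symm (ly_ne hk.symm)
    (lx_ne_ly k k) (lx_notin 0) (ly_notin 0) (lx_notin k) (ly_notin k) a)) s
  simp only [Module.End.mul_apply] at h
  rwa [opE_idle t (hs 0).1 (hs 0).2, opE_idle t (hs k).1 (hs k).2, opE_idle t (hs 0).1 (hs 0).2,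
    opE_idle t (hs k).1 (hs k).2] at h

/-- commutation on idle states -/
theorem opT_commute (t : ℝ) {a a' : ℝ} (h1 : 1 - a' * (1 - a) ≠ 0) (h2 : 1 - a * (1 - a') ≠ 0)
    (f : St (Lab L) → ℝ) {s : St (Lab L)} (hs : AllIdle s) :
    opT t a (strands L) (lx 0) (ly 0) (opT t a' (strands L) (lx 0) (ly 0) f) s
      = opT t a' (strands L) (lx 0) (ly 0) (opT t a (strands L) (lx 0) (ly 0) f) s := by
  have h := congrFun (congrArg (fun Z : Op (Lab L) => Z f) (opT_comm (Λ := Lab L) t
    (us := strands L) (x := lx 0) (y := ly 0) (x' := lx 1) (y' := ly 1) strands_nodup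
    (lx_ne_ly 0 0) (lx_ne (by decide)) (lx_ne_ly 0 1) (lx_ne_ly 1 0).symm (ly_ne (by decide))
    (lx_ne_ly 1 1) (lx_notin 0) (ly_notin 0) (lx_notin 1) (ly_notin 1) h1 h2)) s
  simp only [Module.End.mul_apply] at h
  rwa [opE_idle t (hs 1).1 (hs 1).2, opE_idle t (hs 1).1 (hs 1).2] at h

/-- the three-row identity on planar states, all rows on line `0` -/
theorem star_planar (t : ℝ) {a0 a1 a2 : ℝ} {s : St (Lab L)} (hs : Planar s)
    (h01 : (1 - a0) * a1 = 1) (h12 : (1 - a1) * a2 = 1) (h20 : (1 - a2) * a0 = 1) :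
    opT t a0 (strands L) (lx 0) (ly 0) (opT t a1 (strands L) (lx 0) (ly 0)
        (opT t a2 (strands L) (lx 0) (ly 0) (fun _ => 1))) s
      = t ^ 3 - 3 * t + 3 + (t - 1) * ((a0 * (1 - a0)) ^ numExp s + (a1 * (1 - a1)) ^ numExp s
          + (a2 * (1 - a2)) ^ numExp s) := by
  have e1 : opT t a0 (strands L) (lx 0) (ly 0) (opT t a1 (strands L) (lx 0) (ly 0)
        (opT t a2 (strands L) (lx 0) (ly 0) (fun _ => 1))) s
      = opT t a0 (strands L) (lx 0) (ly 0) (opT t a1 (strands L) (lx 1) (ly 1)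
        (opT t a2 (strands L) (lx 2) (ly 2) (fun _ => 1))) s := by
    refine (maps_planar t a0).congr (fun s' hs' => ?_) hs
    rw [opT_lines t a1 (k := 1) (by decide) _ hs'.allIdle]
    refine (maps_planar t a1).congr (fun s'' hs'' => ?_) hs'
    rw [opT_lines t a2 (k := 2) (by decide) _ hs''.allIdle]
  rw [e1]
  obtain ⟨m, s0, h0, rfl, hn⟩ := hs.exists_flat
  rw [opT_rot_iterate, hn]
  simp only [opT_rot_iterate]
  have := star t h0 h01 h12 h20
  simpa only [Module.End.mul_apply] using this

end Pool.Agent.H65.Perc
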