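import Mathlib

/-!
JOB T4 (helper65, MP_fe58d8_pr): the functional equation forces the moments.
-/

namespace Pool.Agent.H65.Perc

/-- the generating polynomial `H(t) = ∑_{s ≤ n} P s t^s` -/
noncomputable def HH (n : ℕ) (P : ℕ → ℝ) (t : ℝ) : ℝ := ∑ s ∈ Finset.range (n + 1), P s * t ^ s

noncomputable def tt0 (z : ℝ) : ℝ := -(1 - z ^ 2) / (4 * z ^ 2)
noncomputable def tt1 (z : ℝ) : ℝ := -(2 * z * (1 + z)) / (1 - z) ^ 2
noncomputable def tt2 (z : ℝ) : ℝ := 2 * z * (1 - z) / (1 + z) ^ 2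

namespace FunEq

open Polynomial

/-- homogenised generating polynomial in the uniformising variable -/
noncomputable def G (n : ℕ) (P : ℕ → ℂ) : ℂ[X] :=
  ∑ s ∈ Finset.range (n + 1), C (P s) * ((1 + X + X ^ 2) ^ s * (1 - X) ^ (2 * (n - s)))

lemma G_eval (n : ℕ) (P : ℕ → ℂ) (y t : ℂ) (h : 1 + y + y ^ 2 = t * (1 - y) ^ 2) :
    (G n P).eval y = (1 - y) ^ (2 * n) * ∑ s ∈ Finset.range (n + 1), P s * t ^ s := by
  unfold G
  rw [eval_finsetSum, Finset.mul_sum]
  refine Finset.sum_congr rfl fun s hs => ?_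
  have hs' : s ≤ n := by simpa [Nat.lt_succ_iff] using hs
  have h2 : 2 * n = 2 * s + 2 * (n - s) := by omega
  simp only [eval_mul, eval_C, eval_pow, eval_add, eval_one, eval_X, eval_sub]
  rw [h, h2, pow_add, pow_mul (1 - y) 2 s, mul_pow]
  ring

lemma G_eval_one (n : ℕ) (P : ℕ → ℂ) : (G n P).eval 1 = P n * 3 ^ n := by
  unfold G
  rw [eval_finsetSum, Finset.sum_eq_single n]
  · simp; norm_num
  · intro s hs hsn
    have hs' : s ≤ n := by simpa [Nat.lt_succ_iff] using hs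
    have : n - s ≠ 0 := by omega
    simp [this]
  · simp

lemma G_eval_q (n : ℕ) (P : ℕ → ℂ) (hP0 : P 0 = 0) (q : ℂ) (hq : 1 + q + q ^ 2 = 0) :
    (G n P).eval q = 0 := by
  unfold G
  rw [eval_finsetSum]
  refine Finset.sum_eq_zero fun s _ => ?_
  simp only [eval_mul, eval_C, eval_pow, eval_add, eval_one, eval_X, eval_sub, hq]
  rcases Nat.eq_zero_or_pos s with rfl | hs
  · simp [hP0]
  · rw [zero_pow hs.ne']; simp

lemma G_natDegree (n : ℕ) (P : ℕ → ℂ) : (G n P).natDegree ≤ 2 * n := by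
  unfold G
  refine natDegree_sum_le_of_forall_le _ _ fun s hs => ?_
  have hs' : s ≤ n := by simpa [Nat.lt_succ_iff] using hs
  refine (natDegree_C_mul_le _ _).trans ?_
  refine natDegree_mul_le.trans ?_
  have h1 : ((1 + X + X ^ 2 : ℂ[X]) ^ s).natDegree ≤ s * 2 := by
    refine natDegree_pow_le.trans ?_
    gcongr
    compute_degree
  have h2 : ((1 - X : ℂ[X]) ^ (2 * (n - s))).natDegree ≤ (2 * (n - s)) * 1 := by
    refine natDegree_pow_le.trans ?_
    gcongr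
    compute_degree
  omega

/-! ### the algebraic core -/

/-- the rotation `X ↦ a X` -/
noncomputable def rot (a : ℂ) (p : ℂ[X]) : ℂ[X] := p.comp (C a * X)

lemma rot_mul (a : ℂ) (p r : ℂ[X]) : rot a (p * r) = rot a p * rot a r := mul_comp _ _ _
lemma rot_add (a : ℂ) (p r : ℂ[X]) : rot a (p + r) = rot a p + rot a r := add_comp
lemma rot_sub (a : ℂ) (p r : ℂ[X]) : rot a (p - r) = rot a p - rot a r := sub_comp
lemma rot_pow (a : ℂ) (p : ℂ[X]) (k : ℕ) : rot a (p ^ k) = rot a p ^ k := pow_comp _ _ _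
lemma rot_C (a b : ℂ) : rot a (C b) = C b := C_comp
lemma rot_one (a : ℂ) : rot a 1 = 1 := one_comp
lemma rot_X (a : ℂ) : rot a X = C a * X := X_comp
lemma rot_rot (a b : ℂ) (p : ℂ[X]) : rot a (rot b p) = rot (a * b) p := by
  unfold rot
  rw [comp_assoc]
  congr 1
  simp only [mul_comp, C_comp, X_comp, C_mul]
  ring
lemma rot_by_one (p : ℂ[X]) : rot 1 p = p := by
  unfold rot; simp
lemma rot_natCast (a : ℂ) (k : ℕ) : rot a (k : ℂ[X]) = (k : ℂ[X]) := natCast_comp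

lemma rot_coeff (a : ℂ) (p : ℂ[X]) (k : ℕ) : (rot a p).coeff k = p.coeff k * a ^ k := by
  unfold rot; rw [comp_C_mul_X_coeff]

lemma rot_eval (a x : ℂ) (p : ℂ[X]) : (rot a p).eval x = p.eval (a * x) := by
  unfold rot; simp [eval_comp]

lemma rot_derivative (a : ℂ) (p : ℂ[X]) :
    derivative (rot a p) = C a * rot a (derivative p) := by
  unfold rot
  rw [derivative_comp]
  simp

lemma rot_dvd (a : ℂ) {p r : ℂ[X]} (h : p ∣ r) : rot a p ∣ rot a r := by
  obtain ⟨s, rfl⟩ := h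
  exact ⟨rot a s, rot_mul _ _ _⟩

/-- linear form -/
noncomputable def B (a : ℂ) : ℂ[X] := 1 - C a * X

lemma B_eval (a x : ℂ) : (B a).eval x = 1 - a * x := by simp [B]

lemma rot_B (a b : ℂ) : rot a (B b) = B (b * a) := by
  unfold B
  rw [rot_sub, rot_one, rot_mul, rot_C, rot_X, C_mul]; ring

lemma derivative_B (a : ℂ) : derivative (B a) = - C a := by
  unfold B
  simp

/-- `U = G' (1 - X) + m G`-/
noncomputable def U (m : ℕ) (g : ℂ[X]) : ℂ[X] := derivative g * B 1 + (m : ℂ[X]) * g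

lemma U_natDegree (m : ℕ) (hm : 1 ≤ m) (g : ℂ[X]) (hg : g.natDegree ≤ m) :
    (U m g).natDegree ≤ m - 1 := by
  rw [natDegree_le_iff_coeff_eq_zero]
  intro N hN
  have hN' : m ≤ N := by omega
  obtain ⟨k, rfl⟩ : ∃ k, N = k + 1 := ⟨N - 1, by omega⟩
  have e : U m g = derivative g - derivative g * X + (m : ℂ[X]) * g := by
    unfold U B; simp only [C_1]; ring
  rw [e, coeff_add, coeff_sub, coeff_mul_X, coeff_derivative, coeff_derivative]
  have h1 : g.coeff (k + 1 + 1) = 0 := coeff_eq_zero_of_natDegree_lt (by omega)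
  have h2 : ((m : ℂ[X]) * g).coeff (k + 1) = (m : ℂ) * g.coeff (k + 1) := by
    rw [← C_eq_natCast, coeff_C_mul]
  rw [h1, h2]
  rcases Nat.eq_or_lt_of_le hN' with h | h
  · rw [h]; push_cast; ring
  · have h3 : g.coeff (k + 1) = 0 := coeff_eq_zero_of_natDegree_lt (by omega)
    rw [h3]; ring

lemma isCoprime_B (g : ℂ[X]) (hg : g.eval 1 ≠ 0) (m : ℕ) : IsCoprime (B 1 ^ m) g := by
  have hirr : Irreducible (X - C (1 : ℂ)) := irreducible_X_sub_C 1
  have h1 : IsCoprime (X - C (1 : ℂ)) g := by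
    rw [hirr.coprime_iff_not_dvd, dvd_iff_isRoot]
    exact hg
  have h2 : B 1 = -(X - C (1 : ℂ)) := by unfold B; simp
  rw [h2]
  exact (h1.neg_left).pow_left

/-- the numerator of the second symmetric function of the derivatives -/
noncomputable def RR (m : ℕ) (q : ℂ) (g : ℂ[X]) : ℂ[X] :=
  U m g * (C q * rot q (U m g)) * B (q ^ 2) ^ (m + 1)
    + (C q * rot q (U m g)) * (C (q ^ 2) * rot (q ^ 2) (U m g)) * B 1 ^ (m + 1)
    + U m g * (C (q ^ 2) * rot (q ^ 2) (U m g)) * B q ^ (m + 1)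

lemma rot_U (m : ℕ) (a : ℂ) (g : ℂ[X]) :
    C a * rot a (U m g) = derivative (rot a g) * B a + (m : ℂ[X]) * C a * rot a g := by
  unfold U
  rw [rot_add, rot_mul, rot_mul, rot_natCast, rot_B, rot_derivative, one_mul]
  ring

lemma RR_factor (k : ℕ) (q : ℂ) (hq : 1 + q + q ^ 2 = 0) (g : ℂ[X])
    (hG1 : g.eval 1 ≠ 0) (hGq : g.eval q = 0)
    (hE : g * rot q g * B (q ^ 2) ^ (k + 1) + rot q g * rot (q ^ 2) g * B 1 ^ (k + 1)
      + g * rot (q ^ 2) g * B q ^ (k + 1) = 3 * (B 1 * B q * B (q ^ 2)) ^ (k + 1)) :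
    ∃ Q : ℂ[X], RR (k + 1) q g = B 1 ^ k * Q ∧
      Q.eval 1 = - ((k : ℂ) + 1) ^ 2 * 3 ^ (k + 3) := by
  set A1 := rot q g with hA1
  set A2 := rot (q ^ 2) g with hA2
  have hV : B 1 ^ (k + 1) ∣ g * (A1 * B (q ^ 2) ^ (k + 1) + A2 * B q ^ (k + 1)) := by
    refine ⟨3 * (B q * B (q ^ 2)) ^ (k + 1) - A1 * A2, ?_⟩
    have e : 3 * (B 1 * B q * B (q ^ 2)) ^ (k + 1)
        = B 1 ^ (k + 1) * (3 * (B q * B (q ^ 2)) ^ (k + 1)) := by
      rw [mul_assoc (B 1), mul_pow (B 1)]; ring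
    rw [e] at hE
    linear_combination hE
  obtain ⟨Y, hY⟩ := (isCoprime_B g hG1 (k + 1)).dvd_of_dvd_mul_left hV
  have hB1ne : B 1 ≠ 0 := by
    intro h
    have := congrArg (eval 0) h
    simp [B] at this
  have hAY : g * Y = 3 * (B q * B (q ^ 2)) ^ (k + 1) - A1 * A2 := by
    have e : 3 * (B 1 * B q * B (q ^ 2)) ^ (k + 1)
        = B 1 ^ (k + 1) * (3 * (B q * B (q ^ 2)) ^ (k + 1)) := by
      rw [mul_assoc (B 1), mul_pow (B 1)]; ring
    rw [e] at hE
    apply mul_left_cancel₀ (pow_ne_zero (k + 1) hB1ne)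
    linear_combination hE - g * hY
  have hd := congrArg derivative hY
  simp only [derivative_add, derivative_mul, derivative_pow, derivative_B, Nat.add_sub_cancel,
    Nat.cast_add, Nat.cast_one, C_1] at hd
  refine ⟨U (k + 1) g * (B q * B (q ^ 2) * (-((k : ℂ[X]) + 1) * Y + B 1 * derivative Y)
    + ((k : ℂ[X]) + 1) * (C q * B (q ^ 2) + B q * C (q ^ 2)) * B 1 * Y)
    + (C q * rot q (U (k + 1) g)) * (C (q ^ 2) * rot (q ^ 2) (U (k + 1) g)) * B 1 ^ 2, ?_, ?_⟩
  · have h1 := rot_U (k + 1) q g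
    have h2 := rot_U (k + 1) (q ^ 2) g
    rw [← hA1] at h1
    rw [← hA2] at h2
    unfold RR
    rw [h1, h2]
    push_cast
    have key : (derivative A1 * B q + ((k : ℂ[X]) + 1) * C q * A1) * B (q ^ 2) ^ (k + 1 + 1)
        + (derivative A2 * B (q ^ 2) + ((k : ℂ[X]) + 1) * C (q ^ 2) * A2) * B q ^ (k + 1 + 1)
        = B 1 ^ k * (B q * B (q ^ 2) * (-((k : ℂ[X]) + 1) * Y + B 1 * derivative Y)
          + ((k : ℂ[X]) + 1) * (C q * B (q ^ 2) + B q * C (q ^ 2)) * B 1 * Y) := by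
      simp only [C_add, C_eq_natCast, C_1] at hd
      linear_combination (B q * B (q ^ 2)) * hd
        + ((k : ℂ[X]) + 1) * (C q * B (q ^ 2) + B q * C (q ^ 2)) * hY
    linear_combination (U (k + 1) g) * key
  · have e1 : (B 1).eval 1 = 0 := by simp [B]
    have e2 : (B q).eval 1 * (B (q ^ 2)).eval 1 = 3 := by
      simp only [B_eval, mul_one]
      linear_combination (q - 2) * hq
    have e3 : (U (k + 1) g).eval 1 = ((k : ℂ) + 1) * g.eval 1 := by
      unfold U; simp [e1]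
    have e4 := congrArg (eval 1) hAY
    have e5 : A1.eval 1 = 0 := by rw [hA1, rot_eval, mul_one, hGq]
    have e6 : eval 1 (3 : ℂ[X]) = 3 := by simp
    simp only [eval_mul, eval_sub, eval_pow, e5, e2, e6, zero_mul, sub_zero] at e4
    simp only [eval_add, eval_mul, eval_neg, eval_pow, e1, e3, eval_natCast, eval_one, eval_C]
    have e7 : eval 1 (B q) * eval 1 (B (q ^ 2)) = 3 := e2
    have e8 : ((k : ℂ) + 1) * eval 1 g * (eval 1 (B q) * eval 1 (B (q ^ 2)) *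
        (-((k : ℂ) + 1) * eval 1 Y)) = - ((k : ℂ) + 1) ^ 2 * 3 ^ (k + 3) := by
      rw [e7]
      linear_combination (-3 * ((k : ℂ) + 1) ^ 2) * e4
    linear_combination e8

lemma q_cube {q : ℂ} (hq : 1 + q + q ^ 2 = 0) : q ^ 3 = 1 := by
  linear_combination (q - 1) * hq

lemma q_ne_one {q : ℂ} (hq : 1 + q + q ^ 2 = 0) : q ≠ 1 := by
  rintro rfl; norm_num at hq

lemma q_ne_zero {q : ℂ} (hq : 1 + q + q ^ 2 = 0) : q ≠ 0 := by
  rintro rfl; norm_num at hq

lemma rot_RR (m : ℕ) (q : ℂ) (hq : 1 + q + q ^ 2 = 0) (g : ℂ[X]) :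
    rot q (RR m q g) = C q * RR m q g := by
  have h3 := q_cube hq
  have hqq : q * q = q ^ 2 := by ring
  have hqq2 : q * q ^ 2 = 1 := by rw [← h3]; ring
  have hqq3 : q ^ 2 * q = 1 := by rw [← h3]; ring
  unfold RR
  simp only [rot_add, rot_mul, rot_pow, rot_C, rot_rot, rot_B, hqq, hqq2, hqq3, rot_by_one,
    one_mul]
  have hC : C q ^ 3 = (1 : ℂ[X]) := by rw [← C_pow, h3, C_1]
  have hC2 : C (q ^ 2) = C q ^ 2 := C_pow
  rw [hC2]
  linear_combination
    (-(rot q (U m g) * rot (q ^ 2) (U m g) * C q * B 1 ^ (m + 1))) * hC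

lemma isCoprime_BB {a b : ℂ} (hab : a ≠ b) : IsCoprime (B a) (B b) := by
  have hne : a - b ≠ 0 := sub_ne_zero.mpr hab
  refine ⟨C (-b / (a - b)), C (a / (a - b)), ?_⟩
  unfold B
  have e1 : C (-b / (a - b)) * (C a : ℂ[X]) + C (a / (a - b)) * C b = 0 := by
    rw [← C_mul, ← C_mul, ← C_add]
    rw [show -b / (a - b) * a + a / (a - b) * b = 0 by ring, C_0]
  have e2 : (C (-b / (a - b)) : ℂ[X]) + C (a / (a - b)) = 1 := by
    rw [← C_add, show -b / (a - b) + a / (a - b) = 1 by field_simp; ring, C_1]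
  linear_combination e2 - X * e1

lemma N_eq {q : ℂ} (hq : 1 + q + q ^ 2 = 0) : B 1 * B q * B (q ^ 2) = 1 - X ^ 3 := by
  have h3 := q_cube hq
  have hC : C q ^ 3 = (1 : ℂ[X]) := by rw [← C_pow, h3, C_1]
  have hC1 : 1 + C q + C q ^ 2 = (0 : ℂ[X]) := by
    rw [← C_pow, ← C_1, ← C_add, ← C_add, hq, C_0]
  unfold B
  rw [C_pow, C_1]
  linear_combination (-X + X ^ 2 * C q) * hC1 - X ^ 3 * hC

lemma RR_coeff_one (k : ℕ) (q : ℂ) (hq : 1 + q + q ^ 2 = 0) (g : ℂ[X])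
    (hdeg : g.natDegree ≤ k + 1)
    (hG1 : g.eval 1 ≠ 0) (hGq : g.eval q = 0)
    (hE : g * rot q g * B (q ^ 2) ^ (k + 1) + rot q g * rot (q ^ 2) g * B 1 ^ (k + 1)
      + g * rot (q ^ 2) g * B q ^ (k + 1) = 3 * (B 1 * B q * B (q ^ 2)) ^ (k + 1)) :
    (RR (k + 1) q g).coeff 1 = -27 * ((k : ℂ) + 1) ^ 2 := by
  have h3 := q_cube hq
  have hq1 := q_ne_one hq
  have hq0 := q_ne_zero hq
  have hq2 : q ^ 2 ≠ 1 := by
    intro h
    apply hq1
    have : q ^ 3 = q ^ 2 * q := by ring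
    rw [h3, h, one_mul] at this
    exact this.symm
  have hq12 : q ≠ q ^ 2 := by
    intro h
    apply hq1
    have : q * 1 = q * q := by rw [mul_one]; nth_rewrite 1 [h]; ring
    exact (mul_left_cancel₀ hq0 this).symm
  obtain ⟨Q, hQ, hQ1⟩ := RR_factor k q hq g hG1 hGq hE
  have hd1 : B 1 ^ k ∣ RR (k + 1) q g := ⟨Q, hQ⟩
  have hCq : IsUnit (C q : ℂ[X]) := isUnit_C.mpr (isUnit_iff_ne_zero.mpr hq0)
  have hd2 : B q ^ k ∣ RR (k + 1) q g := by
    have := rot_dvd q hd1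
    rw [rot_pow, rot_B, one_mul, rot_RR _ q hq] at this
    exact (hCq.dvd_mul_left).mp this
  have hd3 : B (q ^ 2) ^ k ∣ RR (k + 1) q g := by
    have := rot_dvd q hd2
    rw [rot_pow, rot_B, rot_RR _ q hq, ← sq] at this
    exact (hCq.dvd_mul_left).mp this
  have hd : (B 1 * B q * B (q ^ 2)) ^ k ∣ RR (k + 1) q g := by
    rw [mul_pow, mul_pow]
    refine IsCoprime.mul_dvd ?_ (IsCoprime.mul_dvd ?_ hd1 hd2) hd3
    · exact IsCoprime.mul_left ((isCoprime_BB (Ne.symm hq2)).pow)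
        ((isCoprime_BB hq12).pow)
    · exact (isCoprime_BB (Ne.symm hq1)).pow
  obtain ⟨W, hW⟩ := hd
  -- degree
  have hNne : B 1 * B q * B (q ^ 2) ≠ 0 := by
    rw [N_eq hq]
    intro h
    have := congrArg (eval 0) h
    simp at this
  have hNdeg : (B 1 * B q * B (q ^ 2)).natDegree = 3 := by
    rw [N_eq hq]
    have : (1 - X ^ 3 : ℂ[X]) = -(X ^ 3 - C 1) := by simp
    rw [this, natDegree_neg, natDegree_X_pow_sub_C]
  have hWdeg : W.natDegree ≤ 2 := by
    rcases eq_or_ne W 0 with h | h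
    · simp [h]
    have h1 : (RR (k + 1) q g).natDegree = 3 * k + W.natDegree := by
      rw [hW, natDegree_mul (pow_ne_zero _ hNne) h, natDegree_pow, hNdeg]; ring
    have hU : (U (k + 1) g).natDegree ≤ k := by
      simpa using U_natDegree (k + 1) (by omega) g hdeg
    have hrot : ∀ a : ℂ, ∀ p : ℂ[X], (C a * rot a p).natDegree ≤ p.natDegree := by
      intro a p
      refine (natDegree_C_mul_le _ _).trans ?_
      rw [natDegree_le_iff_coeff_eq_zero]
      intro N hN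
      rw [rot_coeff, coeff_eq_zero_of_natDegree_lt hN, zero_mul]
    have hB : ∀ a : ℂ, ∀ j : ℕ, (B a ^ j).natDegree ≤ j := by
      intro a j
      refine natDegree_pow_le.trans ?_
      have : (B a).natDegree ≤ 1 := by unfold B; compute_degree
      nlinarith
    have h2 : (RR (k + 1) q g).natDegree ≤ 3 * k + 2 := by
      unfold RR
      have hm3 : ∀ p r s : ℂ[X], (p * r * s).natDegree ≤ p.natDegree + r.natDegree + s.natDegree := by
        intro p r s
        refine natDegree_mul_le.trans ?_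
        gcongr
        exact natDegree_mul_le
      refine (natDegree_add_le _ _).trans (max_le ((natDegree_add_le _ _).trans (max_le ?_ ?_)) ?_)
      · refine (hm3 _ _ _).trans ?_
        have := hrot q (U (k + 1) g)
        have := hB (q ^ 2) (k + 1 + 1)
        omega
      · refine (hm3 _ _ _).trans ?_
        have := hrot q (U (k + 1) g)
        have := hrot (q ^ 2) (U (k + 1) g)
        have := hB 1 (k + 1 + 1)
        omega
      · refine (hm3 _ _ _).trans ?_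
        have := hrot (q ^ 2) (U (k + 1) g)
        have := hB q (k + 1 + 1)
        omega
    omega
  -- covariance
  have hNrot : rot q (B 1 * B q * B (q ^ 2)) = B 1 * B q * B (q ^ 2) := by
    rw [N_eq hq, rot_sub, rot_one, rot_pow, rot_X, mul_pow, ← C_pow, h3, C_1, one_mul]
  have hWrot : rot q W = C q * W := by
    have h1 := rot_RR (k + 1) q hq g
    rw [hW, rot_mul, rot_pow, hNrot] at h1
    apply mul_left_cancel₀ (pow_ne_zero k hNne)
    rw [h1]; ring
  have hW0 : W.coeff 0 = 0 := by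
    have h1 := congrArg (fun p => coeff p 0) hWrot
    simp only [rot_coeff, coeff_C_mul, pow_zero, mul_one] at h1
    have h2 : (1 - q) * W.coeff 0 = 0 := by linear_combination h1
    rcases mul_eq_zero.mp h2 with h | h
    · exact absurd (sub_eq_zero.mp h).symm hq1
    · exact h
  have hW2 : W.coeff 2 = 0 := by
    have h1 := congrArg (fun p => coeff p 2) hWrot
    simp only [rot_coeff, coeff_C_mul] at h1
    have h2 : (q - q ^ 2) * W.coeff 2 = 0 := by linear_combination -h1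
    rcases mul_eq_zero.mp h2 with h | h
    · exact absurd (sub_eq_zero.mp h) hq12
    · exact h
  have hWeq : W = C (W.coeff 1) * X := by
    ext i
    rw [coeff_C_mul, coeff_X]
    rcases i with _ | _ | _ | i
    · simp [hW0]
    · simp
    · simp [hW2]
    · rw [coeff_eq_zero_of_natDegree_lt (by omega)]; simp
  -- value at one
  have hB1ne : B 1 ≠ 0 := by
    intro h
    have := congrArg (eval 0) h
    simp [B] at this
  have hQW : Q = W * (B q * B (q ^ 2)) ^ k := by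
    apply mul_left_cancel₀ (pow_ne_zero k hB1ne)
    rw [← hQ, hW, mul_assoc (B 1), mul_pow]; ring
  have e2 : (B q).eval 1 * (B (q ^ 2)).eval 1 = 3 := by
    simp only [B_eval, mul_one]
    linear_combination (q - 2) * hq
  have h4 := congrArg (eval 1) hQW
  rw [hQ1, eval_mul, eval_pow, eval_mul, e2] at h4
  have h5 : W.eval 1 = W.coeff 1 := by
    conv_lhs => rw [hWeq]
    simp
  rw [h5] at h4
  have h6 : W.coeff 1 = -27 * ((k : ℂ) + 1) ^ 2 := by
    have h3k : (3 : ℂ) ^ k ≠ 0 := pow_ne_zero k (by norm_num)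
    apply mul_right_cancel₀ h3k
    rw [← h4]; ring
  rw [hW, mul_coeff_one, hW0, N_eq hq, h6]
  have h7 : ((1 - X ^ 3 : ℂ[X]) ^ k).coeff 0 = 1 := by
    rw [coeff_zero_eq_eval_zero]; simp
  rw [h7]; ring

lemma B_pow_coeff (a : ℂ) (j : ℕ) :
    (B a ^ j).coeff 0 = 1 ∧ (B a ^ j).coeff 1 = - (j : ℂ) * a := by
  have hB0 : (B a).coeff 0 = 1 := by simp [B]
  have hB1 : (B a).coeff 1 = -a := by simp [B, coeff_one]
  induction j with
  | zero => simp [coeff_one]
  | succ j ih =>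
    rw [pow_succ, mul_coeff_zero, mul_coeff_one, ih.1, ih.2, hB0, hB1]
    constructor
    · simp
    · push_cast; ring

lemma coeff_one_mul3 (p r s : ℂ[X]) : (p * r * s).coeff 1
    = p.coeff 1 * r.coeff 0 * s.coeff 0 + p.coeff 0 * r.coeff 1 * s.coeff 0
      + p.coeff 0 * r.coeff 0 * s.coeff 1 := by
  rw [mul_coeff_one, mul_coeff_one, mul_coeff_zero]; ring

lemma RR_coeff_one' (m : ℕ) (q : ℂ) (hq : 1 + q + q ^ 2 = 0) (g : ℂ[X]) :
    (RR m q g).coeff 1 = -3 * (U m g).coeff 0 *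
      ((U m g).coeff 1 + ((m : ℂ) + 1) * (U m g).coeff 0) := by
  unfold RR
  rw [coeff_add, coeff_add, coeff_one_mul3, coeff_one_mul3, coeff_one_mul3]
  simp only [coeff_C_mul, rot_coeff, (B_pow_coeff _ _).1, (B_pow_coeff _ _).2]
  generalize (U m g).coeff 0 = a
  generalize (U m g).coeff 1 = b
  push_cast
  linear_combination (a * b * (q ^ 3 + q ^ 2 - 2 * q + 3)
    - 3 * ((m : ℂ) + 1) * a ^ 2 * (q - 1)) * hq

/-- polynomials as power series -/
lemma coe_rot (a : ℂ) (p : ℂ[X]) :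
    ((rot a p : ℂ[X]) : PowerSeries ℂ) = PowerSeries.rescale a (p : PowerSeries ℂ) := by
  ext k
  simp [rot_coeff, PowerSeries.coeff_rescale, mul_comm]

lemma U_series (k : ℕ) (g : ℂ[X]) (h : PowerSeries ℂ)
    (hg : (g : PowerSeries ℂ) = ((B 1 : ℂ[X]) : PowerSeries ℂ) ^ (k + 1) * h) :
    ((U (k + 1) g : ℂ[X]) : PowerSeries ℂ)
      = ((B 1 : ℂ[X]) : PowerSeries ℂ) ^ (k + 2) * PowerSeries.derivative ℂ h := by
  have hB : PowerSeries.derivative ℂ ((B 1 : ℂ[X]) : PowerSeries ℂ) = -1 := by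
    rw [PowerSeries.derivative_coe, derivative_B]; simp
  have hd := PowerSeries.derivative_coe (R := ℂ) g
  rw [hg, Derivation.leibniz, Derivation.leibniz_pow, hB] at hd
  unfold U
  rw [Polynomial.coe_add, Polynomial.coe_mul, Polynomial.coe_mul, ← hd, hg]
  simp only [smul_eq_mul, nsmul_eq_mul, Nat.add_sub_cancel]
  have : (((k + 1 : ℕ) : ℂ[X]) : PowerSeries ℂ) = ((k + 1 : ℕ) : PowerSeries ℂ) :=
    map_natCast (Polynomial.coeToPowerSeries.ringHom (R := ℂ)) (k + 1)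
  rw [this]
  ring

lemma ps_mul0 (f g : PowerSeries ℂ) : PowerSeries.coeff 0 (f * g)
    = PowerSeries.coeff 0 f * PowerSeries.coeff 0 g := by
  rw [PowerSeries.coeff_mul]
  simp

lemma ps_mul1 (f g : PowerSeries ℂ) : PowerSeries.coeff 1 (f * g)
    = PowerSeries.coeff 0 f * PowerSeries.coeff 1 g
      + PowerSeries.coeff 1 f * PowerSeries.coeff 0 g := by
  rw [PowerSeries.coeff_mul]
  simp [Finset.Nat.antidiagonal_succ]

lemma ps_mul2 (f g : PowerSeries ℂ) : PowerSeries.coeff 2 (f * g)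
    = PowerSeries.coeff 0 f * PowerSeries.coeff 2 g
      + PowerSeries.coeff 1 f * PowerSeries.coeff 1 g
      + PowerSeries.coeff 2 f * PowerSeries.coeff 0 g := by
  rw [PowerSeries.coeff_mul]
  simp [Finset.Nat.antidiagonal_succ, add_assoc]

lemma ps_mul3 (f g : PowerSeries ℂ) : PowerSeries.coeff 3 (f * g)
    = PowerSeries.coeff 0 f * PowerSeries.coeff 3 g
      + PowerSeries.coeff 1 f * PowerSeries.coeff 2 g
      + PowerSeries.coeff 2 f * PowerSeries.coeff 1 g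
      + PowerSeries.coeff 3 f * PowerSeries.coeff 0 g := by
  rw [PowerSeries.coeff_mul]
  simp [Finset.Nat.antidiagonal_succ, add_assoc]

/-- the coefficients of `h` -/
lemma main_coeff (k : ℕ) (q : ℂ) (hq : 1 + q + q ^ 2 = 0) (g : ℂ[X])
    (hdeg : g.natDegree ≤ k + 1)
    (hG1 : g.eval 1 ≠ 0) (hGq : g.eval q = 0)
    (hE : g * rot q g * B (q ^ 2) ^ (k + 1) + rot q g * rot (q ^ 2) g * B 1 ^ (k + 1)
      + g * rot (q ^ 2) g * B q ^ (k + 1) = 3 * (B 1 * B q * B (q ^ 2)) ^ (k + 1))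
    (h : PowerSeries ℂ) (hg : (g : PowerSeries ℂ) = ((B 1 : ℂ[X]) : PowerSeries ℂ) ^ (k + 1) * h)
    (h0 : PowerSeries.coeff 0 h = 1) :
    PowerSeries.coeff 1 h * PowerSeries.coeff 2 h = 9 / 2 * ((k : ℂ) + 1) ^ 2 ∧
    2 * PowerSeries.coeff 3 h = PowerSeries.coeff 1 h * PowerSeries.coeff 2 h := by
  constructor
  · have h1 := RR_coeff_one k q hq g hdeg hG1 hGq hE
    rw [RR_coeff_one' (k + 1) q hq g] at h1
    have hU := U_series k g h hg
    have hU0 := congrArg (PowerSeries.coeff 0) hU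
    have hU1 := congrArg (PowerSeries.coeff 1) hU
    rw [← Polynomial.coe_pow, ps_mul0, Polynomial.coeff_coe, Polynomial.coeff_coe,
      PowerSeries.coeff_derivative, (B_pow_coeff _ _).1] at hU0
    rw [← Polynomial.coe_pow, ps_mul1, Polynomial.coeff_coe, Polynomial.coeff_coe,
      Polynomial.coeff_coe, PowerSeries.coeff_derivative, PowerSeries.coeff_derivative,
      (B_pow_coeff _ _).1, (B_pow_coeff _ _).2] at hU1
    norm_num at hU0 hU1
    rw [hU0, hU1] at h1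
    push_cast at h1
    linear_combination (-1 / 6) * h1
  · have hc := congrArg (fun p : ℂ[X] => (p : PowerSeries ℂ)) hE
    simp only [Polynomial.coe_add, Polynomial.coe_mul, Polynomial.coe_pow, coe_rot] at hc
    have hBq : ((B q : ℂ[X]) : PowerSeries ℂ)
        = PowerSeries.rescale q ((B 1 : ℂ[X]) : PowerSeries ℂ) := by
      rw [← coe_rot, rot_B, one_mul]
    have hBq2 : ((B (q ^ 2) : ℂ[X]) : PowerSeries ℂ)
        = PowerSeries.rescale (q ^ 2) ((B 1 : ℂ[X]) : PowerSeries ℂ) := by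
      rw [← coe_rot, rot_B, one_mul]
    rw [hg, map_mul, map_mul, map_pow, map_pow, ← hBq, ← hBq2] at hc
    have h3c : ((3 : ℂ[X]) : PowerSeries ℂ) = 3 :=
      map_ofNat (Polynomial.coeToPowerSeries.ringHom (R := ℂ)) 3
    rw [h3c] at hc
    have hne : (((B 1 : ℂ[X]) : PowerSeries ℂ) * ((B q : ℂ[X]) : PowerSeries ℂ)
        * ((B (q ^ 2) : ℂ[X]) : PowerSeries ℂ)) ^ (k + 1) ≠ 0 := by
      apply pow_ne_zero
      intro h
      have := congrArg (PowerSeries.coeff 0) h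
      rw [ps_mul0, ps_mul0, Polynomial.coeff_coe, Polynomial.coeff_coe, Polynomial.coeff_coe] at this
      simp [B] at this
    have he2 : h * PowerSeries.rescale q h + PowerSeries.rescale q h * PowerSeries.rescale (q ^ 2) h
        + h * PowerSeries.rescale (q ^ 2) h = 3 := by
      apply mul_left_cancel₀ hne
      rw [mul_pow, mul_pow]
      rw [mul_pow, mul_pow] at hc
      linear_combination hc
    have h4 := congrArg (PowerSeries.coeff 3) he2
    simp only [map_add, ps_mul3, PowerSeries.coeff_rescale, h0] at h4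
    have h5 : PowerSeries.coeff 3 (3 : PowerSeries ℂ) = 0 := by
      have : (3 : PowerSeries ℂ) = PowerSeries.C 3 := (map_ofNat PowerSeries.C 3).symm
      rw [this, PowerSeries.coeff_C]; simp
    rw [h5] at h4
    generalize PowerSeries.coeff 1 h = a at *
    generalize PowerSeries.coeff 2 h = b at *
    generalize PowerSeries.coeff 3 h = c at *
    linear_combination (1 / 3) * h4 - (1 / 3) * (c * (q - 1) * (4 + 2 * q ^ 3)
      + a * b * (q ^ 3 + q ^ 2 - 2 * q + 3)) * hq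

/-- the series of `t = (1 + X + X^2) / (1 - X)^2` -/
noncomputable def T : PowerSeries ℂ :=
  (1 + PowerSeries.X + PowerSeries.X ^ 2) * PowerSeries.mk (fun k => (Nat.choose (1 + k) 1 : ℂ))

lemma T_mul : (1 - PowerSeries.X) ^ 2 * T = 1 + PowerSeries.X + PowerSeries.X ^ 2 := by
  have h := PowerSeries.mk_add_choose_mul_one_sub_pow_eq_one ℂ 1
  unfold T
  linear_combination (1 + PowerSeries.X + PowerSeries.X ^ 2) * h

lemma T_coeff : PowerSeries.coeff 0 T = 1 ∧ PowerSeries.coeff 1 T = 3 ∧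
    PowerSeries.coeff 2 T = 6 ∧ PowerSeries.coeff 3 T = 9 := by
  unfold T
  refine ⟨?_, ?_, ?_, ?_⟩
  · rw [ps_mul0]; simp
  · rw [ps_mul1]; simp [PowerSeries.coeff_X_pow, PowerSeries.coeff_one]; norm_num
  · rw [ps_mul2]; simp [PowerSeries.coeff_X_pow, PowerSeries.coeff_one, PowerSeries.coeff_X]; norm_num
  · rw [ps_mul3]; simp [PowerSeries.coeff_X_pow, PowerSeries.coeff_one, PowerSeries.coeff_X]; norm_num

lemma T_pow_coeff (s : ℕ) : PowerSeries.coeff 0 (T ^ s) = 1 ∧ PowerSeries.coeff 1 (T ^ s) = 3 * s ∧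
    PowerSeries.coeff 2 (T ^ s) = 3 / 2 * s + 9 / 2 * s ^ 2 ∧
    PowerSeries.coeff 3 (T ^ s) = 9 / 2 * (s ^ 2 + s ^ 3) := by
  obtain ⟨t0, t1, t2, t3⟩ := T_coeff
  induction s with
  | zero => simp [PowerSeries.coeff_one]
  | succ s ih =>
    obtain ⟨i0, i1, i2, i3⟩ := ih
    rw [pow_succ, ps_mul0, ps_mul1, ps_mul2, ps_mul3, i0, i1, i2, i3, t0, t1, t2, t3]
    push_cast
    refine ⟨by ring, by ring, by ring, by ring⟩

/-- the series of `H (t)` -/
noncomputable def hser (n : ℕ) (P : ℕ → ℂ) : PowerSeries ℂ :=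
  ∑ s ∈ Finset.range (n + 1), PowerSeries.C (P s) * T ^ s

lemma G_series (n : ℕ) (P : ℕ → ℂ) :
    ((G n P : ℂ[X]) : PowerSeries ℂ) = ((B 1 : ℂ[X]) : PowerSeries ℂ) ^ (2 * n) * hser n P := by
  have hB : ((B 1 : ℂ[X]) : PowerSeries ℂ) = 1 - PowerSeries.X := by
    unfold B; simp
  unfold G hser
  rw [hB, Finset.mul_sum]
  have hsum := map_sum (Polynomial.coeToPowerSeries.ringHom (R := ℂ))
    (fun s => C (P s) * ((1 + X + X ^ 2) ^ s * (1 - X) ^ (2 * (n - s)))) (Finset.range (n + 1))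
  simp only [Polynomial.coeToPowerSeries.ringHom_apply] at hsum
  rw [hsum]
  refine Finset.sum_congr rfl fun s hs => ?_
  have hs' : s ≤ n := by simpa [Nat.lt_succ_iff] using hs
  have h2 : 2 * n = 2 * s + 2 * (n - s) := by omega
  have h1 : (1 + PowerSeries.X + PowerSeries.X ^ 2 : PowerSeries ℂ) ^ s
      = (1 - PowerSeries.X) ^ (2 * s) * T ^ s := by
    rw [← T_mul, mul_pow, pow_mul]
  rw [h2, pow_add]
  simp only [Polynomial.coe_mul, Polynomial.coe_pow, Polynomial.coe_add, Polynomial.coe_sub,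
    Polynomial.coe_one, Polynomial.coe_X, Polynomial.coe_C]
  rw [h1]
  have h3 : 2 * s + 2 * (n - s) - 2 * s = 2 * (n - s) := by omega
  ring

lemma hser_coeff (n : ℕ) (P : ℕ → ℂ) :
    PowerSeries.coeff 0 (hser n P) = ∑ s ∈ Finset.range (n + 1), P s ∧
    PowerSeries.coeff 1 (hser n P) = 3 * ∑ s ∈ Finset.range (n + 1), P s * s ∧
    PowerSeries.coeff 2 (hser n P) = 3 / 2 * ∑ s ∈ Finset.range (n + 1), P s * s
      + 9 / 2 * ∑ s ∈ Finset.range (n + 1), P s * s ^ 2 ∧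
    PowerSeries.coeff 3 (hser n P) = 9 / 2 * (∑ s ∈ Finset.range (n + 1), P s * s ^ 2
      + ∑ s ∈ Finset.range (n + 1), P s * s ^ 3) := by
  unfold hser
  refine ⟨?_, ?_, ?_, ?_⟩
  · rw [map_sum]
    refine Finset.sum_congr rfl fun s _ => ?_
    rw [PowerSeries.coeff_C_mul, (T_pow_coeff s).1, mul_one]
  · rw [map_sum, Finset.mul_sum]
    refine Finset.sum_congr rfl fun s _ => ?_
    rw [PowerSeries.coeff_C_mul, (T_pow_coeff s).2.1]; ring
  · rw [map_sum, Finset.mul_sum, Finset.mul_sum, ← Finset.sum_add_distrib]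
    refine Finset.sum_congr rfl fun s _ => ?_
    rw [PowerSeries.coeff_C_mul, (T_pow_coeff s).2.2.1]; ring
  · rw [map_sum, ← Finset.sum_add_distrib, Finset.mul_sum]
    refine Finset.sum_congr rfl fun s _ => ?_
    rw [PowerSeries.coeff_C_mul, (T_pow_coeff s).2.2.2]; ring

/-- the primitive cube root of unity -/
noncomputable def qq : ℂ := (-1 + (Real.sqrt 3 : ℂ) * Complex.I) / 2

lemma sqrt3_sq : ((Real.sqrt 3 : ℝ) : ℂ) ^ 2 = 3 := by
  rw [← Complex.ofReal_pow, Real.sq_sqrt (by norm_num)]; norm_num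

lemma sqrt3_ne : ((Real.sqrt 3 : ℝ) : ℂ) ≠ 0 := by
  intro h
  have := sqrt3_sq
  rw [h] at this
  norm_num at this

lemma qq_eq : 1 + qq + qq ^ 2 = 0 := by
  unfold qq
  have h1 := sqrt3_sq
  have h2 := Complex.I_sq
  linear_combination (1 / 4 * Complex.I ^ 2) * h1 + 3 / 4 * h2

/-- the uniformising coordinate of the real parameter `z` -/
noncomputable def xx (z : ℝ) : ℂ :=
  (Complex.I - (Real.sqrt 3 : ℂ) * z) / (Complex.I + (Real.sqrt 3 : ℂ) * z)

lemma den_ne (z : ℝ) : Complex.I + (Real.sqrt 3 : ℂ) * z ≠ 0 := by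
  intro h
  have := congrArg Complex.im h
  simp at this

lemma xx_one (z : ℝ) : 1 - xx z
    = ((Real.sqrt 3 : ℂ) / (Complex.I + (Real.sqrt 3 : ℂ) * z)) * (2 * z) := by
  unfold xx
  have := den_ne z
  field_simp
  ring

lemma xx_q (z : ℝ) : 1 - qq * xx z
    = ((Real.sqrt 3 : ℂ) / (Complex.I + (Real.sqrt 3 : ℂ) * z)) * (-qq ^ 2 * (1 + z)) := by
  have hd := den_ne z
  have h1 := sqrt3_sq
  have h2 := Complex.I_sq
  have key : (Complex.I + (Real.sqrt 3 : ℂ) * z) - qq * (Complex.I - (Real.sqrt 3 : ℂ) * z)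
      = (Real.sqrt 3 : ℂ) * (-qq ^ 2 * (1 + z)) := by
    unfold qq
    linear_combination (-Complex.I / 2 + (1 + z) * (Real.sqrt 3 : ℂ) * Complex.I ^ 2 / 4) * h1
      + (-(Real.sqrt 3 : ℂ) / 2 + 3 * (1 + z) * (Real.sqrt 3 : ℂ) / 4) * h2
  unfold xx
  field_simp
  linear_combination key

lemma xx_q2 (z : ℝ) : 1 - qq ^ 2 * xx z
    = ((Real.sqrt 3 : ℂ) / (Complex.I + (Real.sqrt 3 : ℂ) * z)) * (qq * (1 - z)) := by
  have hd := den_ne z
  have h1 := sqrt3_sq
  have h2 := Complex.I_sq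
  have key : (Complex.I + (Real.sqrt 3 : ℂ) * z) - qq ^ 2 * (Complex.I - (Real.sqrt 3 : ℂ) * z)
      = (Real.sqrt 3 : ℂ) * (qq * (1 - z)) := by
    unfold qq
    linear_combination (-Complex.I / 2 - Complex.I ^ 3 / 4
        + (Real.sqrt 3 : ℂ) * Complex.I ^ 2 * z / 4) * h1
      + ((Real.sqrt 3 : ℂ) / 2 - 3 * Complex.I / 4 + 3 * (Real.sqrt 3 : ℂ) * z / 4) * h2
  unfold xx
  field_simp
  linear_combination key

lemma xx_inj : Function.Injective xx := by
  intro z z' h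
  unfold xx at h
  rw [div_eq_div_iff (den_ne z) (den_ne z')] at h
  have h1 : (2 * Complex.I * (Real.sqrt 3 : ℂ)) * ((z' : ℂ) - z) = 0 := by
    linear_combination h
  have h2 : (2 * Complex.I * (Real.sqrt 3 : ℂ)) ≠ 0 :=
    mul_ne_zero (mul_ne_zero two_ne_zero Complex.I_ne_zero) sqrt3_ne
  have h3 := (mul_eq_zero.mp h1).resolve_left h2
  have h4 : (z' : ℂ) = z := sub_eq_zero.mp h3
  exact_mod_cast h4.symm

lemma HH_cast (n : ℕ) (P : ℕ → ℝ) (t : ℝ) :
    ∑ s ∈ Finset.range (n + 1), ((P s : ℝ) : ℂ) * (t : ℂ) ^ s = ((HH n P t : ℝ) : ℂ) := by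
  unfold HH
  push_cast
  rfl

lemma eval_point (n : ℕ) (P : ℕ → ℝ) (z : ℝ) (h0 : z ≠ 0) (h1 : z ≠ 1) (h2 : z ≠ -1) :
    (G n (fun s => (P s : ℂ))).eval (xx z) = (1 - xx z) ^ (2 * n) * (HH n P (tt0 z) : ℂ) ∧
    (G n (fun s => (P s : ℂ))).eval (qq * xx z)
      = (1 - qq * xx z) ^ (2 * n) * (HH n P (tt2 z) : ℂ) ∧
    (G n (fun s => (P s : ℂ))).eval (qq ^ 2 * xx z)
      = (1 - qq ^ 2 * xx z) ^ (2 * n) * (HH n P (tt1 z) : ℂ) := by
  have hq := qq_eq
  have hz0 : (z : ℂ) ≠ 0 := by exact_mod_cast h0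
  have hz1 : (1 - z : ℂ) ≠ 0 := by
    intro h; apply h1; have : (z : ℂ) = 1 := by linear_combination -h
    exact_mod_cast this
  have hz2 : (1 + z : ℂ) ≠ 0 := by
    intro h; apply h2; have : (z : ℂ) = -1 := by linear_combination h
    exact_mod_cast this
  have e0 := xx_one z
  have e1 := xx_q z
  have e2 := xx_q2 z
  set L := (Real.sqrt 3 : ℂ) / (Complex.I + (Real.sqrt 3 : ℂ) * z) with hL
  refine ⟨?_, ?_, ?_⟩
  · rw [G_eval n _ (xx z) ((tt0 z : ℝ) : ℂ), HH_cast]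
    have f : 1 + xx z + xx z ^ 2 = (1 - qq * xx z) * (1 - qq ^ 2 * xx z) := by
      linear_combination (xx z - (qq - 1) * xx z ^ 2) * hq
    rw [f, e0, e1, e2]
    unfold tt0
    push_cast
    field_simp
    linear_combination (-4 * L ^ 2 * (1 + z) * (1 - z)) * q_cube hq
  · rw [G_eval n _ (qq * xx z) ((tt2 z : ℝ) : ℂ), HH_cast]
    have f : 1 + qq * xx z + (qq * xx z) ^ 2 = (1 - qq ^ 2 * xx z) * (1 - xx z) := by
      linear_combination (xx z) * hq
    rw [f, e0, e1, e2]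
    unfold tt2
    push_cast
    field_simp
    linear_combination (-L ^ 2 * qq) * q_cube hq
  · rw [G_eval n _ (qq ^ 2 * xx z) ((tt1 z : ℝ) : ℂ), HH_cast]
    have f : 1 + qq ^ 2 * xx z + (qq ^ 2 * xx z) ^ 2 = (1 - xx z) * (1 - qq * xx z) := by
      linear_combination (xx z + qq * (qq - 1) * xx z ^ 2) * hq
    rw [f, e0, e1, e2]
    unfold tt1
    push_cast
    field_simp

end FunEq

open FunEq in
theorem funeq_moments (n : ℕ) (hn : 1 ≤ n) (P : ℕ → ℝ) (hP0 : P 0 = 0) (hPn : P n ≠ 0)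
    (hsum : ∑ s ∈ Finset.range (n + 1), P s = 1)
    (Z : Set ℝ) (hZ : Z.Infinite) (hZ0 : ∀ z ∈ Z, z ≠ 0 ∧ z ≠ 1 ∧ z ≠ -1)
    (hfe : ∀ z ∈ Z, HH n P (tt0 z) * HH n P (tt1 z) + HH n P (tt1 z) * HH n P (tt2 z)
      + HH n P (tt0 z) * HH n P (tt2 z) = 3) :
    (∑ s ∈ Finset.range (n + 1), P s * (s : ℝ) ^ 3)
        + (∑ s ∈ Finset.range (n + 1), P s * (s : ℝ) ^ 2) = 2 * (n : ℝ) ^ 2 ∧
    (∑ s ∈ Finset.range (n + 1), P s * (s : ℝ)) *
      (3 * (∑ s ∈ Finset.range (n + 1), P s * (s : ℝ) ^ 2)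
        + (∑ s ∈ Finset.range (n + 1), P s * (s : ℝ))) = 4 * (n : ℝ) ^ 2 := by
  obtain ⟨k, hk⟩ : ∃ k, 2 * n = k + 1 := ⟨2 * n - 1, by omega⟩
  have hkc : (k : ℂ) + 1 = 2 * n := by exact_mod_cast hk.symm
  set Pc : ℕ → ℂ := fun s => (P s : ℂ) with hPc
  have hq := qq_eq
  have hdeg : (G n Pc).natDegree ≤ k + 1 := by rw [← hk]; exact G_natDegree n Pc
  have hG1 : (G n Pc).eval 1 ≠ 0 := by
    rw [G_eval_one]
    refine mul_ne_zero ?_ (pow_ne_zero _ (by norm_num))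
    simpa [hPc] using hPn
  have hGq : (G n Pc).eval qq = 0 := G_eval_q n Pc (by simp [hPc, hP0]) qq hq
  have hE : G n Pc * rot qq (G n Pc) * B (qq ^ 2) ^ (k + 1)
      + rot qq (G n Pc) * rot (qq ^ 2) (G n Pc) * B 1 ^ (k + 1)
      + G n Pc * rot (qq ^ 2) (G n Pc) * B qq ^ (k + 1)
      = 3 * (B 1 * B qq * B (qq ^ 2)) ^ (k + 1) := by
    apply Polynomial.eq_of_infinite_eval_eq
    refine (hZ.image (xx_inj.injOn)).mono ?_
    rintro _ ⟨z, hz, rfl⟩
    obtain ⟨h0, h1, h2⟩ := hZ0 z hz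
    obtain ⟨e0, e1, e2⟩ := eval_point n P z h0 h1 h2
    have hf : ((HH n P (tt0 z) : ℝ) : ℂ) * (HH n P (tt1 z) : ℝ)
        + ((HH n P (tt1 z) : ℝ) : ℂ) * (HH n P (tt2 z) : ℝ)
        + ((HH n P (tt0 z) : ℝ) : ℂ) * (HH n P (tt2 z) : ℝ) = 3 := by
      exact_mod_cast hfe z hz
    have e3 : Polynomial.eval (xx z) (3 : Polynomial ℂ) = 3 := by simp
    simp only [Set.mem_ofPred_eq, Polynomial.eval_add, Polynomial.eval_mul, Polynomial.eval_pow,
      rot_eval, B_eval, one_mul, e3]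
    rw [e0, e1, e2, hk, mul_pow, mul_pow]
    linear_combination (((1 - xx z) ^ (k + 1) * (1 - qq * xx z) ^ (k + 1)
      * (1 - qq ^ 2 * xx z) ^ (k + 1))) * hf
  have hg : ((G n Pc : Polynomial ℂ) : PowerSeries ℂ)
      = ((B 1 : Polynomial ℂ) : PowerSeries ℂ) ^ (k + 1) * hser n Pc := by
    rw [← hk]; exact G_series n Pc
  obtain ⟨c0, c1, c2, c3⟩ := hser_coeff n Pc
  have h0 : PowerSeries.coeff 0 (hser n Pc) = 1 := by
    rw [c0]; simp only [hPc]; exact_mod_cast hsum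
  obtain ⟨r1, r2⟩ := main_coeff k qq hq (G n Pc) hdeg hG1 hGq hE (hser n Pc) hg h0
  rw [c1, c2, hkc] at r1
  rw [c1, c2, c3] at r2
  have s1 : ∑ s ∈ Finset.range (n + 1), Pc s * s
      = ((∑ s ∈ Finset.range (n + 1), P s * (s : ℝ) : ℝ) : ℂ) := by push_cast; rfl
  have s2 : ∑ s ∈ Finset.range (n + 1), Pc s * s ^ 2
      = ((∑ s ∈ Finset.range (n + 1), P s * (s : ℝ) ^ 2 : ℝ) : ℂ) := by push_cast; rfl
  have s3 : ∑ s ∈ Finset.range (n + 1), Pc s * s ^ 3
      = ((∑ s ∈ Finset.range (n + 1), P s * (s : ℝ) ^ 3 : ℝ) : ℂ) := by push_cast; rfl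
  rw [s1, s2] at r1 r2
  rw [s3] at r2
  generalize (∑ s ∈ Finset.range (n + 1), P s * (s : ℝ)) = m1 at *
  generalize (∑ s ∈ Finset.range (n + 1), P s * (s : ℝ) ^ 2) = m2 at *
  generalize (∑ s ∈ Finset.range (n + 1), P s * (s : ℝ) ^ 3) = m3 at *
  have t1 : 3 * m1 * (3 / 2 * m1 + 9 / 2 * m2) = 9 / 2 * (2 * (n : ℝ)) ^ 2 := by
    apply Complex.ofReal_injective
    push_cast
    linear_combination r1
  have t2 : 2 * (9 / 2 * (m2 + m3)) = 3 * m1 * (3 / 2 * m1 + 9 / 2 * m2) := by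
    apply Complex.ofReal_injective
    push_cast
    linear_combination r2
  constructor
  · linear_combination (1 / 9) * t2 + (1 / 9) * t1
  · linear_combination (2 / 9) * t1

end Pool.Agent.H65.Perc
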