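import Mathlib

/-!
JOB T3 (helper65, MP_fe58d8_pr): stationary functional of a Doeblin Markov operator and first-order
perturbation of a commuting family.
-/

open Filter Topology

namespace Pool.Agent.H65.Perc

variable {X : Type*} [Fintype X]

/-- `S` is a Markov operator on `X → ℝ` (acting on functions) with a Doeblin minorization at `x0` -/
structure Doeblin (S : (X → ℝ) →ₗ[ℝ] (X → ℝ)) (x0 : X) (c : ℝ) : Prop where
  one : S (fun _ => 1) = fun _ => 1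
  pos : ∀ f : X → ℝ, (∀ x, 0 ≤ f x) → ∀ x, 0 ≤ S f x
  cpos : 0 < c
  minor : ∀ f : X → ℝ, (∀ x, 0 ≤ f x) → ∀ x, c * f x0 ≤ S f x

omit [Fintype X] in
theorem Doeblin.const {S : (X → ℝ) →ₗ[ℝ] (X → ℝ)} {x0 : X} {c : ℝ} (hS : Doeblin S x0 c)
    (a : ℝ) : S (fun _ => a) = fun _ => a := by
  have h : (fun _ : X => a) = a • (fun _ : X => (1 : ℝ)) := by
    funext x; simp
  rw [h, map_smul, hS.one]

omit [Fintype X] in
theorem Doeblin.le_one {S : (X → ℝ) →ₗ[ℝ] (X → ℝ)} {x0 : X} {c : ℝ} (hS : Doeblin S x0 c) :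
    c ≤ 1 := by
  have h := hS.minor (fun _ => 1) (fun _ => zero_le_one) x0
  rw [hS.one] at h
  simpa using h

theorem Doeblin.lower {S : (X → ℝ) →ₗ[ℝ] (X → ℝ)} {x0 : X} {c : ℝ} (hS : Doeblin S x0 c)
    {f : X → ℝ} {m : ℝ} (hf : ∀ x, m ≤ f x) (x : X) : m + c * (f x0 - m) ≤ S f x := by
  have h := hS.minor (f - fun _ => m) (fun y => by simpa using hf y) x
  rw [map_sub, hS.const] at h
  simp only [Pi.sub_apply] at h
  linarith

theorem Doeblin.upper {S : (X → ℝ) →ₗ[ℝ] (X → ℝ)} {x0 : X} {c : ℝ} (hS : Doeblin S x0 c)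
    {f : X → ℝ} {m : ℝ} (hf : ∀ x, f x ≤ m) (x : X) : S f x ≤ m - c * (m - f x0) := by
  have h := hS.minor ((fun _ => m) - f) (fun y => by simpa using hf y) x
  rw [map_sub, hS.const] at h
  simp only [Pi.sub_apply] at h
  linarith

/-- the pair of bounds for the iterates -/
noncomputable def bds (S : (X → ℝ) →ₗ[ℝ] (X → ℝ)) (x0 : X) (c : ℝ) (f : X → ℝ) (a b : ℝ) :
    ℕ → ℝ × ℝ
  | 0 => (a, b)
  | k + 1 => ((bds S x0 c f a b k).1 + c * ((S ^ k) f x0 - (bds S x0 c f a b k).1),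
      (bds S x0 c f a b k).2 - c * ((bds S x0 c f a b k).2 - (S ^ k) f x0))

theorem bds_spec {S : (X → ℝ) →ₗ[ℝ] (X → ℝ)} {x0 : X} {c : ℝ} (hS : Doeblin S x0 c)
    {f : X → ℝ} {a b : ℝ} (ha : ∀ x, a ≤ f x) (hb : ∀ x, f x ≤ b) (k : ℕ) :
    (∀ x, (bds S x0 c f a b k).1 ≤ (S ^ k) f x) ∧ (∀ x, (S ^ k) f x ≤ (bds S x0 c f a b k).2) ∧
      (bds S x0 c f a b k).2 - (bds S x0 c f a b k).1 = (1 - c) ^ k * (b - a) := by
  induction k with
  | zero => exact ⟨by simpa [bds] using ha, by simpa [bds] using hb, by simp [bds]⟩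
  | succ k ih =>
    obtain ⟨h1, h2, h3⟩ := ih
    have hp : (S ^ (k + 1)) f = S ((S ^ k) f) := by
      rw [pow_succ']; rfl
    refine ⟨fun x => ?_, fun x => ?_, ?_⟩
    · rw [hp]
      exact hS.lower h1 x
    · rw [hp]
      exact hS.upper h2 x
    · simp only [bds]
      rw [pow_succ, mul_right_comm, ← h3]
      ring

theorem exists_lim {S : (X → ℝ) →ₗ[ℝ] (X → ℝ)} {x0 : X} {c : ℝ} (hS : Doeblin S x0 c)
    (f : X → ℝ) : ∃ L : ℝ, ∀ x, Tendsto (fun M : ℕ => (S ^ M) f x) atTop (𝓝 L) := by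
  obtain ⟨a, ha⟩ : ∃ a, ∀ x, a ≤ f x := by
    obtain ⟨a, ha⟩ := (Set.finite_range f).bddBelow
    exact ⟨a, fun x => ha ⟨x, rfl⟩⟩
  obtain ⟨b, hb⟩ : ∃ b, ∀ x, f x ≤ b := by
    obtain ⟨b, hb⟩ := (Set.finite_range f).bddAbove
    exact ⟨b, fun x => hb ⟨x, rfl⟩⟩
  have hsp := fun k => bds_spec hS ha hb k
  have hc0 := hS.cpos
  have hc1 := hS.le_one
  have hmono : Monotone (fun k => (bds S x0 c f a b k).1) := by
    refine monotone_nat_of_le_succ fun k => ?_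
    have h1 := (hsp k).1 x0
    simp only [bds]
    nlinarith
  have hanti : Antitone (fun k => (bds S x0 c f a b k).2) := by
    refine antitone_nat_of_succ_le fun k => ?_
    have h1 := (hsp k).2.1 x0
    simp only [bds]
    nlinarith
  have hbd : BddAbove (Set.range (fun k => (bds S x0 c f a b k).1)) := by
    refine ⟨b, ?_⟩
    rintro _ ⟨k, rfl⟩
    have h1 := ((hsp k).1 x0).trans ((hsp k).2.1 x0)
    have h2 : (bds S x0 c f a b k).2 ≤ (bds S x0 c f a b 0).2 := hanti (Nat.zero_le k)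
    exact h1.trans h2
  have hlim := tendsto_atTop_ciSup hmono hbd
  set L := ⨆ k, (bds S x0 c f a b k).1 with hL
  have hpow : Tendsto (fun k : ℕ => (1 - c) ^ k * (b - a)) atTop (𝓝 0) := by
    have := (tendsto_pow_atTop_nhds_zero_of_lt_one (r := 1 - c) (by linarith) (by linarith)).mul_const
      (b - a)
    simpa using this
  have hlim2 : Tendsto (fun k => (bds S x0 c f a b k).2) atTop (𝓝 L) := by
    have h := hlim.add hpow
    rw [add_zero] at h
    refine h.congr fun k => ?_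
    have := (hsp k).2.2
    linarith
  exact ⟨L, fun x => tendsto_of_tendsto_of_tendsto_of_le_of_le hlim hlim2
    (fun k => (hsp k).1 x) (fun k => (hsp k).2.1 x)⟩

/-- existence of the stationary functional as the limit of the powers -/
theorem exists_stationary {S : (X → ℝ) →ₗ[ℝ] (X → ℝ)} {x0 : X} {c : ℝ} (hS : Doeblin S x0 c) :
    ∃ Ψ : (X → ℝ) →ₗ[ℝ] ℝ,
      (∀ f : X → ℝ, ∀ x, Tendsto (fun M : ℕ => (S ^ M) f x) atTop (𝓝 (Ψ f))) ∧
      (∀ f : X → ℝ, (∀ x, 0 ≤ f x) → 0 ≤ Ψ f) ∧ Ψ (fun _ => 1) = 1 ∧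
      (∀ f, Ψ (S f) = Ψ f) ∧ (∀ f : X → ℝ, (∀ x, 0 ≤ f x) → c * f x0 ≤ Ψ f) := by
  choose L hL using exists_lim hS
  have hpow : ∀ (k : ℕ) (f : X → ℝ), (S ^ (k + 1)) f = S ((S ^ k) f) := by
    intro k f
    rw [pow_succ']; rfl
  have hpow' : ∀ (k : ℕ) (f : X → ℝ), (S ^ (k + 1)) f = (S ^ k) (S f) := by
    intro k f
    rw [pow_succ]; rfl
  have hpp : ∀ (k : ℕ) (f : X → ℝ), (∀ x, 0 ≤ f x) → ∀ x, 0 ≤ (S ^ k) f x := by
    intro k
    induction k with
    | zero => intro f hf x; simpa using hf x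
    | succ k ih =>
      intro f hf x
      rw [hpow]
      exact hS.pos _ (ih f hf) x
  refine ⟨{ toFun := L, map_add' := ?_, map_smul' := ?_ }, ?_, ?_, ?_, ?_, ?_⟩
  · intro f g
    refine tendsto_nhds_unique (hL (f + g) x0) ?_
    refine ((hL f x0).add (hL g x0)).congr fun k => ?_
    rw [map_add]; rfl
  · intro r f
    refine tendsto_nhds_unique (hL (r • f) x0) ?_
    refine ((hL f x0).const_mul r).congr fun k => ?_
    rw [map_smul]; rfl
  · exact fun f x => hL f x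
  · intro f hf
    exact ge_of_tendsto' (hL f x0) (fun k => hpp k f hf x0)
  · refine tendsto_nhds_unique (hL _ x0) ?_
    have h1 : ∀ k : ℕ, (S ^ k) (fun _ : X => (1 : ℝ)) = fun _ => 1 := by
      intro k
      induction k with
      | zero => rfl
      | succ k ih => rw [hpow, ih, hS.one]
    simp only [h1]
    exact tendsto_const_nhds
  · intro f
    refine tendsto_nhds_unique (hL (S f) x0) ?_
    have h := (tendsto_add_atTop_iff_nat 1).2 (hL f x0)
    refine h.congr fun k => ?_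
    rw [hpow']
  · intro f hf
    have h1 : ∀ k : ℕ, ∀ x, c * f x0 ≤ (S ^ (k + 1)) f x := by
      intro k
      induction k with
      | zero => intro x; simpa using hS.minor f hf x
      | succ k ih =>
        intro x
        rw [hpow]
        have hlow := hS.lower ih x
        have h2 : 0 ≤ c * ((S ^ (k + 1)) f x0 - c * f x0) :=
          mul_nonneg hS.cpos.le (sub_nonneg.2 (ih x0))
        linarith
    have h := (tendsto_add_atTop_iff_nat 1).2 (hL f x0)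
    exact ge_of_tendsto' h (fun k => h1 k x0)

/-- an invariant functional is a multiple of the stationary one -/
theorem invariant_eq {S : (X → ℝ) →ₗ[ℝ] (X → ℝ)}
    (Ψ : (X → ℝ) →ₗ[ℝ] ℝ)
    (hΨ : ∀ f : X → ℝ, ∀ x, Tendsto (fun M : ℕ => (S ^ M) f x) atTop (𝓝 (Ψ f)))
    (v : (X → ℝ) →ₗ[ℝ] ℝ) (hv : ∀ f, v (S f) = v f) (f : X → ℝ) :
    v f = v (fun _ => 1) * Ψ f := by
  have hpow : ∀ (k : ℕ) (f : X → ℝ), (S ^ (k + 1)) f = S ((S ^ k) f) := by
    intro k f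
    rw [pow_succ']; rfl
  have hvk : ∀ k : ℕ, v ((S ^ k) f) = v f := by
    intro k
    induction k with
    | zero => rfl
    | succ k ih => rw [hpow, hv, ih]
  have hcont : Continuous v := v.continuous_of_finiteDimensional
  have h1 : Tendsto (fun k : ℕ => (S ^ k) f) atTop (𝓝 (fun _ => Ψ f)) :=
    tendsto_pi_nhds.2 (fun x => hΨ f x)
  have h2 : Tendsto (fun k : ℕ => v ((S ^ k) f)) atTop (𝓝 (v (fun _ => Ψ f))) :=
    (hcont.tendsto _).comp h1
  simp only [hvk] at h2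
  have h3 := tendsto_nhds_unique tendsto_const_nhds h2
  rw [h3]
  have h4 : (fun _ : X => Ψ f) = (Ψ f) • (fun _ : X => (1 : ℝ)) := by
    funext x; simp
  rw [h4, map_smul, smul_eq_mul, mul_comm]

/-- `e_2` of the first-order eigenvalues is `3` -/
theorem perturb_e2 {S : (X → ℝ) →ₗ[ℝ] (X → ℝ)} {x0 : X} {c : ℝ} (hS : Doeblin S x0 c)
    (Ψ : (X → ℝ) →ₗ[ℝ] ℝ)
    (hΨ : ∀ f : X → ℝ, ∀ x, Tendsto (fun M : ℕ => (S ^ M) f x) atTop (𝓝 (Ψ f)))
    (N : (X → ℝ) →ₗ[ℝ] (X → ℝ)) (Si Ni : Fin 3 → ((X → ℝ) →ₗ[ℝ] (X → ℝ)))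
    (hSi1 : ∀ i, Si i (fun _ => 1) = fun _ => 1)
    (hcomm : ∀ i, S ∘ₗ Si i = Si i ∘ₗ S)
    (hcomm1 : ∀ i, S ∘ₗ Ni i + N ∘ₗ Si i = Si i ∘ₗ N + Ni i ∘ₗ S)
    (hstar1 : Si 0 (Ni 1 (fun _ => 1)) + Si 0 (Si 1 (Ni 2 (fun _ => 1)))
      = Ni 1 (fun _ => 1) + Ni 2 (fun _ => 1))
    (hstar2 : Ni 0 (Ni 1 (fun _ => 1)) + Ni 0 (Si 1 (Ni 2 (fun _ => 1)))
      + Si 0 (Ni 1 (Ni 2 (fun _ => 1))) = fun _ => 3) :
    (∀ i f, Ψ (Si i f) = Ψ f) ∧
    Ψ (Ni 0 (fun _ => 1)) * Ψ (Ni 1 (fun _ => 1)) + Ψ (Ni 1 (fun _ => 1)) * Ψ (Ni 2 (fun _ => 1))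
      + Ψ (Ni 0 (fun _ => 1)) * Ψ (Ni 2 (fun _ => 1)) = 3 := by
  have hpow : ∀ (k : ℕ) (f : X → ℝ), (S ^ (k + 1)) f = S ((S ^ k) f) := by
    intro k f
    rw [pow_succ']; rfl
  have hpow' : ∀ (k : ℕ) (f : X → ℝ), (S ^ (k + 1)) f = (S ^ k) (S f) := by
    intro k f
    rw [pow_succ]; rfl
  have hone : Ψ (fun _ => 1) = 1 := by
    refine tendsto_nhds_unique (hΨ _ x0) ?_
    have h1 : ∀ k : ℕ, (S ^ k) (fun _ : X => (1 : ℝ)) = fun _ => 1 := by
      intro k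
      induction k with
      | zero => rfl
      | succ k ih => rw [hpow, ih, hS.one]
    simp only [h1]
    exact tendsto_const_nhds
  have hinv : ∀ f, Ψ (S f) = Ψ f := by
    intro f
    refine tendsto_nhds_unique (hΨ (S f) x0) ?_
    have h := (tendsto_add_atTop_iff_nat 1).2 (hΨ f x0)
    refine h.congr fun k => ?_
    rw [hpow']
  have hc : ∀ i f, S (Si i f) = Si i (S f) := fun i f => by
    have := congrArg (fun T : (X → ℝ) →ₗ[ℝ] (X → ℝ) => T f) (hcomm i)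
    simpa using this
  have hc1 : ∀ i f, S (Ni i f) + N (Si i f) = Si i (N f) + Ni i (S f) := fun i f => by
    have := congrArg (fun T : (X → ℝ) →ₗ[ℝ] (X → ℝ) => T f) (hcomm1 i)
    simpa using this
  have hA : ∀ i f, Ψ (Si i f) = Ψ f := by
    intro i f
    have h := invariant_eq Ψ hΨ (Ψ ∘ₗ Si i) (fun g => by
      simp only [LinearMap.comp_apply]
      rw [← hc, hinv]) f
    simp only [LinearMap.comp_apply] at h
    rw [h, hSi1, hone, one_mul]
  refine ⟨hA, ?_⟩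
  -- the first-order functional
  set φ : (X → ℝ) →ₗ[ℝ] ℝ := Ψ ∘ₗ N - (Ψ (N (fun _ => 1))) • Ψ with hφ
  have hφa : ∀ f, φ f = Ψ (N f) - Ψ (N (fun _ => 1)) * Ψ f := fun f => by
    simp [hφ]
  have hφmem : φ ∈ (LinearMap.ker (LinearMap.id - S)).dualAnnihilator := by
    rw [Submodule.mem_dualAnnihilator]
    intro f hf
    rw [LinearMap.mem_ker, LinearMap.sub_apply, LinearMap.id_apply, sub_eq_zero] at hf
    have hk : ∀ k : ℕ, (S ^ k) f = f := by
      intro k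
      induction k with
      | zero => rfl
      | succ k ih => rw [hpow, ih, ← hf]
    have hfc : f = (Ψ f) • (fun _ : X => (1 : ℝ)) := by
      funext x
      have h := hΨ f x
      simp only [hk] at h
      have := tendsto_nhds_unique tendsto_const_nhds h
      simpa using this
    have h1 : φ (fun _ => 1) = 0 := by
      rw [hφa, hone, mul_one, sub_self]
    rw [hfc, map_smul, h1, smul_zero]
  rw [← LinearMap.range_dualMap_eq_dualAnnihilator_ker] at hφmem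
  obtain ⟨Ψ1, hΨ1⟩ := hφmem
  have hΨ1a : ∀ f, Ψ1 f - Ψ1 (S f) = Ψ (N f) - Ψ (N (fun _ => 1)) * Ψ f := by
    intro f
    rw [← hφa, ← hΨ1, LinearMap.dualMap_apply, LinearMap.sub_apply, LinearMap.id_apply, map_sub]
  have hclaim : ∀ i f, Ψ (Ni i f) = Ψ1 f - Ψ1 (Si i f) + Ψ (Ni i (fun _ => 1)) * Ψ f := by
    intro i f
    have h := invariant_eq Ψ hΨ (Ψ1 - Ψ1 ∘ₗ Si i - Ψ ∘ₗ Ni i) (fun g => by
      simp only [LinearMap.sub_apply, LinearMap.comp_apply]
      have e1 := hΨ1a g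
      have e2 := hΨ1a (Si i g)
      rw [hc, hA] at e2
      have e3 := congrArg Ψ (hc1 i g)
      rw [map_add, map_add, hinv, hA] at e3
      linarith) f
    simp only [LinearMap.sub_apply, LinearMap.comp_apply, hSi1] at h
    linarith
  have e1 := congrArg Ψ hstar2
  rw [map_add, map_add, hA] at e1
  have e2 := congrArg Ψ1 hstar1
  rw [map_add, map_add] at e2
  have e3 : Ψ (fun _ : X => (3 : ℝ)) = 3 := by
    have h4 : (fun _ : X => (3 : ℝ)) = (3 : ℝ) • (fun _ : X => (1 : ℝ)) := by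
      funext x; simp
    rw [h4, map_smul, hone, smul_eq_mul, mul_one]
  rw [e3] at e1
  have c1 := hclaim 0 (Ni 1 (fun _ => 1))
  have c2 := hclaim 0 (Si 1 (Ni 2 (fun _ => 1)))
  have c3 := hclaim 1 (Ni 2 (fun _ => 1))
  rw [hA] at c2
  linarith

end Pool.Agent.H65.Perc
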