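import Mathlib
import Pool.Agent.H65.Perc.Model

/-! JOB J2 (MP_fe58d8_pr): the alternating row resets the state; expansion of the row operator. -/

namespace Pool.Agent.H65.Perc

open St

section General

variable {Λ : Type*} [DecidableEq Λ]

theorem crossing_idle {b : Bool} {u y x' y' : Λ} {s : St Λ} (huy : u ≠ y) (hux' : u ≠ x')
    (huy' : u ≠ y') (hyx' : y ≠ x') (hyy' : y ≠ y') (h1 : s.p x' = y') (h2 : s.g x' = 0) :
    (crossing b u y s).p x' = y' ∧ (crossing b u y s).g x' = 0 := by
  have := s.inv; have := s.ne; have := s.gs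
  unfold crossing
  cases b
  · simp only [Bool.false_eq_true, if_false, join_p huy, join_g huy]
    grind
  · simp only [if_true, swap_p, swap_g, Equiv.swap_apply_def]
    grind

theorem opR_one_half (u y : Λ) (f : St Λ → ℝ) (s : St Λ) :
    (opR 1 (1/2) u y f) s = (1/2) * ∑ b : Bool, f (crossing b u y s) := by
  simp only [opR, LinearMap.add_apply, LinearMap.smul_apply, Pi.add_apply, Pi.smul_apply,
    opP_apply, opE_apply, wt, ite_self, one_mul, smul_eq_mul, Fintype.sum_bool, crossing,
    if_true, Bool.false_eq_true, if_false]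
  ring

theorem opK_one_half (y : Λ) : ∀ (L : ℕ) (σ : Fin L → Λ) (f : St Λ → ℝ) (s : St Λ),
    (opK 1 (1/2) ((List.finRange L).map σ) y f) s
      = (1/2) ^ L * ∑ row : Fin L → Bool,
        f ((List.finRange L).foldl (fun s i => crossing (row i) (σ i) y s) s)
  | 0, σ, f, s => by simp [opK_nil]
  | L + 1, σ, f, s => by
    rw [List.finRange_succ, List.map_cons, List.map_map, opK_cons, Module.End.mul_apply,
      opR_one_half]
    simp only [opK_one_half y L (σ ∘ Fin.succ) f]
    rw [← (Fin.consEquiv (fun _ : Fin (L+1) => Bool)).sum_comp, Fintype.sum_prod_type,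
      ← Finset.mul_sum]
    simp only [Fin.consEquiv_apply, List.foldl_cons, List.foldl_map, Fin.cons_zero, Fin.cons_succ,
      Function.comp_apply]
    ring

end General

section Reset

variable {n : ℕ}

/-- the invariant after `j` crossings of the alternating row -/
def Inv (n j : ℕ) (s : St (Lab (2 * n))) : Prop :=
  (∀ i i' : Fin (2 * n), i.val < 2 * (j / 2) →
    i'.val = (if i.val % 2 = 0 then i.val + 1 else i.val - 1) →
      s.p (Sum.inl i) = Sum.inl i' ∧ s.g (Sum.inl i) = 0) ∧
  (j % 2 = 1 → ∀ i : Fin (2 * n), i.val = j - 1 → s.p (Sum.inl i) = ly 0 ∧ s.g (Sum.inl i) = 0) ∧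
  (∀ k : Fin 3, k ≠ 0 → s.p (lx k) = ly k ∧ s.g (lx k) = 0)

theorem inv_step {j : ℕ} (hj : j < 2 * n) {s : St (Lab (2 * n))} (h : Inv n j s) :
    Inv n (j + 1) (crossing (decide (j % 2 = 1)) (Sum.inl ⟨j, hj⟩) (ly 0) s) := by
  obtain ⟨h1, h2, h3⟩ := h
  have inv := s.inv; have ne := s.ne; have gs := s.gs
  have hne : (Sum.inl ⟨j, hj⟩ : Lab (2 * n)) ≠ ly 0 := by simp [ly]
  refine ⟨?_, ?_, ?_⟩
  · intro i i' hi hi'
    rcases Nat.mod_two_eq_zero_or_one j with hj0 | hj1
    · -- join
      have hlt : i.val < 2 * (j / 2) := by omega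
      have hlt' : i'.val < 2 * (j / 2) := by split_ifs at hi' <;> omega
      obtain ⟨e1, e2⟩ := h1 i i' hlt hi'
      have e3 : s.p (Sum.inl i') = Sum.inl i := by rw [← e1, inv]
      have n1 : (Sum.inl i : Lab (2 * n)) ≠ Sum.inl ⟨j, hj⟩ := by
        simp only [ne_eq, Sum.inl.injEq, Fin.ext_iff]; omega
      have n2 : (Sum.inl i' : Lab (2 * n)) ≠ Sum.inl ⟨j, hj⟩ := by
        simp only [ne_eq, Sum.inl.injEq, Fin.ext_iff]; omega
      have n3 : (Sum.inl i : Lab (2 * n)) ≠ ly 0 := by simp [ly]
      have n4 : (Sum.inl i' : Lab (2 * n)) ≠ ly 0 := by simp [ly]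
      have n5 : (Sum.inl i : Lab (2 * n)) ≠ s.p (Sum.inl ⟨j, hj⟩) := by
        intro hh; apply n2; rw [← e1, hh, inv]
      have n6 : (Sum.inl i : Lab (2 * n)) ≠ s.p (ly 0) := by
        intro hh; apply n4; rw [← e1, hh, inv]
      simp only [hj0, crossing, zero_ne_one, decide_false, Bool.false_eq_true, if_false,
        join_p hne, join_g hne, n1, n3, n5, n6, or_self, e1, e2, and_self]
    · -- swap
      by_cases hlt : i.val < 2 * (j / 2)
      · have hlt' : i'.val < 2 * (j / 2) := by split_ifs at hi' <;> omega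
        obtain ⟨e1, e2⟩ := h1 i i' hlt hi'
        have n1 : (Sum.inl i : Lab (2 * n)) ≠ Sum.inl ⟨j, hj⟩ := by
          simp only [ne_eq, Sum.inl.injEq, Fin.ext_iff]; omega
        have n2 : (Sum.inl i' : Lab (2 * n)) ≠ Sum.inl ⟨j, hj⟩ := by
          simp only [ne_eq, Sum.inl.injEq, Fin.ext_iff]; omega
        have n3 : (Sum.inl i : Lab (2 * n)) ≠ ly 0 := by simp [ly]
        have n4 : (Sum.inl i' : Lab (2 * n)) ≠ ly 0 := by simp [ly]
        simp only [hj1, crossing, decide_true, if_true, swap_p, swap_g,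
          Equiv.swap_apply_of_ne_of_ne n1 n3, e1, Equiv.swap_apply_of_ne_of_ne n2 n4, e2, and_self]
      · -- new pair (j - 1, j)
        have hjm : j - 1 < 2 * n := by omega
        obtain ⟨e1, e2⟩ := h2 hj1 ⟨j - 1, hjm⟩ rfl
        have e3 : s.p (ly 0) = Sum.inl ⟨j - 1, hjm⟩ := by rw [← e1, inv]
        have e4 : s.g (ly 0) = 0 := by rw [← e1, gs, e2, neg_zero]
        have n1 : (Sum.inl ⟨j - 1, hjm⟩ : Lab (2 * n)) ≠ Sum.inl ⟨j, hj⟩ := by
          simp only [ne_eq, Sum.inl.injEq, Fin.ext_iff]; omega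
        have n3 : (Sum.inl ⟨j - 1, hjm⟩ : Lab (2 * n)) ≠ ly 0 := by simp [ly]
        rcases Nat.mod_two_eq_zero_or_one i.val with hi0 | hi1
        · -- i = j - 1
          have hij : i = ⟨j - 1, hjm⟩ := Fin.ext (by simp only; omega)
          have hij' : i' = ⟨j, hj⟩ := Fin.ext (by
            rw [if_pos hi0] at hi'; simp only; omega)
          subst hij hij'
          simp only [hj1, crossing, decide_true, if_true, swap_p, swap_g,
            Equiv.swap_apply_of_ne_of_ne n1 n3, e1, e2, Equiv.swap_apply_right, and_self]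
        · have hij : i = ⟨j, hj⟩ := Fin.ext (by simp only; omega)
          have hij' : i' = ⟨j - 1, hjm⟩ := Fin.ext (by
            rw [if_neg (by omega)] at hi'; simp only; omega)
          subst hij hij'
          simp only [hj1, crossing, decide_true, if_true, swap_p, swap_g,
            Equiv.swap_apply_left, e3, e4, Equiv.swap_apply_of_ne_of_ne n1 n3, and_self]
  · intro hodd i hi
    have hj0 : j % 2 = 0 := by omega
    have hij : i = ⟨j, hj⟩ := Fin.ext (by simp only; omega)
    subst hij
    simp only [hj0, crossing, zero_ne_one, decide_false, Bool.false_eq_true, if_false,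
        join_p hne, join_g hne, if_true, true_or, and_self]
  · intro k hk
    obtain ⟨e1, e2⟩ := h3 k hk
    refine crossing_idle hne ?_ ?_ ?_ ?_ e1 e2
    · simp [lx]
    · simp [ly]
    · simp [lx, ly]
    · simp only [ly, ne_eq, Sum.inr.injEq, Prod.mk.injEq, and_true]; exact fun h => hk h.symm

theorem inv_take (n : ℕ) {s : St (Lab (2 * n))} (h3 : ∀ k : Fin 3, k ≠ 0 → s.p (lx k) = ly k ∧ s.g (lx k) = 0) :
    ∀ j ≤ 2 * n, Inv n j (((List.finRange (2 * n)).take j).foldl
      (fun s i => crossing (decide (i.val % 2 = 1)) (Sum.inl i) (ly 0) s) s)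
  | 0, _ => by
    refine ⟨fun i i' hi => by omega, fun h => by omega, h3⟩
  | j + 1, hj => by
    have hlen : j < (List.finRange (2 * n)).length := by simp; omega
    rw [List.take_succ_eq_append_getElem hlen, List.foldl_append, List.foldl_cons, List.foldl_nil,
      List.getElem_finRange]
    exact inv_step (by omega) (inv_take n h3 j (by omega))

end Reset

/-- `row i = (i odd)` produces `pi0` from any idle state -/
theorem exists_reset (n : ℕ) : ∃ row : Fin (2 * n) → Bool, ∀ s : St (Lab (2 * n)), AllIdle s →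
    rowMap 0 row s = pi0 n := by
  refine ⟨fun i => decide (i.val % 2 = 1), fun s hs => ?_⟩
  have hinv := inv_take n (s := s) (fun k _ => hs k) (2 * n) le_rfl
  rw [List.take_of_length_le (by simp)] at hinv
  unfold rowMap sweep
  set s' := (List.finRange (2 * n)).foldl
      (fun s i => crossing (decide (i.val % 2 = 1)) (Sum.inl i) (ly 0) s) s with hs'
  obtain ⟨h1, -, h3⟩ := hinv
  have inv := s'.inv; have ne := s'.ne; have gs := s'.gs
  have hxy : (lx 0 : Lab (2 * n)) ≠ ly 0 := by simp [lx, ly]
  have key1 : ∀ i : Fin (2 * n), s'.p (Sum.inl i) = (pi0 n).p (Sum.inl i) ∧ s'.g (Sum.inl i) = 0 := by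
    intro i
    refine h1 i _ (by have := i.isLt; omega) rfl
  have key2 : ∀ k : Fin 3, k ≠ 0 → s'.p (ly k) = lx k ∧ s'.g (ly k) = 0 := by
    intro k hk
    obtain ⟨e1, e2⟩ := h3 k hk
    refine ⟨by rw [← e1, inv], by rw [← e1, gs, e2, neg_zero]⟩
  unfold closeLine
  have main : ∀ w : Lab (2 * n), (join (lx 0) (ly 0) (twist (lx 0) 1 s')).p w = (pi0 n).p w ∧
      (join (lx 0) (ly 0) (twist (lx 0) 1 s')).g w = 0 := by
    intro w
    rcases w with i | ⟨k, b⟩
    · obtain ⟨e1, e2⟩ := key1 i
      have n1 : (Sum.inl i : Lab (2 * n)) ≠ lx 0 := by simp [lx]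
      have n2 : (Sum.inl i : Lab (2 * n)) ≠ ly 0 := by simp [ly]
      have hpi : ∀ v : Fin 3 × Bool, (pi0 n).p (Sum.inl i) ≠ Sum.inr v := by
        intro v; simp [pi0]
      have n3 : (Sum.inl i : Lab (2 * n)) ≠ s'.p (lx 0) := by
        intro hh; have : s'.p (Sum.inl i) = lx 0 := by rw [hh, inv]
        rw [e1] at this; exact hpi _ this
      have n4 : (Sum.inl i : Lab (2 * n)) ≠ s'.p (ly 0) := by
        intro hh; have : s'.p (Sum.inl i) = ly 0 := by rw [hh, inv]
        rw [e1] at this; exact hpi _ this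
      simp only [join_p hxy, join_g hxy, twist_p, twist_g, n1, n2, n3, n4, if_false, or_self, e1, e2,
        and_self]
    · by_cases hk : k = 0
      · subst hk
        cases b
        · change (join (lx 0) (ly 0) (twist (lx 0) 1 s')).p (lx 0) = _ ∧
            (join (lx 0) (ly 0) (twist (lx 0) 1 s')).g (lx 0) = 0
          simp only [join_p hxy, join_g hxy, if_true, true_or, and_true]
          rfl
        · change (join (lx 0) (ly 0) (twist (lx 0) 1 s')).p (ly 0) = _ ∧
            (join (lx 0) (ly 0) (twist (lx 0) 1 s')).g (ly 0) = 0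
          simp only [join_p hxy, join_g hxy, if_true, or_true, and_true, hxy.symm, if_false]
          rfl
      · have hx : s'.p (lx k) = ly k ∧ s'.g (lx k) = 0 := h3 k hk
        have hy := key2 k hk
        have m1 : (lx k : Lab (2 * n)) ≠ lx 0 := by
          simp only [lx, ne_eq, Sum.inr.injEq, Prod.mk.injEq, and_true]; exact hk
        have m2 : (lx k : Lab (2 * n)) ≠ ly 0 := by simp [lx, ly]
        have m3 : (ly k : Lab (2 * n)) ≠ ly 0 := by
          simp only [ly, ne_eq, Sum.inr.injEq, Prod.mk.injEq, and_true]; exact hk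
        have m4 : (ly k : Lab (2 * n)) ≠ lx 0 := by simp [lx, ly]
        have m5 : (lx k : Lab (2 * n)) ≠ s'.p (lx 0) := by
          intro hh; apply m4; rw [← hx.1, hh, inv]
        have m6 : (lx k : Lab (2 * n)) ≠ s'.p (ly 0) := by
          intro hh; apply m3; rw [← hx.1, hh, inv]
        have m7 : (ly k : Lab (2 * n)) ≠ s'.p (lx 0) := by
          intro hh; apply m1; rw [← hy.1, hh, inv]
        have m8 : (ly k : Lab (2 * n)) ≠ s'.p (ly 0) := by
          intro hh; apply m2; rw [← hy.1, hh, inv]
        cases b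
        · change (join (lx 0) (ly 0) (twist (lx 0) 1 s')).p (lx k) = _ ∧
            (join (lx 0) (ly 0) (twist (lx 0) 1 s')).g (lx k) = 0
          simp only [join_p hxy, join_g hxy, twist_p, twist_g, m1, m2, m5, m6, if_false, or_self,
            hx.1, hx.2, and_true]
          rfl
        · change (join (lx 0) (ly 0) (twist (lx 0) 1 s')).p (ly k) = _ ∧
            (join (lx 0) (ly 0) (twist (lx 0) 1 s')).g (ly k) = 0
          simp only [join_p hxy, join_g hxy, twist_p, twist_g, m3, m4, m7, m8, if_false, or_self,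
            hy.1, hy.2, and_true]
          rfl
  ext w
  · exact (main w).1
  · rw [(main w).2]; rfl

variable {L : ℕ}

/-- at loop weight 1 and `a = 1/2` the row operator is the average over all rows -/
theorem opT_half (s : St (Lab L)) (hs : AllIdle s) (f : St (Lab L) → ℝ) :
    (opT 1 (1/2) (strands L) (lx 0) (ly 0) f) s
      = (1/2) ^ L * ∑ row : Fin L → Bool, f (rowMap 0 row s) := by
  have hxy : (lx 0 : Lab L) ≠ ly 0 := by simp [lx, ly]
  have hj : join (lx 0) (ly 0) s = s := by
    obtain ⟨h1, h2⟩ := hs 0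
    have inv := s.inv; have ne := s.ne; have gs := s.gs
    have h3 : s.p (ly 0) = lx 0 := by rw [← h1, inv]
    have h4 : s.g (ly 0) = 0 := by rw [← h1, gs, h2, neg_zero]
    ext z
    · simp only [join_p hxy]; grind
    · simp only [join_g hxy]; grind
  unfold opT strands
  rw [Module.End.mul_apply, Module.End.mul_apply, opE_apply, hj]
  rw [opK_one_half]
  simp only [wt, ite_self, one_mul]
  congr 1
  refine Finset.sum_congr rfl (fun row _ => ?_)
  rw [Module.End.mul_apply, opG_apply, opE_apply]
  simp only [wt, ite_self, one_mul]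
  rfl

theorem allIdle_rowMap (k : Fin 3) (row : Fin L → Bool) (s : St (Lab L)) (hs : AllIdle s) :
    AllIdle (rowMap k row s) := by
  have hxy : (lx k : Lab L) ≠ ly k := by simp [lx, ly]
  have h1 : ∀ k', k' ≠ k → (sweep k row s).p (lx k') = ly k' ∧ (sweep k row s).g (lx k') = 0 := by
    intro k' hk'
    unfold sweep
    suffices h : ∀ (l : List (Fin L)) (s : St (Lab L)), s.p (lx k') = ly k' ∧ s.g (lx k') = 0 →
        (l.foldl (fun s i => crossing (row i) (Sum.inl i) (ly k) s) s).p (lx k') = ly k' ∧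
        (l.foldl (fun s i => crossing (row i) (Sum.inl i) (ly k) s) s).g (lx k') = 0 from
      h _ s (hs k')
    intro l
    induction l with
    | nil => intro s h; exact h
    | cons i l ih =>
      intro s h
      rw [List.foldl_cons]
      apply ih
      refine crossing_idle ?_ ?_ ?_ ?_ ?_ h.1 h.2
      · simp [ly]
      · simp [lx]
      · simp [ly]
      · simp [lx, ly]
      · simp only [ly, ne_eq, Sum.inr.injEq, Prod.mk.injEq, and_true]; exact fun h => hk' h.symm
  intro k'
  unfold rowMap closeLine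
  set s' := sweep k row s
  by_cases hk : k' = k
  · subst hk
    rw [join_p hxy, join_g hxy]; simp
  · obtain ⟨e1, e2⟩ := h1 k' hk
    have inv := s'.inv; have ne := s'.ne; have gs := s'.gs
    have m1 : (lx k' : Lab L) ≠ lx k := by
      simp only [lx, ne_eq, Sum.inr.injEq, Prod.mk.injEq, and_true]; exact hk
    have m2 : (lx k' : Lab L) ≠ ly k := by simp [lx, ly]
    have m3 : (ly k' : Lab L) ≠ ly k := by
      simp only [ly, ne_eq, Sum.inr.injEq, Prod.mk.injEq, and_true]; exact hk
    have m4 : (ly k' : Lab L) ≠ lx k := by simp [lx, ly]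
    have m5 : (lx k' : Lab L) ≠ s'.p (lx k) := by
      intro hh; apply m4; rw [← e1, hh, inv]
    have m6 : (lx k' : Lab L) ≠ s'.p (ly k) := by
      intro hh; apply m3; rw [← e1, hh, inv]
    simp only [join_p hxy, join_g hxy, twist_p, twist_g, m1, m2, m5, m6, if_false, or_self,
            e1, e2, and_self]

end Pool.Agent.H65.Perc
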