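import Mathlib
import Pool.Agent.H65.Perc.Closure
import Pool.Agent.H65.Perc.Perturb
import Pool.Agent.H65.Perc.FunEq
import Pool.Agent.H65.Perc.Reset

/-!
# The Markov chain of planar states and its stationary functional
-/

open Filter Topology

namespace Pool.Agent.H65.Perc

open St

section General

variable {L : ℕ} [NeZero L]

abbrev PX (L : ℕ) [NeZero L] := {s : St (Lab L) // Planar s}

noncomputable instance : Fintype (PX L) := @Fintype.ofFinite _ finite_planar

open Classical in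
/-- extension by zero -/
noncomputable def extX : (PX L → ℝ) →ₗ[ℝ] (St (Lab L) → ℝ) where
  toFun f s := if h : Planar s then f ⟨s, h⟩ else 0
  map_add' f g := by
    funext s
    by_cases h : Planar s <;> simp [h]
  map_smul' c f := by
    funext s
    by_cases h : Planar s <;> simp [h]

/-- restriction to planar states -/
def resX : (St (Lab L) → ℝ) →ₗ[ℝ] (PX L → ℝ) where
  toFun F x := F x.1
  map_add' _ _ := rfl
  map_smul' _ _ := rfl

theorem extX_apply {s : St (Lab L)} (h : Planar s) (f : PX L → ℝ) : extX f s = f ⟨s, h⟩ := by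
  simp [extX, h]

theorem extX_resX {s : St (Lab L)} (h : Planar s) (F : St (Lab L) → ℝ) :
    extX (resX F) s = F s := by
  rw [extX_apply h]; rfl

/-- the row operator on functions of planar states -/
noncomputable def TX (t a : ℝ) : (PX L → ℝ) →ₗ[ℝ] (PX L → ℝ) :=
  resX ∘ₗ (opT t a (strands L) (lx 0) (ly 0)) ∘ₗ extX

theorem TX_apply (t a : ℝ) (f : PX L → ℝ) (x : PX L) :
    TX t a f x = opT t a (strands L) (lx 0) (ly 0) (extX f) x.1 := rfl

theorem TX_resX (t a : ℝ) (F : St (Lab L) → ℝ) :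
    TX t a (resX F) = resX (opT t a (strands L) (lx 0) (ly 0) F) := by
  funext x
  rw [TX_apply]
  exact (maps_planar t a).congr (fun s hs => extX_resX hs F) x.2

theorem resX_extX (f : PX L → ℝ) : resX (extX f) = f := by
  funext x
  exact extX_apply x.2 f

noncomputable def SX (a : ℝ) : (PX L → ℝ) →ₗ[ℝ] (PX L → ℝ) := TX 1 a
noncomputable def NX (a : ℝ) : (PX L → ℝ) →ₗ[ℝ] (PX L → ℝ) := TX 2 a - TX 1 a

theorem TX_affine (t a : ℝ) : (TX t a : (PX L → ℝ) →ₗ[ℝ] (PX L → ℝ)) = SX a + (t - 1) • NX a := by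
  apply LinearMap.ext
  intro f
  funext x
  simp only [LinearMap.add_apply, LinearMap.smul_apply, Pi.add_apply, Pi.smul_apply,
    smul_eq_mul, SX, NX, LinearMap.sub_apply, Pi.sub_apply, TX_apply]
  exact opT_affine t a (extX f) x.2

theorem TX_comm (t : ℝ) {a a' : ℝ} (h1 : 1 - a' * (1 - a) ≠ 0) (h2 : 1 - a * (1 - a') ≠ 0) :
    (TX t a : (PX L → ℝ) →ₗ[ℝ] (PX L → ℝ)) ∘ₗ TX t a' = TX t a' ∘ₗ TX t a := by
  apply LinearMap.ext
  intro f
  rw [LinearMap.comp_apply, LinearMap.comp_apply]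
  conv_lhs => rw [← resX_extX f]
  conv_rhs => rw [← resX_extX f]
  rw [TX_resX, TX_resX, TX_resX, TX_resX]
  funext x
  exact opT_commute t h1 h2 (extX f) x.2.allIdle

theorem SN_comm {a a' : ℝ} (h1 : 1 - a' * (1 - a) ≠ 0) (h2 : 1 - a * (1 - a') ≠ 0) :
    (SX a : (PX L → ℝ) →ₗ[ℝ] (PX L → ℝ)) ∘ₗ SX a' = SX a' ∘ₗ SX a ∧
    (SX a : (PX L → ℝ) →ₗ[ℝ] (PX L → ℝ)) ∘ₗ NX a' + NX a ∘ₗ SX a'
      = SX a' ∘ₗ NX a + NX a' ∘ₗ SX a := by
  have h := fun t : ℝ => TX_comm (L := L) t h1 h2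
  simp only [TX_affine] at h
  have e0 := h 1
  have e1 := h 2
  have e2 := h 0
  constructor
  · simpa using e0
  · apply LinearMap.ext
    intro f
    funext x
    have f1 := congrFun (congrArg (fun Z : (PX L → ℝ) →ₗ[ℝ] (PX L → ℝ) => Z f) e1) x
    have f2 := congrFun (congrArg (fun Z : (PX L → ℝ) →ₗ[ℝ] (PX L → ℝ) => Z f) e2) x
    simp only [LinearMap.comp_apply, LinearMap.add_apply, LinearMap.smul_apply, Pi.add_apply,
      Pi.smul_apply, smul_eq_mul, map_add, map_smul] at f1 f2 ⊢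
    linarith

theorem TX_const (t a : ℝ) : (TX t a : (PX L → ℝ) →ₗ[ℝ] (PX L → ℝ)) (fun _ => 1)
    = fun x => 1 + (t - 1) * (a * (1 - a)) ^ numExp x.1 := by
  have : (fun _ : PX L => (1 : ℝ)) = resX (fun _ => 1) := rfl
  rw [this, TX_resX]
  funext x
  exact opT_const t a x.2

theorem SX_one (a : ℝ) : (SX a : (PX L → ℝ) →ₗ[ℝ] (PX L → ℝ)) (fun _ => 1) = fun _ => 1 := by
  unfold SX
  rw [TX_const]
  funext x
  ring

theorem NX_one (a : ℝ) : (NX a : (PX L → ℝ) →ₗ[ℝ] (PX L → ℝ)) (fun _ => 1)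
    = fun x => (a * (1 - a)) ^ numExp x.1 := by
  unfold NX
  rw [LinearMap.sub_apply, TX_const, TX_const]
  funext x
  simp only [Pi.sub_apply]
  ring

theorem star_X (t : ℝ) {a0 a1 a2 : ℝ} (h01 : (1 - a0) * a1 = 1) (h12 : (1 - a1) * a2 = 1)
    (h20 : (1 - a2) * a0 = 1) :
    (TX t a0 : (PX L → ℝ) →ₗ[ℝ] (PX L → ℝ)) (TX t a1 (TX t a2 (fun _ => 1)))
      = fun x => t ^ 3 - 3 * t + 3 + (t - 1) * ((a0 * (1 - a0)) ^ numExp x.1
        + (a1 * (1 - a1)) ^ numExp x.1 + (a2 * (1 - a2)) ^ numExp x.1) := by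
  have : (fun _ : PX L => (1 : ℝ)) = resX (fun _ => 1) := rfl
  rw [this, TX_resX, TX_resX, TX_resX]
  funext x
  exact star_planar t x.2 h01 h12 h20

theorem star_coeffs {a0 a1 a2 : ℝ} (h01 : (1 - a0) * a1 = 1) (h12 : (1 - a1) * a2 = 1)
    (h20 : (1 - a2) * a0 = 1) :
    ((SX a0 : (PX L → ℝ) →ₗ[ℝ] (PX L → ℝ)) (NX a1 (fun _ => 1))
        + SX a0 (SX a1 (NX a2 (fun _ => 1))) = NX a1 (fun _ => 1) + NX a2 (fun _ => 1)) ∧
    ((NX a0 : (PX L → ℝ) →ₗ[ℝ] (PX L → ℝ)) (NX a1 (fun _ => 1))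
        + NX a0 (SX a1 (NX a2 (fun _ => 1))) + SX a0 (NX a1 (NX a2 (fun _ => 1)))
        = fun _ => 3) := by
  have h := fun (t : ℝ) (x : PX L) => congrFun (star_X (L := L) t h01 h12 h20) x
  simp only [TX_affine] at h
  have n0 := fun x : PX L => congrFun (NX_one (L := L) a0) x
  have n1 := fun x : PX L => congrFun (NX_one (L := L) a1) x
  have n2 := fun x : PX L => congrFun (NX_one (L := L) a2) x
  simp only [LinearMap.add_apply, LinearMap.smul_apply, Pi.add_apply,
      Pi.smul_apply, smul_eq_mul, map_add, map_smul, SX_one] at h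
  constructor
  · funext x
    have e1 := h 2 x
    have e2 := h 0 x
    have e3 := h 3 x
    simp only [Pi.add_apply]
    rw [n1, n2]
    rw [← n0, ← n1, ← n2] at e1 e2 e3
    rw [← n1, ← n2]
    linarith
  · funext x
    have e1 := h 2 x
    have e2 := h 0 x
    simp only [Pi.add_apply]
    rw [← n0, ← n1, ← n2] at e1 e2
    linarith

end General

section Even

variable (n : ℕ) [NeZero n]

theorem planar_rowMap {L : ℕ} [NeZero L] {s : St (Lab L)} (hs : Planar s) (row : Fin L → Bool) :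
    Planar (rowMap 0 row s) := by
  classical
  by_contra hcon
  have h0 : opT 1 (1 / 2) (strands L) (lx 0) (ly 0)
      (fun s' => if Planar s' then (0 : ℝ) else 1) s = 0 :=
    maps_planar 1 (1 / 2) _ (fun s' hs' => by rw [if_pos hs']) s hs
  rw [opT_half s hs.allIdle] at h0
  have h1 : (0 : ℝ) < (1 / 2) ^ L := by positivity
  have h2 : ∑ row : Fin L → Bool, (if Planar (rowMap 0 row s) then (0 : ℝ) else 1) = 0 := by
    rcases mul_eq_zero.1 h0 with h | h
    · exact absurd h h1.ne'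
    · exact h
  rw [Finset.sum_eq_zero_iff_of_nonneg (fun i _ => by split_ifs <;> norm_num)] at h2
  have := h2 row (Finset.mem_univ _)
  rw [if_neg hcon] at this
  norm_num at this

theorem SX_half_apply {L : ℕ} [NeZero L] (f : PX L → ℝ) (x : PX L) :
    SX (1 / 2) f x = (1 / 2) ^ L * ∑ row : Fin L → Bool,
      f ⟨rowMap 0 row x.1, planar_rowMap x.2 row⟩ := by
  unfold SX
  rw [TX_apply, opT_half x.1 x.2.allIdle]
  congr 1
  refine Finset.sum_congr rfl (fun row _ => ?_)
  exact extX_apply _ f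

/-- the state `pi0` as an element of `PX` -/
noncomputable def xpi : PX (2 * n) := ⟨pi0 n, planar_pi0 n⟩

theorem doeblin_half : Doeblin (SX (L := 2 * n) (1 / 2)) (xpi n) ((1 / 2) ^ (2 * n)) where
  one := SX_one _
  pos f hf x := by
    rw [SX_half_apply]
    exact mul_nonneg (by positivity) (Finset.sum_nonneg fun row _ => hf _)
  cpos := by positivity
  minor f hf x := by
    rw [SX_half_apply]
    obtain ⟨row0, hrow⟩ := exists_reset n
    refine mul_le_mul_of_nonneg_left ?_ (by positivity)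
    have h1 : f (xpi n) = f ⟨rowMap 0 row0 x.1, planar_rowMap x.2 row0⟩ := by
      congr 1
      exact Subtype.ext (hrow x.1 x.2.allIdle).symm
    rw [h1]
    exact Finset.single_le_sum (f := fun row => f ⟨rowMap 0 row x.1, planar_rowMap x.2 row⟩)
      (fun row _ => hf _) (Finset.mem_univ row0)

end Even

end Pool.Agent.H65.Perc
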