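import Mathlib
import Pool.Agent.H65.Perc.Markov
import Pool.Agent.H65.Perc.Cyl

/-!
# The law of the number of winding boundary vertices
-/

open Filter Topology MeasureTheory

namespace Pool.Agent.H65.Perc

open St

theorem HH_eq_sum {n : ℕ} (P : ℕ → ℝ) (t : ℝ) :
    HH n P t = ∑ s ∈ Finset.range (n + 1), P s * t ^ s := rfl

section

variable (n : ℕ) [NeZero n]

/-- everything about the stationary functional -/
theorem exists_Psi : ∃ Ψ : (PX (2 * n) → ℝ) →ₗ[ℝ] ℝ,
    (∀ f : PX (2 * n) → ℝ, ∀ x, Tendsto (fun M : ℕ => (SX (1 / 2) ^ M) f x) atTop (𝓝 (Ψ f))) ∧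
    (∀ f : PX (2 * n) → ℝ, (∀ x, 0 ≤ f x) → 0 ≤ Ψ f) ∧ Ψ (fun _ => 1) = 1 ∧
    (∀ f : PX (2 * n) → ℝ, (∀ x, 0 ≤ f x) → (1 / 2) ^ (2 * n) * f (xpi n) ≤ Ψ f) ∧
    (∀ z : ℝ, 5 < z →
      Ψ (fun x => (tt0 z) ^ numExp x.1) * Ψ (fun x => (tt1 z) ^ numExp x.1)
      + Ψ (fun x => (tt1 z) ^ numExp x.1) * Ψ (fun x => (tt2 z) ^ numExp x.1)
      + Ψ (fun x => (tt0 z) ^ numExp x.1) * Ψ (fun x => (tt2 z) ^ numExp x.1) = 3) := by
  have hD := doeblin_half n
  obtain ⟨Ψ, hlim, hpos, hone, hinv, hmin⟩ := exists_stationary hD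
  refine ⟨Ψ, hlim, hpos, hone, hmin, ?_⟩
  intro z hz
  have hz0 : z ≠ 0 := by linarith
  set A : ℝ := (1 + 1 / z) / 2 with hA
  set B : ℝ := (1 - 1 / z) / 2 with hB
  have hiz : 1 / z < 1 / 5 := one_div_lt_one_div_of_lt (by norm_num) hz
  have hiz0 : 0 < 1 / z := by positivity
  have hAB : 1 - A = B := by rw [hA, hB]; ring
  have hA0 : 0 < A := by rw [hA]; linarith
  have hB0 : 0 < B := by rw [hB]; linarith
  have hBA : B < A := by rw [hA, hB]; linarith
  have hBhalf : B < 1 / 2 := by rw [hB]; linarith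
  have hA1 : A < 1 := by rw [hA]; linarith
  set a : Fin 3 → ℝ := ![A, 1 / B, -B / A] with ha
  have ha0 : a 0 = A := rfl
  have ha1 : a 1 = 1 / B := rfl
  have ha2 : a 2 = -B / A := rfl
  have h01 : (1 - a 0) * a 1 = 1 := by rw [ha0, ha1, hAB]; field_simp
  have h12 : (1 - a 1) * a 2 = 1 := by
    rw [ha1, ha2]
    have : A = 1 - B := by linarith
    rw [this]
    have h1 : (1 : ℝ) - B ≠ 0 := by rw [← this]; exact hA0.ne'
    field_simp
    ring
  have h20 : (1 - a 2) * a 0 = 1 := by
    rw [ha0, ha2]; field_simp; linarith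
  -- the conditions for commutation
  have hcond : ∀ i, a i ≠ 2 ∧ a i ≠ -1 := by
    intro i
    fin_cases i
    · change A ≠ 2 ∧ A ≠ -1
      constructor <;> intro h <;> linarith
    · change 1 / B ≠ 2 ∧ 1 / B ≠ -1
      have h1 : 1 / B > 2 := by
        rw [gt_iff_lt, lt_div_iff₀ hB0]; linarith
      constructor <;> intro h <;> linarith
    · change -B / A ≠ 2 ∧ -B / A ≠ -1
      have h1 : -B / A < 0 := div_neg_of_neg_of_pos (by linarith) hA0
      have h2 : -1 < -B / A := by
        rw [lt_div_iff₀ hA0]; linarith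
      constructor <;> intro h <;> linarith
  have hc : ∀ i, 1 - a i * (1 - 1 / 2) ≠ 0 ∧ 1 - 1 / 2 * (1 - a i) ≠ 0 := by
    intro i
    obtain ⟨h1, h2⟩ := hcond i
    constructor
    · intro h; apply h1; linarith
    · intro h; apply h2; linarith
  have hstar := star_coeffs (L := 2 * n) h01 h12 h20
  have key := perturb_e2 hD Ψ hlim (NX (1 / 2)) (fun i => SX (a i)) (fun i => NX (a i))
    (fun i => SX_one _) (fun i => (SN_comm (hc i).1 (hc i).2).1)
    (fun i => (SN_comm (hc i).1 (hc i).2).2) hstar.1 hstar.2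
  have key2 := key.2
  simp only [NX_one] at key2
  have t0 : a 0 * (1 - a 0) = tt0 z := by
    rw [ha0, hAB, hA, hB, tt0]; field_simp; ring
  have t1 : a 1 * (1 - a 1) = tt1 z := by
    have hz1 : (1 : ℝ) - z ≠ 0 := by intro h; linarith
    have hz1' : z - 1 ≠ 0 := by intro h; linarith
    have hBz : B = (z - 1) / (2 * z) := by rw [hB]; field_simp
    rw [ha1, hBz, tt1]
    field_simp
    ring
  have t2 : a 2 * (1 - a 2) = tt2 z := by
    have hz1' : z + 1 ≠ 0 := by intro h; linarith
    have hz1 : 1 + z ≠ 0 := by intro h; linarith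
    have hBz : B = (z - 1) / (2 * z) := by rw [hB]; field_simp
    have hAz : A = (z + 1) / (2 * z) := by rw [hA]; field_simp
    rw [ha2, hBz, hAz, tt2]
    field_simp
    ring
  rw [t0, t1, t2] at key2
  exact key2

/-! ### rows -/

theorem avg_rows {L : ℕ} [NeZero L] (F : St (Lab L) → ℝ) (M : ℕ) (x : PX L) :
    (SX (1 / 2) ^ M) (resX F) x
      = (1 / 2) ^ (L * M) * ∑ ω : Fin M → Fin L → Bool, F (runRows (extRows ω) M x.1) := by
  induction M generalizing x with
  | zero =>
    simp [runRows, resX]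
  | succ M ih =>
    rw [pow_succ', Module.End.mul_apply, SX_half_apply]
    simp only [ih]
    rw [← Finset.mul_sum, ← mul_assoc, ← pow_add]
    have e1 : L + L * M = L * (M + 1) := by ring
    rw [e1]
    congr 1
    rw [← Finset.sum_product']
    rw [Finset.univ_product_univ]
    refine Fintype.sum_equiv (Fin.snocEquiv (fun _ : Fin (M + 1) => Fin L → Bool)) _ _ ?_
    rintro ⟨row, ω⟩
    simp only [Fin.snocEquiv_apply]
    congr 1
    have h1 : extRows (Fin.snoc ω row : Fin (M + 1) → Fin L → Bool) M = row := by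
      funext i
      simp only [extRows, Nat.lt_succ_self, dif_pos]
      have : (⟨M, Nat.lt_succ_self M⟩ : Fin (M + 1)) = Fin.last M := rfl
      rw [this, Fin.snoc_last]
    change runRows (extRows ω) M (rowMap 0 row x.1)
      = runRows (extRows (Fin.snoc ω row : Fin (M + 1) → Fin L → Bool)) M
        (rowMap 0 (extRows (Fin.snoc ω row : Fin (M + 1) → Fin L → Bool) M) x.1)
    rw [h1]
    apply runRows_congr
    intro r hr
    funext i
    simp only [extRows, hr, Nat.lt_succ_of_lt hr, dif_pos]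
    have : (⟨r, Nat.lt_succ_of_lt hr⟩ : Fin (M + 1)) = Fin.castSucc ⟨r, hr⟩ := rfl
    rw [this, Fin.snoc_castSucc]

theorem planar_cap (M : ℕ) : Planar (cap n M) := by
  unfold cap
  split_ifs
  · exact planar_pi0 n
  · exact (planar_rot _ (planar_pi0 n).allIdle).2 (planar_pi0 n)

/-- limit along the caps -/
theorem tendsto_caps {Ψ : (PX (2 * n) → ℝ) →ₗ[ℝ] ℝ}
    (hlim : ∀ f : PX (2 * n) → ℝ, ∀ x, Tendsto (fun M : ℕ => (SX (1 / 2) ^ M) f x) atTop
      (𝓝 (Ψ f))) (f : PX (2 * n) → ℝ) :
    Tendsto (fun M : ℕ => (SX (1 / 2) ^ M) f ⟨cap n M, planar_cap n M⟩) atTop (𝓝 (Ψ f)) := by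
  rw [Metric.tendsto_atTop]
  intro ε hε
  have hx : ∀ x, ∃ N, ∀ M ≥ N, dist ((SX (1 / 2) ^ M) f x) (Ψ f) < ε :=
    fun x => Metric.tendsto_atTop.1 (hlim f x) ε hε
  choose N hN using hx
  refine ⟨∑ x, N x, fun M hM => ?_⟩
  refine hN _ M (le_trans ?_ hM)
  exact Finset.single_le_sum (f := N) (fun _ _ => Nat.zero_le _) (Finset.mem_univ _)

/-! ### exposed intervals, parity -/

open Classical in
theorem numEven_add {s : St (Lab (2 * n))} (hs : Planar s) (g : ℕ → ℝ) :
    g (numEven s) + g (numEven (rot s)) = g (numExp s) + g 0 := by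
  obtain ⟨c, hc, hflat⟩ := hs.exists_lt
  -- some interval is exposed
  have hexc : ∃ c : ℤ, Exposed s c := by
    have h1 := numExp_pos hs
    unfold numExp at h1
    obtain ⟨c, hc⟩ := Finset.card_pos.1 h1
    exact ⟨c, (Finset.mem_filter.1 hc).2⟩
  obtain ⟨c0, hc0⟩ := hexc
  have hpar : ∀ c : ℤ, Exposed s c → (Even c ↔ Even c0) := by
    intro c h
    have := exposed_parity n hs h hc0
    rw [Int.even_sub] at this
    exact this
  have hidle := hs.allIdle
  have hrot : ∀ c : ℤ, Exposed (rot s) c ↔ Exposed s (c + 1) := exposed_rot s hidle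
  have hnr := numExp_rot s hidle
  rcases Int.even_or_odd c0 with he | ho
  · have h1 : numEven s = numExp s := by
      unfold numEven numExp
      congr 1
      refine Finset.filter_congr (fun c _ => ?_)
      constructor
      · exact fun h => h.2
      · intro h
        exact ⟨by exact_mod_cast (hpar c h).2 he, h⟩
    have h2 : numEven (rot s) = 0 := by
      unfold numEven
      rw [Finset.card_eq_zero, Finset.filter_eq_empty_iff]
      rintro c - ⟨h3, h4⟩
      rw [hrot] at h4
      have h5 := (hpar _ h4).2 he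
      have h6 : Even (c : ℤ) := by exact_mod_cast h3
      rw [Int.even_add_one] at h5
      exact h5 h6
    rw [h1, h2]
  · have hne : ¬ Even c0 := by rwa [Int.not_even_iff_odd]
    have h1 : numEven s = 0 := by
      unfold numEven
      rw [Finset.card_eq_zero, Finset.filter_eq_empty_iff]
      rintro c - ⟨h3, h4⟩
      exact hne ((hpar _ h4).1 (by exact_mod_cast h3))
    have h2 : numEven (rot s) = numExp s := by
      rw [← hnr]
      unfold numEven numExp
      congr 1
      refine Finset.filter_congr (fun c _ => ?_)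
      constructor
      · exact fun h => h.2
      · intro h
        refine ⟨?_, h⟩
        have h4 := (hrot _).1 h
        have h5 := hpar _ h4
        have h6 : ¬ Even ((c : ℤ) + 1) := fun h => hne (h5.1 h)
        rw [Int.even_add_one, not_not] at h6
        exact_mod_cast h6
    rw [h1, h2]; ring

/-- rotation on functions of planar states -/
noncomputable def RX : (PX (2 * n) → ℝ) →ₗ[ℝ] (PX (2 * n) → ℝ) where
  toFun f x := f ⟨rot x.1, (planar_rot _ x.2.allIdle).2 x.2⟩
  map_add' _ _ := rfl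
  map_smul' _ _ := rfl

theorem RX_SX (a : ℝ) (f : PX (2 * n) → ℝ) : RX n (SX a f) = SX a (RX n f) := by
  have e1 : ∀ F : St (Lab (2 * n)) → ℝ, RX n (resX F) = resX (opRot F) := fun F => rfl
  conv_lhs => rw [← resX_extX f]
  conv_rhs => rw [← resX_extX f]
  unfold SX
  rw [TX_resX, e1, e1, TX_resX]
  have h := opT_rot (L := 2 * n) 1 a 0
  have h2 := congrArg (fun Z : Op (Lab (2 * n)) => Z (extX f)) h
  simp only [Module.End.mul_apply] at h2
  rw [h2]

theorem Psi_RX {Ψ : (PX (2 * n) → ℝ) →ₗ[ℝ] ℝ}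
    (hlim : ∀ f : PX (2 * n) → ℝ, ∀ x, Tendsto (fun M : ℕ => (SX (1 / 2) ^ M) f x) atTop
      (𝓝 (Ψ f))) (hone : Ψ (fun _ => 1) = 1) (f : PX (2 * n) → ℝ) : Ψ (RX n f) = Ψ f := by
  have hinv : ∀ f, Ψ (SX (1 / 2) f) = Ψ f := by
    intro f
    refine tendsto_nhds_unique (hlim (SX (1 / 2) f) (xpi n)) ?_
    have := (tendsto_add_atTop_iff_nat 1).2 (hlim f (xpi n))
    refine this.congr (fun M => ?_)
    rw [pow_succ, Module.End.mul_apply]
  have := invariant_eq Ψ hlim (Ψ ∘ₗ RX n) (fun f => by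
    rw [LinearMap.comp_apply, LinearMap.comp_apply, RX_SX, hinv]) f
  rw [LinearMap.comp_apply, LinearMap.comp_apply] at this
  have e : RX n (fun _ => (1 : ℝ)) = fun _ => 1 := rfl
  rw [this, e, hone, one_mul]

/-- **The law of the number of winding boundary vertices**, through its functional equation -/
theorem exists_law : ∃ P : ℕ → ℝ, P 0 = 0 ∧ (∀ k, 0 ≤ P k) ∧ 0 < P n ∧
    (∑ s ∈ Finset.range (n + 1), P s = 1) ∧
    (∀ z ∈ Set.Ioi (5 : ℝ), z ≠ 0 ∧ z ≠ 1 ∧ z ≠ -1) ∧
    (∀ z ∈ Set.Ioi (5 : ℝ), HH n P (tt0 z) * HH n P (tt1 z) + HH n P (tt1 z) * HH n P (tt2 z)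
      + HH n P (tt0 z) * HH n P (tt2 z) = 3) ∧
    (∀ g : ℕ → ℝ, ∫ ω, g (windCount n ω) ∂(cylMeasure n)
      = (g 0 + ∑ k ∈ Finset.range (n + 1), P k * g k) / 2) := by
  classical
  obtain ⟨Ψ, hlim, hpos, hone, hmin, hfe⟩ := exists_Psi n
  set P : ℕ → ℝ := fun k => Ψ (fun x => if numExp x.1 = k then 1 else 0) with hP
  have expand : ∀ g : ℕ → ℝ, Ψ (fun x => g (numExp x.1))
      = ∑ k ∈ Finset.range (n + 1), P k * g k := by
    intro g
    have h1 : (fun x : PX (2 * n) => g (numExp x.1))
        = ∑ k ∈ Finset.range (n + 1), g k • (fun x : PX (2 * n) =>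
          if numExp x.1 = k then (1 : ℝ) else 0) := by
      funext x
      rw [Finset.sum_apply]
      simp only [Pi.smul_apply, smul_eq_mul, mul_ite, mul_one, mul_zero]
      rw [Finset.sum_ite_eq, if_pos]
      rw [Finset.mem_range]
      have := numExp_le n x.2
      omega
    rw [h1, map_sum]
    refine Finset.sum_congr rfl (fun k _ => ?_)
    rw [map_smul, smul_eq_mul, mul_comm]
  have hHH : ∀ t, Ψ (fun x => t ^ numExp x.1) = HH n P t := fun t => expand (fun k => t ^ k)
  refine ⟨P, ?_, ?_, ?_, ?_, ?_, ?_, ?_⟩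
  · have : (fun x : PX (2 * n) => if numExp x.1 = 0 then (1 : ℝ) else 0) = 0 := by
      funext x
      have := numExp_pos x.2
      rw [if_neg (by omega)]; rfl
    rw [hP]
    simp only
    rw [this, map_zero]
  · intro k
    exact hpos _ (fun x => by split_ifs <;> norm_num)
  · refine lt_of_lt_of_le ?_ (hmin _ (fun x => by split_ifs <;> norm_num))
    have : numExp (xpi n).1 = n := numExp_pi0 n
    rw [if_pos this]
    positivity
  · have := expand (fun _ => 1)
    simp only [mul_one] at this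
    rw [← this, hone]
  · intro z hz
    have : (5 : ℝ) < z := hz
    exact ⟨by intro h; linarith, by intro h; linarith, by intro h; linarith⟩
  · intro z hz
    have := hfe z hz
    simp only [hHH] at this
    exact this
  · intro g
    -- the stationary functional computes the integral
    have h1 := tendsto_cyl n g
    have h2 := tendsto_caps n hlim (resX (fun s => g (numEven s)))
    have h3 : (fun M : ℕ => (1 / 2 : ℝ) ^ (2 * n * M) *
        ∑ ω : Fin M → Fin (2 * n) → Bool, g (numEven (runRows (extRows ω) M (cap n M))))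
        = fun M : ℕ => (SX (1 / 2) ^ M) (resX (fun s => g (numEven s)))
          ⟨cap n M, planar_cap n M⟩ := by
      funext M
      rw [avg_rows]
    rw [h3] at h1
    have h4 := tendsto_nhds_unique h1 h2
    rw [h4]
    have h5 : Ψ (resX (fun s => g (numEven s))) + Ψ (RX n (resX (fun s => g (numEven s))))
        = Ψ (fun x => g (numExp x.1)) + g 0 := by
      rw [← map_add]
      have : resX (fun s => g (numEven s)) + RX n (resX (fun s => g (numEven s)))
          = (fun x : PX (2 * n) => g (numExp x.1)) + g 0 • (fun _ => (1 : ℝ)) := by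
        funext x
        have := numEven_add n x.2 g
        simp only [Pi.add_apply, Pi.smul_apply, smul_eq_mul, mul_one]
        exact this
      rw [this, map_add, map_smul, hone, smul_eq_mul, mul_one]
    rw [Psi_RX n hlim hone, expand] at h5
    linarith

end

end Pool.Agent.H65.Perc
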