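import Mathlib

/-! JOB J10 (MP_fe58d8_pr): from the two moment identities to explicit bounds. -/

namespace Pool.Agent.H65.Perc

/-- `m1, m2, m3` are the first three moments of a nonnegative random variable; the probability is
`p = m1 / (2 n)`. Numerically `0.4207… ≤ p n^{1/3} ≤ 0.5503…`. -/
theorem bounds_of_moments (n : ℕ) (hn : 1 ≤ n) (m1 m2 m3 : ℝ) (h0 : 0 ≤ m1) (h3 : 0 ≤ m3)
    (h12 : m1 ^ 2 ≤ m2) (h23 : m2 ^ 2 ≤ m1 * m3)
    (hI : m3 + m2 = 2 * (n : ℝ) ^ 2) (hII : m1 * (3 * m2 + m1) = 4 * (n : ℝ) ^ 2) :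
    0.42 * (n : ℝ) ^ (-(1 / 3) : ℝ) ≤ m1 / (2 * n) ∧
      m1 / (2 * n) ≤ 0.551 * (n : ℝ) ^ (-(1 / 3) : ℝ) := by
  have hn1 : (1 : ℝ) ≤ n := by exact_mod_cast hn
  have hn0 : (0 : ℝ) ≤ n := by linarith
  obtain ⟨B, hB1, hBn, hBi⟩ : ∃ B : ℝ, 1 ≤ B ∧ (n : ℝ) = B ^ 3 ∧
      (n : ℝ) ^ (-(1 / 3) : ℝ) = 1 / B := by
    refine ⟨(n : ℝ) ^ (1 / 3 : ℝ), Real.one_le_rpow hn1 (by norm_num), ?_, ?_⟩
    · rw [← Real.rpow_natCast, ← Real.rpow_mul hn0]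
      norm_num
    · rw [Real.rpow_neg hn0, one_div ((n : ℝ) ^ (1 / 3 : ℝ))]
  have hB0 : 0 < B := by linarith
  rw [hBi, hBn]
  rw [hBn] at hI hII
  have hm2 : 0 ≤ m2 := le_trans (sq_nonneg _) h12
  have up : m1 ≤ 1.102 * B ^ 2 := by
    by_contra hcon
    push Not at hcon
    have h1 : (1.102 * B ^ 2) ^ 3 < m1 ^ 3 := by
      apply pow_lt_pow_left₀ hcon (by positivity) (by norm_num)
    have h2 : m1 ^ 3 ≤ m1 * m2 := by nlinarith
    have h4 : 3 * (m1 * m2) ≤ 4 * (B ^ 3) ^ 2 := by nlinarith [sq_nonneg m1]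
    have h5 : (0 : ℝ) < B ^ 6 := by positivity
    nlinarith
  have low : 0.84 * B ^ 2 ≤ m1 := by
    by_contra hcon
    push Not at hcon
    have hm3 : m3 ≤ 2 * B ^ 6 := by nlinarith
    have h1 : m2 ^ 2 ≤ (0.84 * B ^ 2) * (2 * B ^ 6) := by
      refine le_trans h23 ?_
      exact mul_le_mul hcon.le hm3 h3 (by positivity)
    have h2 : m2 ≤ 1.2962 * B ^ 4 := by
      apply le_of_sq_le_sq _ (by positivity)
      refine le_trans h1 ?_
      have : (0 : ℝ) < B ^ 8 := by positivity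
      nlinarith
    have h4 : m1 * m2 ≤ (0.84 * B ^ 2) * (1.2962 * B ^ 4) :=
      mul_le_mul hcon.le h2 hm2 (by positivity)
    have h5 : m1 ^ 2 ≤ (0.84 * B ^ 2) ^ 2 := pow_le_pow_left₀ h0 hcon.le 2
    have h6 : B ^ 4 ≤ B ^ 6 := pow_le_pow_right₀ hB1 (by norm_num)
    have h7 : (1 : ℝ) ≤ B ^ 6 := one_le_pow₀ hB1
    nlinarith
  have e1 : m1 / (2 * B ^ 3) = (m1 / B ^ 2) / 2 * (1 / B) := by
    field_simp
  rw [e1]
  have hi : 0 < 1 / B := by positivity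
  have l1 : 0.84 ≤ m1 / B ^ 2 := by rw [le_div_iff₀ (by positivity)]; exact low
  have u1 : m1 / B ^ 2 ≤ 1.102 := by rw [div_le_iff₀ (by positivity)]; exact up
  constructor
  · apply mul_le_mul_of_nonneg_right _ hi.le
    linarith
  · apply mul_le_mul_of_nonneg_right _ hi.le
    linarith

end Pool.Agent.H65.Perc
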