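import Mathlib
import Pool.Agent.H65.Perc.Cyl

/-! Definitions for the half-plane one-arm event (MP_fe58d8_pr). -/

open MeasureTheory Filter Topology

namespace Pool.Agent.H65.Perc

/-- Percolation configurations on `ℤ²`: `ω (v, d)` is the state (`true` = open) of the edge from `v`
to `v + (1,0)` (`d = true`) or to `v + (0,1)` (`d = false`). -/
abbrev PConf := (ℤ × ℤ) × Bool → Bool

/-- the graph of open edges of the half-plane `{x + y ≥ 0}` -/
def halfGraph (ω : PConf) : SimpleGraph (ℤ × ℤ) :=
  SimpleGraph.fromRel (fun u v => 0 ≤ u.1 + u.2 ∧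
    ((v = (u.1 + 1, u.2) ∧ ω (u, true) = true) ∨ (v = (u.1, u.2 + 1) ∧ ω (u, false) = true)))

/-- the origin is connected inside the half-plane `{x + y ≥ 0}` to sup-norm distance `r` -/
def HalfArm (r : ℕ) (ω : PConf) : Prop :=
  ∃ v : ℤ × ℤ, ((r : ℤ) ≤ |v.1| ∨ (r : ℤ) ≤ |v.2|) ∧ (halfGraph ω).Reachable (0, 0) v

/-- all the edges of `ℤ²` are open independently with probability 1/2 -/
noncomputable def planeMeasure : Measure PConf :=
  Measure.infinitePi (fun _ => (PMF.uniformOfFintype Bool).toMeasure)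

end Pool.Agent.H65.Perc
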