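import Mathlib
import Pool.Agent.H65.Perc.HalfDefs
import Pool.Agent.H63.Perc.Windy

/-! JOB J12 (MP_fe58d8_pr): half-plane one-arm event versus winding on the cylinder.
(J11 is in `HalfEmbed.lean`, the definitions are in `HalfDefs.lean`, the proof is in
`Pool/Agent/H63/Perc/`: `Bridge.lean`, `Geo.lean`, `Windy.lean`; the constant is `2 ^ 318`.) -/

open MeasureTheory Filter Topology

namespace Pool.Agent.H65.Perc

/-- J12 (RSW + FKG) -/
theorem exists_halfArm_le_winds : ∃ C : ℝ, 0 < C ∧ ∀ n : ℕ, 1 ≤ n →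
    (planeMeasure {ω | HalfArm n ω}).toReal ≤ C * ((cylMeasure n) {ω | Winds n ω 0}).toReal :=
  Pool.Agent.H63.Perc.halfArm_le_winds

end Pool.Agent.H65.Perc
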