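import Mathlib
import Pool.Agent.H65.Perc.HalfDefs

/-! JOB J11 (MP_fe58d8_pr): the winding probability on the cylinder is at most the half-plane one-arm
probability. -/

open MeasureTheory Filter Topology

namespace Pool.Agent.H65.Perc

section Generic

/-- relabelling the coordinates of an infinite product by an injection -/
theorem infinitePi_map_comp_injective {ι κ X : Type*} [MeasurableSpace X] (μ : Measure X)
    [IsProbabilityMeasure μ] (g : κ → ι) (hg : Function.Injective g) :
    (Measure.infinitePi (fun _ : ι => μ)).map (fun ω k => ω (g k)) =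
      Measure.infinitePi (fun _ : κ => μ) := by
  classical
  apply Measure.eq_infinitePi
  intro s t ht
  have hmeas : Measurable (fun (ω : ι → X) (k : κ) => ω (g k)) := by fun_prop
  rw [Measure.map_apply hmeas (MeasurableSet.pi s.countable_toSet (fun i _ => ht i))]
  set t' : ι → Set X := fun i => if h : ∃ k ∈ s, g k = i then t h.choose else Set.univ with ht'
  have hpre : (fun (ω : ι → X) (k : κ) => ω (g k)) ⁻¹' (Set.pi (s : Set κ) t) =
      Set.pi ((s.map ⟨g, hg⟩ : Finset ι) : Set ι) t' := by
    ext ω
    simp only [Set.mem_preimage, Set.mem_pi, Finset.mem_coe, Finset.coe_map,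
      Function.Embedding.coeFn_mk, Set.mem_image]
    constructor
    · rintro h _ ⟨k, hk, rfl⟩
      have hex : ∃ k' ∈ s, g k' = g k := ⟨k, hk, rfl⟩
      have e : hex.choose = k := hg hex.choose_spec.2
      rw [ht']
      simp only [dif_pos hex]
      rw [e]
      exact h k hk
    · intro h k hk
      have := h (g k) ⟨k, hk, rfl⟩
      have hex : ∃ k' ∈ s, g k' = g k := ⟨k, hk, rfl⟩
      have e : hex.choose = k := hg hex.choose_spec.2
      rw [ht'] at this
      simp only [dif_pos hex] at this
      rw [e] at this
      exact this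
  rw [hpre, Measure.infinitePi_pi, Finset.prod_map]
  · apply Finset.prod_congr rfl
    intro k hk
    have hex : ∃ k' ∈ s, g k' = g k := ⟨k, hk, rfl⟩
    have e : hex.choose = k := hg hex.choose_spec.2
    simp only [Function.Embedding.coeFn_mk, ht', dif_pos hex]
    rw [e]
  · intro i _
    simp only [ht']
    split_ifs with h
    · exact ht _
    · exact MeasurableSet.univ

/-- reachability in a random graph on a countable vertex set is measurable -/
theorem measurableSet_reachable {Ω V : Type*} [MeasurableSpace Ω] [Countable V]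
    (G : Ω → SimpleGraph V) (hG : ∀ u v, MeasurableSet {ω | (G ω).Adj u v}) (u v : V) :
    MeasurableSet {ω | (G ω).Reachable u v} := by
  classical
  let R : ℕ → V → Set Ω := fun k => Nat.rec (fun w => {_ω | w = u})
    (fun _ S w => ⋃ z, S z ∩ {ω | (G ω).Adj z w}) k
  have hR : ∀ k w, MeasurableSet (R k w) := by
    intro k
    induction k with
    | zero => intro w; exact MeasurableSet.const _
    | succ k ih =>
      intro w
      exact MeasurableSet.iUnion (fun z => (ih z).inter (hG z w))
  have : {ω | (G ω).Reachable u v} = ⋃ k, R k v := by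
    ext ω
    simp only [Set.mem_ofPred_eq, Set.mem_iUnion]
    constructor
    · intro h
      rw [SimpleGraph.reachable_iff_reflTransGen] at h
      induction h with
      | refl => exact ⟨0, rfl⟩
      | tail _ hbc ih =>
        obtain ⟨k, hk⟩ := ih
        exact ⟨k + 1, Set.mem_iUnion.2 ⟨_, hk, hbc⟩⟩
    · rintro ⟨k, hk⟩
      have : ∀ k w, ω ∈ R k w → (G ω).Reachable u w := by
        intro k
        induction k with
        | zero => intro w hw; have : w = u := hw; subst this; exact SimpleGraph.Reachable.refl _
        | succ k ih =>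
          intro w hw
          obtain ⟨z, hz, hzw⟩ := Set.mem_iUnion.1 hw
          exact (ih z hz).trans (SimpleGraph.Adj.reachable hzw)
      exact this k v hk
  rw [this]
  exact MeasurableSet.iUnion (fun k => hR k v)

end Generic

theorem measurableSet_cylGraph_adj (n : ℕ) (u v : ℤ × ℤ) :
    MeasurableSet {ω : CConf n | (cylGraph n ω).Adj u v} := by
  have key : ∀ (c : Prop) (e : ℕ × ZMod n × Bool), MeasurableSet {ω : CConf n | c ∧ ω e = true} := by
    intro c e
    apply MeasurableSet.inter (MeasurableSet.const c)
    exact measurableSet_eq_fun (measurable_pi_apply e) measurable_const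
  simp only [cylGraph, SimpleGraph.fromRel_adj]
  apply MeasurableSet.inter (MeasurableSet.const _)
  apply MeasurableSet.union
  · apply MeasurableSet.inter (MeasurableSet.const _)
    exact MeasurableSet.union (key _ _) (key _ _)
  · apply MeasurableSet.inter (MeasurableSet.const _)
    exact MeasurableSet.union (key _ _) (key _ _)

theorem measurableSet_windsE (n : ℕ) (x : ℤ) : MeasurableSet {ω : CConf n | Winds n ω x} := by
  have : {ω : CConf n | Winds n ω x} = ⋃ m : ℤ, ({_ω | m ≠ 0} ∩
      {ω | (cylGraph n ω).Reachable (x, -x) (x + m * n, -(x + m * n))}) := by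
    ext ω
    simp [Winds]
  rw [this]
  exact MeasurableSet.iUnion (fun m => (MeasurableSet.const _).inter
    (measurableSet_reachable _ (fun u v => measurableSet_cylGraph_adj n u v) _ _))

/-- the representative of a class of edges whose first coordinate lies in `[-r, n - r)` -/
def liftEdge (n : ℕ) (r : ℕ) (e : ℕ × ZMod n × Bool) : (ℤ × ℤ) × Bool :=
  let x : ℤ := (((e.2.1 + (r : ZMod n)).val : ℕ) : ℤ) - r
  ((x, (e.1 : ℤ) - x), e.2.2)

theorem liftEdge_injective (n : ℕ) [NeZero n] (r : ℕ) : Function.Injective (liftEdge n r) := by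
  rintro ⟨k, a, d⟩ ⟨k', a', d'⟩ h
  simp only [liftEdge, Prod.mk.injEq] at h
  obtain ⟨⟨h1, h2⟩, h3⟩ := h
  have e1 : (a + (r : ZMod n)).val = (a' + (r : ZMod n)).val := by omega
  have e2 : a + (r : ZMod n) = a' + (r : ZMod n) := ZMod.val_injective n e1
  have e3 : a = a' := add_right_cancel e2
  have e4 : k = k' := by omega
  rw [e3, e4, h3]

theorem liftEdge_class (n : ℕ) [NeZero n] (r : ℕ) (u : ℤ × ℤ) (d : Bool) (h0 : 0 ≤ u.1 + u.2)
    (h1 : -(r : ℤ) ≤ u.1) (h2 : u.1 < n - r) :
    liftEdge n r ((u.1 + u.2).toNat, (u.1 : ZMod n), d) = (u, d) := by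
  have e1 : ((u.1 : ZMod n) + (r : ZMod n)) = ((u.1 + r : ℤ) : ZMod n) := by push_cast; rfl
  have e2 : ((((u.1 : ZMod n) + (r : ZMod n)).val : ℕ) : ℤ) = u.1 + r := by
    rw [e1, ZMod.val_intCast]
    exact Int.emod_eq_of_lt (by omega) (by omega)
  simp only [liftEdge, e2]
  rw [Int.toNat_of_nonneg h0]
  ext <;> simp

/-- deterministic part -/
theorem halfArm_of_winds (n r : ℕ) (hr : 2 * r < n) (ω : PConf)
    (h : Winds n (fun e => ω (liftEdge n r e)) 0) : HalfArm r ω := by
  have : NeZero n := ⟨by omega⟩
  obtain ⟨m, hm, hreach⟩ := h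
  have adj : ∀ v w : ℤ × ℤ, |v.1| < r → |v.2| < r →
      (cylGraph n (fun e => ω (liftEdge n r e))).Adj v w → (halfGraph ω).Adj v w := by
    intro v w hv1 hv2 hvw
    rw [abs_lt] at hv1 hv2
    simp only [cylGraph, halfGraph, SimpleGraph.fromRel_adj] at hvw ⊢
    refine ⟨hvw.1, ?_⟩
    rcases hvw.2 with ⟨h0, h⟩ | ⟨h0, h⟩
    · left
      refine ⟨h0, ?_⟩
      rw [liftEdge_class n r v true h0 (by omega) (by omega),
        liftEdge_class n r v false h0 (by omega) (by omega)] at h
      exact h
    · right
      refine ⟨h0, ?_⟩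
      have hw : -(r : ℤ) ≤ w.1 ∧ w.1 < n - r := by
        rcases h with ⟨h, _⟩ | ⟨h, _⟩
        · have := congrArg Prod.fst h
          simp only at this
          constructor <;> omega
        · have := congrArg Prod.fst h
          simp only at this
          constructor <;> omega
      rw [liftEdge_class n r w true h0 hw.1 hw.2, liftEdge_class n r w false h0 hw.1 hw.2] at h
      exact h
  have key : ∀ w : ℤ × ℤ, (cylGraph n (fun e => ω (liftEdge n r e))).Reachable (0, 0) w →
      (halfGraph ω).Reachable (0, 0) w ∨ HalfArm r ω := by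
    intro w hw
    rw [SimpleGraph.reachable_iff_reflTransGen] at hw
    induction hw with
    | refl => left; exact SimpleGraph.Reachable.refl _
    | @tail v w _ hvw ih =>
      rcases ih with ih | ih
      · by_cases hv : (r : ℤ) ≤ |v.1| ∨ (r : ℤ) ≤ |v.2|
        · right
          exact ⟨v, hv, ih⟩
        · push Not at hv
          left
          exact ih.trans (SimpleGraph.Adj.reachable (adj v w hv.1 hv.2 hvw))
      · right; exact ih
  have e0 : ((0 : ℤ), -(0 : ℤ)) = (0, 0) := by simp
  rw [e0] at hreach
  rcases key _ hreach with h | h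
  · refine ⟨_, Or.inl ?_, h⟩
    simp only [zero_add]
    rw [abs_mul]
    have h1 : (1 : ℤ) ≤ |m| := Int.one_le_abs hm
    have h2 : |(n : ℤ)| = n := abs_of_nonneg (by positivity)
    rw [h2]
    nlinarith
  · exact h

/-- J11 -/
theorem winds_le_halfArm (n r : ℕ) (hr : 2 * r < n) :
    ((cylMeasure n) {ω | Winds n ω 0}).toReal ≤ (planeMeasure {ω | HalfArm r ω}).toReal := by
  have : NeZero n := ⟨by omega⟩
  have hmeas : Measurable (fun (ω : PConf) (e : ℕ × ZMod n × Bool) => ω (liftEdge n r e)) := by fun_prop
  have e : cylMeasure n = planeMeasure.map (fun (ω : PConf) (e : ℕ × ZMod n × Bool) =>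
      ω (liftEdge n r e)) :=
    (infinitePi_map_comp_injective (PMF.uniformOfFintype Bool).toMeasure (liftEdge n r)
      (liftEdge_injective n r)).symm
  have : IsProbabilityMeasure planeMeasure := by unfold planeMeasure; infer_instance
  apply ENNReal.toReal_mono (measure_ne_top _ _)
  rw [e, Measure.map_apply hmeas (measurableSet_windsE n 0)]
  apply measure_mono
  intro ω hω
  exact halfArm_of_winds n r hr ω hω

end Pool.Agent.H65.Perc
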