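import Mathlib
import Pool.Agent.H65.Perc.Assembly
import Pool.Agent.H65.Perc.Bounds
import Pool.Agent.H65.Perc.HalfEmbed
import Pool.Agent.H65.Perc.Half

/-!
# Moments, bounds for the winding probability, the half-plane one-arm exponent
-/

open Filter Topology MeasureTheory

namespace Pool.Agent.H65.Perc

/-- the moment identities -/
theorem moments (n : ℕ) (hn : 1 ≤ n) :
    ∃ m1 m2 m3 : ℝ, 0 ≤ m1 ∧ 0 ≤ m3 ∧ m1 ^ 2 ≤ m2 ∧ m2 ^ 2 ≤ m1 * m3 ∧
      m3 + m2 = 2 * (n : ℝ) ^ 2 ∧ m1 * (3 * m2 + m1) = 4 * (n : ℝ) ^ 2 ∧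
      (∫ ω, (windCount n ω : ℝ) ∂(cylMeasure n)) = m1 / 2 ∧
      (∫ ω, (windCount n ω : ℝ) ^ 2 ∂(cylMeasure n)) = m2 / 2 ∧
      (∫ ω, (windCount n ω : ℝ) ^ 3 ∂(cylMeasure n)) = m3 / 2 := by
  haveI : NeZero n := ⟨by omega⟩
  obtain ⟨P, hP0, hpos, hPn, hsum, hz, hfe, hint⟩ := exists_law n
  have hm := funeq_moments n hn P hP0 hPn.ne' hsum (Set.Ioi 5) (Set.Ioi_infinite 5) hz hfe
  refine ⟨∑ s ∈ Finset.range (n + 1), P s * (s : ℝ), ∑ s ∈ Finset.range (n + 1), P s * (s : ℝ) ^ 2,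
    ∑ s ∈ Finset.range (n + 1), P s * (s : ℝ) ^ 3, ?_, ?_, ?_, ?_, hm.1, hm.2, ?_, ?_, ?_⟩
  · exact Finset.sum_nonneg fun s _ => mul_nonneg (hpos s) (by positivity)
  · exact Finset.sum_nonneg fun s _ => mul_nonneg (hpos s) (by positivity)
  · have h := Finset.sum_mul_sq_le_sq_mul_sq (Finset.range (n + 1))
      (fun s => Real.sqrt (P s)) (fun s => Real.sqrt (P s) * (s : ℝ))
    have e1 : ∀ s : ℕ, Real.sqrt (P s) * (Real.sqrt (P s) * (s : ℝ)) = P s * (s : ℝ) := fun s => by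
      rw [← mul_assoc, Real.mul_self_sqrt (hpos s)]
    have e2 : ∀ s : ℕ, (Real.sqrt (P s) * (s : ℝ)) ^ 2 = P s * (s : ℝ) ^ 2 := fun s => by
      rw [mul_pow, Real.sq_sqrt (hpos s)]
    have e3 : ∀ s : ℕ, (Real.sqrt (P s)) ^ 2 = P s := fun s => Real.sq_sqrt (hpos s)
    simp only [e1, e2, e3] at h
    rwa [hsum, one_mul] at h
  · have h := Finset.sum_mul_sq_le_sq_mul_sq (Finset.range (n + 1))
      (fun s => Real.sqrt (P s * (s : ℝ))) (fun s => Real.sqrt (P s * (s : ℝ)) * (s : ℝ))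
    have hps : ∀ s : ℕ, 0 ≤ P s * (s : ℝ) := fun s => mul_nonneg (hpos s) (by positivity)
    have e1 : ∀ s : ℕ, Real.sqrt (P s * (s : ℝ)) * (Real.sqrt (P s * (s : ℝ)) * (s : ℝ))
        = P s * (s : ℝ) ^ 2 := fun s => by
      rw [← mul_assoc, Real.mul_self_sqrt (hps s)]; ring
    have e2 : ∀ s : ℕ, (Real.sqrt (P s * (s : ℝ)) * (s : ℝ)) ^ 2 = P s * (s : ℝ) ^ 3 := fun s => by
      rw [mul_pow, Real.sq_sqrt (hps s)]; ring
    have e3 : ∀ s : ℕ, (Real.sqrt (P s * (s : ℝ))) ^ 2 = P s * (s : ℝ) := fun s =>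
      Real.sq_sqrt (hps s)
    simp only [e1, e2, e3] at h
    exact h
  · have := hint (fun k => (k : ℝ))
    simpa using this
  · have := hint (fun k => (k : ℝ) ^ 2)
    simpa using this
  · have := hint (fun k => (k : ℝ) ^ 3)
    simpa using this

/-- explicit bounds for the probability that the cluster of the origin winds around the cylinder -/
theorem winds_bounds (n : ℕ) (hn : 1 ≤ n) :
    0.42 * (n : ℝ) ^ (-(1 / 3) : ℝ) ≤ ((cylMeasure n) {ω | Winds n ω 0}).toReal ∧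
      ((cylMeasure n) {ω | Winds n ω 0}).toReal ≤ 0.551 * (n : ℝ) ^ (-(1 / 3) : ℝ) := by
  haveI : NeZero n := ⟨by omega⟩
  obtain ⟨m1, m2, m3, h1, h3, h12, h23, hI, hII, hint, -, -⟩ := moments n hn
  have hb := bounds_of_moments n hn m1 m2 m3 h1 h3 h12 h23 hI hII
  have hw := integral_windCount n
  have hn0 : (n : ℝ) ≠ 0 := by positivity
  have : ((cylMeasure n) {ω | Winds n ω 0}).toReal = m1 / (2 * n) := by
    rw [hint] at hw
    field_simp
    linarith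
  rw [this]
  exact hb

/-- **The half-plane one-arm exponent of bond percolation on `ℤ²` is `1/3`** -/
theorem halfPlane_oneArm : ∃ c C : ℝ, 0 < c ∧ 0 < C ∧ ∀ n : ℕ, 1 ≤ n →
    c * (n : ℝ) ^ (-(1 / 3) : ℝ) ≤ (planeMeasure {ω | HalfArm n ω}).toReal ∧
    (planeMeasure {ω | HalfArm n ω}).toReal ≤ C * (n : ℝ) ^ (-(1 / 3) : ℝ) := by
  obtain ⟨C, hC, hle⟩ := exists_halfArm_le_winds
  refine ⟨0.42 * 3 ^ (-(1 / 3) : ℝ), C * 0.551, by positivity, by positivity, fun n hn => ?_⟩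
  constructor
  · have h1 := (winds_bounds (2 * n + 1) (by omega)).1
    have h2 := winds_le_halfArm (2 * n + 1) n (by omega)
    refine le_trans ?_ (le_trans h1 h2)
    have hn' : (1 : ℝ) ≤ n := by exact_mod_cast hn
    have h3 : (3 * (n : ℝ)) ^ (-(1 / 3) : ℝ) ≤ ((2 * n + 1 : ℕ) : ℝ) ^ (-(1 / 3) : ℝ) := by
      apply Real.rpow_le_rpow_of_nonpos
      · positivity
      · push_cast; linarith
      · norm_num
    rw [Real.mul_rpow (by norm_num) (by positivity)] at h3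
    rw [mul_assoc]
    exact mul_le_mul_of_nonneg_left h3 (by norm_num)
  · have h1 := hle n hn
    have h2 := (winds_bounds n hn).2
    calc (planeMeasure {ω | HalfArm n ω}).toReal
        ≤ C * ((cylMeasure n) {ω | Winds n ω 0}).toReal := h1
      _ ≤ C * (0.551 * (n : ℝ) ^ (-(1 / 3) : ℝ)) := mul_le_mul_of_nonneg_left h2 hC.le
      _ = C * 0.551 * (n : ℝ) ^ (-(1 / 3) : ℝ) := by ring

end Pool.Agent.H65.Perc
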